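import Mathlib

/-!
# Module F1: the group `SL(2,R)`, the coordinates `(u,a,b)`, the Haar measure `muG`
-/

namespace H37abf

open MeasureTheory Matrix Filter Topology
open scoped ENNReal

/-- the group -/
abbrev SL2 := Matrix.SpecialLinearGroup (Fin 2) ℝ

noncomputable instance instMeasurableSpaceSL2 : MeasurableSpace SL2 := borel SL2

instance instBorelSpaceSL2 : BorelSpace SL2 := ⟨rfl⟩

/-- `[[1,0],[s,1]]` -/
def hh (s : ℝ) : SL2 := ⟨!![1, 0; s, 1], by simp [Matrix.det_fin_two]⟩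

/-- `[[1,t],[0,1]]` -/
def nn (t : ℝ) : SL2 := ⟨!![1, t; 0, 1], by simp [Matrix.det_fin_two]⟩

/-- `[[a,b],[0,1/a]]` for `a ≠ 0`, the identity for `a = 0` -/
noncomputable def pp (a b : ℝ) : SL2 :=
  if h : a ≠ 0 then ⟨!![a, b; 0, a⁻¹], by simp [Matrix.det_fin_two, h]⟩ else 1

/-- `diag(r, 1/r)` -/
noncomputable def dd (r : ℝ) : SL2 := pp r 0

/-- coordinates: `(u,a,b) ↦ hh u * pp a b = [[a,b],[ua, ub+1/a]]` -/
noncomputable def Phi (q : ℝ × ℝ × ℝ) : SL2 := hh q.1 * pp q.2.1 q.2.2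

/-- The Haar measure of `SL(2,R)`: the image of Lebesgue measure under `Phi` (`a = 0` is a null set). -/
noncomputable def muG : Measure SL2 := Measure.map Phi volume

lemma coe_hh (s : ℝ) : (hh s : Matrix (Fin 2) (Fin 2) ℝ) = !![1, 0; s, 1] := rfl

lemma coe_nn (t : ℝ) : (nn t : Matrix (Fin 2) (Fin 2) ℝ) = !![1, t; 0, 1] := rfl

lemma coe_pp {a : ℝ} (h : a ≠ 0) (b : ℝ) :
    (pp a b : Matrix (Fin 2) (Fin 2) ℝ) = !![a, b; 0, a⁻¹] := by
  simp [pp, h]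

lemma coe_Phi {q : ℝ × ℝ × ℝ} (h : q.2.1 ≠ 0) :
    (Phi q : Matrix (Fin 2) (Fin 2) ℝ) = !![q.2.1, q.2.2; q.1 * q.2.1, q.1 * q.2.2 + q.2.1⁻¹] := by
  simp [Phi, coe_hh, coe_pp h]

lemma hh_add (s t : ℝ) : hh (s + t) = hh s * hh t := by
  ext i j
  fin_cases i <;> fin_cases j <;> simp [coe_hh]

lemma nn_add (s t : ℝ) : nn (s + t) = nn s * nn t := by
  ext i j
  fin_cases i <;> fin_cases j <;> simp [coe_nn, add_comm]

end H37abf
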