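import Pool.Agent.H.MP_abf1f1_an.Defs
import Pool.Agent.H.MP_abf1f1_an.F1

/-! MP_abf1f1_an, module B: the linear action, determinants, unipotent elements. -/

set_option autoImplicit false

open scoped Topology
open Set Filter MeasureTheory

namespace H37abf

/-- The determinant of two vectors of the plane. -/
def cr (v w : ℂ) : ℝ := v.re * w.im - v.im * w.re

/-- The unipotent element `w ↦ w + t (v ∧ w) v`. -/
def unip (v : ℂ) (t : ℝ) : SL2 :=
  ⟨!![1 - t * v.re * v.im, t * v.re ^ 2; -(t * v.im ^ 2), 1 + t * v.re * v.im], by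
    rw [Matrix.det_fin_two]; simp; ring⟩

theorem act_id (z : ℂ) : act 1 z = z := by
  apply Complex.ext <;> simp [act]

theorem act_comp (g h : SL2) (z : ℂ) : act (g * h) z = act g (act h z) := by
  apply Complex.ext <;>
    simp only [act, Matrix.SpecialLinearGroup.coe_mul, Matrix.mul_apply, Fin.sum_univ_two] <;> ring

theorem act_add (g : SL2) (z w : ℂ) : act g (z + w) = act g z + act g w := by
  apply Complex.ext <;> simp only [act, Complex.add_re, Complex.add_im] <;> ring

theorem act_smul (g : SL2) (t : ℝ) (z : ℂ) : act g (t * z) = t * act g z := by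
  apply Complex.ext <;> simp [act] <;> ring

theorem act_sub (g : SL2) (z w : ℂ) : act g (z - w) = act g z - act g w := by
  apply Complex.ext <;> simp only [act, Complex.sub_re, Complex.sub_im] <;> ring

theorem act_zero (g : SL2) : act g 0 = 0 := by
  apply Complex.ext <;> simp [act]

theorem act_inv_act (g : SL2) (z : ℂ) : act g⁻¹ (act g z) = z := by
  rw [← act_comp, inv_mul_cancel, act_id]

theorem act_act_inv (g : SL2) (z : ℂ) : act g (act g⁻¹ z) = z := by
  rw [← act_comp, mul_inv_cancel, act_id]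

theorem act_inj (g : SL2) {z w : ℂ} (h : act g z = act g w) : z = w := by
  rw [← act_inv_act g z, h, act_inv_act]

theorem act_ne_zero (g : SL2) {z : ℂ} (h : z ≠ 0) : act g z ≠ 0 := by
  intro h0
  exact h (act_inj g (by rw [h0, act_zero]))

theorem cr_act (g : SL2) (v w : ℂ) : cr (act g v) (act g w) = cr v w := by
  have hd : g.1 0 0 * g.1 1 1 - g.1 0 1 * g.1 1 0 = 1 := by
    have := g.2
    rwa [Matrix.det_fin_two] at this
  simp only [cr, act]
  linear_combination (v.re * w.im - v.im * w.re) * hd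

theorem cr_self (v : ℂ) : cr v v = 0 := by
  simp only [cr]; ring

theorem cr_comm (v w : ℂ) : cr w v = -cr v w := by
  simp only [cr]; ring

/-- PROOF. Cauchy-Schwarz, or `(v ∧ w)^2 ≤ |v|^2 |w|^2`: the difference is `⟪v, w⟫ ^ 2`. -/
theorem abs_cr_le (v w : ℂ) : |cr v w| ≤ ‖v‖ * ‖w‖ := by
  apply abs_le_of_sq_le_sq _ (by positivity)
  rw [mul_pow, Complex.sq_norm, Complex.sq_norm, Complex.normSq_apply, Complex.normSq_apply]
  simp only [cr]
  nlinarith [sq_nonneg (v.re * w.re + v.im * w.im)]

/-- PROOF. Parallel vectors: `w = (⟪w, v⟫ / |v| ^ 2) v`. -/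
theorem eq_smul_of_cr {v w : ℂ} (hv : v ≠ 0) (h : cr v w = 0) : ∃ c : ℝ, w = c * v := by
  have hN : v.re * v.re + v.im * v.im ≠ 0 := by
    have := (Complex.normSq_pos.2 hv).ne'
    rwa [Complex.normSq_apply] at this
  simp only [cr] at h
  refine ⟨(w.re * v.re + w.im * v.im) / (v.re * v.re + v.im * v.im), ?_⟩
  apply Complex.ext
  · rw [Complex.re_ofReal_mul, div_mul_eq_mul_div, eq_div_iff hN]
    linear_combination -v.im * h
  · rw [Complex.im_ofReal_mul, div_mul_eq_mul_div, eq_div_iff hN]
    linear_combination v.re * h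

theorem norm_act_le (g : SL2) (z : ℂ) :
    ‖act g z‖ ≤ (|g.1 0 0| + |g.1 0 1| + |g.1 1 0| + |g.1 1 1|) * ‖z‖ := by
  have h1 := Complex.norm_le_abs_re_add_abs_im (act g z)
  have hr := Complex.abs_re_le_norm z
  have hi := Complex.abs_im_le_norm z
  have e1 : |(act g z).re| ≤ |g.1 0 0| * ‖z‖ + |g.1 0 1| * ‖z‖ := by
    show |g.1 0 0 * z.re + g.1 0 1 * z.im| ≤ _
    refine (abs_add_le _ _).trans ?_
    rw [abs_mul, abs_mul]
    gcongr
  have e2 : |(act g z).im| ≤ |g.1 1 0| * ‖z‖ + |g.1 1 1| * ‖z‖ := by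
    show |g.1 1 0 * z.re + g.1 1 1 * z.im| ≤ _
    refine (abs_add_le _ _).trans ?_
    rw [abs_mul, abs_mul]
    gcongr
  linarith

theorem continuous_act : Continuous fun p : SL2 × ℂ => act p.1 p.2 := by
  have hM : Continuous fun p : SL2 × ℂ => p.1.1 := continuous_subtype_val.comp continuous_fst
  have h : ∀ i j : Fin 2, Continuous fun p : SL2 × ℂ => p.1.1 i j :=
    fun i j => hM.matrix_elem i j
  have hre : Continuous fun p : SL2 × ℂ => p.2.re := Complex.continuous_re.comp continuous_snd
  have him : Continuous fun p : SL2 × ℂ => p.2.im := Complex.continuous_im.comp continuous_snd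
  have e : (fun p : SL2 × ℂ => act p.1 p.2) = fun p =>
      ((p.1.1 0 0 * p.2.re + p.1.1 0 1 * p.2.im : ℝ) : ℂ) +
        ((p.1.1 1 0 * p.2.re + p.1.1 1 1 * p.2.im : ℝ) : ℂ) * Complex.I := by
    funext p
    apply Complex.ext <;> simp [act]
  rw [e]
  exact (Complex.continuous_ofReal.comp (((h 0 0).mul hre).add ((h 0 1).mul him))).add
    ((Complex.continuous_ofReal.comp (((h 1 0).mul hre).add ((h 1 1).mul him))).mul
      continuous_const)

end H37abf
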