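import Pool.Agent.H.MP_abf1f1_an.B0

/-! MP_abf1f1_an, module B: the linear action, determinants, unipotent elements. -/

set_option autoImplicit false

open scoped Topology
open Set Filter MeasureTheory

namespace H37abf

theorem B0b_ext {g h : SL2} (h00 : g.1 0 0 = h.1 0 0) (h01 : g.1 0 1 = h.1 0 1)
    (h10 : g.1 1 0 = h.1 1 0) (h11 : g.1 1 1 = h.1 1 1) : g = h := by
  apply Subtype.ext
  ext i j
  fin_cases i <;> fin_cases j
  · exact h00
  · exact h01
  · exact h10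
  · exact h11

theorem B0b_u00 (v : ℂ) (t : ℝ) : (unip v t).1 0 0 = 1 - t * v.re * v.im := rfl

theorem B0b_u01 (v : ℂ) (t : ℝ) : (unip v t).1 0 1 = t * v.re ^ 2 := rfl

theorem B0b_u10 (v : ℂ) (t : ℝ) : (unip v t).1 1 0 = -(t * v.im ^ 2) := rfl

theorem B0b_u11 (v : ℂ) (t : ℝ) : (unip v t).1 1 1 = 1 + t * v.re * v.im := rfl

theorem B0b_m00 (g h : SL2) : (g * h).1 0 0 = g.1 0 0 * h.1 0 0 + g.1 0 1 * h.1 1 0 := by
  show (g.1 * h.1) 0 0 = _
  rw [Matrix.mul_apply, Fin.sum_univ_two]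

theorem B0b_m01 (g h : SL2) : (g * h).1 0 1 = g.1 0 0 * h.1 0 1 + g.1 0 1 * h.1 1 1 := by
  show (g.1 * h.1) 0 1 = _
  rw [Matrix.mul_apply, Fin.sum_univ_two]

theorem B0b_m10 (g h : SL2) : (g * h).1 1 0 = g.1 1 0 * h.1 0 0 + g.1 1 1 * h.1 1 0 := by
  show (g.1 * h.1) 1 0 = _
  rw [Matrix.mul_apply, Fin.sum_univ_two]

theorem B0b_m11 (g h : SL2) : (g * h).1 1 1 = g.1 1 0 * h.1 0 1 + g.1 1 1 * h.1 1 1 := by
  show (g.1 * h.1) 1 1 = _
  rw [Matrix.mul_apply, Fin.sum_univ_two]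

theorem B0b_det (g : SL2) : g.1 0 0 * g.1 1 1 - g.1 0 1 * g.1 1 0 = 1 := by
  have h := g.2
  rw [Matrix.det_fin_two] at h
  exact h

theorem act_unip (v : ℂ) (t : ℝ) (w : ℂ) : act (unip v t) w = w + (t * cr v w : ℝ) * v := by
  apply Complex.ext
  · simp only [act, B0b_u00, B0b_u01, cr, Complex.add_re, Complex.mul_re, Complex.ofReal_re,
      Complex.ofReal_im]
    ring
  · simp only [act, B0b_u10, B0b_u11, cr, Complex.add_im, Complex.mul_im, Complex.ofReal_re,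
      Complex.ofReal_im]
    ring

theorem unip_add (v : ℂ) (s t : ℝ) : unip v (s + t) = unip v s * unip v t := by
  apply B0b_ext
  · rw [B0b_m00]
    simp only [B0b_u00, B0b_u01, B0b_u10]
    ring
  · rw [B0b_m01]
    simp only [B0b_u00, B0b_u01, B0b_u11]
    ring
  · rw [B0b_m10]
    simp only [B0b_u00, B0b_u11, B0b_u10]
    ring
  · rw [B0b_m11]
    simp only [B0b_u10, B0b_u01, B0b_u11]
    ring

theorem unip_zero (v : ℂ) : unip v 0 = 1 := by
  apply B0b_ext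
  · rw [B0b_u00]
    simp
  · rw [B0b_u01]
    simp
  · rw [B0b_u10]
    simp
  · rw [B0b_u11]
    simp

theorem unip_neg (v : ℂ) (t : ℝ) : unip v (-t) = (unip v t)⁻¹ := by
  apply eq_inv_of_mul_eq_one_left
  rw [← unip_add, neg_add_cancel, unip_zero]

theorem unip_conj (g : SL2) (v : ℂ) (t : ℝ) : g * unip v t * g⁻¹ = unip (act g v) t := by
  rw [mul_inv_eq_iff_eq_mul]
  have hd := B0b_det g
  apply B0b_ext
  · rw [B0b_m00, B0b_m00]
    simp only [B0b_u00, B0b_u01, B0b_u10, act]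
    linear_combination t * (g.1 0 0 * v.re + g.1 0 1 * v.im) * v.im * hd
  · rw [B0b_m01, B0b_m01]
    simp only [B0b_u00, B0b_u01, B0b_u11, act]
    linear_combination -(t * (g.1 0 0 * v.re + g.1 0 1 * v.im) * v.re) * hd
  · rw [B0b_m10, B0b_m10]
    simp only [B0b_u00, B0b_u10, B0b_u11, act]
    linear_combination t * (g.1 1 0 * v.re + g.1 1 1 * v.im) * v.im * hd
  · rw [B0b_m11, B0b_m11]
    simp only [B0b_u01, B0b_u10, B0b_u11, act]
    linear_combination -(t * (g.1 1 0 * v.re + g.1 1 1 * v.im) * v.re) * hd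

theorem unip_smul (c : ℝ) (v : ℂ) (t : ℝ) : unip (c * v) t = unip v (c ^ 2 * t) := by
  have h1 : ((c : ℂ) * v).re = c * v.re := by simp
  have h2 : ((c : ℂ) * v).im = c * v.im := by simp
  apply B0b_ext
  · rw [B0b_u00, B0b_u00, h1, h2]
    ring
  · rw [B0b_u01, B0b_u01, h1]
    ring
  · rw [B0b_u10, B0b_u10, h2]
    ring
  · rw [B0b_u11, B0b_u11, h1, h2]
    ring

theorem unip_eq_one {v : ℂ} (hv : v ≠ 0) {t : ℝ} (h : unip v t = 1) : t = 0 := by
  have h1 : t * v.re ^ 2 = 0 := by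
    rw [← B0b_u01, h]
    simp
  have h2 : -(t * v.im ^ 2) = 0 := by
    rw [← B0b_u10, h]
    simp
  by_contra ht
  apply hv
  apply Complex.ext
  · rcases mul_eq_zero.1 h1 with h3 | h3
    · exact absurd h3 ht
    · simpa using h3
  · rcases mul_eq_zero.1 (neg_eq_zero.1 h2) with h3 | h3
    · exact absurd h3 ht
    · simpa using h3

theorem unip_inj {v : ℂ} (hv : v ≠ 0) {s t : ℝ} (h : unip v s = unip v t) : s = t := by
  have h1 : unip v (s + -t) = 1 := by
    rw [unip_add, unip_neg, h, mul_inv_cancel]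
  have h2 := unip_eq_one hv h1
  linarith

/-- PROOF. `ContinuousAt`: the entries are polynomials in `t`. -/
theorem continuous_unip (v : ℂ) : Continuous fun t : ℝ => unip v t := by
  refine Continuous.subtype_mk ?_ _
  refine continuous_matrix fun i j => ?_
  fin_cases i <;> fin_cases j
  · show Continuous fun t : ℝ => 1 - t * v.re * v.im
    fun_prop
  · show Continuous fun t : ℝ => t * v.re ^ 2
    fun_prop
  · show Continuous fun t : ℝ => -(t * v.im ^ 2)
    fun_prop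
  · show Continuous fun t : ℝ => 1 + t * v.re * v.im
    fun_prop

theorem unip_one (t : ℝ) : unip 1 t = nn t := by
  apply B0b_ext
  · rw [B0b_u00]
    simp [nn]
  · rw [B0b_u01]
    simp [nn]
  · rw [B0b_u10]
    simp [nn]
  · rw [B0b_u11]
    simp [nn]

/-- PROOF. The matrix with rows `(v.re, v.im) / |v|^2` and `(-v.im, v.re)`. -/
theorem exists_act_eq_one {v : ℂ} (hv : v ≠ 0) : ∃ C : SL2, act C v = 1 := by
  have hN : v.re ^ 2 + v.im ^ 2 ≠ 0 := by
    intro h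
    apply hv
    apply Complex.ext
    · simp only [Complex.zero_re]
      nlinarith [sq_nonneg v.re, sq_nonneg v.im]
    · simp only [Complex.zero_im]
      nlinarith [sq_nonneg v.re, sq_nonneg v.im]
  refine ⟨⟨!![v.re / (v.re ^ 2 + v.im ^ 2), v.im / (v.re ^ 2 + v.im ^ 2); -v.im, v.re], ?_⟩, ?_⟩
  · rw [Matrix.det_fin_two]
    simp only [Matrix.of_apply, Matrix.cons_val', Matrix.cons_val_zero, Matrix.cons_val_one,
      Matrix.cons_val_fin_one]
    field_simp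
    ring
  · apply Complex.ext
    · show v.re / (v.re ^ 2 + v.im ^ 2) * v.re + v.im / (v.re ^ 2 + v.im ^ 2) * v.im = 1
      field_simp
    · show -v.im * v.re + v.re * v.im = 0
      ring

/-- PROOF. Conjugate by `C` with `act C v = 1`: an element fixing `1` is `nn t`; `unip_conj`. -/
theorem eq_unip_of_fix {v : ℂ} (hv : v ≠ 0) {g : SL2} (h : act g v = v) : ∃ t, g = unip v t := by
  obtain ⟨C, hC⟩ := exists_act_eq_one hv
  have h1 : act (C * g * C⁻¹) 1 = 1 := by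
    rw [act_comp, act_comp, ← hC, act_inv_act, h]
  have h2 : (C * g * C⁻¹).1 0 0 = 1 := by
    have := congrArg Complex.re h1
    simpa [act] using this
  have h3 : (C * g * C⁻¹).1 1 0 = 0 := by
    have := congrArg Complex.im h1
    simpa [act] using this
  have h4 := B0b_det (C * g * C⁻¹)
  rw [h2, h3, one_mul, mul_zero, sub_zero] at h4
  have h5 : C * g * C⁻¹ = unip 1 ((C * g * C⁻¹).1 0 1) := by
    apply B0b_ext
    · rw [B0b_u00, h2]
      simp
    · rw [B0b_u01]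
      simp
    · rw [B0b_u10, h3]
      simp
    · rw [B0b_u11, h4]
      simp
  refine ⟨(C * g * C⁻¹).1 0 1, ?_⟩
  have h6 : act C⁻¹ 1 = v := by
    rw [← hC, act_inv_act]
  have h7 := unip_conj C⁻¹ 1 ((C * g * C⁻¹).1 0 1)
  rw [← h5, h6] at h7
  rw [← h7]
  group

theorem act_pp {a : ℝ} (ha : a ≠ 0) (b : ℝ) : act (pp a b) 1 = a := by
  have h := coe_pp ha b
  have h00 : (pp a b).1 0 0 = a := by
    show (pp a b : Matrix (Fin 2) (Fin 2) ℝ) 0 0 = a
    rw [h]
    rfl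
  have h10 : (pp a b).1 1 0 = 0 := by
    show (pp a b : Matrix (Fin 2) (Fin 2) ℝ) 1 0 = 0
    rw [h]
    rfl
  apply Complex.ext
  · simp only [act, h00, Complex.one_re, Complex.one_im, Complex.ofReal_re]
    ring
  · simp only [act, h10, Complex.one_re, Complex.one_im, Complex.ofReal_im]
    ring

theorem act_hh (u : ℝ) (z : ℂ) : act (hh u) z = ⟨z.re, u * z.re + z.im⟩ := by
  apply Complex.ext
  · show 1 * z.re + 0 * z.im = z.re
    ring
  · show u * z.re + 1 * z.im = u * z.re + z.im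
    ring

theorem act_one_eq (g : SL2) : act g 1 = ⟨g.1 0 0, g.1 1 0⟩ := by
  apply Complex.ext
  · simp [act]
  · simp [act]

theorem pp_mul_nn {a : ℝ} (ha : a ≠ 0) (b t : ℝ) : pp a b * nn t = pp a (b + a * t) := by
  apply B0b_ext
  · rw [B0b_m00]
    show (pp a b : Matrix (Fin 2) (Fin 2) ℝ) 0 0 * (nn t : Matrix (Fin 2) (Fin 2) ℝ) 0 0 +
      (pp a b : Matrix (Fin 2) (Fin 2) ℝ) 0 1 * (nn t : Matrix (Fin 2) (Fin 2) ℝ) 1 0 =
      (pp a (b + a * t) : Matrix (Fin 2) (Fin 2) ℝ) 0 0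
    rw [coe_pp ha, coe_pp ha, coe_nn]
    simp
  · rw [B0b_m01]
    show (pp a b : Matrix (Fin 2) (Fin 2) ℝ) 0 0 * (nn t : Matrix (Fin 2) (Fin 2) ℝ) 0 1 +
      (pp a b : Matrix (Fin 2) (Fin 2) ℝ) 0 1 * (nn t : Matrix (Fin 2) (Fin 2) ℝ) 1 1 =
      (pp a (b + a * t) : Matrix (Fin 2) (Fin 2) ℝ) 0 1
    rw [coe_pp ha, coe_pp ha, coe_nn]
    simp [add_comm]
  · rw [B0b_m10]
    show (pp a b : Matrix (Fin 2) (Fin 2) ℝ) 1 0 * (nn t : Matrix (Fin 2) (Fin 2) ℝ) 0 0 +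
      (pp a b : Matrix (Fin 2) (Fin 2) ℝ) 1 1 * (nn t : Matrix (Fin 2) (Fin 2) ℝ) 1 0 =
      (pp a (b + a * t) : Matrix (Fin 2) (Fin 2) ℝ) 1 0
    rw [coe_pp ha, coe_pp ha, coe_nn]
    simp
  · rw [B0b_m11]
    show (pp a b : Matrix (Fin 2) (Fin 2) ℝ) 1 0 * (nn t : Matrix (Fin 2) (Fin 2) ℝ) 0 1 +
      (pp a b : Matrix (Fin 2) (Fin 2) ℝ) 1 1 * (nn t : Matrix (Fin 2) (Fin 2) ℝ) 1 1 =
      (pp a (b + a * t) : Matrix (Fin 2) (Fin 2) ℝ) 1 1
    rw [coe_pp ha, coe_pp ha, coe_nn]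
    simp

/-- Uniqueness of the coordinates. -/
theorem hh_pp_inj {u u' a a' b b' : ℝ} (ha : a ≠ 0) (ha' : a' ≠ 0)
    (h : hh u * pp a b = hh u' * pp a' b') : u = u' ∧ a = a' ∧ b = b' := by
  have h1 : Phi (u, a, b) = Phi (u', a', b') := h
  have h2 : (Phi (u, a, b) : Matrix (Fin 2) (Fin 2) ℝ) = Phi (u', a', b') := by rw [h1]
  rw [coe_Phi (q := (u, a, b)) ha, coe_Phi (q := (u', a', b')) ha'] at h2
  have h00 := congrFun (congrFun h2 0) 0
  have h01 := congrFun (congrFun h2 0) 1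
  have h10 := congrFun (congrFun h2 1) 0
  simp only [Matrix.of_apply, Matrix.cons_val', Matrix.cons_val_zero, Matrix.cons_val_one,
    Matrix.cons_val_fin_one] at h00 h01 h10
  refine ⟨?_, h00, h01⟩
  rw [← h00] at h10
  exact mul_right_cancel₀ ha h10

end H37abf
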