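import Pool.Agent.H.MP_abf1f1_an.F3a

/-!
# Module F3p: packing inequality
-/

namespace H37abf

open MeasureTheory Matrix Filter Topology
open scoped ENNReal Pointwise

variable (Γ : Subgroup SL2)

/-- Packing inequality: if every orbit of `Γ` meets `F` and every orbit meets `A` in at most `C` points, then the
measure of `A` is at most `C` times the measure of `F`. -/
theorem packing [DiscreteTopology Γ] {F : Set SL2} (hF : MeasurableSet F) (hcov : ∀ g : SL2, ∃ γ ∈ Γ, g * γ ∈ F)
    {A : Set SL2} (hA : MeasurableSet A) {C : ℝ≥0∞} (hC : ∀ g, Psi Γ A g ≤ C) : muG A ≤ C * muG F := by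
  have hcount : Countable Γ := countable_discrete Γ
  have hmeas : ∀ γ : SL2, Measurable (fun g : SL2 => g * γ) := fun γ => (continuous_mul_const γ).measurable
  calc muG A ≤ ∑' γ : Γ, muG (A ∩ (fun g => g * (γ : SL2)) ⁻¹' F) := by
        refine (measure_mono ?_).trans (measure_iUnion_le _)
        intro g hg
        obtain ⟨γ, hγ, h⟩ := hcov g
        exact Set.mem_iUnion.2 ⟨⟨γ, hγ⟩, hg, h⟩
    _ = ∑' γ : Γ, muG ((fun g => g * (γ : SL2)⁻¹) ⁻¹' A ∩ F) := by
        refine tsum_congr fun γ => ?_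
        rw [← measure_preimage_mul_right muG (γ : SL2) ((fun g => g * (γ : SL2)⁻¹) ⁻¹' A ∩ F)]
        congr 1
        ext g
        simp
    _ = ∑' γ : Γ, ∫⁻ g in F, A.indicator (fun _ => (1 : ℝ≥0∞)) (g * (γ : SL2)⁻¹) ∂muG := by
        refine tsum_congr fun γ => ?_
        have h1 : (fun g : SL2 => A.indicator (fun _ => (1 : ℝ≥0∞)) (g * (γ : SL2)⁻¹))
            = ((fun g : SL2 => g * (γ : SL2)⁻¹) ⁻¹' A).indicator (fun _ => (1 : ℝ≥0∞)) := rfl
        have h2 : MeasurableSet ((fun g : SL2 => g * (γ : SL2)⁻¹) ⁻¹' A) := hmeas _ hA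
        rw [h1, lintegral_indicator h2, setLIntegral_one, Measure.restrict_apply h2]
    _ = ∫⁻ g in F, ∑' γ : Γ, A.indicator (fun _ => (1 : ℝ≥0∞)) (g * (γ : SL2)⁻¹) ∂muG := by
        rw [lintegral_tsum]
        intro γ
        exact ((measurable_const.indicator hA).comp (hmeas _)).aemeasurable
    _ ≤ ∫⁻ _ in F, C ∂muG := by
        refine lintegral_mono fun g => ?_
        refine le_trans (le_of_eq ?_) (hC g)
        unfold Psi
        exact (Equiv.inv Γ).tsum_eq (fun γ : Γ => A.indicator (fun _ => (1 : ℝ≥0∞)) (g * (γ : SL2)))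
    _ = C * muG F := by rw [setLIntegral_const]

end H37abf
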