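import Pool.Agent.H.MP_abf1f1_an.F3a

/-!
# Module F7x: two complements
-/

namespace H37abf

open MeasureTheory Matrix Filter Topology
open scoped ENNReal Pointwise

variable {Γ : Subgroup SL2}

/-- the integral of `Psi` along the horocycle as a sum over `Γ` -/
theorem lintegral_Psi_eq [DiscreteTopology Γ] {A : Set SL2} (hA : MeasurableSet A) (g : SL2) :
    ∫⁻ s in Set.Icc (0 : ℝ) 1, Psi Γ A (g * hh (-s)) =
      ∑' γ : Γ, volume {s : ℝ | s ∈ Set.Icc (0 : ℝ) 1 ∧ g * hh (-s) * (γ : SL2) ∈ A} := by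
  have : Countable Γ := countable_discrete Γ
  have hc : ∀ γ : Γ, Measurable (fun s : ℝ => g * hh (-s) * (γ : SL2)) := by
    intro γ
    have h1 : Continuous (fun s : ℝ => hh (-s)) := continuous_hh.comp continuous_neg
    exact ((continuous_const.mul h1).mul continuous_const).measurable
  have hm : ∀ γ : Γ, Measurable
      (fun s : ℝ => A.indicator (fun _ => (1 : ℝ≥0∞)) (g * hh (-s) * (γ : SL2))) := by
    intro γ
    exact (measurable_const.indicator hA).comp (hc γ)
  have h0 : (fun s : ℝ => Psi Γ A (g * hh (-s))) =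
      fun s : ℝ => ∑' γ : Γ, A.indicator (fun _ => (1 : ℝ≥0∞)) (g * hh (-s) * (γ : SL2)) := rfl
  rw [h0, lintegral_tsum (fun γ => (hm γ).aemeasurable)]
  refine tsum_congr fun γ => ?_
  have hS : MeasurableSet {s : ℝ | g * hh (-s) * (γ : SL2) ∈ A} := hc γ hA
  have h2 : (fun s : ℝ => A.indicator (fun _ => (1 : ℝ≥0∞)) (g * hh (-s) * (γ : SL2))) =
      {s : ℝ | g * hh (-s) * (γ : SL2) ∈ A}.indicator (fun _ => (1 : ℝ≥0∞)) := by
    funext s
    by_cases hs : g * hh (-s) * (γ : SL2) ∈ A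
    · rw [Set.indicator_of_mem hs, Set.indicator_of_mem (show s ∈ {s : ℝ | g * hh (-s) * (γ : SL2) ∈ A} from hs)]
    · rw [Set.indicator_of_notMem hs,
        Set.indicator_of_notMem (show s ∉ {s : ℝ | g * hh (-s) * (γ : SL2) ∈ A} from hs)]
  rw [h2, lintegral_indicator hS]
  simp only [lintegral_const, one_mul, Measure.restrict_apply MeasurableSet.univ, Set.univ_inter]
  rw [Measure.restrict_apply hS]
  congr 1
  ext s
  constructor
  · rintro ⟨h1, h2⟩
    exact ⟨h2, h1⟩
  · rintro ⟨h1, h2⟩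
    exact ⟨h2, h1⟩

/-- any Haar measure is a multiple of `muG`: finite covolume does not depend on the choice -/
theorem finiteCovol_of_haar {μ : Measure SL2} [μ.IsHaarMeasure]
    (h : ∃ F : Set SL2, MeasurableSet F ∧ μ F < ∞ ∧ ∀ g : SL2, ∃ γ ∈ Γ, g * γ ∈ F) : FiniteCovol Γ := by
  obtain ⟨F, hF, hμ, hg⟩ := h
  refine ⟨F, hF, ?_, hg⟩
  have h1 := Measure.isMulLeftInvariant_eq_smul muG μ
  rw [h1, Measure.smul_apply]
  exact ENNReal.mul_lt_top (by simp) hμ

end H37abf
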