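import Pool.Agent.H.MP_abf1f1_an.B0b
import Pool.Agent.H.MP_abf1f1_an.F3p
import Pool.Agent.H.MP_abf1f1_an.F7x

/-! MP_abf1f1_an, module B: lattices preserving a locally finite set of vectors. -/

set_option autoImplicit false

open scoped Topology
open Set Filter MeasureTheory

namespace H37abf

/-- `Γ` is a lattice in `SL(2, ℝ)` which preserves the locally finite spanning set `Λ` of nonzero
vectors. -/
structure Core (Γ : Subgroup SL2) (Λ : Set ℂ) : Prop where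
  fin : ∀ C : ℝ, {v ∈ Λ | ‖v‖ ≤ C}.Finite
  ne : (0 : ℂ) ∉ Λ
  inv : ∀ γ ∈ Γ, ∀ v ∈ Λ, act γ v ∈ Λ
  span : ∃ v ∈ Λ, ∃ w ∈ Λ, cr v w ≠ 0
  disc : DiscreteTopology Γ
  cov : FiniteCovol Γ

/-- PROOF. The neighbourhood `U` of `IsLattice` gives the discreteness (`discreteTopology_of_...` at
`1`, translate). `finiteCovol_of_haar` (the measurable space of `SL2` is `borel SL2`). -/
theorem discrete_of_lattice {Γ : Subgroup SL2} (h : IsLattice (Γ : Set SL2)) :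
    DiscreteTopology Γ := by
  obtain ⟨U, hU, hU1⟩ := h.1
  refine discreteTopology_of_isOpen_singleton_one ?_
  obtain ⟨V, hVU, hV, h1V⟩ := mem_nhds_iff.1 hU
  have h2 : ({1} : Set Γ) = Subtype.val ⁻¹' V := by
    ext γ
    constructor
    · intro hγ
      rw [Set.mem_singleton_iff] at hγ
      subst hγ
      exact h1V
    · intro hγ
      rw [Set.mem_singleton_iff]
      exact Subtype.ext (hU1 γ.1 γ.2 (hVU hγ))
  rw [h2]
  exact hV.preimage continuous_subtype_val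

theorem covol_of_lattice {Γ : Subgroup SL2} (h : IsLattice (Γ : Set SL2)) : FiniteCovol Γ := by
  obtain ⟨μ, hμ, D, hD, hD1, hD2⟩ := h.2
  have hμ' : Measure.IsHaarMeasure (G := SL2) μ := hμ
  exact finiteCovol_of_haar (μ := μ) ⟨D, hD, hD1, hD2⟩

variable {Γ : Subgroup SL2} {Λ : Set ℂ}

/-- PROOF. `fin 1` and `ne`: minimum over a finite set. -/
theorem Core.exists_min (h : Core Γ Λ) : ∃ r : ℝ, 0 < r ∧ ∀ v ∈ Λ, r ≤ ‖v‖ := by
  rcases Set.eq_empty_or_nonempty {v ∈ Λ | ‖v‖ ≤ 1} with he | hne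
  · refine ⟨1, one_pos, fun v hv => ?_⟩
    by_contra hlt
    have h1 : v ∈ {v ∈ Λ | ‖v‖ ≤ 1} := ⟨hv, (not_le.1 hlt).le⟩
    rw [he] at h1
    exact h1
  · obtain ⟨v0, hv0, hmin⟩ := Set.exists_min_image {v ∈ Λ | ‖v‖ ≤ 1} (fun v : ℂ => ‖v‖) (h.fin 1) hne
    refine ⟨‖v0‖, norm_pos_iff.2 ?_, fun v hv => ?_⟩
    · rintro rfl
      exact h.ne hv0.1
    · by_cases hv1 : ‖v‖ ≤ 1
      · exact hmin v ⟨hv, hv1⟩
      · exact hv0.2.trans (not_le.1 hv1).le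

/-- PROOF. `fin (‖v‖ + 1)`: only finitely many elements of `Λ` in the ball of radius `1` around `v`. -/
theorem Core.isolated (h : Core Γ Λ) (v : ℂ) : ∃ r : ℝ, 0 < r ∧ ∀ w ∈ Λ, ‖w - v‖ < r → w = v := by
  have hfin : ({w ∈ Λ | ‖w‖ ≤ ‖v‖ + 1} \ {v}).Finite := (h.fin (‖v‖ + 1)).subset Set.sdiff_subset
  have hopen : ({w ∈ Λ | ‖w‖ ≤ ‖v‖ + 1} \ {v})ᶜ ∈ 𝓝 v :=
    hfin.isClosed.isOpen_compl.mem_nhds fun hv => hv.2 rfl
  obtain ⟨r, hr, hball⟩ := Metric.mem_nhds_iff.1 hopen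
  refine ⟨min r 1, lt_min hr one_pos, fun w hw hwr => ?_⟩
  by_contra hne
  have h1 : w ∈ Metric.ball v r := by
    rw [Metric.mem_ball, dist_eq_norm]
    exact hwr.trans_le (min_le_left _ _)
  refine hball h1 ⟨⟨hw, ?_⟩, hne⟩
  have h2 : ‖w - v‖ ≤ 1 := (hwr.trans_le (min_le_right _ _)).le
  calc ‖w‖ = ‖v + (w - v)‖ := by rw [add_sub_cancel]
    _ ≤ ‖v‖ + ‖w - v‖ := norm_add_le _ _
    _ ≤ ‖v‖ + 1 := by linarith

end H37abf
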