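import Pool.Agent.H.MP_abf1f1_an.B1

/-! MP_abf1f1_an, module B: the returning lemma (volume packing). -/

set_option autoImplicit false

open scoped Topology
open Set Filter MeasureTheory

namespace H37abf

variable {Γ : Subgroup SL2}

/-- orbits meeting `A` in at most one point -/
theorem B2_psi_le {A : Set SL2} {x : SL2}
    (h : ∀ γ ∈ Γ, ∀ γ' ∈ Γ, x * γ ∈ A → x * γ' ∈ A → γ = γ') : Psi Γ A x ≤ 1 := by
  unfold Psi
  by_cases hex : ∃ γ0 : Γ, x * (γ0 : SL2) ∈ A
  · obtain ⟨γ0, h0⟩ := hex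
    rw [tsum_eq_single γ0]
    · rw [Set.indicator_of_mem h0]
    · intro γ hγ
      refine Set.indicator_of_notMem (fun hm => hγ ?_) _
      exact Subtype.ext (h _ γ.2 _ γ0.2 hm h0)
  · push Not at hex
    have h0 : ∑' γ : Γ, A.indicator (fun _ => (1 : ENNReal)) (x * (γ : SL2)) = 0 := by
      rw [ENNReal.tsum_eq_zero]
      intro γ
      exact Set.indicator_of_notMem (hex γ) _
    rw [h0]
    exact zero_le_one

/-- PROOF. Suppose there are arbitrarily large `n` without such a `γ`. Choose `k` of them,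
`n 1 < ... < n k`, and let `A` be the union of the sets `O g_{n i}` (right translates of `O`). They are
pairwise disjoint (`hdis` with `γ = 1`) with measure `muG O` (right invariance, F2b3), so
`muG A = k * muG O`. `Psi Γ A g ≤ 1` for all `g`: if `g γ = o g_{n i}` and `g γ' = o' g_{n j}`, `γ, γ' ∈ Γ`,
then `o g_{n i} (γ⁻¹ γ') = o' g_{n j}` and `o' g_{n j} (γ'⁻¹ γ) = o g_{n i}`; so `i = j` by `hdis`, and
`γ⁻¹ γ' = 1` by the choice of `n i`. By `packing` `k * muG O ≤ muG F < ∞` for all `k`, and `muG O > 0`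
(open, Haar measure): contradiction. -/
theorem exists_return [DiscreteTopology Γ] (hcov : FiniteCovol Γ) {O : Set SL2} (hO : IsOpen O)
    (h1 : (1 : SL2) ∈ O) {g : ℕ → SL2}
    (hdis : ∀ n m, n < m → ∀ o ∈ O, ∀ o' ∈ O, ∀ γ ∈ Γ, o * g n * γ ≠ o' * g m) :
    ∃ N, ∀ n, N ≤ n → ∃ γ ∈ Γ, γ ≠ 1 ∧ ∃ o ∈ O, ∃ o' ∈ O, o * g n * γ = o' * g n := by
  by_contra hcon
  push Not at hcon
  obtain ⟨F, hF, hF1, hF2⟩ := hcov
  set B : Set ℕ := {n | ∀ γ ∈ Γ, γ ≠ 1 → ∀ o ∈ O, ∀ o' ∈ O, o * g n * γ ≠ o' * g n} with hB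
  have hinf : B.Infinite := by
    rw [Set.infinite_iff_exists_gt]
    intro a
    obtain ⟨n, hn, hn'⟩ := hcon (a + 1)
    exact ⟨n, hn', hn⟩
  have hpos : muG O ≠ 0 := (hO.measure_pos muG ⟨1, h1⟩).ne'
  obtain ⟨k, hk⟩ := ENNReal.exists_nat_mul_gt hpos hF1.ne
  obtain ⟨s, hs, hsk⟩ := hinf.exists_subset_card_eq k
  set T : ℕ → Set SL2 := fun n => (fun x => x * (g n)⁻¹) ⁻¹' O with hT
  have hTmem : ∀ n x, x ∈ T n → ∃ o ∈ O, x = o * g n := by
    intro n x hx
    exact ⟨x * (g n)⁻¹, hx, by group⟩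
  have hTm : ∀ n, MeasurableSet (T n) := fun n =>
    (hO.preimage (continuous_mul_const _)).measurableSet
  have hTv : ∀ n, muG (T n) = muG O := fun n => measure_preimage_mul_right muG (g n)⁻¹ O
  have hTd : ∀ n m x, x ∈ T n → x ∈ T m → n = m := by
    have key : ∀ n m x, n < m → x ∈ T n → x ∈ T m → False := by
      intro n m x hnm hx hx'
      obtain ⟨o, ho, e⟩ := hTmem n x hx
      obtain ⟨o', ho', e'⟩ := hTmem m x hx'
      refine hdis n m hnm o ho o' ho' 1 (one_mem Γ) ?_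
      rw [mul_one, ← e, ← e']
    intro n m x hx hx'
    rcases lt_trichotomy n m with h | h | h
    · exact (key n m x h hx hx').elim
    · exact h
    · exact (key m n x h hx' hx).elim
  set A : Set SL2 := ⋃ n ∈ s, T n with hA
  have hAv : muG A = (k : ENNReal) * muG O := by
    rw [hA, measure_biUnion_finset]
    · rw [Finset.sum_congr rfl (fun n _ => hTv n), Finset.sum_const, hsk, nsmul_eq_mul]
    · intro n _ m _ hnm
      refine Set.disjoint_left.2 fun x hx hx' => hnm (hTd n m x hx hx')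
    · intro n _
      exact hTm n
  have hAm : MeasurableSet A := Finset.measurableSet_biUnion s fun n _ => hTm n
  have hpsi : ∀ x, Psi Γ A x ≤ 1 := by
    intro x
    refine B2_psi_le fun γ hγ γ' hγ' hx hx' => ?_
    obtain ⟨n, hn, hxn⟩ := Set.mem_iUnion₂.1 hx
    obtain ⟨m, hm, hxm⟩ := Set.mem_iUnion₂.1 hx'
    obtain ⟨o, ho, e⟩ := hTmem n _ hxn
    obtain ⟨o', ho', e'⟩ := hTmem m _ hxm
    have e1 : o * g n * (γ⁻¹ * γ') = o' * g m := by
      rw [← e, ← e']
      group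
    have e2 : o' * g m * (γ'⁻¹ * γ) = o * g n := by
      rw [← e, ← e']
      group
    rcases lt_trichotomy n m with h | h | h
    · exact (hdis n m h o ho o' ho' _ (mul_mem (inv_mem hγ) hγ') e1).elim
    · subst h
      by_contra hne
      have hne' : γ⁻¹ * γ' ≠ 1 := by
        intro h1
        exact hne (inv_mul_eq_one.1 h1)
      exact hs hn (γ⁻¹ * γ') (mul_mem (inv_mem hγ) hγ') hne' o ho o' ho' e1
    · exact (hdis m n h o' ho' o ho _ (mul_mem (inv_mem hγ') hγ) e2).elim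
  have hpack := packing Γ hF hF2 hAm hpsi
  rw [one_mul, hAv] at hpack
  exact absurd hpack (not_le.2 hk)

end H37abf
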