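import Pool.Agent.H.MP_abf1f1_an.B2

/-! MP_abf1f1_an, module B: the stabilisers of the vectors are unipotent and nontrivial. -/

set_option autoImplicit false

open scoped Topology
open Set Filter MeasureTheory

namespace H37abf

variable {Γ : Subgroup SL2} {Λ : Set ℂ}

theorem B2b_act_pp {a : ℝ} (ha : a ≠ 0) (z : ℂ) : act (pp a 0) z = ⟨a * z.re, a⁻¹ * z.im⟩ := by
  simp [act, pp, ha]

theorem B2b_act_pp_inv {a : ℝ} (ha : a ≠ 0) (z : ℂ) :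
    act (pp a 0)⁻¹ z = ⟨a⁻¹ * z.re, a * z.im⟩ := by
  have h := act_inv_act (pp a 0) ⟨a⁻¹ * z.re, a * z.im⟩
  rw [B2b_act_pp ha] at h
  have e : (⟨a * (⟨a⁻¹ * z.re, a * z.im⟩ : ℂ).re, a⁻¹ * (⟨a⁻¹ * z.re, a * z.im⟩ : ℂ).im⟩ : ℂ) = z := by
    apply Complex.ext
    · simp only
      field_simp
    · simp only
      field_simp
  rwa [e] at h

theorem B2b_norm_le (x y : ℝ) : ‖(⟨x, y⟩ : ℂ)‖ ≤ |x| + |y| :=
  Complex.norm_le_abs_re_add_abs_im _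

theorem B2b_act_real (w : SL2) (a : ℝ) : act w (a : ℂ) = ⟨w.1 0 0 * a, w.1 1 0 * a⟩ := by
  simp [act]

theorem B2b_cont : Continuous fun p : SL2 × SL2 => p.1⁻¹ * p.2 :=
  continuous_fst.inv.mul continuous_snd

theorem B2b_cont' (i j : Fin 2) : Continuous fun p : SL2 × SL2 => (p.1⁻¹ * p.2).1 i j :=
  (f2b3_entry i j).comp B2b_cont

/-- Pairs with a small quotient. -/
def B2b_W (η : ℝ) : Set (SL2 × SL2) :=
  {p : SL2 × SL2 | |(p.1⁻¹ * p.2).1 0 0 - 1| < η} ∩ {p : SL2 × SL2 | |(p.1⁻¹ * p.2).1 1 0| < η}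

theorem B2b_W_open (η : ℝ) : IsOpen (B2b_W η) := by
  have h1 : IsOpen {p : SL2 × SL2 | |(p.1⁻¹ * p.2).1 0 0 - 1| < η} :=
    isOpen_lt ((B2b_cont' 0 0).sub continuous_const).abs continuous_const
  have h2 : IsOpen {p : SL2 × SL2 | |(p.1⁻¹ * p.2).1 1 0| < η} :=
    isOpen_lt (B2b_cont' 1 0).abs continuous_const
  exact h1.inter h2

theorem B2b_W_one {η : ℝ} (hη : 0 < η) : ((1 : SL2), (1 : SL2)) ∈ B2b_W η := by
  have e : ((1 : SL2)⁻¹ * (1 : SL2)) = 1 := by group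
  refine ⟨?_, ?_⟩
  · show |((1 : SL2)⁻¹ * (1 : SL2)).1 0 0 - 1| < η
    rw [e]
    have : (1 : SL2).1 0 0 = 1 := rfl
    rw [this]
    simpa using hη
  · show |((1 : SL2)⁻¹ * (1 : SL2)).1 1 0| < η
    rw [e]
    have : (1 : SL2).1 1 0 = 0 := rfl
    rw [this]
    simpa using hη

/-- A neighbourhood of the identity with small quotients. -/
theorem B2b_nhd {η : ℝ} (hη : 0 < η) : ∃ O : Set SL2, IsOpen O ∧ (1 : SL2) ∈ O ∧
    ∀ o ∈ O, ∀ o' ∈ O, |(o⁻¹ * o').1 0 0 - 1| < η ∧ |(o⁻¹ * o').1 1 0| < η := by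
  obtain ⟨U, V, hU, hV, hU1, hV1, hUV⟩ := isOpen_prod_iff.1 (B2b_W_open η) 1 1 (B2b_W_one hη)
  refine ⟨U ∩ V, hU.inter hV, ⟨hU1, hV1⟩, ?_⟩
  intro o ho o' ho'
  have h2 : (o, o') ∈ B2b_W η := hUV ⟨ho.1, ho'.2⟩
  exact h2

/-- PROOF. Let `C` with `act C v = 1`, `c = c(C⁻¹)` the constant of `norm_act_le` for `C⁻¹`, `r` the minimum
of `|Λ|` (`exists_min`), `r'` the radius of `isolated` for `v`. Let `0 < η < 1` with `2 c η < r'`, and `O`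
an open neighbourhood of `1` such that `w = o⁻¹ o'` satisfies `|w - 1| < η` for all entries, for all
`o, o' ∈ O` (continuity). Choose `T > 0` with `c * 4 * exp (-T) < r`. Let
`g n = pp (exp (-n T)) 0 * C` (diagonal matrix times `C`), so `act (g n) v = exp (-n T)`.
`hdis`: if `o g_n γ = o' g_m`, `n < m`, then `act γ v = act (g_n)⁻¹ (act (o⁻¹ o') (exp (-m T)))` has norm
`≤ c * exp (n T) * 4 * exp (-m T) ≤ c * 4 * exp (-T) < r`, but it is in `Λ`: contradiction. By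
`exists_return` there is, for large `n`, `γ ∈ Γ`, `γ ≠ 1`, with `g_n γ g_n⁻¹ = w = o⁻¹ o'`. Then
`act γ v = act C⁻¹ (act (pp (exp (n T)) 0) (act w (exp (-n T)))) = act C⁻¹ ⟨w 0 0, exp (-2 n T) w 1 0⟩`, so
`|act γ v - v| = |act C⁻¹ ⟨w 0 0 - 1, exp (-2 n T) w 1 0⟩| ≤ 2 c η < r'`, so `act γ v = v`. -/
theorem Core.exists_stab (h : Core Γ Λ) {v : ℂ} (hv : v ∈ Λ) : ∃ γ ∈ Γ, γ ≠ 1 ∧ act γ v = v := by
  have hv0 : v ≠ 0 := fun e => h.ne (e ▸ hv)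
  obtain ⟨C, hC⟩ := exists_act_eq_one hv0
  have hCinv : act C⁻¹ 1 = v := by rw [← hC, act_inv_act]
  obtain ⟨c, hc0, hc⟩ : ∃ c : ℝ, 0 < c ∧ ∀ z, ‖act C⁻¹ z‖ ≤ c * ‖z‖ := by
    refine ⟨(|C⁻¹.1 0 0| + |C⁻¹.1 0 1| + |C⁻¹.1 1 0| + |C⁻¹.1 1 1|) + 1, by positivity, fun z => ?_⟩
    have h1 := norm_act_le C⁻¹ z
    have h2 := norm_nonneg z
    nlinarith
  obtain ⟨r, hr0, hr⟩ := h.exists_min
  obtain ⟨r', hr'0, hr'⟩ := h.isolated v
  set η : ℝ := min 1 (r' / (4 * c)) with hη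
  have hη0 : 0 < η := by positivity
  have hη1 : η ≤ 1 := min_le_left _ _
  have hη2 : c * (2 * η) < r' := by
    have h1 : η ≤ r' / (4 * c) := min_le_right _ _
    have h2 : η * (4 * c) ≤ r' := (le_div_iff₀ (by positivity)).1 h1
    nlinarith
  obtain ⟨O, hO, hO1, hOw⟩ := B2b_nhd hη0
  obtain ⟨T, hT0, hT⟩ : ∃ T : ℝ, 0 < T ∧ c * (3 * Real.exp (-T)) < r := by
    have h1 : Tendsto (fun T : ℝ => c * (3 * Real.exp (-T))) atTop (𝓝 (c * (3 * 0))) :=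
      (Real.tendsto_exp_neg_atTop_nhds_zero.const_mul 3).const_mul c
    rw [mul_zero, mul_zero] at h1
    obtain ⟨T, hT1, hT2⟩ := ((h1.eventually_lt_const hr0).and (eventually_gt_atTop 0)).exists
    exact ⟨T, hT2, hT1⟩
  let a : ℕ → ℝ := fun n => Real.exp (-(n * T))
  have ha0 : ∀ n, 0 < a n := fun n => Real.exp_pos _
  have ha1 : ∀ n, a n ≤ 1 := by
    intro n
    show Real.exp (-(n * T)) ≤ 1
    rw [Real.exp_le_one_iff]
    have : (0 : ℝ) ≤ n * T := by positivity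
    linarith
  let g : ℕ → SL2 := fun n => pp (a n) 0 * C
  have hg : ∀ n, act (g n) v = (a n : ℝ) := by
    intro n
    show act (pp (a n) 0 * C) v = _
    rw [act_comp, hC, act_pp (ha0 n).ne']
  -- the key formula
  have key : ∀ n m, ∀ o o' γ : SL2, o * g n * γ = o' * g m →
      act γ v = act C⁻¹ ⟨(a n)⁻¹ * ((o⁻¹ * o').1 0 0 * a m), a n * ((o⁻¹ * o').1 1 0 * a m)⟩ := by
    intro n m o o' γ e
    have e1 : γ = C⁻¹ * ((pp (a n) 0)⁻¹ * ((o⁻¹ * o') * g m)) := by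
      have : γ = (o * g n)⁻¹ * (o' * g m) := by rw [← e]; group
      rw [this]
      show (o * (pp (a n) 0 * C))⁻¹ * (o' * g m) = _
      group
    rw [e1, act_comp, act_comp, act_comp, hg m, B2b_act_real, B2b_act_pp_inv (ha0 n).ne']
  obtain ⟨N, hN⟩ := by
    have hd := h.disc
    refine exists_return h.cov hO hO1 (g := g) ?_
    intro n m hnm o ho o' ho' γ hγ e
    obtain ⟨w0, w1⟩ := hOw o ho o' ho'
    have h1 := key n m o o' γ e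
    have h2 := hr _ (h.inv γ hγ v hv)
    rw [h1] at h2
    have h3 := hc ⟨(a n)⁻¹ * ((o⁻¹ * o').1 0 0 * a m), a n * ((o⁻¹ * o').1 1 0 * a m)⟩
    have h4 := B2b_norm_le ((a n)⁻¹ * ((o⁻¹ * o').1 0 0 * a m)) (a n * ((o⁻¹ * o').1 1 0 * a m))
    have hw0 : |(o⁻¹ * o').1 0 0| ≤ 2 := by
      have := abs_lt.1 w0
      rw [abs_le]
      constructor <;> linarith [this.1, this.2]
    have hq : (a n)⁻¹ * a m ≤ Real.exp (-T) := by
      show (Real.exp (-(n * T)))⁻¹ * Real.exp (-(m * T)) ≤ _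
      rw [← Real.exp_neg, ← Real.exp_add, Real.exp_le_exp]
      have hnm' : (n : ℝ) + 1 ≤ m := by exact_mod_cast hnm
      nlinarith
    have hq0 : 0 < (a n)⁻¹ * a m := mul_pos (inv_pos.2 (ha0 n)) (ha0 m)
    have h5 : |(a n)⁻¹ * ((o⁻¹ * o').1 0 0 * a m)| ≤ 2 * Real.exp (-T) := by
      have e5 : (a n)⁻¹ * ((o⁻¹ * o').1 0 0 * a m) = (o⁻¹ * o').1 0 0 * ((a n)⁻¹ * a m) := by ring
      rw [e5, abs_mul, abs_of_pos hq0]
      exact mul_le_mul hw0 hq hq0.le (by norm_num)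
    have hq' : a n * a m ≤ (a n)⁻¹ * a m := by
      have : a n ≤ (a n)⁻¹ := (ha1 n).trans ((one_le_inv₀ (ha0 n)).2 (ha1 n))
      exact mul_le_mul_of_nonneg_right this (ha0 m).le
    have h6 : |a n * ((o⁻¹ * o').1 1 0 * a m)| ≤ 1 * Real.exp (-T) := by
      have e6 : a n * ((o⁻¹ * o').1 1 0 * a m) = (o⁻¹ * o').1 1 0 * (a n * a m) := by ring
      rw [e6, abs_mul, abs_of_pos (mul_pos (ha0 n) (ha0 m))]
      exact mul_le_mul (w1.le.trans hη1) (hq'.trans hq) (mul_pos (ha0 n) (ha0 m)).le (by norm_num)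
    have h7 : ‖(⟨(a n)⁻¹ * ((o⁻¹ * o').1 0 0 * a m), a n * ((o⁻¹ * o').1 1 0 * a m)⟩ : ℂ)‖ ≤
        3 * Real.exp (-T) := by linarith
    have h8 := mul_le_mul_of_nonneg_left h7 hc0.le
    linarith
  obtain ⟨γ, hγ, hγ1, o, ho, o', ho', e⟩ := hN N le_rfl
  refine ⟨γ, hγ, hγ1, ?_⟩
  apply hr' _ (h.inv γ hγ v hv)
  obtain ⟨w0, w1⟩ := hOw o ho o' ho'
  have h1 := key N N o o' γ e
  have h2 : act γ v - v = act C⁻¹ ⟨(o⁻¹ * o').1 0 0 - 1, a N * ((o⁻¹ * o').1 1 0 * a N)⟩ := by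
    rw [h1]
    conv_lhs => rw [← hCinv]
    rw [← act_sub]
    congr 1
    apply Complex.ext
    · have := (ha0 N).ne'
      simp only [Complex.sub_re, Complex.one_re]
      field_simp
    · simp
  rw [h2]
  have h3 := hc ⟨(o⁻¹ * o').1 0 0 - 1, a N * ((o⁻¹ * o').1 1 0 * a N)⟩
  have h4 := B2b_norm_le ((o⁻¹ * o').1 0 0 - 1) (a N * ((o⁻¹ * o').1 1 0 * a N))
  have h5 : |a N * ((o⁻¹ * o').1 1 0 * a N)| ≤ η := by
    have e5 : a N * ((o⁻¹ * o').1 1 0 * a N) = (a N * a N) * (o⁻¹ * o').1 1 0 := by ring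
    rw [e5, abs_mul, abs_of_pos (mul_pos (ha0 N) (ha0 N))]
    have h6 : a N * a N ≤ 1 := mul_le_one₀ (ha1 N) (ha0 N).le (ha1 N)
    have h7 := abs_nonneg ((o⁻¹ * o').1 1 0)
    nlinarith
  have h8 : ‖(⟨(o⁻¹ * o').1 0 0 - 1, a N * ((o⁻¹ * o').1 1 0 * a N)⟩ : ℂ)‖ ≤ 2 * η := by linarith
  have h9 := mul_le_mul_of_nonneg_left h8 hc0.le
  linarith

end H37abf
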