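import Pool.Agent.H.MP_abf1f1_an.B2b

/-! MP_abf1f1_an, module B: the generators of the stabilisers. -/

set_option autoImplicit false

open scoped Topology Pointwise
open Set Filter MeasureTheory

namespace H37abf

variable {Γ : Subgroup SL2} {Λ : Set ℂ}

/-- The smallest positive `t` with `unip v t ∈ Γ`. -/
noncomputable def al (Γ : Subgroup SL2) (v : ℂ) : ℝ := sInf {t : ℝ | 0 < t ∧ unip v t ∈ Γ}

/-- discreteness: `1` is isolated -/
theorem B3_nhds {G : Type*} [Group G] [TopologicalSpace G] (Γ : Subgroup G) [DiscreteTopology Γ] :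
    ∃ U : Set G, IsOpen U ∧ (1 : G) ∈ U ∧ ∀ γ ∈ Γ, γ ∈ U → γ = 1 := by
  have h1 : IsOpen ({1} : Set Γ) := isOpen_discrete _
  obtain ⟨W, hW, hWe⟩ := isOpen_induced_iff.1 h1
  have h1W : (1 : G) ∈ W := by
    have h2 : (1 : Γ) ∈ (Subtype.val ⁻¹' W : Set Γ) := by rw [hWe]; exact Set.mem_singleton _
    exact h2
  refine ⟨W, hW, h1W, ?_⟩
  intro γ hγ hγW
  have h4 : (⟨γ, hγ⟩ : Γ) ∈ (Subtype.val ⁻¹' W : Set Γ) := hγW
  rw [hWe] at h4
  exact congrArg Subtype.val (Set.mem_singleton_iff.1 h4)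

/-- PROOF. `A = {t | unip v t ∈ Γ}` is an additive subgroup of `ℝ` (`unip_add`), not `0` by `exists_stab`
and `eq_unip_of_fix`; as `unip v t → 1` for `t → 0` and `Γ` is discrete there is `ε > 0` with no element
of `A` in `(0, ε)`. So `A` is generated by its smallest positive element
(`AddSubgroup.exists_isLeast_pos`, `AddSubgroup.cyclic_of_isolated_zero`), which is `al Γ v`. -/
theorem Core.al_spec (h : Core Γ Λ) {v : ℂ} (hv : v ∈ Λ) : 0 < al Γ v ∧
    ∀ t, unip v t ∈ Γ ↔ ∃ k : ℤ, t = k * al Γ v := by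
  have hv0 : v ≠ 0 := by
    intro h0
    rw [h0] at hv
    exact h.ne hv
  let A : AddSubgroup ℝ :=
    { carrier := {t | unip v t ∈ Γ}
      add_mem' := fun {a b} ha hb => by
        change unip v (a + b) ∈ Γ
        rw [unip_add]
        exact Γ.mul_mem ha hb
      zero_mem' := by
        change unip v 0 ∈ Γ
        rw [unip_zero]
        exact Γ.one_mem
      neg_mem' := fun {a} ha => by
        change unip v (-a) ∈ Γ
        rw [unip_neg]
        exact Γ.inv_mem ha }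
  have hmem : ∀ t, t ∈ A ↔ unip v t ∈ Γ := fun t => Iff.rfl
  have hbot : A ≠ ⊥ := by
    obtain ⟨γ, hγ, hγ1, hfix⟩ := h.exists_stab hv
    obtain ⟨t, rfl⟩ := eq_unip_of_fix hv0 hfix
    intro hA
    have ht : t ∈ A := hγ
    rw [hA, AddSubgroup.mem_bot] at ht
    rw [ht, unip_zero] at hγ1
    exact hγ1 rfl
  have hdisc := h.disc
  obtain ⟨U, hU, h1U, hUΓ⟩ := B3_nhds Γ
  have hpre : IsOpen ((fun t : ℝ => unip v t) ⁻¹' U) := hU.preimage (continuous_unip v)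
  have h0 : (0 : ℝ) ∈ (fun t : ℝ => unip v t) ⁻¹' U := by
    change unip v 0 ∈ U
    rw [unip_zero]
    exact h1U
  obtain ⟨ε, hε, hball⟩ := Metric.isOpen_iff.1 hpre 0 h0
  have hd : Disjoint (A : Set ℝ) (Ioo 0 ε) := by
    rw [Set.disjoint_left]
    intro t ht ht2
    have h3 : t ∈ Metric.ball (0 : ℝ) ε := by
      rw [Metric.mem_ball, Real.dist_eq, sub_zero, abs_of_pos ht2.1]
      exact ht2.2
    have h4 : unip v t ∈ U := hball h3
    have h5 : unip v t = 1 := hUΓ _ ht h4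
    exact ht2.1.ne' (unip_eq_one hv0 h5)
  obtain ⟨b, hb⟩ := AddSubgroup.exists_isLeast_pos hbot hε hd
  have hal : al Γ v = b := by
    unfold al
    have h6 : {t : ℝ | 0 < t ∧ unip v t ∈ Γ} = {g : ℝ | g ∈ A ∧ 0 < g} := by
      ext t
      rw [Set.mem_ofPred_eq, Set.mem_ofPred_eq, hmem]
      exact and_comm
    rw [h6]
    exact hb.csInf_eq
  have hA := AddSubgroup.cyclic_of_min hb
  rw [hal]
  refine ⟨hb.1.2, fun t => ?_⟩
  rw [← hmem, hA, AddSubgroup.mem_closure_singleton]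
  constructor
  · rintro ⟨k, rfl⟩
    exact ⟨k, by rw [zsmul_eq_mul]⟩
  · rintro ⟨k, rfl⟩
    exact ⟨k, by rw [zsmul_eq_mul]⟩

/-- PROOF. `al_spec`, `eq_unip_of_fix`, `act_unip`. -/
theorem Core.fix_iff (h : Core Γ Λ) {v : ℂ} (hv : v ∈ Λ) (γ : SL2) :
    (γ ∈ Γ ∧ act γ v = v) ↔ ∃ k : ℤ, γ = unip v (k * al Γ v) := by
  have hv0 : v ≠ 0 := by
    intro h0
    rw [h0] at hv
    exact h.ne hv
  constructor
  · rintro ⟨hγ, hfix⟩
    obtain ⟨t, rfl⟩ := eq_unip_of_fix hv0 hfix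
    obtain ⟨k, rfl⟩ := ((h.al_spec hv).2 t).1 hγ
    exact ⟨k, rfl⟩
  · rintro ⟨k, rfl⟩
    refine ⟨((h.al_spec hv).2 _).2 ⟨k, rfl⟩, ?_⟩
    rw [act_unip, cr_self]
    simp

/-- PROOF. `unip_conj`: the sets in the definition are equal. -/
theorem al_act {γ : SL2} (hγ : γ ∈ Γ) (v : ℂ) : al Γ (act γ v) = al Γ v := by
  unfold al
  congr 1
  ext t
  rw [Set.mem_ofPred_eq, Set.mem_ofPred_eq, ← unip_conj]
  have h1 : γ * unip v t * γ⁻¹ ∈ Γ ↔ unip v t ∈ Γ := by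
    constructor
    · intro h2
      have h3 := Γ.mul_mem (Γ.mul_mem (Γ.inv_mem hγ) h2) hγ
      have h4 : γ⁻¹ * (γ * unip v t * γ⁻¹) * γ = unip v t := by group
      rw [h4] at h3
      exact h3
    · intro h2
      exact Γ.mul_mem (Γ.mul_mem hγ h2) (Γ.inv_mem hγ)
  rw [h1]

/-- PROOF. `unip_smul`; scaling of an infimum. -/
theorem al_smul {c : ℝ} (hc : c ≠ 0) (v : ℂ) : al Γ (c * v) = al Γ v / c ^ 2 := by
  have hc2 : 0 < c ^ 2 := by positivity
  unfold al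
  have h1 : {t : ℝ | 0 < t ∧ unip (c * v) t ∈ Γ}
      = (c ^ 2)⁻¹ • {t : ℝ | 0 < t ∧ unip v t ∈ Γ} := by
    ext t
    rw [Set.mem_smul_set_iff_inv_smul_mem₀ (inv_ne_zero hc2.ne'), inv_inv, smul_eq_mul,
      Set.mem_ofPred_eq, Set.mem_ofPred_eq, unip_smul]
    have h2 : 0 < c ^ 2 * t ↔ 0 < t := by
      constructor
      · intro h3
        exact (mul_pos_iff_of_pos_left hc2).1 h3
      · intro h3
        positivity
    rw [h2]
  rw [h1, Real.sInf_smul_of_nonneg (inv_nonneg.2 hc2.le), smul_eq_mul]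
  ring

end H37abf
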