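import Pool.Agent.H.MP_abf1f1_an.B3

/-! MP_abf1f1_an, module B: the generators of the stabilisers. -/

set_option autoImplicit false

open scoped Topology
open Set Filter MeasureTheory

namespace H37abf

variable {Γ : Subgroup SL2} {Λ : Set ℂ}

/-- conjugation of `nn s` by an element of the group -/
theorem B3b_conj (B : SL2) (s : ℝ) : ((B * nn s * B⁻¹ : SL2) : Matrix (Fin 2) (Fin 2) ℝ) =
    !![1 - B.1 0 0 * (B.1 1 0 * s), B.1 0 0 ^ 2 * s; -(B.1 1 0 * s * B.1 1 0),
      1 + B.1 0 0 * (B.1 1 0 * s)] := by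
  have hdet : B.1 0 0 * B.1 1 1 - B.1 0 1 * B.1 1 0 = 1 := by
    have h := B.2
    rwa [Matrix.det_fin_two] at h
  rw [Matrix.SpecialLinearGroup.coe_mul, Matrix.SpecialLinearGroup.coe_mul, coe_nn,
    Matrix.SpecialLinearGroup.coe_inv, Matrix.adjugate_fin_two]
  ext i j
  fin_cases i <;> fin_cases j <;>
    simp [Matrix.mul_apply, Fin.sum_univ_two] <;> linarith [hdet]

/-- the iteration in the proof of the lemma of Shimizu -/
noncomputable def B3b_seq (s : ℝ) (B : SL2) : ℕ → SL2
  | 0 => B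
  | n + 1 => B3b_seq s B n * nn s * (B3b_seq s B n)⁻¹

theorem B3b_tendsto (s : ℝ) (B : SL2) (hc : |B.1 1 0 * s| < 1) :
    Tendsto (B3b_seq s B) atTop (𝓝 (nn s)) := by
  set a : ℕ → ℝ := fun n => (B3b_seq s B n).1 0 0 with ha
  set c : ℕ → ℝ := fun n => (B3b_seq s B n).1 1 0 with hcd
  have hM : ∀ n, ((B3b_seq s B (n + 1)) : Matrix (Fin 2) (Fin 2) ℝ) =
      !![1 - a n * (c n * s), a n ^ 2 * s; -(c n * s * c n), 1 + a n * (c n * s)] := by
    intro n
    exact B3b_conj (B3b_seq s B n) s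
  have ha1 : ∀ n, a (n + 1) = 1 - a n * (c n * s) := by
    intro n
    have := congrFun (congrFun (hM n) 0) 0
    simpa using this
  have hc1 : ∀ n, c (n + 1) = -(c n * s * c n) := by
    intro n
    have := congrFun (congrFun (hM n) 1) 0
    simpa using this
  set q : ℝ := |B.1 1 0 * s| with hq
  have hq0 : 0 ≤ q := abs_nonneg _
  have hx0 : |c 0 * s| = q := rfl
  have hxs : ∀ n, |c (n + 1) * s| = |c n * s| * |c n * s| := by
    intro n
    rw [hc1, ← abs_mul, ← abs_neg]
    congr 1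
    ring
  have hxq : ∀ n, |c n * s| ≤ q ^ (n + 1) := by
    intro n
    induction n with
    | zero => rw [hx0, zero_add, pow_one]
    | succ n ih =>
      rw [hxs]
      have h1 : q ^ (n + 1) ≤ q := by
        calc q ^ (n + 1) ≤ q ^ 1 := pow_le_pow_of_le_one hq0 hc.le (by omega)
          _ = q := pow_one q
      calc |c n * s| * |c n * s| ≤ q ^ (n + 1) * q :=
            mul_le_mul ih (ih.trans h1) (abs_nonneg _) (pow_nonneg hq0 _)
        _ = q ^ (n + 1 + 1) := (pow_succ q (n + 1)).symm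
  have hx : Tendsto (fun n => c n * s) atTop (𝓝 0) := by
    refine squeeze_zero_norm (a := fun n => q ^ (n + 1)) (fun n => ?_) ?_
    · rw [Real.norm_eq_abs]
      exact hxq n
    · exact (tendsto_pow_atTop_nhds_zero_of_lt_one hq0 hc).comp (tendsto_add_atTop_nat 1)
  -- the upper left entries are bounded
  obtain ⟨M, hM0, hMa, hMq⟩ : ∃ M : ℝ, 0 ≤ M ∧ |a 0| ≤ M ∧ 1 + M * q ≤ M := by
    refine ⟨max |a 0| (1 / (1 - q)), (abs_nonneg _).trans (le_max_left _ _), le_max_left _ _, ?_⟩
    have h1 : 0 < 1 - q := by linarith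
    have h2 : 1 / (1 - q) ≤ max |a 0| (1 / (1 - q)) := le_max_right _ _
    rw [div_le_iff₀ h1] at h2
    linarith
  have hab : ∀ n, |a n| ≤ M := by
    intro n
    induction n with
    | zero => exact hMa
    | succ n ih =>
      rw [ha1]
      have h1 : |c n * s| ≤ q := by
        refine (hxq n).trans ?_
        calc q ^ (n + 1) ≤ q ^ 1 := pow_le_pow_of_le_one hq0 hc.le (by omega)
          _ = q := pow_one q
      calc |1 - a n * (c n * s)| ≤ |1| + |a n * (c n * s)| := abs_sub _ _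
        _ = 1 + |a n| * |c n * s| := by rw [abs_one, abs_mul]
        _ ≤ 1 + M * q := by
          have := mul_le_mul ih h1 (abs_nonneg _) hM0
          linarith
        _ ≤ M := hMq
  have hac : Tendsto (fun n => a n * (c n * s)) atTop (𝓝 0) := by
    refine squeeze_zero_norm (a := fun n => M * |c n * s|) (fun n => ?_) ?_
    · rw [norm_mul, Real.norm_eq_abs, Real.norm_eq_abs]
      exact mul_le_mul_of_nonneg_right (hab n) (abs_nonneg _)
    · have := hx.abs.const_mul M
      simpa using this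
  have ha2 : Tendsto (fun n => a (n + 1)) atTop (𝓝 1) := by
    have h1 := hac.const_sub 1
    rw [sub_zero] at h1
    exact h1.congr fun n => (ha1 n).symm
  have ha3 : Tendsto a atTop (𝓝 1) := (tendsto_add_atTop_iff_nat 1).1 ha2
  have hcc : Tendsto c atTop (𝓝 0) := by
    by_cases hs : s = 0
    · have : ∀ n, c (n + 1) = 0 := by
        intro n
        rw [hc1, hs]
        ring
      refine (tendsto_add_atTop_iff_nat 1).1 ?_
      exact tendsto_const_nhds.congr fun n => (this n).symm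
    · have h1 := hx.div_const s
      rw [zero_div] at h1
      exact h1.congr fun n => by rw [mul_div_assoc, div_self hs, mul_one]
  refine (tendsto_add_atTop_iff_nat 1).1 ?_
  refine tendsto_subtype_rng.2 ?_
  refine tendsto_pi_nhds.2 fun i => tendsto_pi_nhds.2 fun j => ?_
  have key : ∀ n, ((B3b_seq s B (n + 1)) : Matrix (Fin 2) (Fin 2) ℝ) i j =
      !![1 - a n * (c n * s), a n ^ 2 * s; -(c n * s * c n), 1 + a n * (c n * s)] i j := by
    intro n
    rw [hM n]
  refine Tendsto.congr (fun n => (key n).symm) ?_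
  rw [coe_nn]
  fin_cases i <;> fin_cases j
  · simpa using hac.const_sub 1
  · have := (ha3.pow 2).mul_const s
    simpa using this
  · have := (hx.mul hcc).neg
    simpa using this
  · simpa using hac.const_add 1

/-- Shimizu's lemma. PROOF. Let `c = B 1 0`; suppose `|c s| < 1`. Let `B₀ = B`,
`B_{n+1} = B_n (nn s) B_n⁻¹ ∈ Γ`. If `B_n = [[a, b], [c, d]]` then
`B_{n+1} = [[1 - a c s, a² s], [-c² s, 1 + a c s]]`. So `c_{n+1} s = - (c_n s)²`: `c_n s → 0`, `c_n ≠ 0`, and
`|a_{n+1}| ≤ 1 + |a_n| |c_n s|` is bounded, so `a_n → 1`, and `B_n → nn s`. As `Γ` is discrete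
`B_n = nn s` for large `n` (`B_n (nn s)⁻¹ → 1`), so `c_n = 0`: contradiction. -/
theorem shimizu_aux [DiscreteTopology Γ] {s : ℝ} (hs : s ≠ 0) (h : nn s ∈ Γ) {B : SL2} (hB : B ∈ Γ)
    (hc : B.1 1 0 ≠ 0) : 1 ≤ |B.1 1 0 * s| := by
  by_contra hlt
  rw [not_le] at hlt
  have hmem : ∀ n, B3b_seq s B n ∈ Γ := by
    intro n
    induction n with
    | zero => exact hB
    | succ n ih => exact Γ.mul_mem (Γ.mul_mem ih h) (Γ.inv_mem ih)
  have hne : ∀ n, (B3b_seq s B n).1 1 0 ≠ 0 := by
    intro n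
    induction n with
    | zero => exact hc
    | succ n ih =>
      have h1 : (B3b_seq s B (n + 1)).1 1 0 =
          -((B3b_seq s B n).1 1 0 * s * (B3b_seq s B n).1 1 0) := by
        have := congrFun (congrFun (B3b_conj (B3b_seq s B n) s) 1) 0
        exact this
      rw [h1]
      exact neg_ne_zero.2 (mul_ne_zero (mul_ne_zero ih hs) ih)
  have ht := B3b_tendsto s B hlt
  have ht' : Tendsto (fun n => (⟨B3b_seq s B n, hmem n⟩ : Γ)) atTop (𝓝 ⟨nn s, h⟩) := by
    rw [tendsto_subtype_rng]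
    exact ht
  rw [nhds_discrete, tendsto_pure] at ht'
  obtain ⟨n, hn⟩ := ht'.exists
  have h2 : B3b_seq s B n = nn s := congrArg Subtype.val hn
  apply hne n
  rw [h2, coe_nn]
  simp

/-- PROOF. Let `C` with `act C v = 1` and apply `shimizu_aux` to the conjugate group `C Γ C⁻¹`
(`Γ.map (MulAut.conj C).toMonoidHom`, also discrete), which contains `C (unip v s) C⁻¹ = nn s` and
`B = C (unip w t) C⁻¹ = unip (act C w) t`, with `B 1 0 = - t (act C w).im ^ 2`, and
`(act C w).im = cr 1 (act C w) = cr v w`. -/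
theorem shimizu [DiscreteTopology Γ] {v w : ℂ} (hv : v ≠ 0) {s t : ℝ} (hs : unip v s ∈ Γ)
    (ht : unip w t ∈ Γ) (hs0 : s ≠ 0) (ht0 : t ≠ 0) (hc : cr v w ≠ 0) :
    1 ≤ |s * t| * cr v w ^ 2 := by
  obtain ⟨C, hC⟩ := exists_act_eq_one hv
  set Γ' : Subgroup SL2 := Γ.map (MulAut.conj C).toMonoidHom with hΓ'
  have hmem : ∀ g : SL2, g ∈ Γ' → C⁻¹ * g * C ∈ Γ := by
    intro g hg
    rw [hΓ', Subgroup.mem_map] at hg
    obtain ⟨x, hx, rfl⟩ := hg
    have : C⁻¹ * ((MulAut.conj C).toMonoidHom x) * C = x := by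
      show C⁻¹ * (C * x * C⁻¹) * C = x
      group
    rw [this]
    exact hx
  have hmem' : ∀ x ∈ Γ, C * x * C⁻¹ ∈ Γ' := by
    intro x hx
    rw [hΓ', Subgroup.mem_map]
    exact ⟨x, hx, rfl⟩
  have : DiscreteTopology Γ' := by
    refine DiscreteTopology.of_continuous_injective (β := Γ)
      (f := fun x => ⟨C⁻¹ * x.1 * C, hmem x.1 x.2⟩) ?_ ?_
    · refine Continuous.subtype_mk ?_ _
      exact (continuous_const.mul continuous_subtype_val).mul continuous_const
    · intro x y hxy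
      have h1 : C⁻¹ * x.1 * C = C⁻¹ * y.1 * C := congrArg Subtype.val hxy
      apply Subtype.ext
      have h2 := mul_right_cancel h1
      exact mul_left_cancel h2
  have h1 : nn s ∈ Γ' := by
    have := hmem' _ hs
    rwa [unip_conj, hC, unip_one] at this
  have h2 : unip (act C w) t ∈ Γ' := by
    have := hmem' _ ht
    rwa [unip_conj] at this
  have h3 : (act C w).im = cr v w := by
    rw [← cr_act C v w, hC]
    simp [cr]
  have h4 : (unip (act C w) t).1 1 0 = -(t * cr v w ^ 2) := by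
    rw [← h3]
    simp [unip]
  have h5 : (unip (act C w) t).1 1 0 ≠ 0 := by
    rw [h4]
    exact neg_ne_zero.2 (mul_ne_zero ht0 (pow_ne_zero 2 hc))
  have h6 := shimizu_aux (Γ := Γ') hs0 h1 h2 h5
  rw [h4] at h6
  have h7 : |-(t * cr v w ^ 2) * s| = |s * t| * cr v w ^ 2 := by
    have h8 : -(t * cr v w ^ 2) * s = -((s * t) * cr v w ^ 2) := by ring
    rw [h8, abs_neg, abs_mul, abs_of_nonneg (sq_nonneg (cr v w))]
  rwa [h7] at h6

end H37abf
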