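import Pool.Agent.H.MP_abf1f1_an.F2c

/-!
# Module F2d: the frontier of a flow box is a null set
-/

namespace H37abf

open MeasureTheory Matrix Filter Topology
open scoped ENNReal Pointwise

/-- matrix entries are continuous -/
theorem f2d_cont (i j : Fin 2) : Continuous (fun g : SL2 => g.1 i j) :=
  (continuous_apply_apply i j).comp f2a_closed.continuous

/-- the inverse chart -/
noncomputable def f2d_kap (g : SL2) : ℝ × ℝ × ℝ := (g.1 1 0 / g.1 0 0, g.1 0 0, g.1 0 1)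

theorem f2d_kap_cont : ContinuousOn f2d_kap {g : SL2 | g.1 0 0 ≠ 0} := by
  refine ContinuousOn.prodMk ?_ (ContinuousOn.prodMk ?_ ?_)
  · exact (f2d_cont 1 0).continuousOn.div (f2d_cont 0 0).continuousOn fun g hg => hg
  · exact (f2d_cont 0 0).continuousOn
  · exact (f2d_cont 0 1).continuousOn

theorem f2d_open : IsOpen {g : SL2 | g.1 0 0 ≠ 0} :=
  isOpen_ne_fun (f2d_cont 0 0) continuous_const

theorem f2d_kap_Phi {q : ℝ × ℝ × ℝ} (h : q.2.1 ≠ 0) :
    (Phi q).1 0 0 ≠ 0 ∧ f2d_kap (Phi q) = q := by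
  have e := coe_Phi h
  have e00 : (Phi q).1 0 0 = q.2.1 := by
    rw [e]; simp
  have e01 : (Phi q).1 0 1 = q.2.2 := by
    rw [e]; simp
  have e10 : (Phi q).1 1 0 = q.1 * q.2.1 := by
    rw [e]; simp
  refine ⟨by rw [e00]; exact h, ?_⟩
  unfold f2d_kap
  rw [e00, e01, e10, mul_div_cancel_right₀ _ h]

theorem f2d_closure_ge {B : Set (ℝ × ℝ)} {ε : ℝ} (h0 : ∀ q ∈ B, ε ≤ q.1) :
    ∀ q ∈ closure B, ε ≤ q.1 := by
  intro q hq
  have hc : IsClosed {q : ℝ × ℝ | ε ≤ q.1} := isClosed_le continuous_const continuous_fst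
  exact hc.closure_subset_iff.2 (fun x hx => h0 x hx) hq

/-- the exceptional set in coordinates -/
theorem f2d_null {δ : ℝ} {B : Set (ℝ × ℝ)} (hf : volume (frontier B) = 0) :
    volume ((Set.Icc 0 δ ×ˢ closure B) \ (Set.Ioo 0 δ ×ˢ interior B) : Set (ℝ × ℝ × ℝ)) = 0 := by
  have hsub : ((Set.Icc 0 δ ×ˢ closure B) \ (Set.Ioo 0 δ ×ˢ interior B) : Set (ℝ × ℝ × ℝ)) ⊆
      (({0} : Set ℝ) ×ˢ (Set.univ : Set (ℝ × ℝ))) ∪ ((({δ} : Set ℝ) ×ˢ (Set.univ : Set (ℝ × ℝ))) ∪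
        ((Set.univ : Set ℝ) ×ˢ frontier B)) := by
    rintro ⟨u, p⟩ ⟨⟨hu, hp⟩, hn⟩
    simp only [Set.mem_prod, Set.mem_Ioo, not_and, Set.mem_Icc] at hu hp hn
    simp only [Set.mem_union, Set.mem_prod, Set.mem_singleton_iff, Set.mem_univ, and_true, true_and]
    by_cases h1 : u = 0
    · exact Or.inl h1
    by_cases h2 : u = δ
    · exact Or.inr (Or.inl h2)
    refine Or.inr (Or.inr ⟨hp, hn ⟨lt_of_le_of_ne hu.1 (Ne.symm h1), lt_of_le_of_ne hu.2 h2⟩⟩)
  refine measure_mono_null hsub ?_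
  have e : (volume : Measure (ℝ × ℝ × ℝ)) = (volume : Measure ℝ).prod (volume : Measure (ℝ × ℝ)) := rfl
  rw [e]
  refine measure_union_null ?_ (measure_union_null ?_ ?_)
  · rw [Measure.prod_prod]; simp
  · rw [Measure.prod_prod]; simp
  · rw [Measure.prod_prod, hf]; simp

/-- the frontier of the box (for `C = 1`) -/
theorem f2d_frontier {δ : ℝ} {B : Set (ℝ × ℝ)} (hb : Bornology.IsBounded B) {ε : ℝ} (hε : 0 < ε)
    (h0 : ∀ q ∈ B, ε ≤ q.1) (hf : volume (frontier B) = 0) :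
    muG (frontier (Phi '' (Set.Ico 0 δ ×ˢ B))) = 0 := by
  set N : Set (ℝ × ℝ × ℝ) := (Set.Icc 0 δ ×ˢ closure B) \ (Set.Ioo 0 δ ×ˢ interior B) with hN
  have hge := f2d_closure_ge h0
  have hne : ∀ q ∈ (Set.Icc 0 δ ×ˢ closure B : Set (ℝ × ℝ × ℝ)), q.2.1 ≠ 0 := by
    rintro q ⟨_, hq⟩
    have := hge q.2 hq
    linarith
  have hcomp : IsCompact (Phi '' (Set.Icc 0 δ ×ˢ closure B)) := by
    refine IsCompact.image_of_continuousOn (isCompact_Icc.prod hb.isCompact_closure) ?_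
    exact continuousOn_Phi.mono fun q hq => hne q hq
  have hS : Phi '' (Set.Ico 0 δ ×ˢ B) ⊆ Phi '' (Set.Icc 0 δ ×ˢ closure B) :=
    Set.image_mono (Set.prod_mono Set.Ico_subset_Icc_self subset_closure)
  have hsub : frontier (Phi '' (Set.Ico 0 δ ×ˢ B)) ⊆ Phi '' N := by
    rintro g ⟨hg, hgi⟩
    have hg' := hcomp.isClosed.closure_subset_iff.2 hS hg
    obtain ⟨q, hq, rfl⟩ := hg'
    refine ⟨q, ⟨hq, fun hq' => hgi ?_⟩, rfl⟩
    have hopen : IsOpen ({g : SL2 | g.1 0 0 ≠ 0} ∩ f2d_kap ⁻¹' (Set.Ioo 0 δ ×ˢ interior B)) :=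
      f2d_kap_cont.isOpen_inter_preimage f2d_open (isOpen_Ioo.prod isOpen_interior)
    refine mem_interior.2 ⟨_, ?_, hopen, ?_⟩
    · rintro x ⟨hx, hx'⟩
      refine ⟨f2d_kap x, ⟨Set.Ioo_subset_Ico_self hx'.1, interior_subset hx'.2⟩, ?_⟩
      exact Phi_chart x hx
    · obtain ⟨h1, h2⟩ := f2d_kap_Phi (hne q hq)
      refine ⟨h1, ?_⟩
      rw [Set.mem_preimage, h2]
      exact hq'
  refine measure_mono_null hsub ?_
  have hNm : MeasurableSet N :=
    (measurableSet_Icc.prod isClosed_closure.measurableSet).diff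
      (measurableSet_Ioo.prod isOpen_interior.measurableSet)
  rw [muG_Phi_image hNm fun q hq => hne q hq.1]
  exact f2d_null hf

/-- The frontier of the box is contained in the image of the frontier of `Ico 0 δ ×ˢ B` in coordinates: the closure of the box
is contained in `Phi '' ([0,δ] × closure B) * C` and its interior contains `Phi '' ((0,δ) × interior B) * C`
(`Phi` restricted to the open set `a ≠ 0` is a homeomorphism onto the open set `g00 ≠ 0`: `Phi_chart`). The remaining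
coordinates `(u,a,b)` have `u = 0`, `u = δ` or `(a,b) ∈ frontier B`: a null set. Use `muG_box`-like formula
`muG_Phi_image` and right invariance. -/
theorem muG_frontier_box {δ : ℝ} {B : Set (ℝ × ℝ)} (hb : Bornology.IsBounded B) {ε : ℝ} (hε : 0 < ε)
    (h0 : ∀ q ∈ B, ε ≤ q.1) (hf : volume (frontier B) = 0) (C : SL2) : muG (frontier (box δ B C)) = 0 := by
  have e : box δ B C = (fun g => g * C⁻¹) ⁻¹' (Phi '' (Set.Ico 0 δ ×ˢ B)) := by
    unfold box
    rw [Set.image_mul_right]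
  have e2 : frontier (box δ B C) = (fun g => g * C⁻¹) ⁻¹' frontier (Phi '' (Set.Ico 0 δ ×ˢ B)) := by
    rw [e]
    exact ((Homeomorph.mulRight C⁻¹).preimage_frontier _).symm
  rw [e2, measure_preimage_mul_right]
  exact f2d_frontier hb hε h0 hf

end H37abf
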