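import Pool.Agent.H.MP_abf1f1_an.B3b
import Pool.Agent.H.MP_abf1f1_an.F2d

/-! MP_abf1f1_an, module B: primitive vectors; finitely many orbits. -/

set_option autoImplicit false

open scoped Topology
open Set Filter MeasureTheory

namespace H37abf

variable {Γ : Subgroup SL2} {Λ : Set ℂ}

/-- The vectors of `Λ` which are shortest in their ray. -/
def pr (Λ : Set ℂ) : Set ℂ := {v ∈ Λ | ∀ c : ℝ, 0 < c → c < 1 → (c : ℂ) * v ∉ Λ}

theorem B4_pair (w w' : ℂ) : ({w, w'} : Set ℂ).encard ≤ 2 := by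
  refine (Set.encard_insert_le {w'} w).trans ?_
  rw [Set.encard_singleton]
  norm_num

theorem Core.B4_ne (h : Core Γ Λ) {v : ℂ} (hv : v ∈ Λ) : v ≠ 0 :=
  fun hc => h.ne (hc ▸ hv)

theorem Core.pr_act (h : Core Γ Λ) {γ : SL2} (hγ : γ ∈ Γ) {v : ℂ} (hv : v ∈ pr Λ) :
    act γ v ∈ pr Λ := by
  refine ⟨h.inv γ hγ v hv.1, fun c hc0 hc1 hc => ?_⟩
  rw [← act_smul] at hc
  have h1 := h.inv γ⁻¹ (Γ.inv_mem hγ) _ hc
  rw [act_inv_act] at h1
  exact hv.2 c hc0 hc1 h1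

/-- PROOF. `fin ‖v‖`: among the finitely many `c v ∈ Λ`, `0 < c ≤ 1`, take the smallest `c`. -/
theorem Core.exists_pr (h : Core Γ Λ) {v : ℂ} (hv : v ∈ Λ) :
    ∃ c : ℝ, 0 < c ∧ c ≤ 1 ∧ (c : ℂ) * v ∈ pr Λ := by
  have hv0 := h.B4_ne hv
  set S : Set ℝ := {c : ℝ | 0 < c ∧ c ≤ 1 ∧ (c : ℂ) * v ∈ Λ} with hS
  have hfin : S.Finite := by
    refine Set.Finite.of_finite_image (f := fun c : ℝ => (c : ℂ) * v) ((h.fin ‖v‖).subset ?_) ?_
    · rintro _ ⟨c, ⟨hc0, hc1, hc⟩, rfl⟩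
      refine ⟨hc, ?_⟩
      show ‖(c : ℂ) * v‖ ≤ ‖v‖
      rw [norm_mul, Complex.norm_real, Real.norm_eq_abs, abs_of_pos hc0]
      exact mul_le_of_le_one_left (norm_nonneg _) hc1
    · intro c _ c' _ e
      have e' : (c : ℂ) * v = (c' : ℂ) * v := e
      exact_mod_cast mul_right_cancel₀ hv0 e'
  have hne : S.Nonempty := ⟨1, one_pos, le_refl 1, by simpa using hv⟩
  obtain ⟨c, hcS, hmin⟩ := Set.exists_min_image S id hfin hne
  refine ⟨c, hcS.1, hcS.2.1, hcS.2.2, fun d hd0 hd1 hd => ?_⟩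
  have h1 : d * c ∈ S := by
    refine ⟨mul_pos hd0 hcS.1, mul_le_one₀ hd1.le hcS.1.le hcS.2.1, ?_⟩
    push_cast
    rw [mul_assoc]
    exact hd
  have h2 : c ≤ d * c := hmin _ h1
  have h3 := hcS.1
  nlinarith

/-- PROOF. `eq_smul_of_cr`: `w = c v`, `c ≠ 0`. If `c > 0` then `c < 1` and `c > 1` (`v = c⁻¹ w`) are
excluded by primitivity. -/
theorem Core.pr_parallel (h : Core Γ Λ) {v w : ℂ} (hv : v ∈ pr Λ) (hw : w ∈ pr Λ)
    (hc : cr v w = 0) : w = v ∨ ∃ c : ℝ, c < 0 ∧ w = c * v := by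
  have hv0 := h.B4_ne hv.1
  have hw0 := h.B4_ne hw.1
  obtain ⟨c, rfl⟩ := eq_smul_of_cr hv0 hc
  rcases lt_trichotomy c 0 with h1 | h1 | h1
  · exact Or.inr ⟨c, h1, rfl⟩
  · exfalso
    apply hw0
    rw [h1]
    simp
  · left
    rcases lt_trichotomy c 1 with h2 | h2 | h2
    · exact absurd hw.1 (hv.2 c h1 h2)
    · rw [h2]
      simp
    · exfalso
      refine hw.2 c⁻¹ (inv_pos.2 h1) (inv_lt_one_of_one_lt₀ h2) ?_
      have h3 : ((c⁻¹ : ℝ) : ℂ) * ((c : ℂ) * v) = v := by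
        rw [← mul_assoc, ← Complex.ofReal_mul, inv_mul_cancel₀ h1.ne']
        simp
      rw [h3]
      exact hv.1

theorem Core.B4_unip_mem (h : Core Γ Λ) {v : ℂ} (hv : v ∈ Λ) : unip v (al Γ v) ∈ Γ :=
  ((h.al_spec hv).2 _).2 ⟨1, by simp⟩

theorem Core.B4_cr (h : Core Γ Λ) (g : SL2) {w w' : ℂ} (hw : w ∈ pr Λ) (hw' : w' ∈ pr Λ)
    (h1 : al Γ w * ‖act g w‖ ^ 2 < 1) (h2 : al Γ w' * ‖act g w'‖ ^ 2 < 1) : cr w w' = 0 := by
  have := h.disc
  by_contra hc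
  have a1 := (h.al_spec hw.1).1
  have a2 := (h.al_spec hw'.1).1
  have h3 := shimizu (h.B4_ne hw.1) (h.B4_unip_mem hw.1) (h.B4_unip_mem hw'.1) a1.ne' a2.ne' hc
  rw [abs_of_pos (mul_pos a1 a2)] at h3
  have h4 : cr w w' ^ 2 ≤ ‖act g w‖ ^ 2 * ‖act g w'‖ ^ 2 := by
    rw [← cr_act g w w', ← mul_pow, ← sq_abs]
    exact pow_le_pow_left₀ (abs_nonneg _) (abs_cr_le _ _) 2
  have h5 : al Γ w * al Γ w' * cr w w' ^ 2 ≤
      (al Γ w * ‖act g w‖ ^ 2) * (al Γ w' * ‖act g w'‖ ^ 2) := by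
    calc al Γ w * al Γ w' * cr w w' ^ 2
        ≤ al Γ w * al Γ w' * (‖act g w‖ ^ 2 * ‖act g w'‖ ^ 2) :=
          mul_le_mul_of_nonneg_left h4 (mul_pos a1 a2).le
      _ = _ := by ring
  have h6 : (al Γ w * ‖act g w‖ ^ 2) * (al Γ w' * ‖act g w'‖ ^ 2) < 1 :=
    mul_lt_one_of_nonneg_of_lt_one_left (by positivity) h1 h2.le
  linarith

/-- PROOF. If `w, w'` are in the set and not parallel then by `shimizu`, `al_spec`, `cr_act`, `abs_cr_le`:
`1 ≤ al w * al w' * (cr (act g w) (act g w'))² ≤ (al w * |act g w|²) (al w' * |act g w'|²) < 1`. So all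
elements are pairwise parallel, and by `pr_parallel` three different elements are impossible. -/
theorem Core.encard_le_two (h : Core Γ Λ) (g : SL2) :
    {w ∈ pr Λ | al Γ w * ‖act g w‖ ^ 2 < 1}.encard ≤ 2 := by
  set S : Set ℂ := {w ∈ pr Λ | al Γ w * ‖act g w‖ ^ 2 < 1} with hS
  rcases S.eq_empty_or_nonempty with he | ⟨w, hw⟩
  · rw [he, Set.encard_empty]
    exact zero_le
  by_cases hex : ∃ w' ∈ S, w' ≠ w
  · obtain ⟨w', hw', hne⟩ := hex
    have hsub : S ⊆ {w, w'} := by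
      intro x hx
      rw [Set.mem_insert_iff, Set.mem_singleton_iff]
      rcases h.pr_parallel hw.1 hx.1 (h.B4_cr g hw.1 hx.1 hw.2 hx.2) with h1 | ⟨c, hc, h1⟩
      · exact Or.inl h1
      rcases h.pr_parallel hw.1 hw'.1 (h.B4_cr g hw.1 hw'.1 hw.2 hw'.2) with h2 | ⟨d, hd, h2⟩
      · exact absurd h2 hne
      rcases h.pr_parallel hw'.1 hx.1 (h.B4_cr g hw'.1 hx.1 hw'.2 hx.2) with h3 | ⟨e, he, h3⟩
      · exact Or.inr h3
      · exfalso
        rw [h1, h2, ← mul_assoc, ← Complex.ofReal_mul] at h3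
        have h4 := mul_right_cancel₀ (h.B4_ne hw.1.1) h3
        have h5 : c = e * d := by exact_mod_cast h4
        nlinarith [mul_pos_of_neg_of_neg he hd]
    exact (Set.encard_le_encard hsub).trans (B4_pair w w')
  · push Not at hex
    have hsub : S ⊆ {w} := fun x hx => Set.mem_singleton_iff.2 (hex x hx)
    refine (Set.encard_le_encard hsub).trans ?_
    rw [Set.encard_singleton]
    norm_num

end H37abf
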