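import Pool.Agent.H.MP_abf1f1_an.B4

/-! MP_abf1f1_an, module B: primitive vectors; finitely many orbits. -/

set_option autoImplicit false

open scoped Topology
open Set Filter MeasureTheory

namespace H37abf

variable {Γ : Subgroup SL2} {Λ : Set ℂ}

/-- The set of the `(a, b)` with `1/4 < √α a < 1/2`, `0 ≤ b < a α`. -/
def Bx (α : ℝ) : Set (ℝ × ℝ) :=
  {q | 1 / 4 < √α * q.1 ∧ √α * q.1 < 1 / 2 ∧ 0 ≤ q.2 ∧ q.2 < q.1 * α}

theorem measurableSet_Bx (α : ℝ) : MeasurableSet (Bx α) := by
  have h1 : Measurable fun q : ℝ × ℝ => √α * q.1 := measurable_const.mul measurable_fst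
  have h2 : Measurable fun q : ℝ × ℝ => q.1 * α := measurable_fst.mul measurable_const
  exact (measurableSet_lt measurable_const h1).inter ((measurableSet_lt h1 measurable_const).inter
    ((measurableSet_le measurable_const measurable_snd).inter (measurableSet_lt measurable_snd h2)))

/-- The area of the set `Bx`, by Fubini. -/
theorem volume_Bx {α : ℝ} (hα : 0 < α) : volume (Bx α) = ENNReal.ofReal (3 / 32) := by
  have hs : 0 < √α := Real.sqrt_pos.2 hα
  have hss : √α * √α = α := Real.mul_self_sqrt hα.le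
  have hsec : ∀ a : ℝ, volume (Prod.mk a ⁻¹' Bx α) =
      (Ioo (1 / (4 * √α)) (1 / (2 * √α))).indicator (fun a => ENNReal.ofReal (a * α)) a := by
    intro a
    by_cases ha : a ∈ Ioo (1 / (4 * √α)) (1 / (2 * √α))
    · rw [indicator_of_mem ha]
      have h1 : Prod.mk a ⁻¹' Bx α = Ico 0 (a * α) := by
        ext b
        simp only [Bx, mem_preimage, mem_ofPred_eq, mem_Ico]
        have h2 : 1 / 4 < √α * a := by
          have := ha.1
          rw [div_lt_iff₀ (by positivity)] at this
          linarith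
        have h3 : √α * a < 1 / 2 := by
          have := ha.2
          rw [lt_div_iff₀ (by positivity)] at this
          linarith
        tauto
      rw [h1, Real.volume_Ico, sub_zero]
    · rw [indicator_of_notMem ha]
      have h1 : Prod.mk a ⁻¹' Bx α = ∅ := by
        ext b
        simp only [Bx, mem_preimage, mem_ofPred_eq, mem_empty_iff_false, iff_false]
        rintro ⟨h2, h3, -, -⟩
        refine ha ⟨?_, ?_⟩
        · rw [div_lt_iff₀ (by positivity)]
          linarith
        · rw [lt_div_iff₀ (by positivity)]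
          linarith
      rw [h1, measure_empty]
  have hle : 1 / (4 * √α) ≤ 1 / (2 * √α) := by
    apply one_div_le_one_div_of_le (by positivity)
    linarith
  rw [Measure.volume_eq_prod, Measure.prod_apply (measurableSet_Bx α), lintegral_congr hsec,
    lintegral_indicator measurableSet_Ioo, ← ofReal_integral_eq_lintegral_ofReal]
  · congr 1
    rw [← integral_Ioc_eq_integral_Ioo, ← intervalIntegral.integral_of_le hle,
      intervalIntegral.integral_mul_const, integral_id]
    have h4 : (1 / (2 * √α)) ^ 2 = 1 / (4 * α) := by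
      rw [div_pow, mul_pow, pow_two (√α), hss]
      norm_num
    have h5 : (1 / (4 * √α)) ^ 2 = 1 / (16 * α) := by
      rw [div_pow, mul_pow, pow_two (√α), hss]
      norm_num
    rw [h4, h5]
    field_simp
    norm_num
  · have h6 : IntegrableOn (fun a : ℝ => a * α) (Icc (1 / (4 * √α)) (1 / (2 * √α))) :=
      (continuous_id.mul continuous_const).continuousOn.integrableOn_Icc
    exact h6.mono_set Ioo_subset_Icc_self
  · refine (ae_restrict_iff' measurableSet_Ioo).2 (ae_of_all _ fun a ha => ?_)
    have h7 : 0 < a := lt_trans (by positivity) ha.1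
    exact (mul_pos h7 hα).le

/-- The image vector of an element of the box is short. -/
theorem lt_one_of_mem_box {α : ℝ} (hα : 0 < α) {v : ℂ} {C g γ : SL2} (hC : act C v = 1)
    (h : g * γ ∈ box (1 / 4) (Bx α) C) : α * ‖act g (act γ v)‖ ^ 2 < 1 := by
  obtain ⟨u, a, b, hu0, hu1, ⟨ha1, ha2, -, -⟩, hg⟩ := mem_box.1 h
  simp only at ha1 ha2
  have hs : 0 < √α := Real.sqrt_pos.2 hα
  have hss : √α * √α = α := Real.mul_self_sqrt hα.le
  have ha : 0 < a := by
    by_contra hc
    have : √α * a ≤ 0 := mul_nonpos_of_nonneg_of_nonpos hs.le (not_lt.1 hc)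
    linarith
  rw [← act_comp, hg, act_comp, act_comp, hC, act_pp ha.ne', act_hh, ← Complex.normSq_eq_norm_sq,
    Complex.normSq_mk]
  simp only [Complex.ofReal_re, Complex.ofReal_im, add_zero]
  have h1 : α * (a * a) < 1 / 4 := by
    have : α * (a * a) = (√α * a) * (√α * a) := by
      calc α * (a * a) = √α * √α * (a * a) := by rw [hss]
        _ = (√α * a) * (√α * a) := by ring
    rw [this]
    nlinarith
  have h2 : u * u < 1 / 16 := by nlinarith
  have h3 : 0 < α * (a * a) := by positivity
  have h4 : α * (a * a + u * a * (u * a)) = α * (a * a) * (1 + u * u) := by ring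
  rw [h4]
  nlinarith

/-- An element of the box is determined by the image vector. -/
theorem Core.eq_of_mem_box (h : Core Γ Λ) {v : ℂ} (hv : v ∈ Λ) {C g γ γ' : SL2}
    (hC : act C v = 1) (hγ : γ ∈ Γ) (hγ' : γ' ∈ Γ) (e : act γ v = act γ' v)
    (h1 : g * γ ∈ box (1 / 4) (Bx (al Γ v)) C) (h2 : g * γ' ∈ box (1 / 4) (Bx (al Γ v)) C) :
    γ = γ' := by
  have hα : 0 < al Γ v := (h.al_spec hv).1
  have hs : 0 < √(al Γ v) := Real.sqrt_pos.2 hα
  obtain ⟨u, a, b, -, -, ⟨ha1, ha2, hb0, hb1⟩, hg⟩ := mem_box.1 h1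
  obtain ⟨u', a', b', -, -, ⟨ha1', ha2', hb0', hb1'⟩, hg'⟩ := mem_box.1 h2
  simp only at ha1 ha2 hb0 hb1 ha1' ha2' hb0' hb1'
  have pos : ∀ x : ℝ, 1 / 4 < √(al Γ v) * x → 0 < x := by
    intro x hx
    by_contra hc
    have : √(al Γ v) * x ≤ 0 := mul_nonpos_of_nonneg_of_nonpos hs.le (not_lt.1 hc)
    linarith
  have ha := pos a ha1
  have ha' := pos a' ha1'
  have hfix : act (γ⁻¹ * γ') v = v := by
    rw [act_comp, ← e, act_inv_act]
  obtain ⟨k, hk⟩ := (h.fix_iff hv (γ⁻¹ * γ')).1 ⟨Γ.mul_mem (Γ.inv_mem hγ) hγ', hfix⟩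
  have hk' : γ' = γ * unip v (k * al Γ v) := by
    rw [← hk, mul_inv_cancel_left]
  have hconj : C * unip v (k * al Γ v) = nn (k * al Γ v) * C := by
    have := unip_conj C v (k * al Γ v)
    rw [hC, unip_one] at this
    rw [← this, inv_mul_cancel_right]
  have h3 : hh u * pp a (b + a * (k * al Γ v)) = hh u' * pp a' b' := by
    have h4 : hh u * pp a (b + a * (k * al Γ v)) * C = hh u' * pp a' b' * C := by
      rw [← hg', hk', ← mul_assoc g γ, hg, mul_assoc (hh u * pp a b) C, hconj,
        ← mul_assoc (hh u * pp a b), mul_assoc (hh u) (pp a b), pp_mul_nn ha.ne']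
    exact mul_right_cancel h4
  obtain ⟨-, ha3, hb3⟩ := hh_pp_inj ha.ne' ha'.ne' h3
  subst ha3
  have h5 : (k : ℝ) < 1 := by
    by_contra hc
    have : a * al Γ v ≤ a * (k * al Γ v) := by
      have := mul_le_mul_of_nonneg_left (not_lt.1 hc) (mul_pos ha hα).le
      nlinarith
    linarith
  have h6 : (-1 : ℝ) < k := by
    by_contra hc
    have : a * (k * al Γ v) ≤ -(a * al Γ v) := by
      have := mul_le_mul_of_nonneg_left (not_lt.1 hc) (mul_pos ha hα).le
      nlinarith
    linarith
  have h7 : k = 0 := by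
    have h8 : k < 1 := by exact_mod_cast h5
    have h9 : -1 < k := by exact_mod_cast h6
    omega
  rw [hk', h7]
  simp [unip_zero]

end H37abf
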