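import Pool.Agent.H.MP_abf1f1_an.B4b

/-! MP_abf1f1_an, module B: finitely many orbits of primitive vectors; no small triangles. -/

set_option autoImplicit false

open scoped Topology
open Set Filter MeasureTheory

namespace H37abf

variable {Γ : Subgroup SL2} {Λ : Set ℂ}

theorem B5_bx_ne {α : ℝ} {q : ℝ × ℝ} (h : q ∈ Bx α) : q.1 ≠ 0 := by
  intro h0
  have h1 := h.1
  rw [h0, mul_zero] at h1
  linarith

theorem B5_muG_box {α : ℝ} (hα : 0 < α) (C : SL2) :
    muG (box (1 / 4) (Bx α) C) = ENNReal.ofReal (3 / 128) := by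
  rw [muG_box (by norm_num) (measurableSet_Bx _) (fun q hq => B5_bx_ne hq), volume_Bx hα,
    ← ENNReal.ofReal_mul (by norm_num)]
  norm_num

theorem B5_pairs (h : Core Γ Λ) {m : ℕ} {v : Fin m → ℂ} (hv : ∀ j, v j ∈ pr Λ)
    (hd : ∀ i j, ∀ γ ∈ Γ, act γ (v i) = v j → i = j) {C : Fin m → SL2} (hC : ∀ j, act (C j) (v j) = 1)
    (g : SL2) :
    {p : Fin m × Γ | g * (p.2 : SL2) ∈ box (1 / 4) (Bx (al Γ (v p.1))) (C p.1)}.encard ≤ 2 := by
  refine le_trans ?_ (h.encard_le_two g)
  apply Set.encard_le_encard_of_injOn (f := fun p : Fin m × Γ => act (p.2 : SL2) (v p.1))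
  · intro p hp
    have hvΛ : v p.1 ∈ Λ := (hv p.1).1
    refine ⟨h.pr_act p.2.2 (hv p.1), ?_⟩
    show al Γ (act (p.2 : SL2) (v p.1)) * ‖act g (act (p.2 : SL2) (v p.1))‖ ^ 2 < 1
    rw [al_act p.2.2]
    exact lt_one_of_mem_box (h.al_spec hvΛ).1 (hC p.1) hp
  · rintro ⟨i, γ⟩ hp ⟨j, γ'⟩ hp' e
    simp only at e
    have hij : i = j := by
      apply hd i j ((γ' : SL2)⁻¹ * (γ : SL2)) (Γ.mul_mem (Γ.inv_mem γ'.2) γ.2)
      rw [act_comp, e, act_inv_act]
    subst hij
    have hγ : (γ : SL2) = (γ' : SL2) :=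
      h.eq_of_mem_box (hv i).1 (hC i) γ.2 γ'.2 e hp hp'
    have hγ' : γ = γ' := Subtype.ext hγ
    rw [hγ']

/-- PROOF. Let `C j` with `act (C j) (v j) = 1`, `A j = box (1/4) (Bx (al Γ (v j))) (C j)`, of measure
`3 / 128` (`muG_box`, `volume_Bx`). Let `A = ⋃ j, A j`. For every `g`, `Psi Γ A g ≤ 2`: map `γ` with
`g γ ∈ A` to `act γ (v j)` where `j` is chosen with `g γ ∈ A j`; the image is in the set of
`encard_le_two` (`lt_one_of_mem_box`, `al_act`, `pr_act`), and the map is injective (equal images force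
equal `j` by `hd`, and then `eq_of_mem_box`). Similarly every `g` is in at most two of the `A j`
(`encard_le_two` with `γ = 1`; `v j` are different), so `∑ muG (A j) ≤ 2 muG A`
(`∑ indicator ≤ 2 indicator`, integrate). By `packing` `m * (3/128) ≤ 2 * 2 * muG F`. -/
theorem Core.card_le (h : Core Γ Λ) : ∃ M : ℕ, ∀ (m : ℕ) (v : Fin m → ℂ), (∀ j, v j ∈ pr Λ) →
    (∀ i j, ∀ γ ∈ Γ, act γ (v i) = v j → i = j) → m ≤ M := by
  classical
  haveI := h.disc
  obtain ⟨F, hFm, hFfin, hFcov⟩ := h.cov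
  refine ⟨⌈4 * (muG F).toReal * (128 / 3)⌉₊, ?_⟩
  intro m v hv hd
  have hvΛ : ∀ j, v j ∈ Λ := fun j => (hv j).1
  have hv0 : ∀ j, v j ≠ 0 := fun j h0 => h.ne (h0 ▸ hvΛ j)
  choose C hC using fun j => exists_act_eq_one (hv0 j)
  have hα : ∀ j, 0 < al Γ (v j) := fun j => (h.al_spec (hvΛ j)).1
  set A : Fin m → Set SL2 := fun j => box (1 / 4) (Bx (al Γ (v j))) (C j) with hA
  have hAm : ∀ j, MeasurableSet (A j) := fun j =>
    measurableSet_box (measurableSet_Bx _) (fun q hq => B5_bx_ne hq) _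
  have hAv : ∀ j, muG (A j) = ENNReal.ofReal (3 / 128) := fun j => B5_muG_box (hα j) (C j)
  have hT : ∀ g : SL2, {p : Fin m × Γ | g * (p.2 : SL2) ∈ A p.1}.encard ≤ 2 := fun g =>
    B5_pairs h hv hd hC g
  have h1 : ∀ g, Psi Γ (⋃ j, A j) g ≤ 2 := by
    intro g
    have hS : {γ : Γ | g * (γ : SL2) ∈ ⋃ j, A j} =
        Prod.snd '' {p : Fin m × Γ | g * (p.2 : SL2) ∈ A p.1} := by
      ext γ
      simp only [Set.mem_setOf_eq, Set.mem_iUnion, Set.mem_image, Prod.exists, exists_eq_right]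
    have hle : {γ : Γ | g * (γ : SL2) ∈ ⋃ j, A j}.encard ≤ 2 := by
      rw [hS]
      exact (Set.encard_image_le _ _).trans (hT g)
    have hfin : {γ : Γ | g * (γ : SL2) ∈ ⋃ j, A j}.Finite :=
      Set.finite_of_encard_le_coe (k := 2) (by exact_mod_cast hle)
    rw [Psi_eq_card Γ _ g hfin]
    rw [hfin.encard_eq_coe_toFinset_card] at hle
    have hle2 : hfin.toFinset.card ≤ 2 := by exact_mod_cast hle
    exact_mod_cast hle2
  have hpack : muG (⋃ j, A j) ≤ 2 * muG F :=
    packing Γ hFm hFcov (MeasurableSet.iUnion hAm) h1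
  have h2 : ∀ g : SL2, ∑ j, (A j).indicator (fun _ => (1 : ENNReal)) g ≤
      2 * (⋃ j, A j).indicator (fun _ => (1 : ENNReal)) g := by
    intro g
    by_cases hg : g ∈ ⋃ j, A j
    · rw [Set.indicator_of_mem hg, mul_one]
      have hcount : ∑ j, (A j).indicator (fun _ => (1 : ENNReal)) g =
          ((Finset.univ.filter (fun j => g ∈ A j)).card : ENNReal) := by
        rw [Finset.card_filter]
        push_cast
        apply Finset.sum_congr rfl
        intro j _
        rw [Set.indicator_apply]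
      rw [hcount]
      have himg : ((Finset.univ.filter (fun j => g ∈ A j) : Finset (Fin m)) : Set (Fin m)).encard ≤
          {p : Fin m × Γ | g * (p.2 : SL2) ∈ A p.1}.encard := by
        apply Set.encard_le_encard_of_injOn (f := fun j => (j, (1 : Γ)))
        · intro j hj
          have hj' : g ∈ A j := by simpa using hj
          show g * ((1 : Γ) : SL2) ∈ A j
          rw [OneMemClass.coe_one, mul_one]
          exact hj'
        · intro i _ j _ e
          exact (Prod.mk.inj e).1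
      have hle := himg.trans (hT g)
      rw [Set.encard_coe_eq_coe_finsetCard] at hle
      have hle2 : (Finset.univ.filter (fun j => g ∈ A j)).card ≤ 2 := by exact_mod_cast hle
      exact_mod_cast hle2
    · rw [Set.indicator_of_notMem hg, mul_zero, nonpos_iff_eq_zero]
      apply Finset.sum_eq_zero
      intro j _
      apply Set.indicator_of_notMem
      intro hj
      exact hg (Set.mem_iUnion.mpr ⟨j, hj⟩)
  have h3 : ∑ j, muG (A j) ≤ 2 * muG (⋃ j, A j) := by
    calc ∑ j, muG (A j) = ∑ j, ∫⁻ g, (A j).indicator (fun _ => (1 : ENNReal)) g ∂muG := by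
          apply Finset.sum_congr rfl
          intro j _
          rw [lintegral_indicator (hAm j), setLIntegral_one]
      _ = ∫⁻ g, ∑ j, (A j).indicator (fun _ => (1 : ENNReal)) g ∂muG := by
          rw [lintegral_finset_sum]
          intro j _
          exact measurable_const.indicator (hAm j)
      _ ≤ ∫⁻ g, 2 * (⋃ j, A j).indicator (fun _ => (1 : ENNReal)) g ∂muG := lintegral_mono h2
      _ = 2 * muG (⋃ j, A j) := by
          rw [lintegral_const_mul _ (measurable_const.indicator (MeasurableSet.iUnion hAm)),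
            lintegral_indicator (MeasurableSet.iUnion hAm), setLIntegral_one]
  have h4 : (m : ENNReal) * ENNReal.ofReal (3 / 128) ≤ 4 * muG F := by
    have h5 : ∑ j, muG (A j) = (m : ENNReal) * ENNReal.ofReal (3 / 128) := by
      rw [Finset.sum_congr rfl (fun j _ => hAv j), Finset.sum_const, Finset.card_univ, Fintype.card_fin,
        nsmul_eq_mul]
    rw [← h5]
    calc ∑ j, muG (A j) ≤ 2 * muG (⋃ j, A j) := h3
      _ ≤ 2 * (2 * muG F) := by gcongr
      _ = 4 * muG F := by rw [← mul_assoc]; norm_num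
  have hne : 4 * muG F ≠ ⊤ := ENNReal.mul_ne_top (by norm_num) hFfin.ne
  have h6 := ENNReal.toReal_mono hne h4
  rw [ENNReal.toReal_mul, ENNReal.toReal_mul, ENNReal.toReal_ofReal (by norm_num),
    ENNReal.toReal_natCast] at h6
  have h7 : (4 : ENNReal).toReal = 4 := by norm_num
  rw [h7] at h6
  have h8 : (m : ℝ) ≤ 4 * (muG F).toReal * (128 / 3) := by
    linarith
  have h9 : (m : ℝ) ≤ (⌈4 * (muG F).toReal * (128 / 3)⌉₊ : ℝ) := h8.trans (Nat.le_ceil _)
  exact_mod_cast h9

end H37abf
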