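import Pool.Agent.H.MP_abf1f1_an.B5

/-! MP_abf1f1_an, module B: finitely many orbits of primitive vectors; no small triangles. -/

set_option autoImplicit false

open scoped Topology
open Set Filter MeasureTheory

namespace H37abf

variable {Γ : Subgroup SL2} {Λ : Set ℂ}

/-- There are finitely many orbits of primitive vectors. -/
theorem Core.finite_orbits (h : Core Γ Λ) : ∃ (m : ℕ) (v : Fin m → ℂ), (∀ j, v j ∈ pr Λ) ∧
    (∀ w ∈ pr Λ, ∃ j, ∃ γ ∈ Γ, act γ (v j) = w) ∧ ∀ i j, ∀ γ ∈ Γ, act γ (v i) = v j → i = j := by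
  classical
  obtain ⟨M, hM⟩ := h.card_le
  let P : ℕ → Prop := fun m => ∃ v : Fin m → ℂ, (∀ j, v j ∈ pr Λ) ∧
    ∀ i j, ∀ γ ∈ Γ, act γ (v i) = v j → i = j
  have hP0 : P 0 := ⟨fun j => j.elim0, fun j => j.elim0, fun i => i.elim0⟩
  have hPM : ∀ m, P m → m ≤ M := by
    rintro m ⟨v, hv, hd⟩
    exact hM m v hv hd
  have hspec : P (Nat.findGreatest P M) := Nat.findGreatest_spec (Nat.zero_le M) hP0
  have hmax : ¬ P (Nat.findGreatest P M + 1) := by
    intro hc
    exact Nat.findGreatest_is_greatest (Nat.lt_succ_self _) (hPM _ hc) hc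
  obtain ⟨v, hv, hd⟩ := hspec
  refine ⟨_, v, hv, ?_, hd⟩
  by_contra hcon
  push Not at hcon
  obtain ⟨w, hw, hno⟩ := hcon
  apply hmax
  refine ⟨Fin.cons w v, ?_, ?_⟩
  · intro j
    refine Fin.cases ?_ (fun j => ?_) j
    · simpa using hw
    · simpa using hv j
  · intro i j γ hγ
    refine Fin.cases ?_ (fun i => ?_) i
    · refine Fin.cases ?_ (fun j => ?_) j
      · intro _
        rfl
      · intro he
        simp only [Fin.cons_zero, Fin.cons_succ] at he
        exfalso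
        refine hno j γ⁻¹ (inv_mem hγ) ?_
        rw [← he]
        exact act_inv_act γ w
    · refine Fin.cases ?_ (fun j => ?_) j
      · intro he
        simp only [Fin.cons_zero, Fin.cons_succ] at he
        exact absurd he (hno i γ hγ)
      · intro he
        simp only [Fin.cons_succ] at he
        rw [hd i j γ hγ he]

/-- There are no small triangles. -/
theorem Core.exists_c0 (h : Core Γ Λ) : ∃ c₀ : ℝ, 0 < c₀ ∧ ∀ v ∈ pr Λ, ∀ w ∈ pr Λ, cr v w ≠ 0 →
    c₀ ≤ |cr v w| := by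
  have := h.disc
  obtain ⟨m, v, hv, hor, -⟩ := h.finite_orbits
  have hpos : ∀ w ∈ pr Λ, 0 < al Γ w := fun w hw => (h.al_spec hw.1).1
  set α : ℝ := ∑ j, al Γ (v j) + 1 with hα
  have hsum : ∀ j, al Γ (v j) ≤ ∑ j, al Γ (v j) := fun j =>
    Finset.single_le_sum (f := fun j => al Γ (v j)) (fun i _ => (hpos _ (hv i)).le)
      (Finset.mem_univ j)
  have hα0 : 0 < α := by
    have : 0 ≤ ∑ j, al Γ (v j) := Finset.sum_nonneg fun i _ => (hpos _ (hv i)).le
    linarith
  have hle : ∀ w ∈ pr Λ, al Γ w ≤ α := by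
    intro w hw
    obtain ⟨j, γ, hγ, rfl⟩ := hor w hw
    rw [al_act hγ]
    linarith [hsum j]
  have hne : ∀ w ∈ pr Λ, w ≠ 0 := by
    intro w hw h0
    exact h.ne (h0 ▸ hw.1)
  have hmem : ∀ w ∈ pr Λ, unip w (al Γ w) ∈ Γ := by
    intro w hw
    exact ((h.al_spec hw.1).2 _).2 ⟨1, by simp⟩
  refine ⟨1 / α, by positivity, fun x hx w hw hc => ?_⟩
  have h1 := shimizu (hne x hx) (hmem x hx) (hmem w hw) (hpos x hx).ne' (hpos w hw).ne' hc
  have h2 : |al Γ x * al Γ w| ≤ α ^ 2 := by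
    rw [abs_mul, abs_of_pos (hpos x hx), abs_of_pos (hpos w hw), sq]
    exact mul_le_mul (hle x hx) (hle w hw) (hpos w hw).le hα0.le
  have h3 : 1 ≤ (α * |cr x w|) ^ 2 := by
    rw [mul_pow, sq_abs]
    exact h1.trans (mul_le_mul_of_nonneg_right h2 (sq_nonneg _))
  have h4 : 1 ≤ α * |cr x w| := by
    by_contra hlt
    push Not at hlt
    have h5 : 0 ≤ α * |cr x w| := by positivity
    nlinarith
  rw [div_le_iff₀ hα0, mul_comm]
  exact h4

end H37abf
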