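import Pool.Agent.H.MP_abf1f1_an.StrB2

/-! MP_abf1f1_an, module A: the flat disc around a regular point, and stability of straight paths. -/

set_option autoImplicit false

open scoped Topology
open Set Filter Metric

namespace H37abf

variable {X : Type} [TopologicalSpace X] {Φ : Flat X}

/-- PROOF. `Φ.inv` with `E z := E₀ (F x + z)`; the path `t ↦ E (z + t (z' - z))` is straight
(`Str.of_prim` with `F`; the ball is convex) and avoids `Z`. -/
theorem Flat.exists_ball {x : X} (hx : x ∉ Φ.Z) {F : X → ℂ} (hF : Φ.P x F) :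
    ∃ ρ : ℝ, 0 < ρ ∧ ∃ E : ℂ → X, E 0 = x ∧
      (∀ z ∈ ball (0 : ℂ) ρ, ContinuousAt E z ∧ Φ.P (E z) F ∧ F (E z) = F x + z) ∧
      (∀ z ∈ ball (0 : ℂ) ρ, ∀ z' ∈ ball (0 : ℂ) ρ, Φ.Dom (E z) (z' - z) (E z')) ∧
      ∀ᶠ y in 𝓝 x, F y - F x ∈ ball (0 : ℂ) ρ ∧ E (F y - F x) = y := by
  obtain ⟨ρ, hρ, E₀, h0, h1, h2⟩ := Φ.inv x hx F hF
  have hmem : ∀ z ∈ ball (0 : ℂ) ρ, F x + z ∈ ball (F x) ρ := by
    intro z hz
    simpa [mem_ball, dist_eq_norm] using hz
  have key : ∀ z ∈ ball (0 : ℂ) ρ, ContinuousAt (fun z => E₀ (F x + z)) z ∧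
      Φ.P (E₀ (F x + z)) F ∧ F (E₀ (F x + z)) = F x + z ∧ E₀ (F x + z) ∉ Φ.Z := by
    intro z hz
    obtain ⟨a, b, c, d⟩ := h1 _ (hmem z hz)
    refine ⟨?_, c, b, d⟩
    have h3 : ContinuousAt (fun z : ℂ => F x + z) z := by fun_prop
    exact ContinuousAt.comp (g := E₀) (f := fun z : ℂ => F x + z) a h3
  refine ⟨ρ, hρ, fun z => E₀ (F x + z), by simpa using h0, fun z hz => ⟨(key z hz).1, (key z hz).2.1, (key z hz).2.2.1⟩, ?_, ?_⟩
  · intro z hz z' hz'
    have hseg : ∀ t ∈ Icc (0 : ℝ) 1, z + (t : ℂ) * (z' - z) ∈ ball (0 : ℂ) ρ := by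
      intro t ht
      have h3 := (convex_ball (0 : ℂ) ρ).add_smul_sub_mem hz hz' ht
      simpa [Complex.real_smul] using h3
    refine ⟨fun t => E₀ (F x + (z + (t : ℂ) * (z' - z))), ?_, by simp, by simp, ?_⟩
    · refine Flat.Str.of_prim (F := F) ?_ (fun t ht => (key _ (hseg t ht)).2.1) ?_
      · intro t ht
        have h3 : ContinuousAt (fun t : ℝ => z + (t : ℂ) * (z' - z)) t := by fun_prop
        exact (ContinuousAt.comp (g := fun z => E₀ (F x + z)) (f := fun t : ℝ => z + (t : ℂ) * (z' - z))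
          (key _ (hseg t ht)).1 h3).continuousWithinAt
      · intro t ht
        have h4 := (key _ (hseg t ht)).2.2.1
        have h5 := (key _ (hseg 0 ⟨le_rfl, zero_le_one⟩)).2.2.1
        show F (E₀ (F x + (z + (t : ℂ) * (z' - z)))) - F (E₀ (F x + (z + ((0 : ℝ) : ℂ) * (z' - z)))) = _
        rw [h4, h5]
        push_cast
        ring
    · intro t ht
      exact (key _ (hseg t ht)).2.2.2
  · have h3 : ContinuousAt F x := Flat.P.cont hF
    have h4 : ∀ᶠ y in 𝓝 x, F y - F x ∈ ball (0 : ℂ) ρ := by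
      have h5 : Tendsto (fun y => F y - F x) (𝓝 x) (𝓝 0) := by
        have := h3.tendsto.sub_const (F x)
        simpa using this
      exact h5.eventually (ball_mem_nhds 0 hρ)
    filter_upwards [h4, h2] with y a b
    refine ⟨a, ?_⟩
    simpa using b

end H37abf
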