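import Pool.Agent.H.MP_abf1f1_an.Conv

/-! MP_abf1f1_an, module A: the developing map at a visible cone point on the boundary; chords of
empty discs are saddle connections; change of the base point. -/

set_option autoImplicit false

open scoped Topology
open Set Filter Metric

namespace H37abf

variable {X : Type} [TopologicalSpace X] [T2Space X] [CompactSpace X] {Φ : Flat X}

/-- The half-open segment from an interior point to a closure point of an open convex set. -/
theorem Bdry_seg {B : Set ℂ} (hB : Convex ℝ B) (hBo : IsOpen B) {z w : ℂ} (hz : z ∈ B)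
    (hw : w ∈ closure B) {t : ℝ} (h0 : 0 ≤ t) (h1 : t < 1) : z + (t : ℂ) * (w - z) ∈ B := by
  have hz' : z ∈ interior B := by rwa [hBo.interior_eq]
  have h2 := hB.combo_interior_closure_mem_interior hz' hw (a := 1 - t) (b := t)
    (by linarith) h0 (by ring)
  rw [hBo.interior_eq, Complex.real_smul, Complex.real_smul] at h2
  have h3 : z + (t : ℂ) * (w - z) = ((1 - t : ℝ) : ℂ) * z + (t : ℂ) * w := by
    push_cast
    ring
  rw [h3]
  exact h2

omit [CompactSpace X] in
/-- The path to the visible cone point is given by the developing map. -/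
theorem Bdry_sigma {x : X} {B : Set ℂ} {E : ℂ → X} (h : Φ.Dev x B E) {w : ℂ}
    (hw : w ∈ closure B) {σ : ℝ → X} (hσ : Φ.Str σ w 0 1) (h0 : σ 0 = x)
    (hz : ∀ t ∈ Ico (0 : ℝ) 1, σ t ∉ Φ.Z) {s : ℝ} (hs0 : 0 < s) (hs1 : s < 1) :
    (s : ℂ) * w ∈ B ∧ E (s * w) = σ s := by
  have hmem : (s : ℂ) * w ∈ B := by
    have := Bdry_seg h.conv h.opn h.zero hw hs0.le hs1
    simpa using this
  refine ⟨hmem, ?_⟩
  have A := (hσ.mono le_rfl hs1.le).reparam (k := s) (d := 0) (a' := 0) (b' := 1) hs0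
    (by ring) (by ring)
  have hd : Φ.Dom x (s * w) (σ s) := by
    refine ⟨_, A, by simp [h0], by simp, fun t ht => ?_⟩
    refine hz _ ⟨?_, ?_⟩
    · have := mul_nonneg hs0.le ht.1
      linarith
    · have := mul_le_mul_of_nonneg_left ht.2 hs0.le
      linarith
  exact Flat.Dom.unique (h.dom _ hmem) hd

/-- PROOF. Take a trap `T` at `p`. Let `σ` be the path of `See x w p`. For `s < 1` close to `1`:
`σ s ∈ V` and `|1 - s| |w| < δ / 4`. As `w ∈ closure B` and `B` is convex and open with `0 ∈ B`,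
`s w ∈ B` for `0 ≤ s < 1`, and `σ s = E (s w)` by uniqueness. Fix such an `s`. For `z ∈ B` with
`|z - w| < δ / 4` the straight path from `E (s w)` to `E z` in `B` (`Dev.path`) has length
`|z - s w| < δ`, so it stays in `K` and `T.F (E z) - T.F (σ s) = z - s w`; and
`T.F p - T.F (σ s) = (1 - s) w` (trap property for `σ` on `Icc s 1`). So `T.F (E z) - T.F p = z - w`.
So as `z → w` in `B`, `E z` stays in the compact set `K` and `T.F (E z) → T.F p`; by `T.iso` the only
cluster point of `E z` is `p`, so `E z → p`. Then `F - T.F` is constant near `p`. -/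
theorem Flat.Dev.bdry {x : X} {B : Set ℂ} {E : ℂ → X} (h : Φ.Dev x B E) {w : ℂ} {p : X}
    (hw : w ∈ closure B) (hs : Φ.See x w p) {F : X → ℂ} (hF : Φ.P p F) :
    Tendsto E (𝓝[B] w) (𝓝 p) ∧ ∀ᶠ z in 𝓝[B] w, F (E z) - F p = z - w := by
  obtain ⟨σ, hσ, e0, e1, -, hσz⟩ := hs
  obtain ⟨T, -⟩ := Φ.exists_trap p (univ_mem : (univ : Set X) ∈ 𝓝 p)
  have hδ := T.δpos
  have hpK : p ∈ T.K := T.hVK (mem_of_mem_nhds T.hV)
  -- choice of `s`
  have h1 : ContinuousWithinAt σ (Icc 0 1) 1 := hσ.cont 1 (right_mem_Icc.2 zero_le_one)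
  have h2 : ∀ᶠ s in 𝓝[Icc (0 : ℝ) 1] 1, σ s ∈ T.V := by
    refine h1.eventually ?_
    rw [e1]
    exact T.hV
  have h3 : 𝓝[Ioo (0 : ℝ) 1] 1 ≤ 𝓝[Icc (0 : ℝ) 1] 1 := nhdsWithin_mono _ Ioo_subset_Icc_self
  have hlin : Tendsto (fun s : ℝ => ‖w‖ * (1 - s)) (𝓝 1) (𝓝 (‖w‖ * (1 - 1))) :=
    Continuous.tendsto (by fun_prop) 1
  have h4 : ∀ᶠ s in 𝓝 (1 : ℝ), ‖w‖ * (1 - s) < T.δ / 4 := by
    apply hlin.eventually_lt_const
    rw [sub_self, mul_zero]
    positivity
  have hne : (𝓝[Ioo (0 : ℝ) 1] 1).NeBot := by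
    rw [← mem_closure_iff_nhdsWithin_neBot, closure_Ioo zero_ne_one]
    exact right_mem_Icc.2 zero_le_one
  obtain ⟨s, ⟨hsV, hsδ⟩, hs0, hs1⟩ :=
    (((h2.filter_mono h3).and (h4.filter_mono nhdsWithin_le_nhds)).and
      (self_mem_nhdsWithin : Ioo (0 : ℝ) 1 ∈ 𝓝[Ioo (0 : ℝ) 1] 1)).exists
  obtain ⟨hsB, hsE⟩ := Bdry_sigma h hw hσ e0 hσz hs0 hs1
  -- the value at `p`
  have hFp : T.F p - T.F (E (s * w)) = (1 - s : ℝ) * w := by
    have h5 := (T.trap σ w s 1 hs1.le (hσ.mono hs0.le le_rfl) hsV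
      (by linarith) 1 ⟨hs1.le, le_rfl⟩).2
    rw [e1] at h5
    rw [hsE]
    exact h5
  have key : ∀ z ∈ B, ‖z - w‖ < T.δ / 4 → E z ∈ T.K ∧ T.F (E z) - T.F p = z - w := by
    intro z hz hzw
    obtain ⟨γ, hγ, g0, g1, -⟩ := h.path hsB hz
    have hlen : ‖z - s * w‖ * (1 - 0) < T.δ := by
      have h6 : z - s * w = (z - w) + ((1 - s : ℝ) : ℂ) * w := by
        push_cast
        ring
      have h7 : ‖z - s * w‖ ≤ ‖z - w‖ + ‖w‖ * (1 - s) := by
        rw [h6]
        refine (norm_add_le _ _).trans ?_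
        rw [norm_mul, Complex.norm_real, Real.norm_eq_abs, abs_of_pos (by linarith), mul_comm]
      linarith
    have h8 := T.trap γ (z - s * w) 0 1 zero_le_one hγ
      (by rw [g0, hsE]; exact hsV) hlen 1 (right_mem_Icc.2 zero_le_one)
    rw [g1, g0] at h8
    refine ⟨h8.1, ?_⟩
    have h9 := h8.2
    push_cast at h9 hFp
    linear_combination h9 - hFp
  have hball : ∀ᶠ z in 𝓝[B] w, z ∈ B ∧ ‖z - w‖ < T.δ / 4 := by
    refine Filter.Eventually.and self_mem_nhdsWithin ?_
    refine Filter.Eventually.filter_mono nhdsWithin_le_nhds ?_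
    filter_upwards [Metric.ball_mem_nhds w (show (0 : ℝ) < T.δ / 4 by positivity)] with z hz
    rwa [Metric.mem_ball, dist_eq_norm] at hz
  have hFev : ∀ᶠ z in 𝓝[B] w, T.F (E z) - T.F p = z - w := by
    filter_upwards [hball] with z hz
    exact (key z hz.1 hz.2).2
  have hKev : ∀ᶠ z in 𝓝[B] w, E z ∈ T.K := by
    filter_upwards [hball] with z hz
    exact (key z hz.1 hz.2).1
  have hFlim : Tendsto (T.F ∘ E) (𝓝[B] w) (𝓝 (T.F p)) := by
    have hc : Tendsto (fun z : ℂ => T.F p + (z - w)) (𝓝[B] w) (𝓝 (T.F p + (w - w))) :=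
      (Continuous.tendsto (by fun_prop) w).mono_left nhdsWithin_le_nhds
    rw [sub_self, add_zero] at hc
    refine hc.congr' ?_
    filter_upwards [hFev] with z hz
    simp only [Function.comp_apply]
    rw [← hz]
    ring
  have hclK : IsClosed T.K := T.hK.isClosed
  have hlim : Tendsto E (𝓝[B] w) (𝓝 p) := by
    apply tendsto_nhds_of_unique_mapClusterPt
    intro q' hq'
    by_contra hne
    have hmem : q' ∈ T.K := hclK.mem_of_mapClusterPt hq' hKev
    have hcont : ContinuousAt T.F q' := (T.prim q' hmem).cont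
    exact (T.iso q' hmem hne).1
      (Cont_cluster_eq (MapClusterPt.continuousAt_comp hcont hq') hFlim)
  refine ⟨hlim, ?_⟩
  have hsub := Φ.sub p F T.F hF (T.prim p hpK)
  filter_upwards [hlim.eventually hsub, hFev] with z hz1 hz2
  linear_combination hz1 + hz2

/-- PROOF. The segment from `z` to `w` is in `B` except for its end (`B` open and convex:
`Convex.combo_interior_closure_mem_interior` or `openSegment`); the path `t ↦ E (z + t (w - z))` for
`t < 1`, `p` for `t = 1`, is straight by `Dev.near` and `Dev.bdry`. -/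
theorem Flat.Dev.see {x : X} {B : Set ℂ} {E : ℂ → X} (h : Φ.Dev x B E) {w : ℂ} {p : X}
    (hw : w ∈ closure B) (hs : Φ.See x w p) {z : ℂ} (hz : z ∈ B) : Φ.See (E z) (w - z) p := by
  classical
  have hm : ∀ t : ℝ, 0 ≤ t → t < 1 → z + (t : ℂ) * (w - z) ∈ B := fun t h0 h1 =>
    Bdry_seg h.conv h.opn hz hw h0 h1
  have hcont : Continuous fun t : ℝ => z + (t : ℂ) * (w - z) :=
    continuous_const.add (Complex.continuous_ofReal.mul continuous_const)
  obtain ⟨F₀, hF₀⟩ := Φ.ex p
  have hlim : Tendsto (fun t : ℝ => z + (t : ℂ) * (w - z)) (𝓝[Ico (0 : ℝ) 1] 1) (𝓝[B] w) := by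
    refine tendsto_nhdsWithin_iff.2 ⟨?_, ?_⟩
    · have h1 : Tendsto (fun t : ℝ => z + (t : ℂ) * (w - z)) (𝓝 1)
          (𝓝 (z + ((1 : ℝ) : ℂ) * (w - z))) := hcont.tendsto 1
      have h2 : z + ((1 : ℝ) : ℂ) * (w - z) = w := by
        push_cast
        ring
      rw [h2] at h1
      exact h1.mono_left nhdsWithin_le_nhds
    · filter_upwards [self_mem_nhdsWithin] with t ht
      exact hm t ht.1 ht.2
  set γ : ℝ → X := fun t => if t < 1 then E (z + (t : ℂ) * (w - z)) else p with hγ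
  have hγ1 : γ 1 = p := by simp [hγ]
  have hγl : ∀ t, t < 1 → γ t = E (z + (t : ℂ) * (w - z)) := fun t ht => by simp [hγ, ht]
  -- splitting of the interval at `1`
  have hsplit : 𝓝[Icc (0 : ℝ) 1] 1 = 𝓝[Ico (0 : ℝ) 1] 1 ⊔ pure 1 := by
    rw [← Ico_insert_right (zero_le_one' ℝ), nhdsWithin_insert, sup_comm]
  have hnear : ∀ t, 0 ≤ t → t < 1 → ∀ᶠ s in 𝓝[Icc (0 : ℝ) 1] t, s < 1 := fun t _ ht =>
    Filter.Eventually.filter_mono nhdsWithin_le_nhds (Iio_mem_nhds ht)
  refine ⟨γ, ⟨?_, ?_⟩, ?_, hγ1, hs.right, ?_⟩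
  · intro t ht
    rcases ht.2.eq_or_lt with h1 | h1
    · subst h1
      unfold ContinuousWithinAt
      rw [hγ1, hsplit]
      refine Tendsto.sup ?_ ?_
      · refine ((h.bdry hw hs hF₀).1.comp hlim).congr' ?_
        filter_upwards [self_mem_nhdsWithin] with s hs'
        simp only [Function.comp_apply]
        rw [hγl s hs'.2]
      · rw [← hγ1]
        exact tendsto_pure_nhds γ 1
    · have h2 : ContinuousWithinAt (fun t : ℝ => E (z + (t : ℂ) * (w - z))) (Icc 0 1) t :=
        ((h.cont _ (hm t ht.1 h1)).comp_of_eq hcont.continuousAt rfl).continuousWithinAt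
      refine h2.congr_of_eventuallyEq ?_ (hγl t h1)
      filter_upwards [hnear t ht.1 h1] with s hs'
      exact hγl s hs'
  · intro t ht F hF
    rcases ht.2.eq_or_lt with h1 | h1
    · subst h1
      rw [hγ1] at hF ⊢
      rw [hsplit, eventually_sup]
      refine ⟨?_, ?_⟩
      · filter_upwards [hlim.eventually (h.bdry hw hs hF).2, self_mem_nhdsWithin] with s hs1 hs2
        rw [hγl s hs2.2, hs1]
        push_cast
        ring
      · rw [eventually_pure, hγ1]
        simp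
    · rw [hγl t h1] at hF ⊢
      have h2 := h.near _ (hm t ht.1 h1) F hF
      have h3 := ((hcont.tendsto t).eventually h2).filter_mono
        (nhdsWithin_le_nhds (s := Icc (0 : ℝ) 1))
      filter_upwards [h3, hnear t ht.1 h1] with s hs1 hs2
      rw [hγl s hs2, hs1]
      push_cast
      ring
  · rw [hγl 0 zero_lt_one]
    simp
  · intro t ht
    rw [hγl t ht.2]
    exact (h.dom _ (hm t ht.1 ht.2)).right

end H37abf
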