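import Pool.Agent.H.MP_abf1f1_an.Bdry

/-! MP_abf1f1_an, module A: the developing map at a visible cone point on the boundary; chords of
empty discs are saddle connections; change of the base point. -/

set_option autoImplicit false

open scoped Topology
open Set Filter Metric

namespace H37abf

theorem Bdry2_nhds_zero : 𝓝[Icc (0 : ℝ) 1] 0 = pure 0 ⊔ 𝓝[Ioo (0 : ℝ) 1] 0 := by
  rw [← Ioc_insert_left (zero_le_one' ℝ), nhdsWithin_insert, nhdsWithin_Ioc_eq_nhdsGT one_pos,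
    nhdsWithin_Ioo_eq_nhdsGT one_pos]

theorem Bdry2_nhds_one : 𝓝[Icc (0 : ℝ) 1] 1 = pure 1 ⊔ 𝓝[Ioo (0 : ℝ) 1] 1 := by
  rw [← Ico_insert_right (zero_le_one' ℝ), nhdsWithin_insert, nhdsWithin_Ico_eq_nhdsLT one_pos,
    nhdsWithin_Ioo_eq_nhdsLT one_pos]

variable {X : Type} [TopologicalSpace X]

theorem Bdry2_str {Φ : Flat X} {γ : ℝ → X} {v : ℂ} (hc : ∀ t ∈ Ioo (0 : ℝ) 1, ContinuousAt γ t)
    (hs : ∀ t ∈ Ioo (0 : ℝ) 1, ∀ F, Φ.P (γ t) F →
      ∀ᶠ s in 𝓝 t, F (γ s) - F (γ t) = (s - t : ℝ) * v)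
    (c0 : Tendsto γ (𝓝[Ioo (0 : ℝ) 1] 0) (𝓝 (γ 0)))
    (c1 : Tendsto γ (𝓝[Ioo (0 : ℝ) 1] 1) (𝓝 (γ 1)))
    (s0 : ∀ F, Φ.P (γ 0) F → ∀ᶠ s in 𝓝[Ioo (0 : ℝ) 1] 0, F (γ s) - F (γ 0) = (s - 0 : ℝ) * v)
    (s1 : ∀ F, Φ.P (γ 1) F → ∀ᶠ s in 𝓝[Ioo (0 : ℝ) 1] 1, F (γ s) - F (γ 1) = (s - 1 : ℝ) * v) :
    Φ.Str γ v 0 1 where
  cont := by
    intro t ht
    rcases eq_or_lt_of_le ht.1 with h0 | h0
    · subst h0
      rw [ContinuousWithinAt, Bdry2_nhds_zero]
      exact Filter.Tendsto.sup (tendsto_pure_nhds _ _) c0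
    rcases eq_or_lt_of_le ht.2 with h1 | h1
    · subst h1
      rw [ContinuousWithinAt, Bdry2_nhds_one]
      exact Filter.Tendsto.sup (tendsto_pure_nhds _ _) c1
    exact (hc t ⟨h0, h1⟩).continuousWithinAt
  str := by
    intro t ht F hF
    rcases eq_or_lt_of_le ht.1 with h0 | h0
    · subst h0
      rw [Bdry2_nhds_zero, eventually_sup]
      exact ⟨by simp, s0 F hF⟩
    rcases eq_or_lt_of_le ht.2 with h1 | h1
    · subst h1
      rw [Bdry2_nhds_one, eventually_sup]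
      exact ⟨by simp, s1 F hF⟩
    exact nhdsWithin_le_nhds (hs t ⟨h0, h1⟩ F hF)

variable [T2Space X] [CompactSpace X] {Φ : Flat X}

/-- PROOF. `openSegment ℝ w w' ⊆ B` is the hypothesis `hseg`. The path `t ↦ E (w + t (w' - w))`,
`0 < t < 1`, extended by the two cone points, is straight by `Dev.near` and (twice) `Dev.bdry`. -/
theorem Flat.Dev.chord {x : X} {B : Set ℂ} {E : ℂ → X} (h : Φ.Dev x B E) {w w' : ℂ} {p p' : X}
    (hw : w ∈ closure B) (hs : Φ.See x w p) (hw' : w' ∈ closure B) (hs' : Φ.See x w' p')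
    (hseg : ∀ t ∈ Ioo (0 : ℝ) 1, w + t * (w' - w) ∈ B) : w' - w ∈ Φ.Lam := by
  classical
  set l : ℝ → ℂ := fun t => w + t * (w' - w) with hl
  have hlc : Continuous l := by fun_prop
  set γ : ℝ → X := fun t => if t ≤ 0 then p else if 1 ≤ t then p' else E (l t) with hγ
  have g0 : γ 0 = p := by simp [hγ]
  have g1 : γ 1 = p' := by simp [hγ, not_le.mpr (zero_lt_one' ℝ)]
  have gi : ∀ t ∈ Ioo (0 : ℝ) 1, γ t = E (l t) := fun t ht => by
    simp [hγ, not_le.mpr ht.1, not_le.mpr ht.2]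
  have gev : ∀ t ∈ Ioo (0 : ℝ) 1, γ =ᶠ[𝓝 t] fun s => E (l s) := fun t ht => by
    filter_upwards [Ioo_mem_nhds ht.1 ht.2] with s hs using gi s hs
  have l0 : l 0 = w := by simp [hl]
  have l1 : l 1 = w' := by simp [hl]
  have t0 : Tendsto l (𝓝[Ioo (0 : ℝ) 1] 0) (𝓝[B] w) := by
    refine tendsto_nhdsWithin_iff.mpr ⟨?_, ?_⟩
    · have := hlc.tendsto 0
      rw [l0] at this
      exact this.mono_left nhdsWithin_le_nhds
    · filter_upwards [self_mem_nhdsWithin] with s hs using hseg s hs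
  have t1 : Tendsto l (𝓝[Ioo (0 : ℝ) 1] 1) (𝓝[B] w') := by
    refine tendsto_nhdsWithin_iff.mpr ⟨?_, ?_⟩
    · have := hlc.tendsto 1
      rw [l1] at this
      exact this.mono_left nhdsWithin_le_nhds
    · filter_upwards [self_mem_nhdsWithin] with s hs using hseg s hs
  obtain ⟨F0, hF0⟩ := Φ.ex p
  obtain ⟨F1, hF1⟩ := Φ.ex p'
  refine ⟨γ, Bdry2_str ?_ ?_ ?_ ?_ ?_ ?_, ?_, ?_, ?_⟩
  · intro t ht
    refine ContinuousAt.congr ?_ (gev t ht).symm
    exact ContinuousAt.comp (g := E) (h.cont _ (hseg t ht)) hlc.continuousAt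
  · intro t ht F hF
    rw [gi t ht] at hF ⊢
    have h1 := hlc.continuousAt.eventually (h.near _ (hseg t ht) F hF)
    filter_upwards [h1, gev t ht] with s hs1 hs2
    rw [hs2, hs1]
    simp only [hl]
    push_cast
    ring
  · rw [g0]
    refine ((h.bdry hw hs hF0).1.comp t0).congr' ?_
    filter_upwards [self_mem_nhdsWithin] with s hs1 using (gi s hs1).symm
  · rw [g1]
    refine ((h.bdry hw' hs' hF1).1.comp t1).congr' ?_
    filter_upwards [self_mem_nhdsWithin] with s hs1 using (gi s hs1).symm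
  · intro F hF
    rw [g0] at hF ⊢
    filter_upwards [self_mem_nhdsWithin, t0.eventually (h.bdry hw hs hF).2] with s hs1 hs2
    rw [gi s hs1, hs2]
    simp only [hl]
    push_cast
    ring
  · intro F hF
    rw [g1] at hF ⊢
    filter_upwards [self_mem_nhdsWithin, t1.eventually (h.bdry hw' hs' hF).2] with s hs1 hs2
    rw [gi s hs1, hs2]
    simp only [hl]
    push_cast
    ring
  · rw [g0]; exact hs.right
  · rw [g1]; exact hs'.right
  · intro t ht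
    rw [gi t ht]
    exact (h.dom _ (hseg t ht)).right

theorem Bdry2_rpos {Φ : Flat X} {x : X} {y : ℂ} {r : ℝ} (h : Φ.Empty x y r) : 0 < r :=
  pos_of_mem_ball h.1

theorem Bdry2_clos {Φ : Flat X} {x : X} {y : ℂ} {r : ℝ} (h : Φ.Empty x y r) {s : ℂ}
    (hs : s ∈ sphere y r) : s ∈ closure (ball y r) := by
  rw [closure_ball _ (Bdry2_rpos h).ne']
  exact sphere_subset_closedBall hs

/-- Two points of a circle. PROOF. `exists_dev` for the ball, `Dev.chord`; the ball is strictly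
convex. -/
theorem Flat.chord {x : X} (hx : x ∉ Φ.Z) {y : ℂ} {r : ℝ} (h : Φ.Empty x y r) {s s' : ℂ}
    (hs : s ∈ Φ.S x y r) (hs' : s' ∈ Φ.S x y r) (hne : s ≠ s') : s' - s ∈ Φ.Lam := by
  obtain ⟨E, hE⟩ := Φ.exists_dev hx (convex_ball y r) isOpen_ball h.1 h.2
  obtain ⟨⟨p, hp⟩, hs2⟩ := hs
  obtain ⟨⟨p', hp'⟩, hs2'⟩ := hs'
  refine hE.chord (Bdry2_clos h hs2) hp (Bdry2_clos h hs2') hp' fun t ht => ?_
  have h1 := combo_mem_ball_of_ne (sphere_subset_closedBall hs2) (sphere_subset_closedBall hs2') hne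
    (sub_pos.mpr ht.2) ht.1 (by ring)
  have h2 : (1 - t) • s + t • s' = s + t * (s' - s) := by
    simp only [Complex.real_smul]
    push_cast
    ring
  rwa [h2] at h1

/-- PROOF. `exists_dev`, `Dev.rebase`, `Dev.not_vis`; `E z = x₀` by `Dom.unique`. -/
theorem Flat.Empty.rebase {x x₀ : X} (hx : x ∉ Φ.Z) {y z : ℂ} {r : ℝ} (h : Φ.Empty x y r)
    (hz : z ∈ ball y r) (hd : Φ.Dom x z x₀) : Φ.Empty x₀ (y - z) r := by
  obtain ⟨E, hE⟩ := Φ.exists_dev hx (convex_ball y r) isOpen_ball h.1 h.2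
  have e : E z = x₀ := (hE.dom z hz).unique hd
  have h2 := hE.rebase hz
  rw [e] at h2
  refine ⟨?_, fun v hv hb => ?_⟩
  · rw [mem_ball, dist_eq_norm] at hz ⊢
    rwa [zero_sub, neg_sub]
  · refine h2.not_vis (v := v) ?_ hv
    rw [mem_setOf_eq, mem_ball, dist_eq_norm]
    rw [mem_ball, dist_eq_norm] at hb
    rwa [show v + z - y = v - (y - z) by ring]

theorem Bdry2_aux {x x₀ : X} (hx : x ∉ Φ.Z) {y z : ℂ} {r : ℝ} (h : Φ.Empty x y r)
    (hz : z ∈ ball y r) (hd : Φ.Dom x z x₀) {s : ℂ} (hs : s ∈ Φ.S x y r) :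
    s - z ∈ Φ.S x₀ (y - z) r := by
  obtain ⟨E, hE⟩ := Φ.exists_dev hx (convex_ball y r) isOpen_ball h.1 h.2
  have e : E z = x₀ := (hE.dom z hz).unique hd
  obtain ⟨⟨p, hp⟩, hs2⟩ := hs
  have h3 := hE.see (Bdry2_clos h hs2) hp hz
  rw [e] at h3
  refine ⟨⟨p, h3⟩, ?_⟩
  rw [mem_sphere, dist_eq_norm] at hs2 ⊢
  rwa [show s - z - (y - z) = s - y by ring]

/-- PROOF. `Dev.see` for the ball gives `→`; `←` is the same for the base point `x₀` and the vector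
`-z` (`Dom.symm`, `Empty.rebase`). -/
theorem Flat.S_rebase {x x₀ : X} (hx : x ∉ Φ.Z) {y z : ℂ} {r : ℝ} (h : Φ.Empty x y r)
    (hz : z ∈ ball y r) (hd : Φ.Dom x z x₀) (s : ℂ) :
    s ∈ Φ.S x y r ↔ s - z ∈ Φ.S x₀ (y - z) r := by
  refine ⟨fun hs => Bdry2_aux hx h hz hd hs, fun hs => ?_⟩
  have h2 := h.rebase hx hz hd
  have hz' : -z ∈ ball (y - z) r := by
    have := h.1
    rw [mem_ball, dist_eq_norm] at this ⊢
    rwa [show -z - (y - z) = 0 - y by ring]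
  have h3 := Bdry2_aux hd.right h2 hz' hd.symm hs
  rwa [show s - z - -z = s by ring, show y - z - -z = y by ring] at h3

end H37abf
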