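import Pool.Agent.H.MP_abf1f1_an.Defs

/-! MP_abf1f1_an, bridge: local primitives of a holomorphic one-form. -/

set_option autoImplicit false

open scoped Manifold ContDiff Topology
open Set Filter Metric

namespace H37abf

variable {X : Type} [TopologicalSpace X] [ChartedSpace ℂ X] [IsManifold 𝓘(ℂ) ω X]

/-- PROOF. Two charts of the maximal atlas are compatible
(`IsManifold.compatible_of_mem_maximalAtlas`): the transition is `ContDiffOn ℂ ω`. -/
theorem transition_differentiableAt {φ ψ : OpenPartialHomeomorph X ℂ} (hφ : φ ∈ Charts X)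
    (hψ : ψ ∈ Charts X) {x : X} (h : x ∈ φ.source) (h' : x ∈ ψ.source) :
    DifferentiableAt ℂ (ψ ∘ φ.symm) (φ x) := by
  have hc := IsManifold.compatible_of_mem_maximalAtlas hφ hψ
  have h1 : ContDiffOn ℂ ω (ψ ∘ φ.symm) (φ.symm.trans ψ).source := by
    have h0 := (mem_groupoid_of_pregroupoid.1 hc).1
    simpa [contDiffPregroupoid] using h0
  have hmem : φ x ∈ (φ.symm.trans ψ).source := by
    rw [OpenPartialHomeomorph.trans_source]
    refine ⟨φ.map_source h, ?_⟩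
    show φ.symm (φ x) ∈ ψ.source
    rw [φ.left_inv h]
    exact h'
  exact (h1.contDiffAt ((φ.symm.trans ψ).open_source.mem_nhds hmem)).differentiableAt (by simp)

/-- PROOF. The transition and its inverse are inverse to each other near `φ x`; chain rule. -/
theorem transition_deriv_mul {φ ψ : OpenPartialHomeomorph X ℂ} (hφ : φ ∈ Charts X)
    (hψ : ψ ∈ Charts X) {x : X} (h : x ∈ φ.source) (h' : x ∈ ψ.source) :
    deriv (ψ ∘ φ.symm) (φ x) * deriv (φ ∘ ψ.symm) (ψ x) = 1 := by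
  have e0 : (φ ∘ ψ.symm) (ψ x) = φ x := by
    show φ (ψ.symm (ψ x)) = φ x
    rw [ψ.left_inv h']
  have d1 : HasDerivAt (ψ ∘ φ.symm) (deriv (ψ ∘ φ.symm) (φ x)) ((φ ∘ ψ.symm) (ψ x)) := by
    rw [e0]
    exact (transition_differentiableAt hφ hψ h h').hasDerivAt
  have d2 := (transition_differentiableAt hψ hφ h' h).hasDerivAt
  have d3 := d1.comp (ψ x) d2
  have hev : (ψ ∘ φ.symm) ∘ (φ ∘ ψ.symm) =ᶠ[𝓝 (ψ x)] id := by
    have n1 : ψ.target ∈ 𝓝 (ψ x) := ψ.open_target.mem_nhds (ψ.map_source h')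
    have n2 : ∀ᶠ z in 𝓝 (ψ x), ψ.symm z ∈ φ.source := by
      refine (ψ.continuousAt_symm (ψ.map_source h')).eventually ?_
      rw [ψ.left_inv h']
      exact φ.open_source.mem_nhds h
    filter_upwards [n1, n2] with z hz hz'
    show ψ (φ.symm (φ (ψ.symm z))) = z
    rw [φ.left_inv hz', ψ.right_inv hz]
  have d4 : HasDerivAt id (deriv (ψ ∘ φ.symm) (φ x) * deriv (φ ∘ ψ.symm) (ψ x)) (ψ x) :=
    d3.congr_of_eventuallyEq hev.symm
  exact d4.unique (hasDerivAt_id _)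

theorem chartAt_mem_Charts (x : X) : chartAt ℂ x ∈ Charts X := by
  exact IsManifold.chart_mem_maximalAtlas x

variable (Θ : HolForm X)

/-- PROOF. `Θ.trans` and `transition_deriv_mul`. -/
theorem HolForm.zeros_iff {φ : OpenPartialHomeomorph X ℂ} (hφ : φ ∈ Charts X) {x : X}
    (h : x ∈ φ.source) : x ∈ Θ.zeros ↔ Θ.f φ (φ x) = 0 := by
  have h1 := Θ.trans φ hφ (chartAt ℂ x) (chartAt_mem_Charts x) x h (mem_chart_source ℂ x)
  have h2 := transition_deriv_mul hφ (chartAt_mem_Charts x) h (mem_chart_source ℂ x)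
  have h3 : deriv (chartAt ℂ x ∘ φ.symm) (φ x) ≠ 0 := left_ne_zero_of_mul_eq_one h2
  constructor
  · intro h0
    have h0' : Θ.f (chartAt ℂ x) (chartAt ℂ x x) = 0 := h0
    rw [h1, h0', zero_mul]
  · intro h0
    rw [h0] at h1
    exact (mul_eq_zero.1 h1.symm).resolve_right h3

/-- PROOF. For `y` near `x` and a chart `ψ` at `y`: `F ∘ ψ.symm = G ∘ (φ ∘ ψ.symm)` near `ψ y`, chain rule,
and `Θ.trans ψ φ`. -/
theorem HolForm.prim_of_chart {φ : OpenPartialHomeomorph X ℂ} (hφ : φ ∈ Charts X) {x : X}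
    (h : x ∈ φ.source) {G : ℂ → ℂ} (hG : ∀ᶠ z in 𝓝 (φ x), HasDerivAt G (Θ.f φ z) z) :
    Θ.Prim (G ∘ φ) x := by
  have n1 : ∀ᶠ y in 𝓝 x, y ∈ φ.source := φ.open_source.mem_nhds h
  have n2 : ∀ᶠ y in 𝓝 x, HasDerivAt G (Θ.f φ (φ y)) (φ y) := (φ.continuousAt h).eventually hG
  filter_upwards [n1, n2] with y hy hGy
  intro ψ hψ hyψ
  have e0 : (φ ∘ ψ.symm) (ψ y) = φ y := by
    show φ (ψ.symm (ψ y)) = φ y
    rw [ψ.left_inv hyψ]
  have d1 : HasDerivAt G (Θ.f φ (φ y)) ((φ ∘ ψ.symm) (ψ y)) := by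
    rw [e0]
    exact hGy
  have d2 := (transition_differentiableAt hψ hφ hyψ hy).hasDerivAt
  have d3 := d1.comp (ψ y) d2
  rw [Θ.trans ψ hψ φ hφ y hyψ hy]
  exact d3

end H37abf
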