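import Pool.Agent.H.MP_abf1f1_an.BrA

/-! MP_abf1f1_an, bridge: local primitives of a holomorphic one-form. -/

set_option autoImplicit false

open scoped Manifold ContDiff Topology
open Set Filter Metric

namespace H37abf

variable {X : Type} [TopologicalSpace X] [ChartedSpace ℂ X] [IsManifold 𝓘(ℂ) ω X]

variable (Θ : HolForm X)

/-- PROOF. In the chart `φ = chartAt ℂ x` the function `Θ.f φ` is holomorphic on a disc around `φ x`, so it
has a primitive there (`DifferentiableOn.isExactOn_ball`, Mathlib.Analysis.Complex.HasPrimitives). -/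
theorem HolForm.exists_prim (x : X) : ∃ F, Θ.Prim F x := by
  have hmem := chartAt_mem_Charts x
  have hx : x ∈ (chartAt ℂ x).source := mem_chart_source ℂ x
  have hx' : chartAt ℂ x x ∈ (chartAt ℂ x).target := mem_chart_target ℂ x
  obtain ⟨r, hr, hb⟩ := Metric.isOpen_iff.1 (chartAt ℂ x).open_target _ hx'
  obtain ⟨G, hG⟩ := ((Θ.hol _ hmem).mono hb).isExactOn_ball
  exact ⟨G ∘ chartAt ℂ x, Θ.prim_of_chart hmem hx
    (Filter.eventually_of_mem (Metric.ball_mem_nhds _ hr) hG)⟩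

/-- PROOF. `eventually_eventually_nhds`; differentiability of `F ∘ φ.symm` at `φ y` gives continuity of
`F` at `y`. -/
theorem HolForm.prim_ev {x : X} {F : X → ℂ} (h : Θ.Prim F x) :
    ∀ᶠ y in 𝓝 x, Θ.Prim F y ∧ ContinuousAt F y := by
  have h1 := eventually_eventually_nhds.2 h
  filter_upwards [h1] with y hy
  refine ⟨hy, ?_⟩
  have h2 := hy.self_of_nhds (chartAt ℂ y) (chartAt_mem_Charts y) (mem_chart_source ℂ y)
  have h3 : ContinuousAt ((F ∘ (chartAt ℂ y).symm) ∘ chartAt ℂ y) y :=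
    ContinuousAt.comp h2.continuousAt
      ((chartAt ℂ y).continuousAt (mem_chart_source ℂ y))
  refine h3.congr ?_
  filter_upwards [(chartAt ℂ y).open_source.mem_nhds (mem_chart_source ℂ y)] with z hz
  change F ((chartAt ℂ y).symm (chartAt ℂ y z)) = F z
  rw [(chartAt ℂ y).left_inv hz]

/-- PROOF. In a chart the difference has derivative `0` on a disc around `φ x`, so it is constant on
the disc. -/
theorem HolForm.prim_sub {x : X} {F F' : X → ℂ} (h : Θ.Prim F x) (h' : Θ.Prim F' x) :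
    ∀ᶠ y in 𝓝 x, F y - F' y = F x - F' x := by
  have hmem := chartAt_mem_Charts x
  have hx : x ∈ (chartAt ℂ x).source := mem_chart_source ℂ x
  have hx' : chartAt ℂ x x ∈ (chartAt ℂ x).target := mem_chart_target ℂ x
  have h1 : ∀ᶠ y in 𝓝 x, y ∈ (chartAt ℂ x).source ∧
      (∀ φ ∈ Charts X, y ∈ φ.source → HasDerivAt (F ∘ φ.symm) (Θ.f φ (φ y)) (φ y)) ∧
      (∀ φ ∈ Charts X, y ∈ φ.source → HasDerivAt (F' ∘ φ.symm) (Θ.f φ (φ y)) (φ y)) :=
    ((chartAt ℂ x).open_source.eventually_mem hx).and (h.and h')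
  have h2 : ∀ᶠ z in 𝓝 (chartAt ℂ x x), z ∈ (chartAt ℂ x).target ∧
      HasDerivAt ((F ∘ (chartAt ℂ x).symm) - (F' ∘ (chartAt ℂ x).symm)) 0 z := by
    have h3 : Tendsto (chartAt ℂ x).symm (𝓝 (chartAt ℂ x x)) (𝓝 x) := by
      have h4 := (chartAt ℂ x).continuousAt_symm hx'
      rw [ContinuousAt, (chartAt ℂ x).left_inv hx] at h4
      exact h4
    filter_upwards [(chartAt ℂ x).open_target.mem_nhds hx', h3.eventually h1] with z hz hz'
    refine ⟨hz, ?_⟩
    have h5 := hz'.2.1 _ hmem hz'.1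
    have h6 := hz'.2.2 _ hmem hz'.1
    rw [(chartAt ℂ x).right_inv hz] at h5 h6
    have h7 := h5.sub h6
    rwa [sub_self] at h7
  obtain ⟨r, hr, hb⟩ := Metric.eventually_nhds_iff_ball.1 h2
  have h8 : ∀ z ∈ ball (chartAt ℂ x x) r,
      ((F ∘ (chartAt ℂ x).symm) - (F' ∘ (chartAt ℂ x).symm)) z =
        ((F ∘ (chartAt ℂ x).symm) - (F' ∘ (chartAt ℂ x).symm)) (chartAt ℂ x x) := by
    intro z hz
    refine (convex_ball (chartAt ℂ x x) r).is_const_of_fderivWithin_eq_zero (𝕜 := ℂ) ?_ ?_ hz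
      (mem_ball_self hr)
    · intro w hw
      exact (hb w hw).2.differentiableAt.differentiableWithinAt
    · intro w hw
      have h9 := (hb w hw).2.hasFDerivAt.hasFDerivWithinAt (s := ball (chartAt ℂ x x) r)
      rw [h9.fderivWithin (isOpen_ball.uniqueDiffWithinAt hw)]
      ext
      simp
  have h10 : ∀ᶠ y in 𝓝 x, chartAt ℂ x y ∈ ball (chartAt ℂ x x) r :=
    ((chartAt ℂ x).continuousAt hx).eventually (ball_mem_nhds _ hr)
  filter_upwards [(chartAt ℂ x).open_source.mem_nhds hx, h10] with y hy hy'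
  have h11 := h8 _ hy'
  change F ((chartAt ℂ x).symm (chartAt ℂ x y)) - F' ((chartAt ℂ x).symm (chartAt ℂ x y)) =
    F ((chartAt ℂ x).symm (chartAt ℂ x x)) - F' ((chartAt ℂ x).symm (chartAt ℂ x x)) at h11
  rwa [(chartAt ℂ x).left_inv hy, (chartAt ℂ x).left_inv hx] at h11

end H37abf
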