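import Pool.Agent.H.MP_abf1f1_an.BrA2

/-! MP_abf1f1_an, bridge: primitives near regular points, isolated zeros. -/

set_option autoImplicit false

open scoped Manifold ContDiff Topology
open Set Filter Metric

namespace H37abf

variable {X : Type} [TopologicalSpace X] [ChartedSpace ℂ X] [IsManifold 𝓘(ℂ) ω X]
  (Θ : HolForm X)

/-- PROOF. In the chart `φ = chartAt ℂ x` the function `G = F ∘ φ.symm` is holomorphic near `φ x` with
`G' = Θ.f φ`, nonzero at `φ x`, so nonzero near `φ x` (continuity). By the inverse function theorem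
(`HasStrictDerivAt.toOpenPartialHomeomorph`, or `.localInverse`) `G` has a local inverse `g`, continuous
near `G (φ x) = F x`. `E = φ.symm ∘ g`. -/
theorem HolForm.prim_inv {x : X} (hx : x ∉ Θ.zeros) {F : X → ℂ} (hF : Θ.Prim F x) :
    ∃ ρ > 0, ∃ E : ℂ → X, E (F x) = x ∧
      (∀ z ∈ ball (F x) ρ, ContinuousAt E z ∧ F (E z) = z ∧ Θ.Prim F (E z) ∧ E z ∉ Θ.zeros) ∧
      ∀ᶠ y in 𝓝 x, E (F y) = y := by
  set φ := chartAt ℂ x with hφdef
  have hφ : φ ∈ Charts X := chartAt_mem_Charts x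
  have hxs : x ∈ φ.source := mem_chart_source ℂ x
  have hxt : φ x ∈ φ.target := φ.map_source hxs
  have hsx : φ.symm (φ x) = x := φ.left_inv hxs
  have hsc : ContinuousAt φ.symm (φ x) := φ.continuousAt_symm hxt
  have hpc : ContinuousAt φ x := φ.continuousAt hxs
  -- the function in the chart
  have hG : ∀ᶠ z in 𝓝 (φ x), HasDerivAt (F ∘ φ.symm) (Θ.f φ z) z := by
    have h1 : ∀ᶠ z in 𝓝 (φ x), ∀ ψ ∈ Charts X, φ.symm z ∈ ψ.source →
        HasDerivAt (F ∘ ψ.symm) (Θ.f ψ (ψ (φ.symm z))) (ψ (φ.symm z)) := by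
      have : Tendsto φ.symm (𝓝 (φ x)) (𝓝 x) := by
        have := hsc.tendsto
        rwa [hsx] at this
      exact this.eventually hF
    filter_upwards [h1, φ.open_target.mem_nhds hxt] with z hz hzt
    have := hz φ hφ (φ.map_target hzt)
    rwa [φ.right_inv hzt] at this
  have hf0 : Θ.f φ (φ x) ≠ 0 := hx
  have hfc : ContinuousAt (Θ.f φ) (φ x) :=
    ((Θ.hol φ hφ).differentiableAt (φ.open_target.mem_nhds hxt)).continuousAt
  have hfne : ∀ᶠ z in 𝓝 (φ x), Θ.f φ z ≠ 0 := hfc.eventually_ne hf0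
  have han : AnalyticAt ℂ (F ∘ φ.symm) (φ x) := by
    rw [Complex.analyticAt_iff_eventually_differentiableAt]
    filter_upwards [hG] with z hz using hz.differentiableAt
  have hst : HasStrictDerivAt (F ∘ φ.symm) (Θ.f φ (φ x)) (φ x) := by
    have h2 := han.hasStrictDerivAt
    rwa [hG.self_of_nhds.deriv] at h2
  have hsf := hst.hasStrictFDerivAt_equiv hf0
  set R := hsf.toOpenPartialHomeomorph (F ∘ φ.symm) with hR
  have hRc : (R : ℂ → ℂ) = F ∘ φ.symm := hsf.toOpenPartialHomeomorph_coe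
  have hRs : φ x ∈ R.source := hsf.mem_toOpenPartialHomeomorph_source
  have hFx : R (φ x) = F x := by
    rw [hRc]; simp [hsx]
  have hRt : F x ∈ R.target := by
    rw [← hFx]; exact R.map_source hRs
  have hRi : R.symm (F x) = φ x := by
    rw [← hFx]; exact R.left_inv hRs
  have hRsc : Tendsto R.symm (𝓝 (F x)) (𝓝 (φ x)) := by
    have := (R.continuousAt_symm hRt).tendsto
    rwa [hRi] at this
  have hEt : Tendsto (fun z => φ.symm (R.symm z)) (𝓝 (F x)) (𝓝 x) := by
    have : Tendsto φ.symm (𝓝 (φ x)) (𝓝 x) := by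
      have := hsc.tendsto
      rwa [hsx] at this
    exact this.comp hRsc
  have hev : ∀ᶠ z in 𝓝 (F x), (z ∈ R.target ∧ R.symm z ∈ φ.target) ∧
      Θ.Prim F (φ.symm (R.symm z)) ∧ Θ.f φ (R.symm z) ≠ 0 := by
    have e1 : ∀ᶠ z in 𝓝 (F x), z ∈ R.target := R.open_target.mem_nhds hRt
    have e2 : ∀ᶠ z in 𝓝 (F x), R.symm z ∈ φ.target :=
      hRsc.eventually (φ.open_target.mem_nhds hxt)
    have e3 : ∀ᶠ z in 𝓝 (F x), Θ.Prim F (φ.symm (R.symm z)) :=
      hEt.eventually ((Θ.prim_ev hF).mono fun y hy => hy.1)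
    have e4 : ∀ᶠ z in 𝓝 (F x), Θ.f φ (R.symm z) ≠ 0 := hRsc.eventually hfne
    filter_upwards [e1, e2, e3, e4] with z z1 z2 z3 z4 using ⟨⟨z1, z2⟩, z3, z4⟩
  obtain ⟨ρ, hρ, hball⟩ := Metric.eventually_nhds_iff_ball.1 hev
  refine ⟨ρ, hρ, fun z => φ.symm (R.symm z), ?_, ?_, ?_⟩
  · show φ.symm (R.symm (F x)) = x
    rw [hRi, hsx]
  · intro z hz
    obtain ⟨⟨h1, h2⟩, h3, h4⟩ := hball z hz
    refine ⟨?_, ?_, h3, ?_⟩
    · exact ContinuousAt.comp (g := φ.symm) (f := R.symm) (φ.continuousAt_symm h2)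
        (R.continuousAt_symm h1)
    · show F (φ.symm (R.symm z)) = z
      have := R.right_inv h1
      rw [hRc] at this
      exact this
    · show φ.symm (R.symm z) ∉ Θ.zeros
      rw [Θ.zeros_iff hφ (φ.map_target h2), φ.right_inv h2]
      exact h4
  · have h5 : ∀ᶠ y in 𝓝 x, φ y ∈ R.source := hpc.tendsto.eventually (R.open_source.mem_nhds hRs)
    filter_upwards [h5, φ.open_source.mem_nhds hxs] with y hy hys
    have := R.left_inv hy
    rw [hRc] at this
    simp only [Function.comp_apply, φ.left_inv hys] at this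
    show φ.symm (R.symm (F y)) = y
    rw [this, φ.left_inv hys]

end H37abf
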