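import Pool.Agent.H.MP_abf1f1_an.BrB

/-! MP_abf1f1_an, bridge: primitives near regular points, isolated zeros. -/

set_option autoImplicit false

open scoped Manifold ContDiff Topology
open Set Filter Metric

namespace H37abf

variable {X : Type} [TopologicalSpace X] [ChartedSpace ℂ X] [IsManifold 𝓘(ℂ) ω X]
  (Θ : HolForm X)

/-- near every point the form vanishes identically or only at the point -/
theorem BrB2_dich (x : X) :
    (∀ᶠ y in 𝓝 x, y ∈ Θ.zeros) ∨ (∀ᶠ y in 𝓝[≠] x, y ∉ Θ.zeros) := by
  obtain ⟨φ, hφ⟩ : ∃ φ, φ = chartAt ℂ x := ⟨_, rfl⟩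
  have hφc : φ ∈ Charts X := by rw [hφ]; exact chartAt_mem_Charts x
  have hx : x ∈ φ.source := by rw [hφ]; exact mem_chart_source ℂ x
  have han : AnalyticAt ℂ (Θ.f φ) (φ x) :=
    (Θ.hol φ hφc).analyticAt (φ.open_target.mem_nhds (φ.map_source hx))
  have hsrc : ∀ᶠ y in 𝓝 x, y ∈ φ.source := φ.open_source.mem_nhds hx
  rcases han.eventually_eq_zero_or_eventually_ne_zero with h | h
  · left
    filter_upwards [hsrc, (φ.continuousAt hx).eventually h] with y hy hz
    exact (Θ.zeros_iff hφc hy).mpr hz
  · right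
    rw [eventually_nhdsWithin_iff] at h ⊢
    filter_upwards [hsrc, (φ.continuousAt hx).eventually h] with y hy hz hne hmem
    refine hz ?_ ((Θ.zeros_iff hφc hy).mp hmem)
    intro e
    exact hne (φ.injOn hy hx e)

/-- The form does not vanish identically near any point. PROOF. The set of the points `x` near which
`Θ.f φ` vanishes identically (in one or every chart at `x`) is open; it is closed: if `x` is in the closure
then in the chart at `x` the holomorphic function `Θ.f φ` vanishes on a nonempty open subset of every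
disc around `φ x`, so near `φ x` by the identity theorem (`AnalyticAt.frequently_zero_iff_eventually_zero`
or `AnalyticOnNhd.eqOn_of_preconnected_of_eventuallyEq`). As `X` is connected and the set is not `univ`
(hypothesis), it is empty. -/
theorem HolForm.not_locally_zero [ConnectedSpace X] (hne : ∃ x, x ∉ Θ.zeros) (x : X) :
    ∀ᶠ y in 𝓝[≠] x, y ∉ Θ.zeros := by
  have hopen : IsOpen {x : X | ∀ᶠ y in 𝓝 x, y ∈ Θ.zeros} := isOpen_setOfPred_eventually_nhds
  have hclosed : IsClosed {x : X | ∀ᶠ y in 𝓝 x, y ∈ Θ.zeros} := by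
    rw [← isOpen_compl_iff, isOpen_iff_eventually]
    intro x hx
    have h2 := (BrB2_dich Θ x).resolve_left hx
    rw [eventually_nhdsWithin_iff] at h2
    filter_upwards [h2] with y hy hyA
    by_cases e : y = x
    · rw [e] at hyA
      exact hx hyA
    · exact hy e (Filter.Eventually.self_of_nhds hyA)
  refine (BrB2_dich Θ x).resolve_left fun hx => ?_
  rcases isClopen_iff.mp ⟨hclosed, hopen⟩ with h | h
  · have : x ∈ {x : X | ∀ᶠ y in 𝓝 x, y ∈ Θ.zeros} := hx
    rw [h] at this
    exact this
  · obtain ⟨z, hz⟩ := hne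
    have : z ∈ {x : X | ∀ᶠ y in 𝓝 x, y ∈ Θ.zeros} := by rw [h]; exact mem_univ z
    exact hz (Filter.Eventually.self_of_nhds this)

end H37abf
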