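import Pool.Agent.H.MP_abf1f1_an.BrB2

/-! MP_abf1f1_an, bridge: primitives near regular points, isolated zeros. -/

set_option autoImplicit false

open scoped Manifold ContDiff Topology
open Set Filter Metric

namespace H37abf

variable {X : Type} [TopologicalSpace X] [ChartedSpace ℂ X] [IsManifold 𝓘(ℂ) ω X]
  (Θ : HolForm X)

/-- The inverse chart maps punctured neighbourhoods to punctured neighbourhoods. -/
theorem BrB3_symm {Y : Type} [TopologicalSpace Y] (φ : OpenPartialHomeomorph Y ℂ) {x : Y}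
    (hx : x ∈ φ.source) : Tendsto φ.symm (𝓝[≠] (φ x)) (𝓝[≠] x) := by
  have h1 : Tendsto φ.symm (𝓝 (φ x)) (𝓝 x) := by
    have h2 := φ.continuousAt_symm (φ.map_source hx)
    unfold ContinuousAt at h2
    rwa [φ.left_inv hx] at h2
  refine tendsto_nhdsWithin_iff.2 ⟨h1.mono_left nhdsWithin_le_nhds, ?_⟩
  have h3 : ∀ᶠ z in 𝓝[≠] (φ x), z ∈ φ.target :=
    (φ.open_target.eventually_mem (φ.map_source hx)).filter_mono nhdsWithin_le_nhds
  filter_upwards [h3, self_mem_nhdsWithin] with z hz hz2
  intro h4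
  apply hz2
  have h5 : φ.symm z = x := h4
  have h6 := φ.right_inv hz
  rw [h5] at h6
  exact h6.symm

/-- The chart maps punctured neighbourhoods to punctured neighbourhoods. -/
theorem BrB3_chart {Y : Type} [TopologicalSpace Y] (φ : OpenPartialHomeomorph Y ℂ) {x : Y}
    (hx : x ∈ φ.source) : Tendsto φ (𝓝[≠] x) (𝓝[≠] (φ x)) := by
  refine tendsto_nhdsWithin_iff.2 ⟨(φ.continuousAt hx).tendsto.mono_left nhdsWithin_le_nhds, ?_⟩
  have h3 : ∀ᶠ y in 𝓝[≠] x, y ∈ φ.source :=
    (φ.open_source.eventually_mem hx).filter_mono nhdsWithin_le_nhds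
  filter_upwards [h3, self_mem_nhdsWithin] with y hy hy2
  intro h4
  apply hy2
  exact φ.injOn hy hx h4

theorem BrB3_neBot {Y : Type} [TopologicalSpace Y] [ChartedSpace ℂ Y] (x : Y) : (𝓝[≠] x).NeBot := by
  have h := BrB3_symm (chartAt ℂ x) (mem_chart_source ℂ x)
  exact NeBot.mono (inferInstance : (map (chartAt ℂ x).symm (𝓝[≠] (chartAt ℂ x x))).NeBot) h

/-- PROOF. `G = F ∘ φ.symm` is holomorphic near `φ x`. If `G - G (φ x)` vanished at points `≠ φ x`
arbitrarily close to `φ x` it would vanish near `φ x` (`AnalyticAt.eventually_eq_zero_or_eventually_ne_zero`),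
so `G' = Θ.f φ` would vanish near `φ x`, contradicting `not_locally_zero`. -/
theorem HolForm.prim_iso [ConnectedSpace X] (hne : ∃ x, x ∉ Θ.zeros) {x : X} {F : X → ℂ}
    (hF : Θ.Prim F x) : ∀ᶠ y in 𝓝[≠] x, F y ≠ F x ∧ y ∉ Θ.zeros := by
  have hnz := Θ.not_locally_zero hne x
  have hx : x ∈ (chartAt ℂ x).source := mem_chart_source ℂ x
  have hφ : chartAt ℂ x ∈ Charts X := chartAt_mem_Charts x
  set φ := chartAt ℂ x with hφd
  set G : ℂ → ℂ := F ∘ φ.symm with hG
  have hsy : Tendsto φ.symm (𝓝 (φ x)) (𝓝 x) := by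
    have h2 := φ.continuousAt_symm (φ.map_source hx)
    unfold ContinuousAt at h2
    rwa [φ.left_inv hx] at h2
  have hGd : ∀ᶠ z in 𝓝 (φ x), HasDerivAt G (Θ.f φ z) z := by
    have h1 := hsy.eventually hF
    filter_upwards [h1, φ.open_target.eventually_mem (φ.map_source hx)] with z hz hzt
    have h2 := hz φ hφ (φ.map_target hzt)
    rwa [φ.right_inv hzt] at h2
  have hGan : AnalyticAt ℂ G (φ x) :=
    Complex.analyticAt_iff_eventually_differentiableAt.2 (hGd.mono fun z hz => hz.differentiableAt)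
  have hGan2 : AnalyticAt ℂ (fun z => G z - G (φ x)) (φ x) := hGan.sub analyticAt_const
  rcases hGan2.eventually_eq_zero_or_eventually_ne_zero with h0 | h0
  · exfalso
    have h1 : ∀ᶠ z in 𝓝 (φ x), Θ.f φ z = 0 := by
      filter_upwards [hGd, h0.eventually_nhds] with z hz hz0
      have h2 : G =ᶠ[𝓝 z] fun _ => G (φ x) := by
        filter_upwards [hz0] with w hw
        exact sub_eq_zero.1 hw
      exact hz.unique ((hasDerivAt_const z (G (φ x))).congr_of_eventuallyEq h2)
    have h2 : ∀ᶠ y in 𝓝[≠] x, y ∈ Θ.zeros := by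
      have h3 := (φ.continuousAt hx).tendsto.eventually h1
      filter_upwards [h3.filter_mono nhdsWithin_le_nhds,
        (φ.open_source.eventually_mem hx).filter_mono nhdsWithin_le_nhds] with y hy hys
      exact (Θ.zeros_iff hφ hys).2 hy
    have := BrB3_neBot x
    obtain ⟨y, hy1, hy2⟩ := (hnz.and h2).exists
    exact hy1 hy2
  · have h1 := (BrB3_chart φ hx).eventually h0
    filter_upwards [h1, hnz, (φ.open_source.eventually_mem hx).filter_mono nhdsWithin_le_nhds]
      with y hy hyz hys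
    refine ⟨fun h => hy ?_, hyz⟩
    simp only [hG, Function.comp_apply, φ.left_inv hys, φ.left_inv hx, h, sub_self]

/-- PROOF. Every point has a neighbourhood with at most one zero (`not_locally_zero`); compactness. -/
theorem HolForm.zeros_finite [ConnectedSpace X] [CompactSpace X] (hne : ∃ x, x ∉ Θ.zeros) :
    Θ.zeros.Finite := by
  by_contra hinf
  obtain ⟨z, hz⟩ := Set.Infinite.exists_accPt_principal hinf
  have h1 : ∃ᶠ y in 𝓝[≠] z, y ∈ Θ.zeros := accPt_iff_frequently_nhdsNE.1 hz
  exact h1 (Θ.not_locally_zero hne z)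

/-- PROOF. Punctured neighbourhoods in a chart: `ℂ` has no isolated points. -/
theorem punctured_neBot (x : X) : (𝓝[≠] x).NeBot := BrB3_neBot x

end H37abf
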