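import Pool.Agent.H.MP_abf1f1_an.BrA2

/-! MP_abf1f1_an, bridge: the complement of a finite set in a connected surface is connected. -/

set_option autoImplicit false

open scoped Manifold ContDiff Topology
open Set Filter Metric

namespace H37abf

/-- PROOF. It is the image of `Ioo 0 ρ ×ˢ univ` under `(r, θ) ↦ c + r exp (i θ)`. -/
theorem isPreconnected_punctured (c : ℂ) (ρ : ℝ) : IsPreconnected (ball c ρ \ {c}) := by
  have him : ball c ρ \ {c} = (fun q : ℝ × ℝ => c + (q.1 : ℂ) * Complex.exp (q.2 * Complex.I)) ''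
      (Ioo 0 ρ ×ˢ (univ : Set ℝ)) := by
    ext z
    constructor
    · rintro ⟨hz, hzc⟩
      have hzc' : z - c ≠ 0 := fun h => hzc (by simpa using sub_eq_zero.mp h)
      refine ⟨(‖z - c‖, Complex.arg (z - c)), ⟨⟨norm_pos_iff.mpr hzc', ?_⟩, mem_univ _⟩, ?_⟩
      · simpa [mem_ball, dist_eq_norm] using hz
      · have := Complex.norm_mul_exp_arg_mul_I (z - c)
        simp only [this]
        ring
    · rintro ⟨⟨r, θ⟩, ⟨⟨hr0, hrρ⟩, -⟩, rfl⟩
      refine ⟨?_, ?_⟩
      · simp only [mem_ball, dist_eq_norm, add_sub_cancel_left, norm_mul, Complex.norm_real,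
          Complex.norm_exp_ofReal_mul_I, mul_one, Real.norm_eq_abs, abs_of_pos hr0]
        exact hrρ
      · intro h
        have h' : (r : ℂ) * Complex.exp (θ * Complex.I) = 0 := by simpa using h
        rcases mul_eq_zero.mp h' with h1 | h1
        · exact hr0.ne' (by exact_mod_cast h1)
        · exact Complex.exp_ne_zero _ h1
  rw [him]
  refine (isPreconnected_Ioo.prod isPreconnected_univ).image _ ?_
  apply Continuous.continuousOn
  fun_prop

variable {X : Type} [TopologicalSpace X] [ChartedSpace ℂ X]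

/-- Every open neighbourhood of `p` contains an open neighbourhood `N` of `p` with `N \ {p}` preconnected. -/
theorem BrC_nhd {W : Set X} (hW : IsOpen W) {p : X} (hp : p ∈ W) :
    ∃ N : Set X, IsOpen N ∧ p ∈ N ∧ N ⊆ W ∧ IsPreconnected (N \ {p}) := by
  set e := chartAt ℂ p with he
  have hpe : p ∈ e.source := mem_chart_source ℂ p
  have hO : IsOpen (e.target ∩ e.symm ⁻¹' W) := e.isOpen_inter_preimage_symm hW
  have hmem : e p ∈ e.target ∩ e.symm ⁻¹' W :=
    ⟨e.map_source hpe, by simpa [e.left_inv hpe] using hp⟩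
  obtain ⟨ρ, hρ, hball⟩ := Metric.isOpen_iff.mp hO _ hmem
  have himg : e.symm '' (ball (e p) ρ) = e.source ∩ e ⁻¹' (ball (e p) ρ) :=
    e.symm_image_eq_source_inter_preimage (fun z hz => (hball hz).1)
  refine ⟨e.symm '' (ball (e p) ρ), ?_, ?_, ?_, ?_⟩
  · rw [himg]
    exact e.isOpen_inter_preimage isOpen_ball
  · exact ⟨e p, mem_ball_self hρ, e.left_inv hpe⟩
  · rintro _ ⟨z, hz, rfl⟩
    exact (hball hz).2
  · have : e.symm '' (ball (e p) ρ) \ {p} = e.symm '' (ball (e p) ρ \ {e p}) := by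
      ext x
      constructor
      · rintro ⟨⟨z, hz, rfl⟩, hx⟩
        refine ⟨z, ⟨hz, ?_⟩, rfl⟩
        rintro rfl
        exact hx (e.left_inv hpe)
      · rintro ⟨z, ⟨hz, hzp⟩, rfl⟩
        refine ⟨⟨z, hz, rfl⟩, ?_⟩
        intro h
        apply hzp
        have h' : e.symm z = p := h
        have : e (e.symm z) = z := e.right_inv (hball hz).1
        rw [h'] at this
        exact this.symm
    rw [this]
    exact (isPreconnected_punctured _ _).image _
      (e.continuousOn_symm.mono fun z hz => (hball hz.1).1)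

theorem BrC_step [T2Space X] {W : Set X} (hW : IsOpen W) (hc : IsPreconnected W) (p : X) :
    IsPreconnected (W \ {p}) := by
  by_cases hp : p ∈ W
  swap
  · rwa [sdiff_singleton_eq_self hp]
  obtain ⟨N, hN, hpN, hNW, hNc⟩ := BrC_nhd hW hp
  have hWp : IsOpen (W \ {p}) := hW.sdiff isClosed_singleton
  have key : ∀ U V : Set X, IsOpen U → IsOpen V → W \ {p} ⊆ U ∪ V → (W \ {p} ∩ V).Nonempty →
      N \ {p} ⊆ U → (W \ {p} ∩ (U ∩ V)).Nonempty := by
    intro U V hU hV hcov hVne hNU
    have hcov' : W ⊆ (U ∩ (W \ {p}) ∪ N) ∪ (V ∩ (W \ {p})) := by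
      intro x hx
      by_cases hxp : x = p
      · exact Or.inl (Or.inr (hxp ▸ hpN))
      · have hx' : x ∈ W \ {p} := ⟨hx, hxp⟩
        rcases hcov hx' with h | h
        · exact Or.inl (Or.inl ⟨h, hx'⟩)
        · exact Or.inr ⟨h, hx'⟩
    obtain ⟨y, hyW, hyV⟩ := hVne
    obtain ⟨x, hxW, hx1, hx2⟩ := hc _ _ ((hU.inter hWp).union hN) (hV.inter hWp) hcov'
      ⟨p, hp, Or.inr hpN⟩ ⟨y, hyW.1, hyV, hyW⟩
    refine ⟨x, hx2.2, ?_, hx2.1⟩
    rcases hx1 with h | h
    · exact h.1
    · exact hNU ⟨h, hx2.2.2⟩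
  intro U V hU hV hcov hUne hVne
  have hNcov : N \ {p} ⊆ U ∪ V := fun x hx => hcov ⟨hNW hx.1, hx.2⟩
  by_cases hNV : (N \ {p} ∩ V).Nonempty
  · by_cases hNU : (N \ {p} ∩ U).Nonempty
    · obtain ⟨x, hx, hxUV⟩ := hNc U V hU hV hNcov hNU hNV
      exact ⟨x, ⟨hNW hx.1, hx.2⟩, hxUV⟩
    · have hsub : N \ {p} ⊆ V := by
        intro x hx
        rcases hNcov hx with h | h
        · exact absurd ⟨x, hx, h⟩ hNU
        · exact h
      obtain ⟨x, hx, hx2, hx1⟩ := key V U hV hU (by rwa [union_comm]) hUne hsub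
      exact ⟨x, hx, hx1, hx2⟩
  · have hsub : N \ {p} ⊆ U := by
      intro x hx
      rcases hNcov hx with h | h
      · exact h
      · exact absurd ⟨x, hx, h⟩ hNV
    exact key U V hU hV hcov hVne hsub

/-- PROOF. Induction on the finite set; it is enough: if `W` is open and preconnected and `p ∈ W` then
`W \ {p}` is preconnected. Let `U, V` be open, `W \ {p} ⊆ U ∪ V`, both meeting `W \ {p}`, and suppose that
`W \ {p} ∩ (U ∩ V)` is empty. Let `N ⊆ W` be an open neighbourhood of `p` such that `N \ {p}` is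
preconnected (preimage of a disc in the chart at `p`, `isPreconnected_punctured`) and nonempty. Then
`N \ {p}` is contained in `U` or in `V`, say in `U`. So `W` is covered by the open sets
`(U ∩ (W \ {p})) ∪ N` and `V ∩ (W \ {p})` (T2: `{p}ᶜ` is open) which are disjoint in `W`: contradiction to
preconnectedness of `W`. -/
theorem isPreconnected_compl_finite [T2Space X] [ConnectedSpace X] {Z : Set X} (hZ : Z.Finite) :
    IsPreconnected Zᶜ := by
  induction Z, hZ using Set.Finite.induction_on with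
  | empty => simpa using isPreconnected_univ
  | @insert a s ha hs ih =>
    have hopen : IsOpen sᶜ := hs.isClosed.isOpen_compl
    have h : (insert a s)ᶜ = sᶜ \ {a} := by
      ext x
      simp only [mem_compl_iff, mem_insert_iff, not_or, Set.mem_sdiff, mem_singleton_iff]
      tauto
    rw [h]
    exact BrC_step hopen ih a

end H37abf
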