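import Mathlib

/-! MP_abf1f1_an: abstract flat surfaces with cone points (module A). `Z` is the set of cone points,
`P x F` says that `F` is a local primitive of the form near `x`. Everything in module A is proved from
the fields of this structure; the one-form is only used to construct it (files `Br*.lean`). -/

set_option autoImplicit false

open scoped Topology
open Set Filter

namespace H37abf

structure Flat (X : Type) [TopologicalSpace X] where
  Z : Set X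
  P : X → (X → ℂ) → Prop
  zfin : Z.Finite
  zne : Z.Nonempty
  conn : IsPreconnected Zᶜ
  nb : ∀ x : X, (𝓝[≠] x).NeBot
  ex : ∀ x, ∃ F, P x F
  ev : ∀ x F, P x F → ∀ᶠ y in 𝓝 x, P y F ∧ ContinuousAt F y
  sub : ∀ x F F', P x F → P x F' → ∀ᶠ y in 𝓝 x, F y - F' y = F x - F' x
  /-- near a regular point `F` is a homeomorphism onto a disc, with inverse `E` -/
  inv : ∀ x, x ∉ Z → ∀ F, P x F → ∃ ρ > 0, ∃ E : ℂ → X, E (F x) = x ∧
    (∀ z ∈ Metric.ball (F x) ρ, ContinuousAt E z ∧ F (E z) = z ∧ P (E z) F ∧ E z ∉ Z) ∧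
    ∀ᶠ y in 𝓝 x, E (F y) = y
  /-- `x` is isolated in its fibre and in the set of cone points -/
  iso : ∀ x F, P x F → ∀ᶠ y in 𝓝[≠] x, F y ≠ F x ∧ y ∉ Z

variable {X : Type} [TopologicalSpace X] (Φ : Flat X)

/-- `γ` is a straight path on `[a, b]` with velocity `v` (it may pass through cone points). -/
structure Flat.Str (γ : ℝ → X) (v : ℂ) (a b : ℝ) : Prop where
  cont : ContinuousOn γ (Icc a b)
  str : ∀ t ∈ Icc a b, ∀ F, Φ.P (γ t) F →
    ∀ᶠ s in 𝓝[Icc a b] t, F (γ s) - F (γ t) = (s - t : ℝ) * v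

/-- There is a straight path from `x` to `y` with vector `v` (it may pass through cone points). -/
def Flat.Join (x y : X) (v : ℂ) : Prop := ∃ γ, Φ.Str γ v 0 1 ∧ γ 0 = x ∧ γ 1 = y

/-- There is a straight path from `x` to `y` with vector `v` avoiding the cone points. -/
def Flat.Dom (x : X) (v : ℂ) (y : X) : Prop :=
  ∃ γ, Φ.Str γ v 0 1 ∧ γ 0 = x ∧ γ 1 = y ∧ ∀ t ∈ Icc (0 : ℝ) 1, γ t ∉ Φ.Z

/-- There is a straight path from `x` with vector `v` that ends in the cone point `p` and avoids the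
cone points before. -/
def Flat.See (x : X) (v : ℂ) (p : X) : Prop :=
  ∃ γ, Φ.Str γ v 0 1 ∧ γ 0 = x ∧ γ 1 = p ∧ p ∈ Φ.Z ∧ ∀ t ∈ Ico (0 : ℝ) 1, γ t ∉ Φ.Z

/-- The vectors from `x` to the visible cone points. -/
def Flat.Vis (x : X) : Set ℂ := {v | ∃ p, Φ.See x v p}

/-- The holonomies of saddle connections. -/
def Flat.Lam : Set ℂ := {v | ∃ γ, Φ.Str γ v 0 1 ∧ γ 0 ∈ Φ.Z ∧ γ 1 ∈ Φ.Z ∧
  ∀ t ∈ Ioo (0 : ℝ) 1, γ t ∉ Φ.Z}

/-- The open disc with centre `y` and radius `r` contains `0` and no visible cone point of `x`. -/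
def Flat.Empty (x : X) (y : ℂ) (r : ℝ) : Prop :=
  (0 : ℂ) ∈ Metric.ball y r ∧ ∀ v ∈ Φ.Vis x, v ∉ Metric.ball y r

/-- The disc `(y, r)` is a Delaunay disc of `x`: it is empty and `r ^ 2 - |y| ^ 2` is maximal. -/
def Flat.Del (x : X) (y : ℂ) (r : ℝ) : Prop :=
  Φ.Empty x y r ∧ ∀ y' r', Φ.Empty x y' r' → r' ^ 2 - ‖y'‖ ^ 2 ≤ r ^ 2 - ‖y‖ ^ 2

/-- The visible cone points of `x` on the circle. -/
def Flat.S (x : X) (y : ℂ) (r : ℝ) : Set ℂ := Φ.Vis x ∩ Metric.sphere y r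

end H37abf
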