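import Pool.Agent.H.MP_abf1f1_an.BrB3
import Pool.Agent.H.MP_abf1f1_an.BrC
import Pool.Agent.H.MP_abf1f1_an.FlatDef

/-! MP_abf1f1_an, bridge: the flat surface of a one-form, and the Veech group. -/

set_option autoImplicit false

open scoped Manifold ContDiff Topology
open Set Filter Metric

namespace H37abf

variable {X : Type} [TopologicalSpace X] [ChartedSpace ℂ X] [IsManifold 𝓘(ℂ) ω X]
  [T2Space X] [CompactSpace X] [ConnectedSpace X] (Θ : HolForm X)

/-- The flat surface of a nonzero one-form with at least one zero. -/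
noncomputable def HolForm.flat (hne : ∃ x, x ∉ Θ.zeros) (hz : Θ.zeros.Nonempty) : Flat X where
  Z := Θ.zeros
  P := fun x F => Θ.Prim F x
  zfin := Θ.zeros_finite hne
  zne := hz
  conn := isPreconnected_compl_finite (Θ.zeros_finite hne)
  nb := punctured_neBot
  ex := Θ.exists_prim
  ev := fun _ _ h => Θ.prim_ev h
  sub := fun _ _ _ h h' => Θ.prim_sub h h'
  inv := fun _ hx _ hF => Θ.prim_inv hx hF
  iso := fun _ _ hF => Θ.prim_iso hne hF

/-- PROOF. The definitions agree field by field. -/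
theorem HolForm.flat_lam (hne : ∃ x, x ∉ Θ.zeros) (hz : Θ.zeros.Nonempty) :
    (Θ.flat hne hz).Lam = Θ.Lam := by
  ext v
  constructor
  · rintro ⟨γ, h1, h2, h3, h4⟩
    exact ⟨γ, ⟨h1.cont, h2, h3, h4, h1.str⟩⟩
  · rintro ⟨γ, h⟩
    exact ⟨γ, ⟨h.cont, h.straight⟩, h.start, h.stop, h.inside⟩

/-- PROOF. If there are no zeros there are no saddle connections (`Saddle.start`). -/
theorem HolForm.lam_empty (hz : ¬ Θ.zeros.Nonempty) : Θ.Lam = ∅ := by
  apply Set.eq_empty_of_forall_notMem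
  rintro v ⟨γ, h⟩
  exact hz ⟨_, h.start⟩

theorem act_one (z : ℂ) : act 1 z = z := by
  apply Complex.ext <;> simp [act]

theorem act_mul (g h : G2) (z : ℂ) : act (g * h) z = act g (act h z) := by
  apply Complex.ext <;>
    simp only [act, Matrix.SpecialLinearGroup.coe_mul, Matrix.mul_apply, Fin.sum_univ_two] <;> ring

theorem BrD_act_real (g : G2) (r : ℝ) (z : ℂ) : act g ((r : ℂ) * z) = (r : ℂ) * act g z := by
  apply Complex.ext <;> simp [act] <;> ring

theorem BrD_act_inv (g : G2) (z : ℂ) : act g⁻¹ (act g z) = z := by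
  rw [← act_mul, inv_mul_cancel, act_one]

/-- PROOF. `Homeomorph.refl`, `prim_sub`, `act_one`. -/
theorem HolForm.affine_one : Θ.Affine 1 (Homeomorph.refl X) := by
  refine ⟨fun x => Iff.rfl, fun x F F' h h' => ?_⟩
  have h2 : Θ.Prim F' x := h'
  filter_upwards [Θ.prim_sub h2 h] with y hy
  rw [act_one]
  show F' y - F' x = F y - F x
  linear_combination hy

/-- PROOF. Choose a primitive at `ψ x` (`exists_prim`) in between; `act_mul`. -/
theorem HolForm.affine_mul {g h : G2} {ψ χ : X ≃ₜ X} (hg : Θ.Affine g ψ) (hh : Θ.Affine h χ) :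
    Θ.Affine (g * h) (χ.trans ψ) := by
  refine ⟨fun x => (hg.1 (χ x)).trans (hh.1 x), fun x F F' h1 h2 => ?_⟩
  obtain ⟨F₁, hF₁⟩ := Θ.exists_prim (χ x)
  have h3 := hh.2 x F F₁ h1 hF₁
  have h4 := (χ.continuous.tendsto x).eventually (hg.2 (χ x) F₁ F' hF₁ h2)
  filter_upwards [h3, h4] with y hy hy'
  show F' (ψ (χ y)) - F' (ψ (χ x)) = _
  rw [hy', hy, act_mul]

/-- PROOF. Apply `Θ.Affine g ψ` at `ψ.symm x`, move the statement along the homeomorphism and apply
`act g⁻¹`. -/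
theorem HolForm.affine_inv {g : G2} {ψ : X ≃ₜ X} (hg : Θ.Affine g ψ) : Θ.Affine g⁻¹ ψ.symm := by
  refine ⟨fun x => ?_, fun x F F' h1 h2 => ?_⟩
  · have := hg.1 (ψ.symm x)
    rw [ψ.apply_symm_apply] at this
    exact this.symm
  · have h3 : Θ.Prim F (ψ (ψ.symm x)) := by rw [ψ.apply_symm_apply]; exact h1
    have h4 := (ψ.symm.continuous.tendsto x).eventually (hg.2 (ψ.symm x) F' F h2 h3)
    filter_upwards [h4] with y hy
    rw [ψ.apply_symm_apply, ψ.apply_symm_apply] at hy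
    rw [hy, BrD_act_inv]

/-- The Veech group as a subgroup. -/
noncomputable def HolForm.veechGroup : Subgroup G2 where
  carrier := Θ.veech
  one_mem' := ⟨_, Θ.affine_one⟩
  mul_mem' := by
    rintro g h ⟨ψ, hψ⟩ ⟨χ, hχ⟩
    exact ⟨_, Θ.affine_mul hψ hχ⟩
  inv_mem' := by
    rintro g ⟨ψ, hψ⟩
    exact ⟨_, Θ.affine_inv hψ⟩

/-- PROOF. If `γ` is a saddle connection with holonomy `v` then `ψ ∘ γ` is one with holonomy `act g v`:
at `t` take a primitive `F` at `γ t` (`exists_prim`) and the given `F'` at `ψ (γ t)`. -/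
theorem HolForm.act_lam {g : G2} (hg : g ∈ Θ.veech) {v : ℂ} (hv : v ∈ Θ.Lam) :
    act g v ∈ Θ.Lam := by
  obtain ⟨ψ, hψ⟩ := hg
  obtain ⟨γ, h⟩ := hv
  refine ⟨fun t => ψ (γ t), ⟨ψ.continuous.comp_continuousOn h.cont, (hψ.1 _).2 h.start,
    (hψ.1 _).2 h.stop, fun t ht h' => h.inside t ht ((hψ.1 _).1 h'), fun t ht F' hF' => ?_⟩⟩
  obtain ⟨F, hF⟩ := Θ.exists_prim (γ t)
  have h1 := h.straight t ht F hF
  have h2 := (h.cont t ht).tendsto.eventually (hψ.2 (γ t) F F' hF hF')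
  filter_upwards [h1, h2] with s hs hs'
  show F' (ψ (γ s)) - F' (ψ (γ t)) = _
  rw [hs', hs, BrD_act_real]

end H37abf
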