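import Pool.Agent.H.MP_abf1f1_an.B5b

/-! MP_abf1f1_an, module C: arithmetic of the lattice in terms of the trace field. -/

set_option autoImplicit false

open scoped Topology
open Set Filter MeasureTheory

namespace H37abf

variable {Γ : Subgroup SL2} {Λ : Set ℂ} {K : Subfield ℝ}

/-- Rational coordinates for the pair `(Γ, K)`: a linear isomorphism with positive determinant `d` such
that the elements of `Γ` have matrices with entries in `K`. -/
structure Coord (Γ : Subgroup SL2) (K : Subfield ℝ) (L : ℂ ≃ₗ[ℝ] (ℝ × ℝ)) (d : ℝ) : Prop where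
  pos : 0 < d
  det : ∀ v w, (L v).1 * (L w).2 - (L v).2 * (L w).1 = d * cr v w
  mat : ∀ γ ∈ Γ, ∃ p ∈ K, ∃ q ∈ K, ∃ r ∈ K, ∃ s ∈ K, ∀ v,
    (L (act γ v)).1 = p * (L v).1 + q * (L v).2 ∧ (L (act γ v)).2 = r * (L v).1 + s * (L v).2

lemma C1_tr (g : SL2) (v w : ℂ) : g.1.trace * cr v w = cr (act g v) w + cr v (act g w) := by
  rw [Matrix.trace_fin_two]
  simp only [cr, act]
  ring

lemma C1_cr_l (x v w : ℂ) (s : ℝ) : cr (x + (s : ℂ) * v) w = cr x w + s * cr v w := by
  simp only [cr, Complex.add_re, Complex.add_im, Complex.mul_re, Complex.mul_im, Complex.ofReal_re,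
    Complex.ofReal_im]
  ring

lemma C1_cr_r (x v w : ℂ) (s : ℝ) : cr w (x + (s : ℂ) * v) = cr w x + s * cr w v := by
  simp only [cr, Complex.add_re, Complex.add_im, Complex.mul_re, Complex.mul_im, Complex.ofReal_re,
    Complex.ofReal_im]
  ring

lemma C1_P (g : SL2) {v w : ℂ} (h : cr v w ≠ 0) (t : ℝ) :
    (unip v t * g).1.trace = g.1.trace + t * cr v (act g v) := by
  have h1 := C1_tr (unip v t * g) v w
  have h2 := C1_tr g v w
  rw [act_comp, act_comp, act_unip, act_unip, C1_cr_l, C1_cr_r, cr_self] at h1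
  have h3 : (unip v t * g).1.trace * cr v w = (g.1.trace + t * cr v (act g v)) * cr v w := by
    rw [h1, add_mul, h2]; ring
  exact mul_right_cancel₀ h h3

lemma C1_Q (g : SL2) {v w : ℂ} (h : cr v w ≠ 0) (t : ℝ) :
    (unip w t * g).1.trace = g.1.trace + t * cr w (act g w) := by
  have h1 := C1_tr (unip w t * g) v w
  have h2 := C1_tr g v w
  rw [act_comp, act_comp, act_unip, act_unip, C1_cr_l, C1_cr_r, cr_self] at h1
  have h3 : (unip w t * g).1.trace * cr v w = (g.1.trace + t * cr w (act g w)) * cr v w := by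
    rw [h1, add_mul, h2]; ring
  exact mul_right_cancel₀ h h3

/-- the coordinates in the basis `v, w / (α cr v w)` -/
noncomputable def C1_L (v w : ℂ) (α : ℝ) (hα : α ≠ 0) (h : cr v w ≠ 0) : ℂ ≃ₗ[ℝ] (ℝ × ℝ) where
  toFun u := (cr u w / cr v w, α * cr v u)
  map_add' x y := by
    ext
    · simp only [cr, Complex.add_re, Complex.add_im, Prod.mk_add_mk]
      ring
    · simp only [cr, Complex.add_re, Complex.add_im, Prod.mk_add_mk]
      ring
  map_smul' c x := by
    ext
    · simp only [cr, Complex.real_smul, Complex.mul_re, Complex.mul_im, Complex.ofReal_re,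
        Complex.ofReal_im, RingHom.id_apply, Prod.smul_mk, smul_eq_mul]
      ring
    · simp only [cr, Complex.real_smul, Complex.mul_re, Complex.mul_im, Complex.ofReal_re,
        Complex.ofReal_im, RingHom.id_apply, Prod.smul_mk, smul_eq_mul]
      ring
  invFun p := (p.1 : ℂ) * v + ((p.2 / (α * cr v w) : ℝ) : ℂ) * w
  left_inv u := by
    apply Complex.ext
    · simp only [Complex.add_re, Complex.mul_re, Complex.ofReal_re, Complex.ofReal_im]
      have e : cr u w * v.re + cr v u * w.re = u.re * cr v w := by unfold cr; ring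
      field_simp
      linarith [e]
    · simp only [Complex.add_im, Complex.mul_im, Complex.ofReal_re, Complex.ofReal_im]
      have e : cr u w * v.im + cr v u * w.im = u.im * cr v w := by unfold cr; ring
      field_simp
      linarith [e]
  right_inv p := by
    have e1 : cr ((p.1 : ℂ) * v + ((p.2 / (α * cr v w) : ℝ) : ℂ) * w) w = p.1 * cr v w := by
      rw [C1_cr_l, cr_self]
      simp only [cr, Complex.mul_re, Complex.mul_im, Complex.ofReal_re, Complex.ofReal_im]
      ring
    have e2 : cr v ((p.1 : ℂ) * v + ((p.2 / (α * cr v w) : ℝ) : ℂ) * w) = p.2 / α := by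
      rw [C1_cr_r]
      have e3 : cr v ((p.1 : ℂ) * v) = 0 := by
        simp only [cr, Complex.mul_re, Complex.mul_im, Complex.ofReal_re, Complex.ofReal_im]
        ring
      rw [e3, zero_add]
      field_simp
    simp only [e1, e2]
    ext
    · simp only
      field_simp
    · simp only
      field_simp

/-- PROOF. Take `v, w ∈ Λ` with `cr v w ≠ 0`, `α = al Γ v`, `β = al Γ w`, `P = unip v α ∈ Γ`,
`Q = unip w β ∈ Γ` (`al_spec`). Let `L u = (cr u w / cr v w, α * cr v u)` (coordinates in the basis
`e₁ = v`, `e₂ = w / (α cr v w)`); `d = α`. In this basis `P = [[1,1],[0,1]]`, `Q = [[1,0],[q,1]]` with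
`q = - α β (cr v w)²` (`act_unip`). Traces do not depend on the basis. If `g ∈ Γ` has the matrix
`[[a,b],[c,e]]` in this basis then `K` contains `trace (P Q) = 2 + q`, hence `q ≠ 0`; `trace g = a + e`,
`trace (P g) = a + e + c`, hence `c`; `trace (Q g) = a + e + q b`, hence `b`;
`trace (P Q g) = (1 + q) a + c + q b + e`, hence `q a` and `a`, and `e`. -/
theorem Core.exists_coord (h : Core Γ Λ) (hK : ∀ γ ∈ Γ, γ.1.trace ∈ K) :
    ∃ (L : ℂ ≃ₗ[ℝ] (ℝ × ℝ)) (d : ℝ), Coord Γ K L d := by
  obtain ⟨v, hv, w, hw, hc⟩ := h.span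
  obtain ⟨hα, hαs⟩ := h.al_spec hv
  obtain ⟨hβ, hβs⟩ := h.al_spec hw
  set α := al Γ v with hαd
  set β := al Γ w with hβd
  have hP : unip v α ∈ Γ := (hαs α).2 ⟨1, by simp⟩
  have hQ : unip w β ∈ Γ := (hβs β).2 ⟨1, by simp⟩
  refine ⟨C1_L v w α hα.ne' hc, α, hα, ?_, ?_⟩
  · intro x y
    change (cr x w / cr v w) * (α * cr v y) - (α * cr v x) * (cr y w / cr v w) = α * cr x y
    have e : cr x w * cr v y - cr v x * cr y w = cr v w * cr x y := by unfold cr; ring
    field_simp
    linarith [e]
  · intro g hg
    have hq1 : (unip v α * unip w β).1.trace = 2 - α * β * cr v w ^ 2 := by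
      rw [C1_P _ hc, act_unip, C1_cr_r, cr_self, cr_comm v w]
      have : (unip w β).1.trace = 2 := by
        rw [Matrix.trace_fin_two]
        simp [unip]
        ring
      rw [this]; ring
    have hqK : α * β * cr v w ^ 2 ∈ K := by
      have h1 := hK _ (Γ.mul_mem hP hQ)
      rw [hq1] at h1
      have h2 : (2 : ℝ) ∈ K := by
        have := K.add_mem K.one_mem K.one_mem
        rwa [one_add_one_eq_two] at this
      have h3 := K.sub_mem h2 h1
      simpa using h3
    have hq0 : α * β * cr v w ^ 2 ≠ 0 := by positivity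
    have hcK : α * cr v (act g v) ∈ K := by
      have h1 := K.sub_mem (hK _ (Γ.mul_mem hP hg)) (hK _ hg)
      rw [C1_P _ hc] at h1
      simpa using h1
    have hbK : cr (act g w) w / (α * cr v w ^ 2) ∈ K := by
      have h1 := K.sub_mem (hK _ (Γ.mul_mem hQ hg)) (hK _ hg)
      rw [C1_Q _ hc] at h1
      have h2 : β * cr w (act g w) ∈ K := by simpa using h1
      have h3 := K.neg_mem (K.div_mem h2 hqK)
      have h4 : -(β * cr w (act g w) / (α * β * cr v w ^ 2)) = cr (act g w) w / (α * cr v w ^ 2) := by
        rw [cr_comm (act g w) w]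
        field_simp
      rwa [h4] at h3
    have haK : cr (act g v) w / cr v w ∈ K := by
      have h1 := K.sub_mem (hK _ (Γ.mul_mem hP (Γ.mul_mem hQ hg))) (hK _ (Γ.mul_mem hQ hg))
      rw [C1_P _ hc, act_comp, act_unip, C1_cr_r] at h1
      have h2 : α * (cr v (act g v) + β * cr w (act g v) * cr v w) ∈ K := by
        have e : ∀ a b : ℝ, a + b - a = b := fun a b => by ring
        rwa [e] at h1
      have h3 := K.neg_mem (K.div_mem (K.sub_mem h2 hcK) hqK)
      have h4 : -((α * (cr v (act g v) + β * cr w (act g v) * cr v w) - α * cr v (act g v)) /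
          (α * β * cr v w ^ 2)) = cr (act g v) w / cr v w := by
        rw [cr_comm (act g v) w]
        field_simp
        ring
      rwa [h4] at h3
    have heK : cr v (act g w) / cr v w ∈ K := by
      have h1 := K.sub_mem (hK _ hg) haK
      have h2 := C1_tr g v w
      have h4 : g.1.trace - cr (act g v) w / cr v w = cr v (act g w) / cr v w := by
        have h5 : g.1.trace = (cr (act g v) w + cr v (act g w)) / cr v w := by
          rw [← h2]; field_simp
        rw [h5]; ring
      rwa [h4] at h1
    refine ⟨_, haK, _, hbK, _, hcK, _, heK, fun u => ?_⟩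
    change cr (act g u) w / cr v w = cr (act g v) w / cr v w * (cr u w / cr v w) +
        cr (act g w) w / (α * cr v w ^ 2) * (α * cr v u) ∧
      α * cr v (act g u) = α * cr v (act g v) * (cr u w / cr v w) +
        cr v (act g w) / cr v w * (α * cr v u)
    have e1 : cr (act g u) w * cr v w = cr (act g v) w * cr u w + cr (act g w) w * cr v u := by
      unfold cr act
      simp only
      ring
    have e2 : cr v (act g u) * cr v w = cr v (act g v) * cr u w + cr v (act g w) * cr v u := by
      unfold cr act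
      simp only
      ring
    constructor
    · field_simp
      linarith [e1]
    · field_simp
      linarith [e2]

end H37abf
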