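import Pool.Agent.H.MP_abf1f1_an.C1

/-! MP_abf1f1_an, module C: arithmetic of the lattice in terms of the trace field. -/

set_option autoImplicit false

open scoped Topology
open Set Filter MeasureTheory

namespace H37abf

variable {Γ : Subgroup SL2} {Λ : Set ℂ} {K : Subfield ℝ}

/-- the action of the unipotent element in the coordinates `L` -/
theorem C1b_unip {L : ℂ ≃ₗ[ℝ] (ℝ × ℝ)} (v u : ℂ) (a : ℝ) :
    L (act (unip v a) u) = L u + (a * cr v u) • L v := by
  rw [act_unip, map_add, ← map_smul]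
  congr 2

/-- Directions of the vectors are rational. -/
theorem Core.dir_rat (h : Core Γ Λ) {L : ℂ ≃ₗ[ℝ] (ℝ × ℝ)} {d : ℝ} (hL : Coord Γ K L d) {v : ℂ}
    (hv : v ∈ Λ) : ∃ c : ℝ, c ≠ 0 ∧ c * (L v).1 ∈ K ∧ c * (L v).2 ∈ K := by
  obtain ⟨hpos, hal⟩ := h.al_spec hv
  have hγ : unip v (al Γ v) ∈ Γ := (hal (al Γ v)).2 ⟨1, by simp⟩
  obtain ⟨p, hp, q, hq, r, hr, s, hs, hmat⟩ := hL.mat _ hγ
  have hv0 : v ≠ 0 := fun hc => h.ne (hc ▸ hv)
  have hLv : L v ≠ 0 := fun hc => hv0 (by simpa using hc)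
  have key : ∀ u : ℂ, cr v u ≠ 0 → al Γ v * cr v u ≠ 0 := fun u hu => mul_ne_zero hpos.ne' hu
  by_cases h1 : (L v).1 = 0
  · have h2 : (L v).2 ≠ 0 := fun h2 => hLv (Prod.ext h1 h2)
    set u := L.symm (1, 0) with hu
    have hLu : L u = (1, 0) := by rw [hu]; simp
    have hdet := hL.det v u
    rw [hLu] at hdet
    simp only [mul_zero, zero_sub, mul_one] at hdet
    have hcr : cr v u ≠ 0 := by
      intro hc
      rw [hc, mul_zero, neg_eq_zero] at hdet
      exact h2 hdet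
    have hm := hmat u
    rw [C1b_unip, hLu] at hm
    simp only [Prod.fst_add, Prod.snd_add, Prod.smul_fst, Prod.smul_snd, smul_eq_mul, mul_one,
      mul_zero, add_zero, zero_add] at hm
    refine ⟨al Γ v * cr v u, key u hcr, ?_, ?_⟩
    · have : al Γ v * cr v u * (L v).1 = p - 1 := by linarith [hm.1]
      rw [this]
      exact K.sub_mem hp K.one_mem
    · rw [hm.2]
      exact hr
  · set u := L.symm (0, 1) with hu
    have hLu : L u = (0, 1) := by rw [hu]; simp
    have hdet := hL.det v u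
    rw [hLu] at hdet
    simp only [mul_zero, sub_zero, mul_one] at hdet
    have hcr : cr v u ≠ 0 := by
      intro hc
      rw [hc, mul_zero] at hdet
      exact h1 hdet
    have hm := hmat u
    rw [C1b_unip, hLu] at hm
    simp only [Prod.fst_add, Prod.snd_add, Prod.smul_fst, Prod.smul_snd, smul_eq_mul, mul_one,
      mul_zero, add_zero, zero_add] at hm
    refine ⟨al Γ v * cr v u, key u hcr, ?_, ?_⟩
    · rw [hm.1]
      exact hq
    · have : al Γ v * cr v u * (L v).2 = s - 1 := by linarith [hm.2]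
      rw [this]
      exact K.sub_mem hs K.one_mem

/-- Scaling of coordinates. -/
theorem Coord.scale {L : ℂ ≃ₗ[ℝ] (ℝ × ℝ)} {d : ℝ} (hL : Coord Γ K L d) {t : ℝ} (ht : t ≠ 0) :
    ∃ L' : ℂ ≃ₗ[ℝ] (ℝ × ℝ), Coord Γ K L' (t ^ 2 * d) ∧
      ∀ v, (L' v).1 = t * (L v).1 ∧ (L' v).2 = t * (L v).2 := by
  have hL' : ∀ v, (L.trans (LinearEquiv.smulOfNeZero ℝ (ℝ × ℝ) t ht)) v = t • L v := fun v => rfl
  refine ⟨L.trans (LinearEquiv.smulOfNeZero ℝ (ℝ × ℝ) t ht), ⟨?_, ?_, ?_⟩, ?_⟩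
  · have := hL.pos
    positivity
  · intro v w
    rw [hL', hL']
    simp only [Prod.smul_fst, Prod.smul_snd, smul_eq_mul]
    linear_combination t ^ 2 * hL.det v w
  · intro γ hγ
    obtain ⟨p, hp, q, hq, r, hr, s, hs, hmat⟩ := hL.mat γ hγ
    refine ⟨p, hp, q, hq, r, hr, s, hs, fun v => ?_⟩
    rw [hL', hL']
    simp only [Prod.smul_fst, Prod.smul_snd, smul_eq_mul]
    rw [(hmat v).1, (hmat v).2]
    constructor <;> ring
  · intro v
    rw [hL']
    simp

end H37abf
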