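import Pool.Agent.H.MP_abf1f1_an.C1b

/-! MP_abf1f1_an, module C: arithmetic of the lattice in terms of the trace field. -/

set_option autoImplicit false

open scoped Topology
open Set Filter MeasureTheory

namespace H37abf

variable {Γ : Subgroup SL2} {Λ : Set ℂ} {K : Subfield ℝ}

/-- PROOF. Let `k = L v ∈ K²`, `k ≠ 0`; choose `k' ∈ K²` with `k.1 k'.2 - k.2 k'.1 = 1`
(`k' = (0, 1/k.1)` or `(-1/k.2, 0)`), `v' = L⁻¹ k'`, so `cr v v' = 1 / d` (`Coord.det`), `v'' = d v'`. Let `C` be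
the matrix with rows `(v''.im, -v''.re)`, `(-v.im, v.re)`; its determinant is `cr v v'' = 1`. Then
`act C u = ⟨cr u v'', cr v u⟩`, `cr u v'' = d * cr u v' = det (L u, k') ∈ K`, `d * cr v u = det (k, L u) ∈ K`.
`γ = unip v α ∈ Γ`: `act γ v' = v' + (α / d) v`, so by `Coord.mat` `k' + (α / d) k ∈ K²`, and as `k ≠ 0`,
`α / d ∈ K`. -/
theorem Core.exists_C (h : Core Γ Λ) {L : ℂ ≃ₗ[ℝ] (ℝ × ℝ)} {d : ℝ} (hL : Coord Γ K L d)
    (hr : ∀ v ∈ Λ, (L v).1 ∈ K ∧ (L v).2 ∈ K) {v : ℂ} (hv : v ∈ Λ) :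
    (∃ C : SL2, act C v = 1 ∧ ∀ u ∈ Λ, (act C u).re ∈ K ∧ d * (act C u).im ∈ K) ∧
      al Γ v / d ∈ K := by
  obtain ⟨k1K, k2K⟩ := hr v hv
  have hd := hL.pos
  have hv0 : v ≠ 0 := fun h0 => h.ne (h0 ▸ hv)
  have hk0 : (L v).1 ≠ 0 ∨ (L v).2 ≠ 0 := by
    by_contra hcon
    push Not at hcon
    exact hv0 (L.map_eq_zero_iff.1 (Prod.ext hcon.1 hcon.2))
  obtain ⟨k', hk1', hk2', hdet⟩ : ∃ k' : ℝ × ℝ, k'.1 ∈ K ∧ k'.2 ∈ K ∧
      (L v).1 * k'.2 - (L v).2 * k'.1 = 1 := by
    rcases hk0 with h1 | h2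
    · refine ⟨(0, 1 / (L v).1), K.zero_mem, K.div_mem K.one_mem k1K, ?_⟩
      simp only [mul_zero, sub_zero]
      rw [mul_one_div, div_self h1]
    · refine ⟨(-1 / (L v).2, 0), K.div_mem (K.neg_mem K.one_mem) k2K, K.zero_mem, ?_⟩
      simp only [mul_zero, zero_sub]
      rw [mul_div_assoc', mul_neg, mul_one, neg_div, div_self h2, neg_neg]
  have hLv' : L (L.symm k') = k' := L.apply_symm_apply k'
  have hcr : d * cr v (L.symm k') = 1 := by
    rw [← hL.det, hLv', hdet]
  refine ⟨?_, ?_⟩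
  · have hdetC : cr v ((d : ℂ) * L.symm k') = 1 := by
      rw [← hcr]
      simp only [cr, Complex.mul_re, Complex.mul_im, Complex.ofReal_re, Complex.ofReal_im]
      ring
    let w : ℂ := (d : ℂ) * L.symm k'
    have hw : v.re * w.im - v.im * w.re = 1 := hdetC
    let C : SL2 := ⟨!![w.im, -w.re; -v.im, v.re], by
      rw [Matrix.det_fin_two]
      simp only [Matrix.of_apply, Matrix.cons_val', Matrix.cons_val_zero, Matrix.cons_val_one,
        Matrix.cons_val_fin_one]
      linarith⟩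
    have hC : ∀ u : ℂ, act C u = ⟨cr u w, cr v u⟩ := by
      intro u
      simp only [act, C, Matrix.of_apply, Matrix.cons_val', Matrix.cons_val_zero,
        Matrix.cons_val_one, Matrix.cons_val_fin_one, cr]
      exact Complex.ext (by simp only; ring) (by simp only; ring)
    have hcw : ∀ u : ℂ, cr u w = (L u).1 * k'.2 - (L u).2 * k'.1 := by
      intro u
      have h1 := hL.det u (L.symm k')
      rw [hLv'] at h1
      rw [h1]
      simp only [w, cr, Complex.mul_re, Complex.mul_im, Complex.ofReal_re, Complex.ofReal_im]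
      ring
    refine ⟨C, ?_, ?_⟩
    · rw [hC, hcw, hdet, cr_self]
      rfl
    · intro u hu
      obtain ⟨u1, u2⟩ := hr u hu
      rw [hC]
      refine ⟨?_, ?_⟩
      · simp only
        rw [hcw]
        exact K.sub_mem (K.mul_mem u1 hk2') (K.mul_mem u2 hk1')
      · simp only
        rw [← hL.det]
        exact K.sub_mem (K.mul_mem k1K u2) (K.mul_mem k2K u1)
  · have hγ : unip v (al Γ v) ∈ Γ := ((h.al_spec hv).2 (al Γ v)).2 ⟨1, by simp⟩
    obtain ⟨p, hp, q, hq, r, hr', s, hs, hm⟩ := hL.mat _ hγ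
    have hm' := hm (L.symm k')
    have e1 : act (unip v (al Γ v)) (L.symm k') = L.symm k' + (al Γ v / d : ℝ) • v := by
      rw [act_unip]
      have : al Γ v * cr v (L.symm k') = al Γ v / d := by
        rw [eq_div_iff hd.ne', mul_assoc, mul_comm (cr v (L.symm k')) d, hcr, mul_one]
      rw [this]
      simp
    rw [e1, map_add, map_smul, hLv'] at hm'
    simp only [Prod.fst_add, Prod.snd_add, Prod.smul_fst, Prod.smul_snd, smul_eq_mul] at hm'
    have a1 : al Γ v / d * (L v).1 ∈ K := by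
      have : al Γ v / d * (L v).1 = p * k'.1 + q * k'.2 - k'.1 := by linarith [hm'.1]
      rw [this]
      exact K.sub_mem (K.add_mem (K.mul_mem hp hk1') (K.mul_mem hq hk2')) hk1'
    have a2 : al Γ v / d * (L v).2 ∈ K := by
      have : al Γ v / d * (L v).2 = r * k'.1 + s * k'.2 - k'.2 := by linarith [hm'.2]
      rw [this]
      exact K.sub_mem (K.add_mem (K.mul_mem hr' hk1') (K.mul_mem hs hk2')) hk2'
    rcases hk0 with h1 | h2
    · have : al Γ v / d = al Γ v / d * (L v).1 / (L v).1 := by field_simp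
      rw [this]
      exact K.div_mem a1 k1K
    · have : al Γ v / d = al Γ v / d * (L v).2 / (L v).2 := by field_simp
      rw [this]
      exact K.div_mem a2 k2K

end H37abf
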