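import Pool.Agent.H.MP_abf1f1_an.C1c

/-! MP_abf1f1_an, module C: the data of the cusps. -/

set_option autoImplicit false

open scoped Topology
open Set Filter MeasureTheory

namespace H37abf

/-- Everything that is needed for the computation of the slope gap distribution of the set `Λ` of
vectors (the primitive vectors of the surface): `Λ` is the union of the orbits of `v j`, `C j` maps `v j` to
`1`, `al j` generates the stabiliser, `c₀` is a lower bound for the areas, and the rationality of the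
coordinates. -/
structure Cusps (Γ : Subgroup SL2) (Λ : Set ℂ) (K : Subfield ℝ) (lam : ℝ) where
  disc : DiscreteTopology Γ
  cov : FiniteCovol Γ
  lam_pos : 0 < lam
  fin : ∀ C : ℝ, {v ∈ Λ | ‖v‖ ≤ C}.Finite
  ne : (0 : ℂ) ∉ Λ
  inv : ∀ γ ∈ Γ, ∀ v ∈ Λ, act γ v ∈ Λ
  ray : ∀ v ∈ Λ, ∀ w ∈ Λ, cr v w = 0 → w = v ∨ ∃ c : ℝ, c < 0 ∧ w = c * v
  c₀ : ℝ
  c₀_pos : 0 < c₀
  c₀_le : ∀ v ∈ Λ, ∀ w ∈ Λ, cr v w ≠ 0 → c₀ ≤ |cr v w|
  m : ℕ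
  m_pos : 0 < m
  v : Fin m → ℂ
  C : Fin m → SL2
  a : Fin m → ℝ
  mem : ∀ j, v j ∈ Λ
  act_C : ∀ j, act (C j) (v j) = 1
  a_pos : ∀ j, 0 < a j
  fix : ∀ j (γ : SL2), (γ ∈ Γ ∧ act γ (v j) = v j) ↔ ∃ k : ℤ, γ = unip (v j) (k * a j)
  cover : ∀ w ∈ Λ, ∃ j, ∃ γ ∈ Γ, act γ (v j) = w
  disj : ∀ i j, ∀ γ ∈ Γ, act γ (v i) = v j → i = j
  rat : ∀ j, ∀ w ∈ Λ, (act (C j) w).re ∈ K ∧ lam * (act (C j) w).im ∈ K
  rat_a : ∀ j, a j / lam ∈ K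

variable {Γ : Subgroup SL2} {Λ : Set ℂ} {K : Subfield ℝ}

/-- PROOF. `exists_coord`, `dir_rat`, `hrat` (gives `t`), `Coord.scale` by `t` (so `L' v ∈ K²` for all
`v ∈ Λ`), `lam = t² d`; `finite_orbits`, `exists_c0`, `exists_C` for the `v j`, `al_spec`, `fix_iff`,
`pr_act`, `pr_parallel`. `m > 0` since `pr Λ` is not empty (`exists_pr`). -/
theorem Core.exists_cusps (h : Core Γ Λ) (hK : ∀ γ ∈ Γ, γ.1.trace ∈ K)
    (hrat : ∀ (L : ℂ ≃ₗ[ℝ] (ℝ × ℝ)), (∀ v ∈ Λ, ∃ c : ℝ, c ≠ 0 ∧ c * (L v).1 ∈ K ∧ c * (L v).2 ∈ K) →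
      ∃ t : ℝ, t ≠ 0 ∧ ∀ v ∈ Λ, t * (L v).1 ∈ K ∧ t * (L v).2 ∈ K) :
    ∃ lam : ℝ, Nonempty (Cusps Γ (pr Λ) K lam) := by
  obtain ⟨L, d, hL⟩ := h.exists_coord hK
  obtain ⟨t, ht, hr⟩ := hrat L (fun v hv => h.dir_rat hL hv)
  obtain ⟨L', hL', hLs⟩ := hL.scale ht
  have hr' : ∀ v ∈ Λ, (L' v).1 ∈ K ∧ (L' v).2 ∈ K := by
    intro v hv
    rw [(hLs v).1, (hLs v).2]
    exact hr v hv
  obtain ⟨m, v, hv, hcov, hdisj⟩ := h.finite_orbits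
  obtain ⟨c₀, hc₀, hc₀'⟩ := h.exists_c0
  have hC : ∀ j, (∃ C : SL2, act C (v j) = 1 ∧ ∀ u ∈ Λ, (act C u).re ∈ K ∧
      (t ^ 2 * d) * (act C u).im ∈ K) ∧ al Γ (v j) / (t ^ 2 * d) ∈ K :=
    fun j => h.exists_C hL' hr' (hv j).1
  choose C hC1 hC2 using fun j => (hC j).1
  have hm : 0 < m := by
    obtain ⟨u, hu, _⟩ := h.span
    obtain ⟨c, _, _, hc⟩ := h.exists_pr hu
    obtain ⟨j, _⟩ := hcov _ hc
    exact j.pos
  exact ⟨t ^ 2 * d, ⟨{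
    disc := h.disc
    cov := h.cov
    lam_pos := hL'.pos
    fin := fun B => (h.fin B).subset fun w hw => ⟨hw.1.1, hw.2⟩
    ne := fun h0 => h.ne h0.1
    inv := fun γ hγ w hw => h.pr_act hγ hw
    ray := fun w hw u hu hc => h.pr_parallel hw hu hc
    c₀ := c₀
    c₀_pos := hc₀
    c₀_le := hc₀'
    m := m
    m_pos := hm
    v := v
    C := C
    a := fun j => al Γ (v j)
    mem := hv
    act_C := hC1
    a_pos := fun j => (h.al_spec (hv j).1).1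
    fix := fun j γ => h.fix_iff (hv j).1 γ
    cover := hcov
    disj := hdisj
    rat := fun j w hw => hC2 j w hw.1
    rat_a := fun j => (hC j).2 }⟩⟩

end H37abf
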