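import Pool.Agent.H.MP_abf1f1_an.C2

/-! MP_abf1f1_an, module C: the data of the cusps. -/

set_option autoImplicit false

open scoped Topology
open Set Filter MeasureTheory

namespace H37abf

variable {Γ : Subgroup SL2} {Λ : Set ℂ} {K : Subfield ℝ}

/-- PROOF. If `c v ∈ pr Λ`, `0 < c ≤ 1`, then its slope is the same and its real part is smaller. -/
theorem Core.slopes_pr (h : Core Γ Λ) (R : ℝ) : slopes (pr Λ) R = slopes Λ R := by
  ext s
  constructor
  · rintro ⟨v, hv, h1, h2, h3, h4, h5⟩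
    exact ⟨v, hv.1, h1, h2, h3, h4, h5⟩
  · rintro ⟨v, hv, h1, h2, h3, h4, h5⟩
    obtain ⟨c, hc, hc1, hcv⟩ := h.exists_pr hv
    have hre : ((c : ℂ) * v).re = c * v.re := by simp
    have him : ((c : ℂ) * v).im = c * v.im := by simp
    refine ⟨(c : ℂ) * v, hcv, ?_, ?_, ?_, ?_, ?_⟩
    · rw [hre]; positivity
    · rw [him]; positivity
    · rw [hre, him]; exact mul_le_mul_of_nonneg_left h3 hc.le
    · rw [hre]; nlinarith
    · rw [hre, him, h5, mul_div_mul_left _ _ hc.ne']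

/-- PROOF. `gapCount` and `IsGapDist` depend only on the sets `slopes`. -/
theorem Core.isGapDist_pr (h : Core Γ Λ) {f : ℝ → ℝ} (hf : IsGapDist Λ f) :
    IsGapDist (pr Λ) f := by
  refine ⟨hf.1, fun a b ha hab => ?_⟩
  obtain ⟨h1, h2⟩ := hf.2 a b ha hab
  refine ⟨h1, ?_⟩
  have e : (fun R => (gapCount (pr Λ) R a b : ℝ) / ((slopes (pr Λ) R).ncard : ℝ)) =
      fun R => (gapCount Λ R a b : ℝ) / ((slopes Λ R).ncard : ℝ) := by
    funext R
    simp only [gapCount, h.slopes_pr R]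
  rw [e]
  exact h2

end H37abf
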