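import Pool.Agent.H.MP_abf1f1_an.Fin2

/-! MP_abf1f1_an, module A: continuation of straight paths. -/

set_option autoImplicit false

open scoped Topology
open Set Filter

namespace H37abf

variable {X : Type} [TopologicalSpace X] [T2Space X] [CompactSpace X] {Φ : Flat X}

theorem Cont_cluster_eq {α Y : Type*} [TopologicalSpace Y] [T2Space Y] {l : Filter α} {f : α → Y} {y z : Y}
    (hy : MapClusterPt y l f) (hz : Tendsto f l (𝓝 z)) : y = z :=
  eq_of_nhds_neBot (hy.clusterPt.mono hz)

/-- A straight path on a half-open interval has a limit. Let `γ` be a straight path on `Icc 0 t` for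
every `t < b` (`0 < b`). Then there is `q` such that the path extended by `γ b = q` is straight on
`Icc 0 b`.

PROOF. Let `q` be a cluster point of `γ` at `𝓝[<] b` (compactness). Take a trap `T` at `q`. There is
`t₁ < b` with `γ t₁ ∈ V` and `|v| (b - t₁) < δ`. By the trap property on `Icc t₁ t` for all `t < b`:
`γ t ∈ K` and `F (γ t) - F (γ t₁) = (t - t₁) v`. As `F` is continuous at `q` and `q` is a cluster point,
`F q = F (γ t₁) + (b - t₁) v`. If `q'` is any cluster point then it lies in `K` (closed), and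
`F q' = F q` for the same reason, so `q' = q` by `T.iso`. So `γ t → q` (compact: a filter in the compact
set `K` with the only cluster point `q`). The extended path has `F (γ t) - F (γ t₁) = (t - t₁) v` on
`Icc t₁ b` and is straight there by `Str.of_prim`; glue. -/
theorem Flat.exists_limit {γ : ℝ → X} {v : ℂ} {b : ℝ} (hb : 0 < b)
    (h : ∀ t < b, Φ.Str γ v 0 t) : ∃ q, Φ.Str (Function.update γ b q) v 0 b := by
  obtain ⟨q, hq⟩ : ∃ q, MapClusterPt q (𝓝[<] b) γ := exists_clusterPt_of_compactSpace (map γ (𝓝[<] b))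
  obtain ⟨T, -⟩ := Φ.exists_trap q (univ_mem : (univ : Set X) ∈ 𝓝 q)
  -- the time t₁
  have hlin : Tendsto (fun t : ℝ => ‖v‖ * (b - t)) (𝓝 b) (𝓝 (‖v‖ * (b - b))) :=
    Continuous.tendsto (by fun_prop) b
  have hev1 : ∀ᶠ t in 𝓝 b, ‖v‖ * (b - t) < T.δ := by
    apply hlin.eventually_lt_const
    rw [sub_self, mul_zero]
    exact T.δpos
  have hev2 : ∀ᶠ t in 𝓝 b, 0 < t := lt_mem_nhds hb
  have hfr : ∃ᶠ t in 𝓝[<] b, γ t ∈ T.V := hq.frequently T.hV
  have hev : ∀ᶠ t in 𝓝[<] b, ‖v‖ * (b - t) < T.δ ∧ 0 < t ∧ t < b := by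
    filter_upwards [hev1.filter_mono nhdsWithin_le_nhds, hev2.filter_mono nhdsWithin_le_nhds,
      self_mem_nhdsWithin] with t h1 h2 h3
    exact ⟨h1, h2, h3⟩
  obtain ⟨t₁, ht₁V, ht₁δ, ht₁0, ht₁b⟩ := (hfr.and_eventually hev).exists
  -- the trap property
  have key : ∀ t ∈ Ico t₁ b, γ t ∈ T.K ∧ T.F (γ t) - T.F (γ t₁) = (t - t₁ : ℝ) * v := by
    intro t ht
    have hs : Φ.Str γ v t₁ t := (h t ht.2).mono ht₁0.le le_rfl
    have hl : ‖v‖ * (t - t₁) < T.δ := by
      refine lt_of_le_of_lt ?_ ht₁δ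
      apply mul_le_mul_of_nonneg_left _ (norm_nonneg v)
      linarith [ht.2]
    exact T.trap γ v t₁ t ht.1 hs ht₁V hl t ⟨ht.1, le_rfl⟩
  have hIco : Ico t₁ b ∈ 𝓝[<] b := Ico_mem_nhdsLT ht₁b
  have hKev : ∀ᶠ t in 𝓝[<] b, γ t ∈ T.K := by
    filter_upwards [hIco] with t ht
    exact (key t ht).1
  -- the limit of F along the path
  have hFlim : Tendsto (T.F ∘ γ) (𝓝[<] b) (𝓝 (T.F (γ t₁) + (b - t₁ : ℝ) * v)) := by
    have hc : Tendsto (fun t : ℝ => T.F (γ t₁) + (t - t₁ : ℝ) * v) (𝓝[<] b)
        (𝓝 (T.F (γ t₁) + (b - t₁ : ℝ) * v)) :=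
      (Continuous.tendsto (by fun_prop) b).mono_left nhdsWithin_le_nhds
    refine hc.congr' ?_
    filter_upwards [hIco] with t ht
    have := (key t ht).2
    simp only [Function.comp_apply]
    rw [← this]
    ring
  have hclK : IsClosed T.K := T.hK.isClosed
  have hcl : ∀ q', MapClusterPt q' (𝓝[<] b) γ →
      q' ∈ T.K ∧ T.F q' = T.F (γ t₁) + (b - t₁ : ℝ) * v := by
    intro q' hq'
    have hmem : q' ∈ T.K := hclK.mem_of_mapClusterPt hq' hKev
    have hcont : ContinuousAt T.F q' := (T.prim q' hmem).cont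
    exact ⟨hmem, Cont_cluster_eq (MapClusterPt.continuousAt_comp hcont hq') hFlim⟩
  have hqK := (hcl q hq).1
  have hqF := (hcl q hq).2
  have hlim : Tendsto γ (𝓝[<] b) (𝓝 q) := by
    apply tendsto_nhds_of_unique_mapClusterPt
    intro q' hq'
    by_contra hne
    have h1 := hcl q' hq'
    exact (T.iso q' h1.1 hne).1 (h1.2.trans hqF.symm)
  refine ⟨q, ?_⟩
  have hupd : ∀ t, t ≠ b → Function.update γ b q t = γ t := fun t ht => Function.update_of_ne ht _ _
  have hupb : Function.update γ b q b = q := Function.update_self _ _ _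
  have hA : Φ.Str (Function.update γ b q) v 0 t₁ := by
    apply (h t₁ ht₁b).congr
    intro t ht
    exact hupd t (lt_of_le_of_lt ht.2 ht₁b).ne
  have hcont : ContinuousOn (Function.update γ b q) (Icc t₁ b) := by
    intro t ht
    rcases eq_or_lt_of_le ht.2 with hE | hlt
    · subst hE
      rw [continuousWithinAt_update_same]
      apply hlim.mono_left
      apply nhdsWithin_mono
      intro s hs
      exact lt_of_le_of_ne hs.1.2 hs.2
    · have hs : (t + b) / 2 < b := by linarith
      have h0t : 0 ≤ t := ht₁0.le.trans ht.1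
      have h1 : ContinuousWithinAt γ (Icc 0 ((t + b) / 2)) t :=
        (h _ hs).cont t ⟨h0t, by linarith⟩
      have h2 : ContinuousWithinAt γ (Icc t₁ b) t := by
        apply h1.mono_of_mem_nhdsWithin
        filter_upwards [self_mem_nhdsWithin,
          mem_nhdsWithin_of_mem_nhds (Iio_mem_nhds (show t < (t + b) / 2 by linarith))] with s hs1 hs2
        exact ⟨ht₁0.le.trans hs1.1, le_of_lt hs2⟩
      apply h2.congr_of_eventuallyEq
      · filter_upwards [mem_nhdsWithin_of_mem_nhds (Iio_mem_nhds hlt)] with s hs1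
        exact hupd s (ne_of_lt hs1)
      · exact hupd t hlt.ne
  have hB : Φ.Str (Function.update γ b q) v t₁ b := by
    apply Flat.Str.of_prim (F := T.F) hcont
    · intro t ht
      rcases eq_or_lt_of_le ht.2 with hE | hlt
      · rw [hE, hupb]
        exact T.prim q hqK
      · rw [hupd t hlt.ne]
        exact T.prim _ (key t ⟨ht.1, hlt⟩).1
    · intro t ht
      rw [hupd t₁ ht₁b.ne]
      rcases eq_or_lt_of_le ht.2 with hE | hlt
      · rw [hE, hupb, hqF]
        ring
      · rw [hupd t hlt.ne]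
        exact (key t ⟨ht.1, hlt⟩).2
  have hG := hA.glue hB rfl ht₁0.le ht₁b.le
  apply hG.congr
  intro t _
  simp

end H37abf
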