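import Pool.Agent.H.MP_abf1f1_an.Cont

/-! MP_abf1f1_an, module A: continuation of straight paths. -/

set_option autoImplicit false

open scoped Topology
open Set Filter

namespace H37abf

variable {X : Type} [TopologicalSpace X] [T2Space X] [CompactSpace X] {Φ : Flat X}

/-- the times up to which the path from `x` can be continued without meeting a cone point -/
def Cont2_A (Φ : Flat X) (x : X) (v : ℂ) : Set ℝ :=
  {t | 0 ≤ t ∧ t ≤ 1 ∧ ∃ γ, Φ.Str γ v 0 t ∧ γ 0 = x ∧ ∀ s ∈ Icc (0 : ℝ) t, γ s ∉ Φ.Z}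

omit [T2Space X] [CompactSpace X] in
theorem Cont2_const (x : X) (v : ℂ) : Φ.Str (fun _ => x) v 0 0 := by
  refine ⟨continuousOn_const, fun t ht F _ => ?_⟩
  have ht0 : t = 0 := le_antisymm ht.2 ht.1
  subst ht0
  rw [Icc_self, nhdsWithin_singleton]
  simp

theorem Cont2_zero {x : X} (hx : x ∉ Φ.Z) (v : ℂ) : (0 : ℝ) ∈ Cont2_A Φ x v :=
  ⟨le_refl _, zero_le_one, fun _ => x, Cont2_const x v, rfl, fun _ _ => hx⟩

omit [T2Space X] [CompactSpace X] in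
theorem Cont2_down {x : X} {v : ℂ} {t s : ℝ} (ht : t ∈ Cont2_A Φ x v) (h0 : 0 ≤ s) (h1 : s ≤ t) :
    s ∈ Cont2_A Φ x v := by
  obtain ⟨-, a2, γ, b1, b2, b3⟩ := ht
  exact ⟨h0, h1.trans a2, γ, b1.mono le_rfl h1, b2, fun r hr => b3 r ⟨hr.1, hr.2.trans h1⟩⟩

open Classical in
/-- the path, glued from the paths to all times `t` -/
noncomputable def Cont2_g (Φ : Flat X) (x : X) (v : ℂ) (t : ℝ) : X :=
  if h : t ∈ Cont2_A Φ x v then h.2.2.choose t else x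

theorem Cont2_g_eq {x : X} {v : ℂ} {t : ℝ} (ht : t ∈ Cont2_A Φ x v) {γ : ℝ → X}
    (h1 : Φ.Str γ v 0 t) (h2 : γ 0 = x) :
    EqOn (Cont2_g Φ x v) γ (Icc 0 t) := by
  intro s hs
  have hsA : s ∈ Cont2_A Φ x v := Cont2_down ht hs.1 hs.2
  have e1 : Cont2_g Φ x v s = hsA.2.2.choose s := by
    unfold Cont2_g
    rw [dif_pos hsA]
  obtain ⟨c1, c2, c3⟩ := hsA.2.2.choose_spec
  rw [e1]
  exact Flat.Str.unique c1 (h1.mono le_rfl hs.2) (fun r hr => c3 r ⟨hr.1, hr.2.le⟩)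
    (by rw [c2, h2]) s ⟨hs.1, le_rfl⟩

theorem Cont2_g_str {x : X} {v : ℂ} {t : ℝ} (ht : t ∈ Cont2_A Φ x v) :
    Φ.Str (Cont2_g Φ x v) v 0 t ∧ Cont2_g Φ x v 0 = x ∧
      ∀ s ∈ Icc (0 : ℝ) t, Cont2_g Φ x v s ∉ Φ.Z := by
  obtain ⟨γ, h1, h2, h3⟩ := ht.2.2
  have he := Cont2_g_eq ht h1 h2
  refine ⟨h1.congr he, ?_, fun s hs => ?_⟩
  · rw [he ⟨le_rfl, ht.1⟩, h2]
  · rw [he hs]
    exact h3 s hs

/-- Continuation of a path beyond a regular point. -/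
theorem Cont2_extend {G : ℝ → X} {v : ℂ} {b : ℝ} (hb : 0 ≤ b) (hb1 : b < 1) (hG : Φ.Str G v 0 b)
    (hz : ∀ s ∈ Icc (0 : ℝ) b, G s ∉ Φ.Z) :
    ∃ t, b < t ∧ t ≤ 1 ∧ ∃ γ, Φ.Str γ v 0 t ∧ γ 0 = G 0 ∧ ∀ s ∈ Icc (0 : ℝ) t, γ s ∉ Φ.Z := by
  obtain ⟨F, hF⟩ := Φ.ex (G b)
  obtain ⟨ρ, hρ, E, hE0, hE, -⟩ := Φ.inv (G b) (hz b ⟨hb, le_rfl⟩) F hF
  obtain ⟨ε, hε0, hε1, hε2⟩ : ∃ ε : ℝ, 0 < ε ∧ b + ε ≤ 1 ∧ ε * ‖v‖ < ρ := by
    refine ⟨min (1 - b) (ρ / (2 * (‖v‖ + 1))), lt_min (by linarith) (by positivity), ?_, ?_⟩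
    · have := min_le_left (1 - b) (ρ / (2 * (‖v‖ + 1)))
      linarith
    · have h1 := min_le_right (1 - b) (ρ / (2 * (‖v‖ + 1)))
      have h2 : (0 : ℝ) ≤ ‖v‖ := norm_nonneg v
      calc min (1 - b) (ρ / (2 * (‖v‖ + 1))) * ‖v‖ ≤ ρ / (2 * (‖v‖ + 1)) * ‖v‖ :=
            mul_le_mul_of_nonneg_right h1 h2
        _ < ρ := by
            rw [div_mul_eq_mul_div, div_lt_iff₀ (by positivity)]
            nlinarith
  have hball : ∀ t ∈ Icc b (b + ε), F (G b) + ((t - b : ℝ) : ℂ) * v ∈ Metric.ball (F (G b)) ρ := by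
    intro t ht
    rw [Metric.mem_ball, dist_eq_norm, add_sub_cancel_left, norm_mul, Complex.norm_real,
      Real.norm_eq_abs, abs_of_nonneg (by linarith [ht.1])]
    refine lt_of_le_of_lt (mul_le_mul_of_nonneg_right ?_ (norm_nonneg v)) hε2
    linarith [ht.2]
  set γ' : ℝ → X := fun t => E (F (G b) + ((t - b : ℝ) : ℂ) * v) with hγ'
  have e0 : γ' b = G b := by
    rw [hγ']
    simp [hE0]
  have hstr : Φ.Str γ' v b (b + ε) := by
    refine Flat.Str.of_prim (F := F) ?_ ?_ ?_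
    · intro t ht
      refine ContinuousAt.continuousWithinAt ?_
      refine ContinuousAt.comp (g := E) (hE _ (hball t ht)).1 ?_
      fun_prop
    · intro t ht
      exact (hE _ (hball t ht)).2.2.1
    · intro t ht
      rw [e0]
      have := (hE _ (hball t ht)).2.1
      rw [hγ']
      simp only
      rw [this]
      ring
  refine ⟨b + ε, by linarith, hε1, _, hG.glue hstr e0.symm hb (by linarith), ?_, ?_⟩
  · simp only [if_pos hb]
  · intro s hs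
    split_ifs with hc
    · exact hz s ⟨hs.1, hc⟩
    · push Not at hc
      exact (hE _ (hball s ⟨hc.le, hs.2⟩)).2.2.2

/-- A straight path from a regular point can be continued until it meets a cone point. -/
theorem Flat.dom_or_see {x : X} (hx : x ∉ Φ.Z) (v : ℂ) :
    (∃ y, Φ.Dom x v y) ∨ ∃ s : ℝ, 0 < s ∧ s ≤ 1 ∧ ∃ p, Φ.See x (s * v) p := by
  have hA0 : (0 : ℝ) ∈ Cont2_A Φ x v := Cont2_zero hx v
  have hbdd : BddAbove (Cont2_A Φ x v) := ⟨1, fun t ht => ht.2.1⟩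
  set b := sSup (Cont2_A Φ x v) with hbdef
  have hb0 : 0 ≤ b := le_csSup hbdd hA0
  have hb1 : b ≤ 1 := csSup_le ⟨0, hA0⟩ fun t ht => ht.2.1
  have hlt : ∀ t, 0 ≤ t → t < b → t ∈ Cont2_A Φ x v := by
    intro t h0 h1
    obtain ⟨t', h2, h3⟩ := exists_lt_of_lt_csSup ⟨0, hA0⟩ h1
    exact Cont2_down h2 h0 h3.le
  obtain ⟨G, hG1, hG2, hG3⟩ : ∃ G, Φ.Str G v 0 b ∧ G 0 = x ∧ ∀ s ∈ Ico (0 : ℝ) b, G s ∉ Φ.Z := by
    rcases hb0.eq_or_lt with h | h
    · rw [← h]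
      exact ⟨fun _ => x, Cont2_const x v, rfl, fun _ _ => hx⟩
    · have hstr : ∀ t < b, Φ.Str (Cont2_g Φ x v) v 0 t := by
        intro t ht
        rcases lt_or_ge t 0 with h0 | h0
        · have he : Icc (0 : ℝ) t = ∅ := Icc_eq_empty (not_le.mpr h0)
          refine ⟨?_, ?_⟩
          · rw [he]
            exact continuousOn_empty _
          · intro s hs
            rw [he] at hs
            exact absurd hs (notMem_empty s)
        · exact (Cont2_g_str (hlt t h0 ht)).1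
      obtain ⟨q, hq⟩ := Flat.exists_limit h hstr
      refine ⟨_, hq, ?_, fun s hs => ?_⟩
      · rw [Function.update_of_ne h.ne]
        exact (Cont2_g_str hA0).2.1
      · rw [Function.update_of_ne hs.2.ne]
        exact (Cont2_g_str (hlt s hs.1 hs.2)).2.2 s ⟨hs.1, le_rfl⟩
  by_cases hZ : G b ∈ Φ.Z
  · right
    have hbpos : 0 < b := by
      rcases hb0.eq_or_lt with h | h
      · rw [← h, hG2] at hZ
        exact absurd hZ hx
      · exact h
    refine ⟨b, hbpos, hb1, G b, _, hG1.reparam (k := b) (d := 0) (a' := 0) (b' := 1) hbpos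
      (by ring) (by ring), ?_, ?_, hZ, fun t ht => ?_⟩
    · simp [hG2]
    · simp
    · refine hG3 _ ⟨?_, ?_⟩
      · have := mul_nonneg hb0 ht.1
        linarith
      · have := mul_lt_mul_of_pos_left ht.2 hbpos
        linarith
  · have hz' : ∀ s ∈ Icc (0 : ℝ) b, G s ∉ Φ.Z := by
      intro s hs
      rcases hs.2.eq_or_lt with h | h
      · rw [h]
        exact hZ
      · exact hG3 s ⟨hs.1, h⟩
    rcases hb1.eq_or_lt with h | h
    · left
      rw [h] at hG1 hz'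
      exact ⟨G 1, G, hG1, hG2, rfl, hz'⟩
    · exfalso
      obtain ⟨t, ht1, ht2, γ, h1, h2, h3⟩ := Cont2_extend hb0 h hG1 hz'
      have : t ∈ Cont2_A Φ x v := ⟨hb0.trans ht1.le, ht2, γ, h1, by rw [h2, hG2], h3⟩
      exact absurd (le_csSup hbdd this) (not_le.mpr ht1)

end H37abf
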