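import Pool.Agent.H.MP_abf1f1_an.Ball

/-! MP_abf1f1_an, module A: the flat disc around a regular point, and stability of straight paths. -/

set_option autoImplicit false

open scoped Topology
open Set Filter Metric

namespace H37abf

variable {X : Type} [TopologicalSpace X] {Φ : Flat X}

/-- the inductive statement -/
def Stab_Q (Φ : Flat X) (x : X) (v : ℂ) (F₀ : X → ℂ) (γ : ℝ → X) (t : ℝ) : Prop :=
  ∀ F : X → ℂ, Φ.P (γ t) F → ∀ N ∈ 𝓝 (γ t), ∀ᶠ q : X × ℂ in 𝓝 (x, v), ∃ y' ∈ N,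
    Φ.Dom q.1 ((t : ℂ) * q.2) y' ∧ F y' - F (γ t) = (t : ℂ) * (q.2 - v) + (F₀ q.1 - F₀ x)

theorem Stab_zero {x : X} {v : ℂ} {F₀ : X → ℂ} (h₀ : Φ.P x F₀) (hx : x ∉ Φ.Z) {γ : ℝ → X}
    (hγ : γ 0 = x) : Stab_Q Φ x v F₀ γ 0 := by
  intro F hF N hN
  rw [hγ] at hF hN
  have h1 : ∀ᶠ y in 𝓝 x, F y - F₀ y = F x - F₀ x := Φ.sub x F F₀ hF h₀
  have h2 : ∀ᶠ y in 𝓝 x, y ∉ Φ.Z := by
    have h3 := (Φ.iso x F hF).mono fun y hy => hy.2
    rw [eventually_nhdsWithin_iff] at h3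
    filter_upwards [h3] with y hy
    by_cases hyx : y = x
    · rw [hyx]
      exact hx
    · exact hy hyx
  have h4 : ∀ᶠ q : X × ℂ in 𝓝 (x, v), q.1 ∈ N ∧ q.1 ∉ Φ.Z ∧ F q.1 - F₀ q.1 = F x - F₀ x := by
    have h5 : Tendsto (fun q : X × ℂ => q.1) (𝓝 (x, v)) (𝓝 x) := continuous_fst.tendsto (x, v)
    exact h5.eventually (hN |> fun hN' => (eventually_mem_set.2 hN').and (h2.and h1))
  filter_upwards [h4] with q hq
  refine ⟨q.1, hq.1, ?_, ?_⟩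
  · simpa using Flat.Dom.refl (Φ := Φ) hq.2.1
  · rw [hγ]
    have := hq.2.2
    simp only [Complex.ofReal_zero, zero_mul, zero_add]
    linear_combination this

theorem Stab_step [T2Space X] {x : X} {v : ℂ} {F₀ : X → ℂ} (h₀ : Φ.P x F₀) {γ : ℝ → X}
    (hs : Φ.Str γ v 0 1) (hz : ∀ t ∈ Icc (0 : ℝ) 1, γ t ∉ Φ.Z) {t₀ : ℝ} (ht₀ : t₀ ∈ Icc (0 : ℝ) 1) :
    ∃ ε > 0, ∀ t ∈ Icc (0 : ℝ) 1, ∀ t' ∈ Icc (0 : ℝ) 1, |t - t₀| < ε → |t' - t₀| < ε → t ≤ t' →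
      Stab_Q Φ x v F₀ γ t → Stab_Q Φ x v F₀ γ t' := by
  obtain ⟨F, hF⟩ := Φ.ex (γ t₀)
  obtain ⟨ρ, hρ, E, hE0, hE1, hE2, hE3⟩ := Flat.exists_ball (hz t₀ ht₀) hF
  have e1 := hs.str t₀ ht₀ F hF
  have e2 : ∀ᶠ s in 𝓝[Icc (0 : ℝ) 1] t₀, ∀ᶠ y in 𝓝 (γ s), F y - F (γ t₀) ∈ ball (0 : ℂ) ρ ∧
      E (F y - F (γ t₀)) = y :=
    (hs.cont t₀ ht₀).eventually (eventually_eventually_nhds.2 hE3)
  have e3 : ∀ᶠ s in 𝓝[Icc (0 : ℝ) 1] t₀, (s - t₀ : ℝ) * v ∈ ball (0 : ℂ) ρ := by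
    have hc : Continuous fun s : ℝ => ((s - t₀ : ℝ) : ℂ) * v := by fun_prop
    have h6 : Tendsto (fun s : ℝ => ((s - t₀ : ℝ) : ℂ) * v) (𝓝 t₀) (𝓝 0) := by
      have := hc.tendsto t₀
      simpa using this
    exact (h6.mono_left nhdsWithin_le_nhds).eventually (ball_mem_nhds 0 hρ)
  obtain ⟨ε, hε, hε2⟩ := Metric.mem_nhdsWithin_iff.1 (e1.and (e2.and e3))
  refine ⟨ε, hε, fun t ht t' ht' hd hd' hle hQ => ?_⟩
  have m1 := hε2 ⟨by simpa [Real.dist_eq] using hd, ht⟩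
  have m2 := hε2 ⟨by simpa [Real.dist_eq] using hd', ht'⟩
  obtain ⟨a1, a2, a3⟩ := m1
  obtain ⟨b1, b2, b3⟩ := m2
  -- the point on the path
  have a4 : E ((t - t₀ : ℝ) * v) = γ t := by
    have := a2.self_of_nhds.2
    rwa [a1] at this
  have b4 : E ((t' - t₀ : ℝ) * v) = γ t' := by
    have := b2.self_of_nhds.2
    rwa [b1] at this
  intro F' hF' N' hN'
  have hPt : Φ.P (γ t) F := by
    have := (hE1 _ a3).2.1
    rwa [a4] at this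
  have hPt' : Φ.P (γ t') F := by
    have := (hE1 _ b3).2.1
    rwa [b4] at this
  have c1 : ∀ᶠ y in 𝓝 (γ t'), y ∈ N' ∧ F' y - F y = F' (γ t') - F (γ t') :=
    (eventually_mem_set.2 hN').and (Φ.sub (γ t') F' F hF' hPt')
  have c2 : ContinuousAt E ((t' - t₀ : ℝ) * v) := (hE1 _ b3).1
  have c3 : ∀ᶠ w in 𝓝 (((t' - t₀ : ℝ) : ℂ) * v), w ∈ ball (0 : ℂ) ρ ∧ E w ∈ N' ∧
      F' (E w) - F (E w) = F' (γ t') - F (γ t') := by
    refine (eventually_mem_set.2 (isOpen_ball.mem_nhds b3)).and ?_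
    have c4 : Tendsto E (𝓝 (((t' - t₀ : ℝ) : ℂ) * v)) (𝓝 (γ t')) := by
      have := c2.tendsto
      rwa [b4] at this
    exact c4.eventually c1
  have c5 : Tendsto (fun q : X × ℂ => ((t' - t₀ : ℝ) : ℂ) * v + ((t' : ℂ) * (q.2 - v) +
      (F₀ q.1 - F₀ x))) (𝓝 (x, v)) (𝓝 (((t' - t₀ : ℝ) : ℂ) * v)) := by
    have c6 : ContinuousAt (fun q : X × ℂ => ((t' - t₀ : ℝ) : ℂ) * v + ((t' : ℂ) * (q.2 - v) +
        (F₀ q.1 - F₀ x))) (x, v) := by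
      have c7 : ContinuousAt (fun q : X × ℂ => F₀ q.1) (x, v) :=
        ContinuousAt.comp (f := fun q : X × ℂ => q.1) (g := F₀) h₀.cont continuousAt_fst
      have c8 : ContinuousAt (fun q : X × ℂ => q.2) (x, v) := continuousAt_snd
      exact continuousAt_const.add ((continuousAt_const.mul (c8.sub continuousAt_const)).add
        (c7.sub continuousAt_const))
    have := c6.tendsto
    simpa using this
  filter_upwards [hQ F hPt _ a2, c5.eventually c3] with q hq hq2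
  obtain ⟨y₁, ⟨d1, d2⟩, d3, d4⟩ := hq
  obtain ⟨g1, g2, g3⟩ := hq2
  set w₂ : ℂ := ((t' - t₀ : ℝ) : ℂ) * v + ((t' : ℂ) * (q.2 - v) + (F₀ q.1 - F₀ x)) with hw₂
  have k1 := hE2 _ d1 _ g1
  have k2 : w₂ - (F y₁ - F (γ t₀)) = ((t' - t : ℝ) : ℂ) * q.2 := by
    rw [hw₂]
    push_cast at a1 ⊢
    linear_combination (-1 : ℂ) * d4 - a1
  rw [k2, d2] at k1
  refine ⟨E w₂, g2, ?_, ?_⟩
  · have k3 : t / t' * t' = t := by
      by_cases h0 : t' = 0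
      · have : t = 0 := le_antisymm (h0 ▸ hle) ht.1
        simp [this]
      · field_simp
    refine Flat.Dom.trans (s := t / t') (y := y₁) ?_ ?_ (div_nonneg ht.1 ht'.1) ?_
    · rw [← mul_assoc, ← Complex.ofReal_mul, k3]
      exact d3
    · rw [← mul_assoc, ← Complex.ofReal_mul]
      have k4 : (1 - t / t') * t' = t' - t := by
        rw [sub_mul, k3, one_mul]
      rw [k4]
      exact k1
    · exact div_le_one_of_le₀ hle ht'.1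
  · have k5 : F (E w₂) = F (γ t₀) + w₂ := (hE1 _ g1).2.2
    rw [k5] at g3
    have k6 := b1
    rw [hw₂] at g3 ⊢
    push_cast at k6 g3 ⊢
    linear_combination g3 - k6

/-- Stability of straight paths.

PROOF. Let `γ` be the path of `h`. For `t ∈ Icc 0 1` let `Q t` be the statement: for every primitive `F`
at `γ t` and every neighbourhood `N` of `γ t`, for `q` near `(x, v)` there is `y' ∈ N` with
`Dom q.1 (t q.2) y'` and `F y' - F (γ t) = t (q.2 - v) + (F₀ q.1 - F₀ x)`. `Q 0` holds with `y' = q.1`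
(`Φ.sub` for `F` and `F₀`). Local step: `Stab_step`; then a supremum argument gives `Q 1`. -/
theorem Flat.stab [T2Space X] {x y : X} {v : ℂ} (h : Φ.Dom x v y) {F₀ F₁ : X → ℂ}
    (h₀ : Φ.P x F₀) (h₁ : Φ.P y F₁) {N : Set X} (hN : N ∈ 𝓝 y) :
    ∀ᶠ q : X × ℂ in 𝓝 (x, v), ∃ y' ∈ N, Φ.Dom q.1 q.2 y' ∧
      F₁ y' - F₁ y = (q.2 - v) + (F₀ q.1 - F₀ x) := by
  obtain ⟨γ, hs, g0, g1, hz⟩ := h
  have hx : x ∉ Φ.Z := g0 ▸ hz 0 ⟨le_refl 0, zero_le_one⟩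
  have hQ0 : Stab_Q Φ x v F₀ γ 0 := Stab_zero h₀ hx g0
  set S : Set ℝ := {t | t ∈ Icc (0 : ℝ) 1 ∧ Stab_Q Φ x v F₀ γ t} with hS
  have hne : S.Nonempty := ⟨0, ⟨le_refl 0, zero_le_one⟩, hQ0⟩
  have hbd : BddAbove S := ⟨1, fun t ht => ht.1.2⟩
  have hs0 : 0 ≤ sSup S := le_csSup hbd ⟨⟨le_refl 0, zero_le_one⟩, hQ0⟩
  have hs1 : sSup S ≤ 1 := csSup_le hne fun t ht => ht.1.2
  obtain ⟨ε, hε, hstep⟩ := Stab_step h₀ hs hz (t₀ := sSup S) ⟨hs0, hs1⟩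
  obtain ⟨t, htS, ht1⟩ := exists_lt_of_lt_csSup hne (sub_lt_self (sSup S) hε)
  have ht2 : t ≤ sSup S := le_csSup hbd htS
  have hmin0 : 0 ≤ min (sSup S + ε / 2) 1 := le_min (by linarith) zero_le_one
  have hmin1 : sSup S ≤ min (sSup S + ε / 2) 1 := le_min (by linarith) hs1
  have hq : Stab_Q Φ x v F₀ γ (min (sSup S + ε / 2) 1) := by
    refine hstep t htS.1 _ ⟨hmin0, min_le_right _ _⟩ ?_ ?_ (ht2.trans hmin1) htS.2
    · rw [abs_lt]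
      constructor <;> linarith
    · rw [abs_lt]
      have := min_le_left (sSup S + ε / 2) 1
      constructor <;> linarith
  have hle : min (sSup S + ε / 2) 1 ≤ sSup S := le_csSup hbd ⟨⟨hmin0, min_le_right _ _⟩, hq⟩
  have hone : min (sSup S + ε / 2) 1 = 1 := by
    rcases min_choice (sSup S + ε / 2) 1 with h2 | h2
    · rw [h2] at hle
      linarith
    · exact h2
  rw [hone] at hq
  have hfin := hq F₁ (g1.symm ▸ h₁) N (g1.symm ▸ hN)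
  filter_upwards [hfin] with q hq'
  obtain ⟨y', hy1, hy2, hy3⟩ := hq'
  refine ⟨y', hy1, by simpa using hy2, ?_⟩
  rw [g1] at hy3
  simpa using hy3

end H37abf
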