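import Pool.Agent.H.MP_abf1f1_an.Cont2
import Pool.Agent.H.MP_abf1f1_an.Stab

/-! MP_abf1f1_an, module A: the developing map on a convex set without visible cone points. -/

set_option autoImplicit false

open scoped Topology
open Set Filter Metric

namespace H37abf

variable {X : Type} [TopologicalSpace X] [T2Space X] [CompactSpace X] {Φ : Flat X}

/-- `E` is the developing map of `x` on the convex open set `B`. -/
structure Flat.Dev (Φ : Flat X) (x : X) (B : Set ℂ) (E : ℂ → X) : Prop where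
  conv : Convex ℝ B
  opn : IsOpen B
  zero : (0 : ℂ) ∈ B
  dom : ∀ z ∈ B, Φ.Dom x z (E z)
  cont : ∀ z ∈ B, ContinuousAt E z
  near : ∀ z ∈ B, ∀ F, Φ.P (E z) F → ∀ᶠ z' in 𝓝 z, F (E z') - F (E z) = z' - z

/-- The developing map exists on a convex open set without visible cone points. -/
theorem Flat.exists_dev {x : X} (hx : x ∉ Φ.Z) {B : Set ℂ} (hB : Convex ℝ B) (hBo : IsOpen B)
    (h0 : (0 : ℂ) ∈ B) (he : ∀ v ∈ Φ.Vis x, v ∉ B) : ∃ E, Φ.Dev x B E := by
  classical
  have hd : ∀ z ∈ B, ∃ y, Φ.Dom x z y := by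
    intro z hz
    rcases Flat.dom_or_see (Φ := Φ) hx z with h | ⟨s, hs0, hs1, p, hp⟩
    · exact h
    · refine absurd ?_ (he _ ⟨p, hp⟩)
      have h := hB hz h0 hs0.le (sub_nonneg.2 hs1) (by ring)
      rw [smul_zero, add_zero, Complex.real_smul] at h
      exact h
  have hc : ∀ z : ℂ, ∃ y, z ∈ B → Φ.Dom x z y := by
    intro z
    by_cases hz : z ∈ B
    · obtain ⟨y, hy⟩ := hd z hz
      exact ⟨y, fun _ => hy⟩
    · exact ⟨x, fun h => absurd h hz⟩
  choose E hE using hc
  obtain ⟨F₀, hF₀⟩ := Φ.ex x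
  have key : ∀ z ∈ B, ∀ F, Φ.P (E z) F → ∀ N ∈ 𝓝 (E z), ∀ᶠ z' in 𝓝 z,
      E z' ∈ N ∧ F (E z') - F (E z) = z' - z := by
    intro z hz F hF N hN
    have h1 := Flat.stab (hE z hz) hF₀ hF hN
    have h2 : Tendsto (fun z' : ℂ => (x, z')) (𝓝 z) (𝓝 (x, z)) :=
      (Continuous.prodMk continuous_const continuous_id).tendsto z
    filter_upwards [h2.eventually h1, hBo.mem_nhds hz] with z' h3 h4
    obtain ⟨y', hy', hD, hf⟩ := h3
    have h5 : y' = E z' := Flat.Dom.unique hD (hE z' h4)
    subst h5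
    refine ⟨hy', ?_⟩
    simpa using hf
  refine ⟨E, hB, hBo, h0, fun z hz => hE z hz, fun z hz => ?_, fun z hz F hF => ?_⟩
  · obtain ⟨F, hF⟩ := Φ.ex (E z)
    intro N hN
    exact (key z hz F hF N hN).mono fun _ h => h.1
  · exact (key z hz F hF univ univ_mem).mono fun _ h => h.2

/-- The developing map sends segments to straight paths. -/
theorem Flat.Dev.path {x : X} {B : Set ℂ} {E : ℂ → X} (h : Φ.Dev x B E) {z z' : ℂ} (hz : z ∈ B)
    (hz' : z' ∈ B) : Φ.Dom (E z) (z' - z) (E z') := by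
  have hm : ∀ t ∈ Icc (0 : ℝ) 1, z + (t : ℂ) * (z' - z) ∈ B := by
    intro t ht
    have h1 := h.conv hz hz' (sub_nonneg.2 ht.2) ht.1 (by ring)
    rw [Complex.real_smul, Complex.real_smul] at h1
    have h2 : z + (t : ℂ) * (z' - z) = ((1 - t : ℝ) : ℂ) * z + (t : ℂ) * z' := by
      push_cast
      ring
    rw [h2]
    exact h1
  have hcont : Continuous fun t : ℝ => z + (t : ℂ) * (z' - z) :=
    continuous_const.add (Complex.continuous_ofReal.mul continuous_const)
  refine ⟨fun t => E (z + (t : ℂ) * (z' - z)), ⟨?_, ?_⟩, by simp, by simp, ?_⟩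
  · intro t ht
    exact ((h.cont _ (hm t ht)).comp_of_eq hcont.continuousAt rfl).continuousWithinAt
  · intro t ht F hF
    have h1 := h.near _ (hm t ht) F hF
    have h2 := (hcont.tendsto t).eventually h1
    refine (h2.filter_mono nhdsWithin_le_nhds).mono fun s hs => ?_
    rw [hs]
    push_cast
    ring
  · intro t ht
    exact (h.dom _ (hm t ht)).right

/-- The developing map sends `0` to the base point. -/
theorem Flat.Dev.at_zero {x : X} {B : Set ℂ} {E : ℂ → X} (h : Φ.Dev x B E) : E 0 = x :=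
  Flat.Dom.unique (h.dom 0 h.zero) (Flat.Dom.refl (h.dom 0 h.zero).left)

/-- Change of the base point of a developing map. -/
theorem Flat.Dev.rebase {x : X} {B : Set ℂ} {E : ℂ → X} (h : Φ.Dev x B E) {z : ℂ} (hz : z ∈ B) :
    Φ.Dev (E z) {w | w + z ∈ B} (fun w => E (w + z)) := by
  have hcont : Continuous fun w : ℂ => w + z := continuous_id.add continuous_const
  refine ⟨h.conv.translate_preimage_left z, h.opn.preimage hcont, ?_, ?_, ?_, ?_⟩
  · simpa using hz
  · intro w hw
    have h1 := h.path hz hw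
    rwa [add_sub_cancel_right] at h1
  · intro w hw
    exact (h.cont _ hw).comp_of_eq hcont.continuousAt rfl
  · intro w hw F hF
    have h1 := (hcont.tendsto w).eventually (h.near _ hw F hF)
    refine h1.mono fun w' hw' => ?_
    rw [hw']
    ring

/-- A developing map avoids the visible cone points. -/
theorem Flat.Dev.not_vis {x : X} {B : Set ℂ} {E : ℂ → X} (h : Φ.Dev x B E) {v : ℂ} (hv : v ∈ B) :
    v ∉ Φ.Vis x := by
  rintro ⟨p, hp⟩
  exact (h.dom v hv).not_see hp

end H37abf
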