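import Mathlib

/-! MP_abf1f1_an (slope gap distributions of Veech surfaces): the definitions of the final statement.
`X` is a compact connected Riemann surface, `Θ` a nonzero holomorphic one-form. -/

set_option autoImplicit false

open scoped Manifold ContDiff Topology
open MeasureTheory Set Filter

namespace H37abf

/-- The group `SL(2, ℝ)`. -/
abbrev G2 : Type := Matrix.SpecialLinearGroup (Fin 2) ℝ

/-- The linear action of `SL(2, ℝ)` on the plane `ℂ = ℝ²`. -/
def act (g : G2) (z : ℂ) : ℂ := ⟨g.1 0 0 * z.re + g.1 0 1 * z.im, g.1 1 0 * z.re + g.1 1 1 * z.im⟩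

section surface

variable (X : Type) [TopologicalSpace X] [ChartedSpace ℂ X]

/-- The holomorphic charts of the Riemann surface `X`. -/
def Charts : Set (OpenPartialHomeomorph X ℂ) := IsManifold.maximalAtlas 𝓘(ℂ) ω X

/-- A holomorphic one-form, given by `f φ z dz` in the holomorphic chart `φ`. -/
structure HolForm where
  f : OpenPartialHomeomorph X ℂ → ℂ → ℂ
  hol : ∀ φ ∈ Charts X, DifferentiableOn ℂ (f φ) φ.target
  trans : ∀ φ ∈ Charts X, ∀ ψ ∈ Charts X, ∀ x ∈ φ.source, x ∈ ψ.source →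
    f φ (φ x) = f ψ (ψ x) * deriv (ψ ∘ φ.symm) (φ x)

variable {X} (Θ : HolForm X)

/-- The set of zeros (cone points) of the form. -/
def HolForm.zeros : Set X := {x | Θ.f (chartAt ℂ x) (chartAt ℂ x x) = 0}

/-- `F` is a primitive of the form in a neighbourhood of `x`. -/
def HolForm.Prim (F : X → ℂ) (x : X) : Prop :=
  ∀ᶠ y in 𝓝 x, ∀ φ ∈ Charts X, y ∈ φ.source → HasDerivAt (F ∘ φ.symm) (Θ.f φ (φ y)) (φ y)

/-- `γ` is, on `[0, 1]`, a saddle connection with holonomy vector `v`: a straight path (primitives of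
the form are affine along it, with velocity `v`) joining two zeros with no zero in its interior. -/
structure HolForm.Saddle (γ : ℝ → X) (v : ℂ) : Prop where
  cont : ContinuousOn γ (Icc 0 1)
  start : γ 0 ∈ Θ.zeros
  stop : γ 1 ∈ Θ.zeros
  inside : ∀ t ∈ Ioo (0 : ℝ) 1, γ t ∉ Θ.zeros
  straight : ∀ t ∈ Icc (0 : ℝ) 1, ∀ F, Θ.Prim F (γ t) →
    ∀ᶠ s in 𝓝[Icc 0 1] t, F (γ s) - F (γ t) = (s - t : ℝ) * v

/-- The set of holonomy vectors of saddle connections. -/
def HolForm.Lam : Set ℂ := {v | ∃ γ, Θ.Saddle γ v}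

/-- `ψ` is an affine homeomorphism with derivative `g`: it permutes the zeros, and in terms of
primitives of the form it is affine with linear part `g`. -/
def HolForm.Affine (g : G2) (ψ : X ≃ₜ X) : Prop :=
  (∀ x, ψ x ∈ Θ.zeros ↔ x ∈ Θ.zeros) ∧
  ∀ x F F', Θ.Prim F x → Θ.Prim F' (ψ x) → ∀ᶠ y in 𝓝 x, F' (ψ y) - F' (ψ x) = act g (F y - F x)

/-- The Veech group of `(X, Θ)`: the derivatives of the affine homeomorphisms. -/
def HolForm.veech : Set G2 := {g | ∃ ψ : X ≃ₜ X, Θ.Affine g ψ}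

/-- The trace field: the subfield of `ℝ` generated by the traces of the elements of the Veech
group. -/
noncomputable def HolForm.traceField : Subfield ℝ := Subfield.closure {x | ∃ g ∈ Θ.veech, x = g.1.trace}

/-- A set `Γ` of elements of `SL(2, ℝ)` (a subgroup in the application) is a lattice: it is
discrete and has finite covolume with respect to some Haar measure. -/
def IsLattice (Γ : Set G2) : Prop :=
  (∃ U ∈ 𝓝 (1 : G2), ∀ γ ∈ Γ, γ ∈ U → γ = 1) ∧
  ∃ μ : @Measure G2 (borel G2), @Measure.IsHaarMeasure G2 _ _ (borel G2) μ ∧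
    ∃ D : Set G2, @MeasurableSet G2 (borel G2) D ∧ μ D < ⊤ ∧ ∀ g : G2, ∃ γ ∈ Γ, g * γ ∈ D

end surface

section gaps

variable (Λ : Set ℂ)

/-- The set `S_R` of slopes of vectors of `Λ`. -/
def slopes (R : ℝ) : Set ℝ :=
  {s | ∃ v ∈ Λ, 0 < v.re ∧ 0 ≤ v.im ∧ v.im ≤ v.re ∧ v.re ≤ R ∧ s = v.im / v.re}

/-- The number of the `i` with `R² (s_i - s_{i-1}) ∈ (a, b)`, where `s_0 < s_1 < ...` are the elements
of `S_R`. -/
noncomputable def gapCount (R a b : ℝ) : ℕ :=
  {s ∈ slopes Λ R | ∃ s' ∈ slopes Λ R, s < s' ∧ (∀ u ∈ slopes Λ R, u ≤ s ∨ s' ≤ u) ∧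
    a < R ^ 2 * (s' - s) ∧ R ^ 2 * (s' - s) < b}.ncard

/-- `f` is the slope gap distribution of `Λ`; `N(R) = (slopes Λ R).ncard`. -/
def IsGapDist (f : ℝ → ℝ) : Prop :=
  (∀ x, 0 ≤ x → 0 ≤ f x) ∧ ∀ a b : ℝ, 0 ≤ a → a < b → IntervalIntegrable f volume a b ∧
    Tendsto (fun R => (gapCount Λ R a b : ℝ) / ((slopes Λ R).ncard : ℝ)) atTop
      (𝓝 (∫ x in a..b, f x))

end gaps

end H37abf
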