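import Pool.Agent.H.MP_abf1f1_an.DelEx

/-! MP_abf1f1_an, module A: existence and convexity property of Delaunay discs. -/

set_option autoImplicit false

open scoped Topology
open Set Filter Metric

namespace H37abf

theorem DelConv_norm_sub_sq (v y : ℂ) :
    ‖v - y‖ ^ 2 = ‖v‖ ^ 2 - 2 * (v.re * y.re + v.im * y.im) + ‖y‖ ^ 2 := by
  rw [← Complex.normSq_eq_norm_sq, ← Complex.normSq_eq_norm_sq, ← Complex.normSq_eq_norm_sq]
  simp only [Complex.normSq_apply, Complex.sub_re, Complex.sub_im]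
  ring

theorem DelConv_inner_le (v y : ℂ) : v.re * y.re + v.im * y.im ≤ ‖v‖ * ‖y‖ := by
  have h1 := DelConv_norm_sub_sq v y
  have h2 : (‖v‖ - ‖y‖) ^ 2 ≤ ‖v - y‖ ^ 2 := by
    have h3 := abs_norm_sub_norm_le v y
    have h4 : (|‖v‖ - ‖y‖|) ^ 2 ≤ ‖v - y‖ ^ 2 := pow_le_pow_left₀ (abs_nonneg _) h3 2
    rwa [sq_abs] at h4
  nlinarith

theorem DelConv_functional (f : ℂ →L[ℝ] ℝ) (v : ℂ) : f v = v.re * f 1 + v.im * f Complex.I := by
  have h : v = (v.re : ℝ) • (1 : ℂ) + (v.im : ℝ) • Complex.I := by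
    apply Complex.ext <;> simp
  conv_lhs => rw [h]
  rw [map_add, map_smul, map_smul, smul_eq_mul, smul_eq_mul]

variable {X : Type} [TopologicalSpace X] [T2Space X] [CompactSpace X] {Φ : Flat X}

/-- PROOF. Suppose `0 ∉ convexHull ℝ S`, `S = S x y r`. `convexHull ℝ S` is compact, so there is `u ∈ ℂ`
with `⟪s, u⟫ < 0` for all `s ∈ S` (`geometric_hahn_banach_...`, real inner product
`⟪s, u⟫ = s.re * u.re + s.im * u.im`), hence `⟪s, u⟫ ≤ - c < 0` (finite). For `ε > 0` let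
`y' = y + ε u`, `r' ^ 2 = |y'| ^ 2 + (r ^ 2 - |y| ^ 2) + ε c`. Claim: `Empty x y' r'` for small `ε`, which
contradicts the maximality. `|y'| < r'`: clear. `v ∈ Vis x` satisfies `|v - y'| ≥ r'` iff
`|v| ^ 2 - 2 ⟪v, y⟫ - 2 ε ⟪v, u⟫ ≥ P + ε c`, `P = r ^ 2 - |y| ^ 2`. We know `|v| ^ 2 - 2 ⟪v, y⟫ ≥ P` with
equality iff `v ∈ S`. For `v ∈ S` fine as `-2 ⟪v, u⟫ ≥ 2 c`. For `|v|` large (independent of
`ε ≤ 1`) fine. The remaining `v` are finitely many (`vis_finite`) with `|v| ^ 2 - 2 ⟪v, y⟫ > P`: fine for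
small `ε`. -/
theorem Flat.Del.conv {x : X} (hx : x ∉ Φ.Z) {y : ℂ} {r : ℝ} (h : Φ.Del x y r) :
    (0 : ℂ) ∈ convexHull ℝ (Φ.S x y r) := by
  by_contra h0
  have hSf : (Φ.S x y r).Finite := Φ.S_finite x y r
  have hcl : IsClosed (convexHull ℝ (Φ.S x y r)) := hSf.isClosed_convexHull ℝ
  obtain ⟨f, c, hf0, hfc⟩ := geometric_hahn_banach_point_closed (convex_convexHull ℝ _) hcl h0
  rw [map_zero] at hf0
  have hfS : ∀ s ∈ Φ.S x y r, c < f s := fun s hs => hfc s (subset_convexHull ℝ _ hs)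
  obtain ⟨w, hw⟩ : ∃ w : ℂ, ∀ v : ℂ, f v = v.re * w.re + v.im * w.im :=
    ⟨⟨f 1, f Complex.I⟩, fun v => DelConv_functional f v⟩
  obtain ⟨hyr, hP⟩ := h.1.pow_pos
  have hr0 : 0 < r := (norm_nonneg y).trans_lt hyr
  -- every visible point is outside of the disc
  have hout : ∀ v ∈ Φ.Vis x, r ≤ ‖v - y‖ := by
    intro v hv
    have h1 := h.1.2 v hv
    rwa [Metric.mem_ball, not_lt, dist_eq_norm] at h1
  have hg : ∀ v ∈ Φ.Vis x,
      0 ≤ ‖v‖ ^ 2 - 2 * (v.re * y.re + v.im * y.im) - (r ^ 2 - ‖y‖ ^ 2) := by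
    intro v hv
    have h1 := hout v hv
    have h2 := DelConv_norm_sub_sq v y
    have h3 : r ^ 2 ≤ ‖v - y‖ ^ 2 := pow_le_pow_left₀ hr0.le h1 2
    linarith
  have hgS : ∀ v ∈ Φ.Vis x, v ∉ Φ.S x y r →
      0 < ‖v‖ ^ 2 - 2 * (v.re * y.re + v.im * y.im) - (r ^ 2 - ‖y‖ ^ 2) := by
    intro v hv hvS
    have h1 := hout v hv
    have h2 := DelConv_norm_sub_sq v y
    have h4 : r ≠ ‖v - y‖ := by
      intro h5
      apply hvS
      refine ⟨hv, ?_⟩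
      rw [mem_sphere, dist_eq_norm, ← h5]
    have h3 : r ^ 2 < ‖v - y‖ ^ 2 := pow_lt_pow_left₀ (lt_of_le_of_ne h1 h4) hr0.le two_ne_zero
    linarith
  -- the bound for the finitely many remaining points
  obtain ⟨R, hR⟩ : ∃ R : ℝ, R = 2 * ‖y‖ + 2 * ‖w‖ + (r ^ 2 - ‖y‖ ^ 2) + c + 1 := ⟨_, rfl⟩
  have hfin : ({v ∈ Φ.Vis x | ‖v‖ ≤ R} \ Φ.S x y r).Finite := (Φ.vis_finite x R).sdiff
  have hev : ∀ᶠ ε : ℝ in 𝓝 0, ∀ v ∈ {v ∈ Φ.Vis x | ‖v‖ ≤ R} \ Φ.S x y r,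
      0 < ‖v‖ ^ 2 - 2 * (v.re * y.re + v.im * y.im) - (r ^ 2 - ‖y‖ ^ 2) + ε * (2 * f v - c) := by
    rw [Filter.eventually_all_finite hfin]
    rintro v ⟨⟨hv, -⟩, hvS⟩
    have h1 := hgS v hv hvS
    have hcont : Continuous (fun ε : ℝ =>
        ‖v‖ ^ 2 - 2 * (v.re * y.re + v.im * y.im) - (r ^ 2 - ‖y‖ ^ 2) + ε * (2 * f v - c)) := by
      fun_prop
    have h2 := hcont.tendsto 0
    simp only [zero_mul, add_zero] at h2
    exact h2.eventually_const_lt h1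
  have hev' : ∀ᶠ ε : ℝ in 𝓝[>] 0, (∀ v ∈ {v ∈ Φ.Vis x | ‖v‖ ≤ R} \ Φ.S x y r,
      0 < ‖v‖ ^ 2 - 2 * (v.re * y.re + v.im * y.im) - (r ^ 2 - ‖y‖ ^ 2) + ε * (2 * f v - c)) ∧
      ε < 1 ∧ 0 < ε := by
    refine (hev.filter_mono nhdsWithin_le_nhds).and (Filter.Eventually.and ?_ self_mem_nhdsWithin)
    exact (eventually_lt_nhds one_pos).filter_mono nhdsWithin_le_nhds
  obtain ⟨ε, hε, hε1, hε0⟩ := hev'.exists
  -- the main inequality
  have hmain : ∀ v ∈ Φ.Vis x,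
      0 ≤ ‖v‖ ^ 2 - 2 * (v.re * y.re + v.im * y.im) - (r ^ 2 - ‖y‖ ^ 2) + ε * (2 * f v - c) := by
    intro v hv
    by_cases hvS : v ∈ Φ.S x y r
    · have h1 := hg v hv
      have h2 := hfS v hvS
      have h3 : 0 ≤ ε * (2 * f v - c) := mul_nonneg hε0.le (by linarith)
      linarith
    by_cases hvR : ‖v‖ ≤ R
    · exact (hε v ⟨⟨hv, hvR⟩, hvS⟩).le
    · rw [not_le] at hvR
      have h1 : v.re * y.re + v.im * y.im ≤ ‖v‖ * ‖y‖ := DelConv_inner_le v y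
      have h2 : -(‖v‖ * ‖w‖) ≤ f v := by
        have h3 := DelConv_inner_le (-v) w
        rw [norm_neg, Complex.neg_re, Complex.neg_im] at h3
        rw [hw v]
        linarith
      have hy0 := norm_nonneg y
      have hw0 := norm_nonneg w
      have hR1 : 1 ≤ R := by rw [hR]; linarith
      have hv1 : 1 ≤ ‖v‖ := hR1.trans hvR.le
      have h4 : ε * (‖v‖ * ‖w‖) ≤ ‖v‖ * ‖w‖ := by
        have : 0 ≤ ‖v‖ * ‖w‖ := mul_nonneg (norm_nonneg v) hw0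
        nlinarith
      have h5 : -(‖v‖ * ‖w‖) ≤ ε * f v := by
        have h6 : ε * (-(‖v‖ * ‖w‖)) ≤ ε * f v := mul_le_mul_of_nonneg_left h2 hε0.le
        linarith
      have h6 : ε * c ≤ c := by nlinarith
      have h7 : ‖v‖ * R ≤ ‖v‖ ^ 2 := by nlinarith
      have h8 : (r ^ 2 - ‖y‖ ^ 2) + c ≤ ‖v‖ * ((r ^ 2 - ‖y‖ ^ 2) + c + 1) := by nlinarith
      have h9 : ‖v‖ * R = 2 * (‖v‖ * ‖y‖) + 2 * (‖v‖ * ‖w‖)
          + ‖v‖ * ((r ^ 2 - ‖y‖ ^ 2) + c + 1) := by rw [hR]; ring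
      have h10 : ε * (2 * f v - c) = 2 * (ε * f v) - ε * c := by ring
      rw [h10]
      linarith
  -- the better disc
  have hcε : 0 < ε * c := mul_pos hε0 hf0
  obtain ⟨y', hy'⟩ : ∃ y' : ℂ, y' = y - (ε : ℂ) * w := ⟨_, rfl⟩
  have hre : y'.re = y.re - ε * w.re := by rw [hy']; simp
  have him : y'.im = y.im - ε * w.im := by rw [hy']; simp
  have hq : 0 ≤ ‖y'‖ ^ 2 + (r ^ 2 - ‖y‖ ^ 2) + ε * c := by positivity
  obtain ⟨r', hr'⟩ : ∃ r' : ℝ, r' = Real.sqrt (‖y'‖ ^ 2 + (r ^ 2 - ‖y‖ ^ 2) + ε * c) := ⟨_, rfl⟩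
  have hr'2 : r' ^ 2 = ‖y'‖ ^ 2 + (r ^ 2 - ‖y‖ ^ 2) + ε * c := by rw [hr', Real.sq_sqrt hq]
  have hr'0 : 0 ≤ r' := by rw [hr']; exact Real.sqrt_nonneg _
  have hE : Φ.Empty x y' r' := by
    constructor
    · rw [Metric.mem_ball, dist_eq_norm, zero_sub, norm_neg]
      refine lt_of_pow_lt_pow_left₀ 2 hr'0 ?_
      rw [hr'2]
      linarith
    · intro v hv
      rw [Metric.mem_ball, not_lt, dist_eq_norm]
      refine le_of_sq_le_sq ?_ (norm_nonneg _)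
      have h1 := DelConv_norm_sub_sq v y'
      have h2 := hmain v hv
      rw [hw v] at h2
      rw [h1, hr'2, hre, him]
      nlinarith
  have h3 := h.2 y' r' hE
  rw [hr'2] at h3
  linarith

end H37abf
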