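import Pool.Agent.H.MP_abf1f1_an.Diam2

/-! MP_abf1f1_an, module A: existence and convexity property of Delaunay discs. -/

set_option autoImplicit false

open scoped Topology
open Set Filter Metric

namespace H37abf

variable {X : Type} [TopologicalSpace X] [T2Space X] [CompactSpace X] {Φ : Flat X}

theorem Flat.Empty.pow_pos {x : X} {y : ℂ} {r : ℝ} (h : Φ.Empty x y r) :
    ‖y‖ < r ∧ 0 < r ^ 2 - ‖y‖ ^ 2 := by
  have h1 : ‖y‖ < r := by
    have := h.1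
    rw [mem_ball, dist_eq_norm, zero_sub, norm_neg] at this
    exact this
  exact ⟨h1, by nlinarith [norm_nonneg y]⟩

/-- PROOF. There is `ρ > 0` with `Empty x 0 ρ` (`vis_finite` and `See.ne_zero`, or `exists_ball` and
`Dom.not_see`). Let `D` be as in `diam`. The set of the `(y, r)` with `|y| ≤ D`, `0 ≤ r ≤ D`,
`r ^ 2 - |y| ^ 2 ≥ ρ ^ 2` and `r ≤ |v - y|` for all `v ∈ Vis x` is compact and nonempty (contains
`(0, ρ)`); take a maximum of `r ^ 2 - |y| ^ 2` on it. It is an empty disc (`|y| < r` as the power is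
positive); every empty disc with power `≥ ρ ^ 2` is in the set (`diam`). -/
theorem Flat.exists_del {x : X} (hx : x ∉ Φ.Z) : ∃ y r, Φ.Del x y r := by
  obtain ⟨F, hF⟩ := Φ.ex x
  obtain ⟨ρ, hρ, E, hE0, -, hE2, -⟩ := Flat.exists_ball hx hF
  obtain ⟨D, hD, hdiam⟩ := Φ.diam
  have hemp : Φ.Empty x 0 ρ := by
    refine ⟨mem_ball_self hρ, ?_⟩
    rintro v ⟨p, hp⟩ hv
    have h1 := hE2 0 (mem_ball_self hρ) v hv
    rw [hE0, sub_zero] at h1
    exact h1.not_see hp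
  have hρD : ρ ≤ D := hdiam x hx 0 ρ hemp
  set K : Set (ℂ × ℝ) := (closedBall (0 : ℂ) D ×ˢ Icc (0 : ℝ) D) ∩
    ({q | ρ ^ 2 ≤ q.2 ^ 2 - ‖q.1‖ ^ 2} ∩ {q | ∀ v ∈ Φ.Vis x, q.2 ≤ dist v q.1}) with hK
  have hcomp : IsCompact K := by
    refine ((isCompact_closedBall (0 : ℂ) D).prod isCompact_Icc).inter_right ?_
    refine IsClosed.inter ?_ ?_
    · exact isClosed_le continuous_const (by fun_prop)
    · have : {q : ℂ × ℝ | ∀ v ∈ Φ.Vis x, q.2 ≤ dist v q.1} =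
          ⋂ v ∈ Φ.Vis x, {q : ℂ × ℝ | q.2 ≤ dist v q.1} := by
        ext q
        simp only [Set.mem_iInter]
        exact Iff.rfl
      rw [this]
      exact isClosed_biInter fun v _ => isClosed_le (by fun_prop) (by fun_prop)
  have hne : K.Nonempty := by
    refine ⟨((0 : ℂ), ρ), ⟨⟨by simp [hD.le], ⟨hρ.le, hρD⟩⟩, ?_, ?_⟩⟩
    · show ρ ^ 2 ≤ ρ ^ 2 - ‖(0 : ℂ)‖ ^ 2
      simp
    · intro v hv
      have := hemp.2 v hv
      rw [mem_ball, not_lt] at this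
      exact this
  obtain ⟨q, hqK, hmax⟩ := hcomp.exists_isMaxOn hne
    (f := fun q : ℂ × ℝ => q.2 ^ 2 - ‖q.1‖ ^ 2) (by fun_prop)
  obtain ⟨⟨hq1, hq2⟩, hq3, hq4⟩ := hqK
  have hq3' : ρ ^ 2 ≤ q.2 ^ 2 - ‖q.1‖ ^ 2 := hq3
  have hq5 : ‖q.1‖ < q.2 := by
    have h0 : 0 < ρ ^ 2 := by positivity
    have h1 : ‖q.1‖ ^ 2 < q.2 ^ 2 := by linarith
    exact lt_of_pow_lt_pow_left₀ 2 hq2.1 h1
  refine ⟨q.1, q.2, ⟨?_, ?_⟩, ?_⟩
  · rw [mem_ball, dist_eq_norm, zero_sub, norm_neg]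
    exact hq5
  · intro v hv hb
    rw [mem_ball] at hb
    exact absurd (hq4 v hv) (not_le.2 hb)
  · intro y' r' h'
    rcases le_total (ρ ^ 2) (r' ^ 2 - ‖y'‖ ^ 2) with hc | hc
    · have hr' : r' ≤ D := hdiam x hx y' r' h'
      have hy' := h'.pow_pos.1
      have hmem : ((y', r') : ℂ × ℝ) ∈ K := by
        refine ⟨⟨?_, ⟨(norm_nonneg y').trans hy'.le, hr'⟩⟩, hc, ?_⟩
        · show y' ∈ closedBall (0 : ℂ) D
          rw [mem_closedBall, dist_zero_right]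
          exact hy'.le.trans hr'
        · intro v hv
          have := h'.2 v hv
          rw [mem_ball, not_lt] at this
          exact this
      exact hmax hmem
    · exact hc.trans hq3'

/-- PROOF. `vis_finite`. -/
theorem Flat.S_finite (x : X) (y : ℂ) (r : ℝ) : (Φ.S x y r).Finite := by
  refine (Φ.vis_finite x (r + ‖y‖)).subset ?_
  rintro v ⟨hv, hs⟩
  refine ⟨hv, ?_⟩
  rw [mem_sphere, dist_eq_norm] at hs
  calc ‖v‖ = ‖(v - y) + y‖ := by rw [sub_add_cancel]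
    _ ≤ ‖v - y‖ + ‖y‖ := norm_add_le _ _
    _ = r + ‖y‖ := by rw [hs]

end H37abf
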