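import Pool.Agent.H.MP_abf1f1_an.DelConv

/-! MP_abf1f1_an, module A: Delaunay discs of nearby points. -/

set_option autoImplicit false

open scoped Topology
open Set Filter Metric

namespace H37abf

variable {X : Type} [TopologicalSpace X] [T2Space X] [CompactSpace X] {Φ : Flat X}

/-- A Delaunay disc of a nearby point, seen from `x`, is an empty disc of `x` with large power. -/
theorem DelLoc_move {x : X} (hx : x ∉ Φ.Z) {D : ℝ} (hD : ∀ x, x ∉ Φ.Z → ∀ y r, Φ.Empty x y r → r ≤ D)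
    {y₀ : ℂ} {r₀ : ℝ} (h₀ : Φ.Empty x y₀ r₀) {x' : X} {ξ : ℂ} (g1 : Φ.Dom x ξ x')
    (g2 : ξ ∈ ball y₀ r₀) (g3 : 2 * D * ‖ξ‖ + ‖ξ‖ ^ 2 < r₀ ^ 2 - ‖y₀ - ξ‖ ^ 2)
    {y' : ℂ} {r' : ℝ} (h' : Φ.Del x' y' r') :
    r₀ ^ 2 - ‖y₀ - ξ‖ ^ 2 ≤ r' ^ 2 - ‖y'‖ ^ 2 ∧ ‖y'‖ < r' ∧ r' ≤ D ∧ Φ.Empty x (y' + ξ) r' ∧
      ∀ s ∈ Φ.S x' y' r', s + ξ ∈ Φ.S x (y' + ξ) r' := by
  have hx' : x' ∉ Φ.Z := g1.right
  have h1 : r₀ ^ 2 - ‖y₀ - ξ‖ ^ 2 ≤ r' ^ 2 - ‖y'‖ ^ 2 :=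
    h'.2 _ _ (h₀.rebase hx g2 g1)
  have h2 : ‖y'‖ < r' := h'.1.pow_pos.1
  have h3 : r' ≤ D := hD x' hx' y' r' h'.1
  have h4 : -ξ ∈ ball y' r' := by
    rw [mem_ball, dist_eq_norm, show -ξ - y' = -(y' + ξ) by ring, norm_neg]
    have a1 : ‖y' + ξ‖ ≤ ‖y'‖ + ‖ξ‖ := norm_add_le _ _
    have a2 : 0 ≤ ‖y'‖ := norm_nonneg _
    have a3 : 0 ≤ ‖ξ‖ := norm_nonneg _
    have a4 : ‖y'‖ * ‖ξ‖ ≤ D * ‖ξ‖ := mul_le_mul_of_nonneg_right (h2.le.trans h3) a3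
    have a5 : ‖y' + ξ‖ ^ 2 < r' ^ 2 := by
      calc ‖y' + ξ‖ ^ 2 ≤ (‖y'‖ + ‖ξ‖) ^ 2 := pow_le_pow_left₀ (norm_nonneg _) a1 2
        _ < r' ^ 2 := by nlinarith
    exact lt_of_pow_lt_pow_left₀ 2 (a2.trans h2.le) a5
  have h5 := h'.1.rebase hx' h4 g1.symm
  rw [sub_neg_eq_add] at h5
  refine ⟨h1, h2, h3, h5, fun s hs => ?_⟩
  have h6 := (Flat.S_rebase hx' h'.1 h4 g1.symm s).1 hs
  rwa [sub_neg_eq_add, sub_neg_eq_add] at h6

/-- Delaunay discs of points near a regular point `x`: their visible cone points on the circle, seen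
from `x`, are on the circle of one Delaunay disc of `x`. -/
theorem Flat.del_loc {x : X} (hx : x ∉ Φ.Z) {F : X → ℂ} (hF : Φ.P x F) :
    ∀ᶠ x' in 𝓝 x, ∀ y' r', Φ.Del x' y' r' →
      ∃ y r, Φ.Del x y r ∧ ∀ s ∈ Φ.S x' y' r', s + (F x' - F x) ∈ Φ.S x y r := by
  obtain ⟨D, hD0, hD⟩ := Φ.diam
  obtain ⟨y₀, r₀, hdel⟩ := Flat.exists_del (Φ := Φ) hx
  obtain ⟨-, hP⟩ := hdel.1.pow_pos
  obtain ⟨ρ, hρ, E, hE0, -, hE, hnear⟩ := Flat.exists_ball (Φ := Φ) hx hF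
  have hξ : Tendsto (fun x' => F x' - F x) (𝓝 x) (𝓝 0) := by
    have := hF.cont.tendsto.sub_const (F x)
    rwa [sub_self] at this
  have g1 : ∀ᶠ x' in 𝓝 x, Φ.Dom x (F x' - F x) x' := by
    filter_upwards [hnear] with x' h
    have := hE 0 (mem_ball_self hρ) (F x' - F x) h.1
    rwa [hE0, h.2, sub_zero] at this
  have g2 : ∀ᶠ x' in 𝓝 x, F x' - F x ∈ ball y₀ r₀ :=
    hξ.eventually (isOpen_ball.mem_nhds hdel.1.1)
  have hpow : Tendsto (fun x' => r₀ ^ 2 - ‖y₀ - (F x' - F x)‖ ^ 2) (𝓝 x)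
      (𝓝 (r₀ ^ 2 - ‖y₀‖ ^ 2)) := by
    have := ((tendsto_const_nhds (x := y₀)).sub hξ).norm.pow 2
    rw [sub_zero] at this
    exact tendsto_const_nhds.sub this
  have g3 : ∀ᶠ x' in 𝓝 x, 2 * D * ‖F x' - F x‖ + ‖F x' - F x‖ ^ 2
      < r₀ ^ 2 - ‖y₀ - (F x' - F x)‖ ^ 2 := by
    have a1 : Tendsto (fun x' => 2 * D * ‖F x' - F x‖ + ‖F x' - F x‖ ^ 2) (𝓝 x) (𝓝 0) := by
      have := (hξ.norm.const_mul (2 * D)).add (hξ.norm.pow 2)
      simpa using this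
    exact a1.eventually_lt hpow hP
  have g4 : ∀ᶠ x' in 𝓝 x, ‖F x' - F x‖ < D := by
    have a1 := hξ.norm
    rw [norm_zero] at a1
    exact a1.eventually_lt_const hD0
  by_contra hcon
  rw [not_eventually] at hcon
  have hcon2 := hcon.and_eventually ((g1.and g2).and (g3.and g4))
  set A : Set X := {x' | ¬ (∀ y' r', Φ.Del x' y' r' →
      ∃ y r, Φ.Del x y r ∧ ∀ s ∈ Φ.S x' y' r', s + (F x' - F x) ∈ Φ.S x y r) ∧
      ((Φ.Dom x (F x' - F x) x' ∧ F x' - F x ∈ ball y₀ r₀) ∧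
      (2 * D * ‖F x' - F x‖ + ‖F x' - F x‖ ^ 2 < r₀ ^ 2 - ‖y₀ - (F x' - F x)‖ ^ 2 ∧
      ‖F x' - F x‖ < D))} with hA
  have : NeBot (𝓝 x ⊓ 𝓟 A) := frequently_iff_neBot.1 hcon2
  set U : Ultrafilter X := Ultrafilter.of (𝓝 x ⊓ 𝓟 A) with hU
  have hUle : (U : Filter X) ≤ 𝓝 x ⊓ 𝓟 A := Ultrafilter.of_le _
  have hUx : (U : Filter X) ≤ 𝓝 x := hUle.trans inf_le_left
  have hUA : ∀ᶠ x' in (U : Filter X), x' ∈ A := hUle.trans inf_le_right (mem_principal_self A)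
  have hch : ∀ x' ∈ A, ∃ y' r', Φ.Del x' y' r' ∧ ∀ y r, Φ.Del x y r →
      ∃ s ∈ Φ.S x' y' r', s + (F x' - F x) ∉ Φ.S x y r := by
    intro x' hx'
    have h1 := hx'.1
    push Not at h1
    exact h1
  choose! Y R hYR using hch
  have hmove := fun (x' : X) (h : x' ∈ A) =>
    DelLoc_move hx hD hdel.1 h.2.1.1 h.2.1.2 h.2.2.1 (hYR x' h).1
  -- the limit disc
  have hK : IsCompact (closedBall (0 : ℂ) (2 * D) ×ˢ Icc (0 : ℝ) D) :=
    (isCompact_closedBall _ _).prod isCompact_Icc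
  obtain ⟨⟨ys, rs⟩, hK1, hlim⟩ := hK.ultrafilter_le_nhds' (U.map fun x' => (Y x' + (F x' - F x), R x')) (by
    rw [Ultrafilter.mem_map]
    filter_upwards [hUA] with x' h
    obtain ⟨-, m2, m3, -, -⟩ := hmove x' h
    refine ⟨?_, (norm_nonneg _).trans m2.le, m3⟩
    rw [mem_closedBall_zero_iff]
    have := norm_add_le (Y x') (F x' - F x)
    have := h.2.2.2
    linarith)
  have hlim2 : Tendsto (fun x' => (Y x' + (F x' - F x), R x')) (U : Filter X) (𝓝 (ys, rs)) := hlim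
  have hlY : Tendsto (fun x' => Y x' + (F x' - F x)) (U : Filter X) (𝓝 ys) :=
    (continuous_fst.tendsto _).comp hlim2
  have hlR : Tendsto R (U : Filter X) (𝓝 rs) := (continuous_snd.tendsto _).comp hlim2
  have hlξ := hξ.mono_left hUx
  have hlY2 : Tendsto Y (U : Filter X) (𝓝 ys) := by
    have := hlY.sub hlξ
    simpa using this
  have hpow2 : r₀ ^ 2 - ‖y₀‖ ^ 2 ≤ rs ^ 2 - ‖ys‖ ^ 2 := by
    refine le_of_tendsto_of_tendsto (hpow.mono_left hUx) ((hlR.pow 2).sub (hlY2.norm.pow 2)) ?_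
    filter_upwards [hUA] with x' h
    exact (hmove x' h).1
  have hrs : 0 ≤ rs := hK1.2.1
  have hys : ‖ys‖ < rs := by
    refine lt_of_pow_lt_pow_left₀ 2 hrs ?_
    linarith
  have hempty : Φ.Empty x ys rs := by
    refine ⟨by rwa [mem_ball, dist_comm, dist_zero_right], fun v hv hvb => ?_⟩
    have a1 : rs ≤ dist v ys := by
      refine le_of_tendsto_of_tendsto hlR ((tendsto_const_nhds (x := v)).dist hlY) ?_
      filter_upwards [hUA] with x' h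
      have := (hmove x' h).2.2.2.1.2 v hv
      rw [mem_ball, not_lt] at this
      exact this
    exact absurd (mem_ball.1 hvb) (not_lt.2 a1)
  have hdel2 : Φ.Del x ys rs := ⟨hempty, fun y'' r'' h'' => (hdel.2 y'' r'' h'').trans hpow2⟩
  have hfin := Φ.vis_finite x (3 * D)
  have hall : ∀ᶠ x' in (U : Filter X), ∀ t ∈ {v ∈ Φ.Vis x | ‖v‖ ≤ 3 * D},
      t - (F x' - F x) ∈ Φ.S x' (Y x') (R x') → t ∈ Φ.S x ys rs := by
    rw [eventually_all_finite hfin]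
    intro t ht
    by_cases hev : ∀ᶠ x' in (U : Filter X), t - (F x' - F x) ∈ Φ.S x' (Y x') (R x')
    · have a1 : dist t ys = rs := by
        refine tendsto_nhds_unique ((tendsto_const_nhds (x := t)).dist hlY) (hlR.congr' ?_)
        filter_upwards [hev] with x' h
        have := h.2
        rw [mem_sphere, dist_eq_norm] at this
        rw [dist_eq_norm, ← this]
        congr 1
        ring
      exact Eventually.of_forall fun _ _ => ⟨ht.1, mem_sphere.2 a1⟩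
    · rw [← Ultrafilter.eventually_not] at hev
      filter_upwards [hev] with x' h h2
      exact absurd h2 h
  obtain ⟨x', hx'A, hx'all⟩ := (hUA.and hall).exists
  obtain ⟨s, hs, hns⟩ := (hYR x' hx'A).2 ys rs hdel2
  obtain ⟨-, m2, m3, -, m5⟩ := hmove x' hx'A
  have hs2 := m5 s hs
  refine hns (hx'all (s + (F x' - F x)) ⟨hs2.1, ?_⟩ (by rwa [add_sub_cancel_right]))
  have a1 := hs2.2
  rw [mem_sphere, dist_eq_norm] at a1
  have a2 : ‖s + (F x' - F x)‖ ≤ ‖s + (F x' - F x) - (Y x' + (F x' - F x))‖ +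
      ‖Y x' + (F x' - F x)‖ := by
    have := norm_add_le (s + (F x' - F x) - (Y x' + (F x' - F x))) (Y x' + (F x' - F x))
    rwa [sub_add_cancel] at this
  have a3 := norm_add_le (Y x') (F x' - F x)
  have a4 := hx'A.2.2.2
  linarith

end H37abf
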