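import Pool.Agent.H.MP_abf1f1_an.DelConv

/-! MP_abf1f1_an, module A: Delaunay discs of points near a cone point. -/

set_option autoImplicit false

open scoped Topology
open Set Filter Metric

namespace H37abf

variable {X : Type} [TopologicalSpace X] [T2Space X] [CompactSpace X] {Φ : Flat X}

lemma DelNear_sq (z : ℂ) : ‖z‖ ^ 2 = z.re ^ 2 + z.im ^ 2 := by
  rw [← Complex.normSq_eq_norm_sq, Complex.normSq_apply]; ring

/-- PROOF. The identity `r ^ 2 - |y| ^ 2 = ∑_{i,j} (1/2) l i l j |s i - s j| ^ 2` if `|s i - y| = r`,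
`l i ≥ 0`, `∑ l i = 1`, `∑ l i s i = 0`. So if `|s i - s j| ≥ s₀` for `i ≠ j` and `r ^ 2 - |y| ^ 2 ≤ ε s₀ ^ 2`
then `1 - ∑ l i ^ 2 ≤ 2 ε`, so some `l k ≥ 1 - 2 ε` (`∑ l i ^ 2 ≤ max l i`), and
`|s k| = |∑_{i ≠ k} l i (s i - s k)| ≤ 2 ε · 2 r`. -/
theorem short_of_power {ι : Type} (A : Finset ι) (l : ι → ℝ) (s : ι → ℂ) {y : ℂ} {r s₀ ε : ℝ}
    (hl : ∀ i ∈ A, 0 ≤ l i) (h1 : ∑ i ∈ A, l i = 1) (h0 : ∑ i ∈ A, (l i : ℂ) * s i = 0)
    (hr : ∀ i ∈ A, ‖s i - y‖ = r) (hs : ∀ i ∈ A, ∀ j ∈ A, i ≠ j → s₀ ≤ ‖s i - s j‖) (hs₀ : 0 < s₀)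
    (hP : r ^ 2 - ‖y‖ ^ 2 ≤ ε * s₀ ^ 2) : ∃ k ∈ A, ‖s k‖ ≤ 4 * ε * r := by
  classical
  have hre : ∑ i ∈ A, l i * (s i).re = 0 := by
    have := congrArg Complex.re h0
    rw [Complex.re_sum] at this
    simpa using this
  have him : ∑ i ∈ A, l i * (s i).im = 0 := by
    have := congrArg Complex.im h0
    rw [Complex.im_sum] at this
    simpa using this
  have hne : A.Nonempty := by
    rw [Finset.nonempty_iff_ne_empty]
    rintro rfl
    simp at h1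
  -- the power
  have hD : ∑ i ∈ A, l i * ‖s i‖ ^ 2 = r ^ 2 - ‖y‖ ^ 2 := by
    have e1 : ∀ i ∈ A, l i * ‖s i‖ ^ 2 =
        l i * (r ^ 2 - ‖y‖ ^ 2) + 2 * y.re * (l i * (s i).re) + 2 * y.im * (l i * (s i).im) := by
      intro i hi
      have e2 : ‖s i - y‖ ^ 2 = r ^ 2 := by rw [hr i hi]
      rw [DelNear_sq] at e2
      rw [← e2, DelNear_sq, DelNear_sq]
      simp only [Complex.sub_re, Complex.sub_im]
      ring
    rw [Finset.sum_congr rfl e1, Finset.sum_add_distrib, Finset.sum_add_distrib, ← Finset.sum_mul,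
      ← Finset.mul_sum, ← Finset.mul_sum, hre, him, h1]
    ring
  have hk : ∀ k ∈ A, (1 - l k) * s₀ ^ 2 ≤ (r ^ 2 - ‖y‖ ^ 2) + ‖s k‖ ^ 2 := by
    intro k hk
    have e1 : ∑ i ∈ A, l i * ‖s i - s k‖ ^ 2 = (r ^ 2 - ‖y‖ ^ 2) + ‖s k‖ ^ 2 := by
      have e2 : ∀ i ∈ A, l i * ‖s i - s k‖ ^ 2 =
          l i * ‖s i‖ ^ 2 + l i * ‖s k‖ ^ 2 - 2 * (s k).re * (l i * (s i).re)
            - 2 * (s k).im * (l i * (s i).im) := by
        intro i _
        rw [DelNear_sq, DelNear_sq, DelNear_sq]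
        simp only [Complex.sub_re, Complex.sub_im]
        ring
      rw [Finset.sum_congr rfl e2, Finset.sum_sub_distrib, Finset.sum_sub_distrib,
        Finset.sum_add_distrib, ← Finset.sum_mul, ← Finset.mul_sum, ← Finset.mul_sum, hre, him, h1, hD]
      ring
    rw [← e1]
    have e3 : 1 - l k = ∑ i ∈ A.erase k, l i := by
      rw [← h1, ← Finset.add_sum_erase A l hk]; ring
    rw [e3, Finset.sum_mul]
    calc ∑ i ∈ A.erase k, l i * s₀ ^ 2 ≤ ∑ i ∈ A.erase k, l i * ‖s i - s k‖ ^ 2 := by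
          apply Finset.sum_le_sum
          intro i hi
          rw [Finset.mem_erase] at hi
          apply mul_le_mul_of_nonneg_left _ (hl i hi.2)
          exact pow_le_pow_left₀ hs₀.le (hs i hi.2 k hk hi.1) 2
      _ ≤ ∑ i ∈ A, l i * ‖s i - s k‖ ^ 2 :=
          Finset.sum_le_sum_of_subset_of_nonneg (Finset.erase_subset _ _)
            (fun i hi _ => mul_nonneg (hl i hi) (by positivity))
  have hsum : 1 - ∑ k ∈ A, l k ^ 2 ≤ 2 * ε := by
    have e1 : ∑ k ∈ A, l k * ((1 - l k) * s₀ ^ 2) ≤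
        ∑ k ∈ A, l k * ((r ^ 2 - ‖y‖ ^ 2) + ‖s k‖ ^ 2) :=
      Finset.sum_le_sum fun k hk' => mul_le_mul_of_nonneg_left (hk k hk') (hl k hk')
    have e2 : ∑ k ∈ A, l k * ((1 - l k) * s₀ ^ 2) = (1 - ∑ k ∈ A, l k ^ 2) * s₀ ^ 2 := by
      have : ∀ k ∈ A, l k * ((1 - l k) * s₀ ^ 2) = l k * s₀ ^ 2 - l k ^ 2 * s₀ ^ 2 := by
        intro k _; ring
      rw [Finset.sum_congr rfl this, Finset.sum_sub_distrib, ← Finset.sum_mul, ← Finset.sum_mul, h1]
      ring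
    have e3 : ∑ k ∈ A, l k * ((r ^ 2 - ‖y‖ ^ 2) + ‖s k‖ ^ 2) = 2 * (r ^ 2 - ‖y‖ ^ 2) := by
      have : ∀ k ∈ A, l k * ((r ^ 2 - ‖y‖ ^ 2) + ‖s k‖ ^ 2) =
          l k * (r ^ 2 - ‖y‖ ^ 2) + l k * ‖s k‖ ^ 2 := by
        intro k _; ring
      rw [Finset.sum_congr rfl this, Finset.sum_add_distrib, ← Finset.sum_mul, h1, hD]
      ring
    rw [e2, e3] at e1
    have hs2 : 0 < s₀ ^ 2 := by positivity
    by_contra hcon
    push Not at hcon
    have : 2 * ε * s₀ ^ 2 < (1 - ∑ k ∈ A, l k ^ 2) * s₀ ^ 2 := mul_lt_mul_of_pos_right hcon hs2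
    linarith
  obtain ⟨k, hkA, hmax⟩ := Finset.exists_max_image A l hne
  refine ⟨k, hkA, ?_⟩
  have hlk : 1 - l k ≤ 2 * ε := by
    have : ∑ i ∈ A, l i ^ 2 ≤ l k := by
      calc ∑ i ∈ A, l i ^ 2 ≤ ∑ i ∈ A, l i * l k := by
            apply Finset.sum_le_sum
            intro i hi
            rw [sq]
            exact mul_le_mul_of_nonneg_left (hmax i hi) (hl i hi)
        _ = l k := by rw [← Finset.sum_mul, h1, one_mul]
    linarith
  have hr0 : 0 ≤ r := by rw [← hr k hkA]; exact norm_nonneg _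
  have e1 : s k = ∑ i ∈ A.erase k, (l i : ℂ) * (s k - s i) := by
    have e2 : ∑ i ∈ A, (l i : ℂ) * (s k - s i) = s k := by
      have : ∀ i ∈ A, (l i : ℂ) * (s k - s i) = (l i : ℂ) * s k - (l i : ℂ) * s i := by
        intro i _; ring
      rw [Finset.sum_congr rfl this, Finset.sum_sub_distrib, h0, ← Finset.sum_mul,
        ← Complex.ofReal_sum, h1]
      simp
    rw [← Finset.add_sum_erase A _ hkA] at e2
    simpa using e2.symm
  calc ‖s k‖ = ‖∑ i ∈ A.erase k, (l i : ℂ) * (s k - s i)‖ := by rw [← e1]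
    _ ≤ ∑ i ∈ A.erase k, ‖(l i : ℂ) * (s k - s i)‖ := norm_sum_le _ _
    _ ≤ ∑ i ∈ A.erase k, l i * (2 * r) := by
        apply Finset.sum_le_sum
        intro i hi
        rw [Finset.mem_erase] at hi
        rw [norm_mul, Complex.norm_real, Real.norm_of_nonneg (hl i hi.2)]
        apply mul_le_mul_of_nonneg_left _ (hl i hi.2)
        calc ‖s k - s i‖ = ‖(s k - y) - (s i - y)‖ := by congr 1; ring
          _ ≤ ‖s k - y‖ + ‖s i - y‖ := norm_sub_le _ _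
          _ = 2 * r := by rw [hr k hkA, hr i hi.2]; ring
    _ = (1 - l k) * (2 * r) := by
        rw [← Finset.sum_mul]
        congr 1
        rw [← h1, ← Finset.add_sum_erase A l hkA]; ring
    _ ≤ 2 * ε * (2 * r) := mul_le_mul_of_nonneg_right hlk (by positivity)
    _ = 4 * ε * r := by ring

end H37abf
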