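import Pool.Agent.H.MP_abf1f1_an.DelNear

/-! MP_abf1f1_an, module A: Delaunay discs of points near a cone point. -/

set_option autoImplicit false

open scoped Topology
open Set Filter Metric

namespace H37abf

variable {X : Type} [TopologicalSpace X] [T2Space X] [CompactSpace X] {Φ : Flat X}

/-- PROOF. Let `δ` be as in `near_short`, `D` as in `diam`, `s₀` as in `exists_min`. Let `q ≠ p` be near
`p`, `ζ = F p - F q`, so `See q ζ p` (`near_zero`). Let `Del q y r`. As `ζ ∉ ball y r`: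
`r ^ 2 - |y| ^ 2 ≤ |ζ| ^ 2 + 2 |ζ| D`, small. By `Del.conv` `0` is a convex combination of points of
`S q y r` (distinct points, in `Finset` form: `Finset.centerMass` or `mem_convexHull_iff_exists_fintype`);
distinct points of `S` have distance `≥ s₀` (`chord`, `exists_min`). `short_of_power` gives `s ∈ S q y r`
with `|s| < δ`, so `s = ζ` by `near_short`. -/
theorem Flat.del_near {p : X} (hp : p ∈ Φ.Z) {F : X → ℂ} (hF : Φ.P p F) :
    ∀ᶠ q in 𝓝[≠] p, ∀ y r, Φ.Del q y r → F p - F q ∈ Φ.S q y r := by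
  obtain ⟨δ, δpos, hshort⟩ := Flat.near_short hF
  have hzero := Flat.near_zero hp hF
  obtain ⟨D, Dpos, hD⟩ := Φ.diam
  obtain ⟨s₀, s₀pos, hs₀⟩ := Φ.exists_min
  obtain ⟨ε, hε⟩ : ∃ ε : ℝ, ε = δ / (8 * D) := ⟨_, rfl⟩
  have εpos : 0 < ε := by rw [hε]; positivity
  have hεD : 4 * ε * D = δ / 2 := by rw [hε]; field_simp; ring
  obtain ⟨η, hη⟩ : ∃ η : ℝ, η = min 1 (ε * s₀ ^ 2 / (1 + 2 * D)) := ⟨_, rfl⟩
  have ηpos : 0 < η := by rw [hη]; positivity
  have hsmall : ∀ᶠ q in 𝓝[≠] p, ‖F p - F q‖ < η := by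
    have h1 : Tendsto (fun q => ‖F p - F q‖) (𝓝 p) (𝓝 ‖F p - F p‖) :=
      (tendsto_const_nhds.sub hF.cont.tendsto).norm
    rw [sub_self, norm_zero] at h1
    exact (h1.eventually (gt_mem_nhds ηpos)).filter_mono nhdsWithin_le_nhds
  filter_upwards [hshort, hzero, hsmall] with q h1 h2 h3 y r hdel
  have hqZ : q ∉ Φ.Z := h2.left
  have hr : r ≤ D := hD q hqZ y r hdel.1
  have hy : ‖y‖ < r := by
    have := hdel.1.1
    rw [Metric.mem_ball, dist_eq_norm, zero_sub, norm_neg] at this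
    exact this
  have hout : r ≤ ‖(F p - F q) - y‖ := by
    have := hdel.1.2 (F p - F q) ⟨p, h2⟩
    rwa [Metric.mem_ball, not_lt, dist_eq_norm] at this
  have hz1 : ‖F p - F q‖ ≤ 1 := by
    refine h3.le.trans ?_
    rw [hη]
    exact min_le_left _ _
  have hz2 : ‖F p - F q‖ * (1 + 2 * D) ≤ ε * s₀ ^ 2 := by
    have h4 : ‖F p - F q‖ ≤ ε * s₀ ^ 2 / (1 + 2 * D) := by
      refine h3.le.trans ?_
      rw [hη]
      exact min_le_right _ _
    rwa [le_div_iff₀ (by positivity)] at h4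
  have hP : r ^ 2 - ‖y‖ ^ 2 ≤ ε * s₀ ^ 2 := by
    have h4 : r ≤ ‖F p - F q‖ + ‖y‖ := hout.trans (norm_sub_le _ _)
    have h5 : r ^ 2 ≤ (‖F p - F q‖ + ‖y‖) ^ 2 :=
      pow_le_pow_left₀ ((norm_nonneg y).trans hy.le) h4 2
    have h6 : ‖F p - F q‖ * ‖F p - F q‖ ≤ ‖F p - F q‖ * 1 :=
      mul_le_mul_of_nonneg_left hz1 (norm_nonneg _)
    have h7 : ‖F p - F q‖ * ‖y‖ ≤ ‖F p - F q‖ * D :=
      mul_le_mul_of_nonneg_left (hy.le.trans hr) (norm_nonneg _)
    have h8 : (‖F p - F q‖ + ‖y‖) ^ 2 =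
        ‖F p - F q‖ * ‖F p - F q‖ + 2 * (‖F p - F q‖ * ‖y‖) + ‖y‖ ^ 2 := by ring
    have h9 : ‖F p - F q‖ * (1 + 2 * D) = ‖F p - F q‖ * 1 + 2 * (‖F p - F q‖ * D) := by ring
    linarith
  have hfin : (Φ.S q y r).Finite := Φ.S_finite q y r
  have hconv := hdel.conv hqZ
  rw [← hfin.coe_toFinset, Finset.mem_convexHull'] at hconv
  obtain ⟨w, hw0, hw1, hw2⟩ := hconv
  have hmem : ∀ i ∈ hfin.toFinset, i ∈ Φ.S q y r := fun i hi => hfin.mem_toFinset.mp hi
  obtain ⟨k, hk, hkn⟩ := short_of_power hfin.toFinset w (fun i => i) hw0 hw1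
    (by
      rw [← hw2]
      exact Finset.sum_congr rfl fun i _ => (Complex.real_smul).symm)
    (fun i hi => by
      have := (hmem i hi).2
      rwa [Metric.mem_sphere, dist_eq_norm] at this)
    (fun i hi j hj hij => hs₀ _ (Flat.chord hqZ hdel.1 (hmem j hj) (hmem i hi) (Ne.symm hij)))
    s₀pos hP
  have hkS := hmem k hk
  obtain ⟨p', hp'⟩ := hkS.1
  have hkd : ‖k‖ < δ := by
    have h4 : 4 * ε * r ≤ 4 * ε * D := mul_le_mul_of_nonneg_left hr (by positivity)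
    have h5 : ‖k‖ ≤ 4 * ε * r := hkn
    linarith
  obtain ⟨he, -⟩ := h1 k p' hp' hkd
  rw [← he]
  exact hkS

end H37abf
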