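import Pool.Agent.H.MP_abf1f1_an.DelConv

/-! MP_abf1f1_an, module A: existence and convexity property of Delaunay discs. -/

set_option autoImplicit false

open scoped Topology
open Set Filter Metric

namespace H37abf

variable {X : Type} [TopologicalSpace X] [T2Space X] [CompactSpace X] {Φ : Flat X}

/-- PROOF. `0` is a convex combination `∑ l i • s i` of points of `S = S x y r` with `l i > 0`
(`Del.conv`). For `v ∈ Vis x`: `|v| ^ 2 - 2 ⟪v, y'⟫ ≥ P` where `P = r' ^ 2 - |y'| ^ 2 = r ^ 2 - |y| ^ 2`, with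
equality iff `v ∈ S' = S x y' r'`. For `s i`: `|s i| ^ 2 - 2 ⟪s i, y⟫ = P`, so `⟪s i, y' - y⟫ ≤ 0`, and
`∑ l i ⟪s i, y' - y⟫ = 0`, so `⟪s i, y' - y⟫ = 0` and `s i ∈ S'`. So `0` is in the convex hull of
`S ∩ S'`. As `0 ∉ S` (`0` is in the open ball, `S` on the sphere) it has at least two elements. -/
theorem Flat.Del.share {x : X} (hx : x ∉ Φ.Z) {y y' : ℂ} {r r' : ℝ} (h : Φ.Del x y r)
    (h' : Φ.Del x y' r') : ∃ s ∈ Φ.S x y r ∩ Φ.S x y' r', ∃ s' ∈ Φ.S x y r ∩ Φ.S x y' r',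
      s ≠ s' := by
  classical
  have hconv := h.conv hx
  have hP : r ^ 2 - ‖y‖ ^ 2 = r' ^ 2 - ‖y'‖ ^ 2 := le_antisymm (h'.2 y r h.1) (h.2 y' r' h'.1)
  obtain ⟨hyr, -⟩ := h.1.pow_pos
  obtain ⟨hyr', -⟩ := h'.1.pow_pos
  have hr0 : 0 < r := (norm_nonneg y).trans_lt hyr
  have hr0' : 0 < r' := (norm_nonneg y').trans_lt hyr'
  -- the sign of the functional on `S`
  have hS : ∀ v ∈ Φ.S x y r, v.re * (y' - y).re + v.im * (y' - y).im ≤ 0 ∧
      (v.re * (y' - y).re + v.im * (y' - y).im = 0 → v ∈ Φ.S x y' r') := by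
    rintro v ⟨hv, hvs⟩
    rw [mem_sphere, dist_eq_norm] at hvs
    have h1 := DelConv_norm_sub_sq v y
    have h2 := DelConv_norm_sub_sq v y'
    rw [hvs] at h1
    have h3 : r' ≤ ‖v - y'‖ := by
      have := h'.1.2 v hv
      rwa [mem_ball, not_lt, dist_eq_norm] at this
    have h4 : r' ^ 2 ≤ ‖v - y'‖ ^ 2 := pow_le_pow_left₀ hr0'.le h3 2
    rw [Complex.sub_re, Complex.sub_im]
    refine ⟨by nlinarith, fun h0 => ⟨hv, ?_⟩⟩
    rw [mem_sphere, dist_eq_norm]
    have h5 : ‖v - y'‖ ^ 2 = r' ^ 2 := by nlinarith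
    exact (sq_eq_sq₀ (norm_nonneg _) hr0'.le).mp h5
  have h0S : (0 : ℂ) ∉ Φ.S x y r := by
    rintro ⟨-, hs⟩
    rw [mem_sphere, dist_eq_norm, zero_sub, norm_neg] at hs
    linarith
  rw [_root_.convexHull_eq] at hconv
  obtain ⟨ι, t, w, z, hw, hw1, hz, hc⟩ := hconv
  rw [Finset.centerMass_eq_of_sum_1 _ _ hw1] at hc
  have hsum : ∑ i ∈ t, w i * ((z i).re * (y' - y).re + (z i).im * (y' - y).im) = 0 := by
    have hre : ∑ i ∈ t, w i * (z i).re = 0 := by
      have := congrArg Complex.re hc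
      simpa [Complex.re_sum] using this
    have him : ∑ i ∈ t, w i * (z i).im = 0 := by
      have := congrArg Complex.im hc
      simpa [Complex.im_sum] using this
    calc ∑ i ∈ t, w i * ((z i).re * (y' - y).re + (z i).im * (y' - y).im)
        = (∑ i ∈ t, w i * (z i).re) * (y' - y).re + (∑ i ∈ t, w i * (z i).im) * (y' - y).im := by
          rw [Finset.sum_mul, Finset.sum_mul, ← Finset.sum_add_distrib]
          exact Finset.sum_congr rfl fun i _ => by ring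
      _ = 0 := by rw [hre, him]; ring
  have hzero : ∀ i ∈ t, w i * ((z i).re * (y' - y).re + (z i).im * (y' - y).im) = 0 :=
    (Finset.sum_eq_zero_iff_of_nonpos fun i hi =>
      mul_nonpos_of_nonneg_of_nonpos (hw i hi) (hS _ (hz i hi)).1).mp hsum
  have hmem : ∀ i ∈ t, 0 < w i → z i ∈ Φ.S x y r ∩ Φ.S x y' r' := by
    intro i hi hwi
    refine ⟨hz i hi, (hS _ (hz i hi)).2 ?_⟩
    rcases mul_eq_zero.mp (hzero i hi) with h1 | h1
    · exact absurd h1 hwi.ne'
    · exact h1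
  obtain ⟨i, hi, hwi⟩ : ∃ i ∈ t, 0 < w i := by
    by_contra hcon
    push Not at hcon
    have : ∑ i ∈ t, w i ≤ 0 := Finset.sum_nonpos hcon
    linarith
  refine ⟨z i, hmem i hi hwi, ?_⟩
  by_contra hcon
  push Not at hcon
  have hall : ∀ j ∈ t, w j • z j = w j • z i := by
    intro j hj
    rcases (hw j hj).eq_or_lt with h1 | h1
    · rw [← h1, zero_smul, zero_smul]
    · rw [← hcon (z j) (hmem j hj h1)]
  rw [Finset.sum_congr rfl hall, ← Finset.sum_smul, hw1, one_smul] at hc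
  exact h0S (hc ▸ hz i hi)

end H37abf
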