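import Pool.Agent.H.MP_abf1f1_an.Cont2

/-! MP_abf1f1_an, module A: points near a cone point. -/

set_option autoImplicit false

open scoped Topology
open Set Filter Metric

namespace H37abf

variable {X : Type} [TopologicalSpace X] [T2Space X] [CompactSpace X] {Φ : Flat X}

omit [T2Space X] [CompactSpace X] in
/-- Near `p` a trap at `p` is available whose primitive differs from `F` by a constant. -/
theorem Near_trap {p : X} {F : X → ℂ} (hF : Φ.P p F) (T : Φ.Trap p) :
    ∀ᶠ q in 𝓝[≠] p, q ∈ T.V ∧ q ≠ p ∧ T.F p - T.F q = F p - F q := by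
  have hpK : p ∈ T.K := T.hVK (mem_of_mem_nhds T.hV)
  have h1 := Φ.sub p F T.F hF (T.prim p hpK)
  filter_upwards [mem_nhdsWithin_of_mem_nhds T.hV, mem_nhdsWithin_of_mem_nhds h1,
    self_mem_nhdsWithin] with q h2 h3 h4
  refine ⟨h2, h4, ?_⟩
  have h5 : F q - T.F q = F p - T.F p := h3
  linear_combination h5

/-- Cone points which are seen from `q` near `p` at a short distance: only `p`, with the vector
`F p - F q`. -/
theorem Flat.near_short {p : X} {F : X → ℂ} (hF : Φ.P p F) : ∃ δ : ℝ, 0 < δ ∧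
    ∀ᶠ q in 𝓝[≠] p, ∀ v p', Φ.See q v p' → ‖v‖ < δ → v = F p - F q ∧ p' = p := by
  obtain ⟨T, -⟩ := Φ.exists_trap p (W := univ) univ_mem
  refine ⟨T.δ, T.δpos, ?_⟩
  filter_upwards [Near_trap hF T] with q hq v p' hsee hv
  obtain ⟨hqV, hqp, hqF⟩ := hq
  obtain ⟨γ, hstr, h0, h1, hpZ, -⟩ := hsee
  obtain ⟨hK, hval⟩ := T.trap γ v 0 1 zero_le_one hstr (by rw [h0]; exact hqV)
    (by rw [sub_zero, mul_one]; exact hv) 1 (right_mem_Icc.2 zero_le_one)
  rw [h1] at hK hval
  rw [h0] at hval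
  have hpp : p' = p := by
    by_contra hne
    exact (T.iso p' hK hne).2 hpZ
  refine ⟨?_, hpp⟩
  rw [hpp] at hval
  rw [← hqF, hval]
  push_cast
  ring

/-- A cone point is seen from all points near it. -/
theorem Flat.near_zero {p : X} (hp : p ∈ Φ.Z) {F : X → ℂ} (hF : Φ.P p F) :
    ∀ᶠ q in 𝓝[≠] p, Φ.See q (F p - F q) p := by
  obtain ⟨T, -⟩ := Φ.exists_trap p (W := univ) univ_mem
  have hc : ∀ᶠ q in 𝓝 p, ‖F p - F q‖ < T.δ := by
    have h1 : Tendsto (fun q => ‖F p - F q‖) (𝓝 p) (𝓝 ‖F p - F p‖) :=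
      (tendsto_const_nhds.sub hF.cont.tendsto).norm
    rw [sub_self, norm_zero] at h1
    exact h1.eventually (gt_mem_nhds T.δpos)
  filter_upwards [Near_trap hF T, mem_nhdsWithin_of_mem_nhds hc] with q hq hqδ
  obtain ⟨hqV, hqp, hqF⟩ := hq
  have hqδ' : ‖F p - F q‖ < T.δ := hqδ
  have hqK := T.hVK hqV
  obtain ⟨hne, hqZ⟩ := T.iso q hqK hqp
  have hv0 : F p - F q ≠ 0 := by
    rw [← hqF]
    exact sub_ne_zero.2 (Ne.symm hne)
  rcases Φ.dom_or_see hqZ (F p - F q) with ⟨y, hy⟩ | ⟨s, hs0, hs1, p', hsee⟩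
  · exfalso
    have hyZ := hy.right
    obtain ⟨γ, hstr, h0, h1, -⟩ := hy
    obtain ⟨hK, hval⟩ := T.trap γ _ 0 1 zero_le_one hstr (by rw [h0]; exact hqV)
      (by rw [sub_zero, mul_one]; exact hqδ') 1 (right_mem_Icc.2 zero_le_one)
    rw [h1] at hK hval
    rw [h0, ← hqF] at hval
    push_cast at hval
    have hyp : y = p := by
      by_contra hyne
      exact (T.iso y hK hyne).1 (by linear_combination hval)
    exact hyZ (hyp ▸ hp)
  · obtain ⟨γ, hstr, h0, h1, hpZ, hav⟩ := hsee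
    have hnorm : ‖(s : ℂ) * (F p - F q)‖ * (1 - 0) < T.δ := by
      rw [sub_zero, mul_one, norm_mul, Complex.norm_real, Real.norm_eq_abs, abs_of_pos hs0]
      exact lt_of_le_of_lt (mul_le_of_le_one_left (norm_nonneg _) hs1) hqδ'
    obtain ⟨hK, hval⟩ := T.trap γ _ 0 1 zero_le_one hstr (by rw [h0]; exact hqV)
      hnorm 1 (right_mem_Icc.2 zero_le_one)
    rw [h1] at hK hval
    rw [h0] at hval
    have hpp : p' = p := by
      by_contra hne'
      exact (T.iso p' hK hne').2 hpZ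
    subst hpp
    rw [hqF] at hval
    have hs : (s : ℂ) = 1 := by
      have h2 : ((s : ℂ) - 1) * (F p' - F q) = 0 := by
        push_cast at hval
        linear_combination -hval
      rcases mul_eq_zero.1 h2 with h3 | h3
      · exact sub_eq_zero.1 h3
      · exact absurd h3 hv0
    rw [hs, one_mul] at hstr
    exact ⟨γ, hstr, h0, h1, hpZ, hav⟩

end H37abf
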