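import Pool.Agent.H.MP_abf1f1_an.Bdry2
import Pool.Agent.H.MP_abf1f1_an.Near

/-! MP_abf1f1_an, module A: the radii of empty discs are bounded. -/

set_option autoImplicit false

open scoped Topology
open Set Filter Metric

namespace H37abf

variable {X : Type} [TopologicalSpace X] [T2Space X] [CompactSpace X] (Φ : Flat X)

/-- The range of a global developing map is open. -/
theorem Diam_open {Φ : Flat X} {x : X} {E : ℂ → X} (h : Φ.Dev x univ E) : IsOpen (range E) := by
  rw [isOpen_iff_mem_nhds]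
  rintro _ ⟨z, rfl⟩
  have hz : E z ∉ Φ.Z := (h.dom z (mem_univ z)).right
  obtain ⟨F, hF⟩ := Φ.ex (E z)
  obtain ⟨ρ, hρ, E', h0, -, hd, he⟩ := Flat.exists_ball hz hF
  filter_upwards [he] with y hy
  have h1 := hd 0 (mem_ball_self hρ) _ hy.1
  rw [h0, hy.2, sub_zero] at h1
  have h2 := h.path (mem_univ z) (mem_univ (z + (F y - F (E z))))
  rw [add_sub_cancel_left] at h2
  exact ⟨_, h2.unique h1⟩

/-- The range of a global developing map is closed in the regular points. -/
theorem Diam_closed {Φ : Flat X} {x : X} {E : ℂ → X} (h : Φ.Dev x univ E) {q : X}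
    (hq : q ∉ Φ.Z) (hc : q ∈ closure (range E)) : q ∈ range E := by
  obtain ⟨F, hF⟩ := Φ.ex q
  obtain ⟨ρ, hρ, E', h0, -, hd, he⟩ := Flat.exists_ball hq hF
  obtain ⟨_, hy, ⟨z, rfl⟩⟩ := mem_closure_iff_nhds.1 hc _ he
  have h1 := hd _ hy.1 0 (mem_ball_self hρ)
  rw [h0, hy.2, zero_sub] at h1
  have h2 := h.path (mem_univ z) (mem_univ (z + -(F (E z) - F q)))
  rw [add_sub_cancel_left] at h2
  exact ⟨_, h2.unique h1⟩

/-- Every regular point sees a cone point.

PROOF. Otherwise there is a developing map `E` of `x` on `B = univ` (`exists_dev`). Let `I = range E`;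
`I ⊆ Zᶜ` (`Dom.right`). `I` is open: near `E z` every point `y'` is `E z'` with `z' = z + (F y' - F (E z))`
(`exists_ball` at `E z`: `y' = E' (F y' - F (E z))`, `Dom (E z) (..) y'`, and `Dom (E z) w (E (z + w))` by
`Dev.path`, `Dom.unique`). `I` is closed in `Zᶜ`: if `q ∉ Z` is in the closure of `I` then by `exists_ball`
at `q` there is `z` with `Dom q w (E z)`, so `Dom (E z) (-w) q` and `q = E (z - w)`. As `Zᶜ` is
preconnected, `I = Zᶜ`. Let `p ∈ Z` (`Φ.zne`): there is `q ≠ p` near `p` (`Φ.nb`) with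
`See q (F p - F q) p` (`near_zero`); `q = E z`, and `Dev.rebase`, `Dev.not_vis` give a contradiction. -/
theorem Flat.vis_nonempty {x : X} (hx : x ∉ Φ.Z) : (Φ.Vis x).Nonempty := by
  by_contra hne
  rw [not_nonempty_iff_eq_empty] at hne
  obtain ⟨E, hE⟩ := Flat.exists_dev hx convex_univ isOpen_univ (mem_univ (0 : ℂ))
    (fun v hv => by rw [hne] at hv; exact absurd hv (notMem_empty v))
  have hsub : Φ.Zᶜ ⊆ range E := by
    refine IsPreconnected.subset_of_closure_inter_subset Φ.conn (Diam_open hE)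
      ⟨x, hx, 0, hE.at_zero⟩ ?_
    rintro q ⟨hc, hq⟩
    exact Diam_closed hE hq hc
  obtain ⟨p, hp⟩ := Φ.zne
  obtain ⟨F, hF⟩ := Φ.ex p
  have := Φ.nb p
  obtain ⟨q, hq⟩ := (Flat.near_zero hp hF).exists
  obtain ⟨z, rfl⟩ := hsub hq.left
  exact (hE.rebase (mem_univ z)).not_vis (v := F p - F (E z)) (mem_univ _) ⟨p, hq⟩

end H37abf
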