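import Pool.Agent.H.MP_abf1f1_an.Diam

/-! MP_abf1f1_an, module A: the radii of empty discs are bounded. -/

set_option autoImplicit false

open scoped Topology
open Set Filter Metric

namespace H37abf

variable {X : Type} [TopologicalSpace X] [T2Space X] [CompactSpace X] (Φ : Flat X)

theorem Flat.Diam2_near (c : X) : ∃ s ∈ 𝓝 c, ∃ D : ℝ, ∀ x ∈ s, x ∉ Φ.Z → ∀ r,
    Φ.Empty x 0 r → r ≤ D := by
  obtain ⟨F, hF⟩ := Φ.ex c
  have hcont : ContinuousAt F c := Flat.P.cont hF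
  have hn : ∀ᶠ x in 𝓝 c, ‖F x - F c‖ < 1 := by
    have h1 : Tendsto (fun x => ‖F x - F c‖) (𝓝 c) (𝓝 0) := by
      have h2 : Tendsto (fun x => F x - F c) (𝓝 c) (𝓝 (F c - F c)) :=
        hcont.tendsto.sub_const _
      rw [sub_self] at h2
      have h3 := h2.norm
      rwa [norm_zero] at h3
    exact h1.eventually_lt_const one_pos
  by_cases hc : c ∈ Φ.Z
  · have h1 : ∀ᶠ q in 𝓝[≠] c, Φ.See q (F c - F q) c := Flat.near_zero hc hF
    rw [eventually_nhdsWithin_iff] at h1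
    refine ⟨{x | ‖F x - F c‖ < 1 ∧ (x ∈ ({c} : Set X)ᶜ → Φ.See x (F c - F x) c)},
      hn.and h1, 1, ?_⟩
    rintro x ⟨hx1, hx2⟩ hxZ r hr
    have hxc : x ∈ ({c} : Set X)ᶜ := by
      intro h
      rw [mem_singleton_iff] at h
      rw [h] at hxZ
      exact hxZ hc
    have h3 := hr.2 _ ⟨c, hx2 hxc⟩
    rw [mem_ball_zero_iff, not_lt, norm_sub_rev] at h3
    linarith
  · obtain ⟨v, hv⟩ := Φ.vis_nonempty hc
    obtain ⟨ρ, hρ, E, hE0, -, hE2, hE3⟩ := Flat.exists_ball hc hF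
    refine ⟨{x | ‖F x - F c‖ < 1 ∧ (F x - F c ∈ ball (0 : ℂ) ρ ∧ E (F x - F c) = x)},
      hn.and hE3, ‖v‖ + 1, ?_⟩
    rintro x ⟨hx1, hx2, hx3⟩ hxZ r hr
    by_contra hcon
    rw [not_le] at hcon
    have hd : Φ.Dom c (F x - F c) x := by
      have := hE2 0 (mem_ball_self hρ) (F x - F c) hx2
      rwa [hE0, hx3, sub_zero] at this
    have hz : -(F x - F c) ∈ ball (0 : ℂ) r := by
      rw [mem_ball_zero_iff, norm_neg]
      have := norm_nonneg v
      linarith
    have he := Flat.Empty.rebase hxZ hr hz hd.symm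
    have h4 := he.2 v hv
    apply h4
    rw [mem_ball, dist_eq_norm, sub_neg_eq_add, zero_add]
    have := norm_sub_le v (F x - F c)
    linarith

/-- PROOF. For every `c ∈ X` we find a neighbourhood `N` and `D` such that `x ∈ N`, `x ∉ Z`,
`Empty x 0 r` imply `r ≤ D`; then compactness gives a uniform `D` for discs centred at `0`. For `c ∈ Z`:
`x` near `c`, `x ≠ c` sees `c` with a vector of norm `≤ 1` (`near_zero`, continuity of `F`), so `r ≤ 1`.
For `c ∉ Z`: let `v ∈ Vis c` (`vis_nonempty`). Let `x` be near `c`, `Dom c ξ x`, `|ξ| < 1`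
(`exists_ball`). If `r > |v| + 1` then the disc of `x` contains `-ξ`, and by `Empty.rebase` (for `x` and
`-ξ`) the disc with centre `ξ` and radius `r` is empty for `c` but contains `v`: contradiction. So
`r ≤ |v| + 1`. For a general empty disc `(y, r)` of `x` let `Dom x y x₀` (`exists_dev`, the centre is in
the ball); then `Empty x₀ 0 r` by `Empty.rebase`. -/
theorem Flat.diam : ∃ D : ℝ, 0 < D ∧ ∀ x, x ∉ Φ.Z → ∀ y r, Φ.Empty x y r → r ≤ D := by
  obtain ⟨D, hD⟩ : ∃ D : ℝ, ∀ x ∈ (univ : Set X), x ∉ Φ.Z → ∀ r, Φ.Empty x 0 r → r ≤ D := by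
    refine IsCompact.induction_on (p := fun s => ∃ D : ℝ, ∀ x ∈ s, x ∉ Φ.Z → ∀ r,
      Φ.Empty x 0 r → r ≤ D) isCompact_univ ?_ ?_ ?_ ?_
    · exact ⟨0, fun x hx => absurd hx (notMem_empty x)⟩
    · rintro s t hst ⟨D, hD⟩
      exact ⟨D, fun x hx => hD x (hst hx)⟩
    · rintro s t ⟨D, hD⟩ ⟨D', hD'⟩
      refine ⟨max D D', fun x hx hxZ r hr => ?_⟩
      rcases hx with hx | hx
      · exact le_trans (hD x hx hxZ r hr) (le_max_left _ _)
      · exact le_trans (hD' x hx hxZ r hr) (le_max_right _ _)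
    · intro x _
      obtain ⟨s, hs, D, hD⟩ := Φ.Diam2_near x
      exact ⟨s, mem_nhdsWithin_of_mem_nhds hs, D, hD⟩
  refine ⟨max D 1, lt_of_lt_of_le one_pos (le_max_right _ _), ?_⟩
  intro x hx y r he
  have hr : 0 < r := by
    have h1 := he.1
    rw [mem_ball] at h1
    exact lt_of_le_of_lt dist_nonneg h1
  obtain ⟨E, hE⟩ := Flat.exists_dev hx (convex_ball y r) isOpen_ball he.1 he.2
  have hd := hE.dom y (mem_ball_self hr)
  have h2 := Flat.Empty.rebase hx he (mem_ball_self hr) hd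
  rw [sub_self] at h2
  exact le_trans (hD (E y) (mem_univ _) hd.right r h2) (le_max_left _ _)

end H37abf
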