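import Pool.Agent.H.MP_abf1f1_an.F1

/-!
# Module F2a: topology of `SL(2,R)`, generation, the chart
-/

namespace H37abf

open MeasureTheory Matrix Filter Topology
open scoped ENNReal

/-- the inclusion into the matrices is a closed embedding -/
theorem f2a_closed : Topology.IsClosedEmbedding
    (fun g : SL2 => (g : Matrix (Fin 2) (Fin 2) ℝ)) := by
  refine ⟨Topology.IsEmbedding.subtypeVal, ?_⟩
  have : Set.range (fun g : SL2 => (g : Matrix (Fin 2) (Fin 2) ℝ)) =
      {M : Matrix (Fin 2) (Fin 2) ℝ | M.det = 1} := by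
    ext M
    constructor
    · rintro ⟨g, rfl⟩
      exact g.2
    · intro h
      exact ⟨⟨M, h⟩, rfl⟩
  rw [this]
  exact isClosed_eq (Continuous.matrix_det continuous_id) continuous_const

/-- closed embedding into the matrices -/
instance instT2SL2 : T2Space SL2 :=
  f2a_closed.isEmbedding.t2Space

instance instSecondCountableSL2 : SecondCountableTopology SL2 := by
  have : SecondCountableTopology (Matrix (Fin 2) (Fin 2) ℝ) :=
    inferInstanceAs (SecondCountableTopology (Fin 2 → Fin 2 → ℝ))
  exact f2a_closed.isEmbedding.secondCountableTopology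

instance instLocallyCompactSL2 : LocallyCompactSpace SL2 := by
  have : LocallyCompactSpace (Matrix (Fin 2) (Fin 2) ℝ) :=
    inferInstanceAs (LocallyCompactSpace (Fin 2 → Fin 2 → ℝ))
  exact f2a_closed.locallyCompactSpace

/-- closed subset of a Polish space -/
instance instPolishSL2 : PolishSpace SL2 := by
  have : PolishSpace (Matrix (Fin 2) (Fin 2) ℝ) :=
    inferInstanceAs (PolishSpace (Fin 2 → Fin 2 → ℝ))
  exact f2a_closed.polishSpace

/-- the unipotent subgroups generate the matrices with nonzero lower left entry -/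
theorem f2a_eq (g : SL2) (h : g.1 1 0 ≠ 0) :
    g = nn ((g.1 0 0 - 1) / g.1 1 0) * (hh (g.1 1 0) * nn ((g.1 1 1 - 1) / g.1 1 0)) := by
  have hd : g.1 0 0 * g.1 1 1 - g.1 0 1 * g.1 1 0 = 1 := by
    have := g.2
    rwa [Matrix.det_fin_two] at this
  have hd' : g.1 0 1 = (g.1 0 0 * g.1 1 1 - 1) / g.1 1 0 := by
    rw [eq_div_iff h]
    linarith
  apply Subtype.ext
  ext i j
  fin_cases i <;> fin_cases j
  · simp [coe_hh, coe_nn, Matrix.mul_apply, Fin.sum_univ_two]
    field_simp
    ring
  · simp [coe_hh, coe_nn, Matrix.mul_apply, Fin.sum_univ_two]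
    rw [hd']
    field_simp
    ring
  · simp [coe_hh, coe_nn, Matrix.mul_apply, Fin.sum_univ_two]
  · simp [coe_hh, coe_nn, Matrix.mul_apply, Fin.sum_univ_two]
    field_simp
    ring

/-- `SL(2,R)` is generated by the two unipotent subgroups. -/
theorem SL2_induction {P : SL2 → Prop} (h1 : ∀ s, P (hh s)) (h2 : ∀ t, P (nn t))
    (hm : ∀ g g', P g → P g' → P (g * g')) (g : SL2) : P g := by
  have key : ∀ g : SL2, g.1 1 0 ≠ 0 → P g := by
    intro g h
    rw [f2a_eq g h]
    exact hm _ _ (h2 _) (hm _ _ (h1 _) (h2 _))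
  by_cases h : g.1 1 0 = 0
  · have hd : g.1 0 0 * g.1 1 1 = 1 := by
      have := g.2
      rw [Matrix.det_fin_two, h, mul_zero, sub_zero] at this
      exact this
    have h0 : g.1 0 0 ≠ 0 := by
      intro h0
      rw [h0, zero_mul] at hd
      exact zero_ne_one hd
    have e : g = hh (-1) * (hh 1 * g) := by
      rw [← mul_assoc, ← hh_add]
      have : hh (-1 + 1) = 1 := by
        apply Subtype.ext
        ext i j
        fin_cases i <;> fin_cases j <;> simp [coe_hh]
      rw [this, one_mul]
    rw [e]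
    refine hm _ _ (h1 _) (key _ ?_)
    have : (hh 1 * g).1 1 0 = g.1 0 0 := by
      show ((hh 1 : Matrix (Fin 2) (Fin 2) ℝ) * g.1) 1 0 = _
      simp [coe_hh, Matrix.mul_apply, Fin.sum_univ_two, h]
    rw [this]
    exact h0
  · exact key g h

theorem continuous_hh : Continuous hh := by
  refine Continuous.subtype_mk ?_ _
  refine continuous_matrix fun i j => ?_
  fin_cases i <;> fin_cases j
  · exact continuous_const
  · exact continuous_const
  · exact continuous_id
  · exact continuous_const

theorem continuous_nn : Continuous nn := by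
  refine Continuous.subtype_mk ?_ _
  refine continuous_matrix fun i j => ?_
  fin_cases i <;> fin_cases j
  · exact continuous_const
  · exact continuous_id
  · exact continuous_const
  · exact continuous_const

theorem continuousOn_pp : ContinuousOn (fun q : ℝ × ℝ => pp q.1 q.2) {q | q.1 ≠ 0} := by
  rw [f2a_closed.isEmbedding.isInducing.continuousOn_iff]
  have hm : ContinuousOn (fun q : ℝ × ℝ => (!![q.1, q.2; 0, q.1⁻¹] : Matrix (Fin 2) (Fin 2) ℝ))
      {q | q.1 ≠ 0} := by
    refine continuousOn_pi.2 fun i => continuousOn_pi.2 fun j => ?_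
    fin_cases i <;> fin_cases j
    · exact continuous_fst.continuousOn
    · exact continuous_snd.continuousOn
    · exact continuousOn_const
    · exact continuous_fst.continuousOn.inv₀ fun q hq => hq
  refine hm.congr fun q hq => ?_
  exact coe_pp hq q.2

theorem continuousOn_Phi : ContinuousOn Phi {q : ℝ × ℝ × ℝ | q.2.1 ≠ 0} := by
  refine ContinuousOn.mul (continuous_hh.comp continuous_fst).continuousOn ?_
  exact continuousOn_pp.comp continuous_snd.continuousOn fun q hq => hq

/-- the chart is measurable -/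
theorem measurable_Phi : Measurable Phi := by
  have ho : IsOpen {q : ℝ × ℝ × ℝ | q.2.1 ≠ 0} :=
    isOpen_ne_fun (continuous_fst.comp continuous_snd) continuous_const
  refine measurable_of_isOpen fun V hV => ?_
  have e : Phi ⁻¹' V = (Phi ⁻¹' V ∩ {q : ℝ × ℝ × ℝ | q.2.1 ≠ 0}) ∪
      ((fun q : ℝ × ℝ × ℝ => hh q.1) ⁻¹' V ∩ {q : ℝ × ℝ × ℝ | q.2.1 ≠ 0}ᶜ) := by
    ext q
    by_cases hq : q.2.1 = 0
    · have h1 : Phi q = hh q.1 := by
        simp [Phi, pp, hq]
      simp [hq, h1]
    · simp [hq]
  rw [e]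
  refine MeasurableSet.union ?_ ?_
  · have h2 := continuousOn_Phi.isOpen_inter_preimage ho hV
    rw [Set.inter_comm] at h2
    exact h2.measurableSet
  · exact ((hV.preimage (continuous_hh.comp continuous_fst)).measurableSet).inter
      ho.measurableSet.compl

theorem Phi_inj {q q' : ℝ × ℝ × ℝ} (h : q.2.1 ≠ 0) (h' : q'.2.1 ≠ 0) (e : Phi q = Phi q') :
    q = q' := by
  have e1 : (Phi q : Matrix (Fin 2) (Fin 2) ℝ) = Phi q' := congrArg _ e
  rw [coe_Phi h, coe_Phi h'] at e1
  have e00 := congrFun (congrFun e1 0) 0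
  have e01 := congrFun (congrFun e1 0) 1
  have e10 := congrFun (congrFun e1 1) 0
  simp at e00 e01 e10
  obtain ⟨u, a, b⟩ := q
  obtain ⟨u', a', b'⟩ := q'
  simp only at e00 e01 e10 h h'
  subst e00 e01
  have : u = u' := mul_right_cancel₀ h e10
  rw [this]

/-- the inverse chart -/
theorem Phi_chart (g : SL2) (h : g.1 0 0 ≠ 0) : Phi (g.1 1 0 / g.1 0 0, g.1 0 0, g.1 0 1) = g := by
  have hd : g.1 0 0 * g.1 1 1 - g.1 0 1 * g.1 1 0 = 1 := by
    have := g.2
    rwa [Matrix.det_fin_two] at this
  apply Subtype.ext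
  have e1 := coe_Phi (q := (g.1 1 0 / g.1 0 0, g.1 0 0, g.1 0 1)) h
  refine e1.trans ?_
  ext i j
  fin_cases i <;> fin_cases j
  · simp
  · simp
  · simp
    field_simp
  · simp
    field_simp
    linarith

end H37abf
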