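import Pool.Agent.H.MP_abf1f1_an.F2a

/-!
# Module F2b1: left and right translation by the lower unipotent group
-/

namespace H37abf

open MeasureTheory Matrix Filter Topology
open scoped ENNReal Pointwise

/-- Almost every `q` has `q.2.1 ≠ 0`. -/
theorem ae_ne_zero : ∀ᵐ q : ℝ × ℝ × ℝ, q.2.1 ≠ 0 := by
  have h0 : ∀ᵐ x : ℝ, x ≠ 0 := by
    rw [ae_iff]
    have : {a : ℝ | ¬a ≠ 0} = {0} := by
      ext a
      simp
    rw [this]
    exact measure_singleton 0
  have h1 : ∀ᵐ p : ℝ × ℝ, p.1 ≠ 0 := Measure.quasiMeasurePreserving_fst.ae h0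
  exact Measure.quasiMeasurePreserving_snd.ae h1

/-- `Phi (s + u, a, b) = hh s * Phi (u, a, b)` and the translation is measure preserving. -/
theorem muG_left_hh (s : ℝ) : Measure.map (fun g => hh s * g) muG = muG := by
  have hm : Measurable fun g : SL2 => hh s * g := (continuous_const.mul continuous_id).measurable
  have hT : MeasurePreserving (fun q : ℝ × ℝ × ℝ => (s + q.1, q.2)) volume volume :=
    (measurePreserving_add_left volume s).prod (MeasurePreserving.id volume)
  unfold muG
  rw [Measure.map_map hm measurable_Phi]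
  have e : (fun g => hh s * g) ∘ Phi = Phi ∘ fun q : ℝ × ℝ × ℝ => (s + q.1, q.2) := by
    funext q
    show hh s * (hh q.1 * pp q.2.1 q.2.2) = hh (s + q.1) * pp q.2.1 q.2.2
    rw [hh_add, mul_assoc]
  rw [e, ← Measure.map_map measurable_Phi hT.measurable, hT.map_eq]

/-- skew translations are measure preserving -/
theorem f2b1_skew {α : Type*} [MeasureSpace α] [SFinite (volume : Measure α)] {c : α → ℝ}
    (hc : Measurable c) : MeasurePreserving (fun p : ℝ × α => (p.1 + c p.2, p.2))
      ((volume : Measure ℝ).prod (volume : Measure α)) ((volume : Measure ℝ).prod volume) := by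
  have h1 : MeasurePreserving (fun p : α × ℝ => (p.1, p.2 + c p.1))
      ((volume : Measure α).prod (volume : Measure ℝ)) ((volume : Measure α).prod volume) := by
    refine (MeasurePreserving.id (volume : Measure α)).skew_product (g := fun a x => x + c a) ?_ ?_
    · exact measurable_snd.add (hc.comp measurable_fst)
    · exact ae_of_all _ fun a => map_add_right_eq_self volume (c a)
  exact Measure.measurePreserving_swap.comp (h1.comp Measure.measurePreserving_swap)

/-- the formula for the right translation -/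
theorem f2b1_mul (s : ℝ) {q : ℝ × ℝ × ℝ} (h : q.2.1 ≠ 0) (h' : q.2.1 + s * q.2.2 ≠ 0) :
    Phi q * hh s = Phi (q.1 + s / ((q.2.1 + s * q.2.2 - s * q.2.2) * (q.2.1 + s * q.2.2)),
      q.2.1 + s * q.2.2, q.2.2) := by
  obtain ⟨u, a, b⟩ := q
  simp only at h h' ⊢
  rw [add_sub_cancel_right]
  apply Subtype.ext
  have e1 := coe_Phi (q := (u + s / (a * (a + s * b)), a + s * b, b)) h'
  have e2 := coe_Phi (q := (u, a, b)) h
  simp only at e1 e2
  show (Phi (u, a, b) : Matrix (Fin 2) (Fin 2) ℝ) * (hh s : Matrix (Fin 2) (Fin 2) ℝ) = _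
  refine Eq.trans ?_ e1.symm
  rw [e2, coe_hh]
  ext i j
  fin_cases i <;> fin_cases j
  · simp [Matrix.mul_apply, Fin.sum_univ_two, mul_comm]
  · simp [Matrix.mul_apply, Fin.sum_univ_two]
  · simp [Matrix.mul_apply, Fin.sum_univ_two]
    obtain ⟨a', ha'⟩ : ∃ a', a' = a + s * b := ⟨_, rfl⟩
    rw [← ha'] at h' ⊢
    field_simp
    rw [ha']
    ring
  · simp [Matrix.mul_apply, Fin.sum_univ_two]
    obtain ⟨a', ha'⟩ : ∃ a', a' = a + s * b := ⟨_, rfl⟩
    rw [← ha'] at h' ⊢
    field_simp
    rw [ha']
    ring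

/-- The measure is invariant under right translations by the lower unipotent group. -/
theorem muG_right_hh (s : ℝ) : Measure.map (fun g => g * hh s) muG = muG := by
  have hm : Measurable fun g : SL2 => g * hh s := (continuous_id.mul continuous_const).measurable
  have hT1 : MeasurePreserving (fun q : ℝ × ℝ × ℝ => (q.1, (q.2.1 + s * q.2.2, q.2.2)))
      volume volume :=
    (MeasurePreserving.id volume).prod (f2b1_skew (c := fun b : ℝ => s * b)
      (measurable_const.mul measurable_id))
  have hT2 : MeasurePreserving (fun q : ℝ × ℝ × ℝ =>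
      (q.1 + s / ((q.2.1 - s * q.2.2) * q.2.1), q.2)) volume volume :=
    f2b1_skew (c := fun p : ℝ × ℝ => s / ((p.1 - s * p.2) * p.1))
      (measurable_const.div ((measurable_fst.sub (measurable_const.mul measurable_snd)).mul
        measurable_fst))
  have hT := hT2.comp hT1
  unfold muG
  rw [Measure.map_map hm measurable_Phi]
  have e : (fun g => g * hh s) ∘ Phi =ᵐ[volume] Phi ∘ ((fun q : ℝ × ℝ × ℝ =>
      (q.1 + s / ((q.2.1 - s * q.2.2) * q.2.1), q.2)) ∘
      fun q : ℝ × ℝ × ℝ => (q.1, (q.2.1 + s * q.2.2, q.2.2))) := by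
    filter_upwards [ae_ne_zero, hT1.quasiMeasurePreserving.ae ae_ne_zero] with q h1 h2
    exact f2b1_mul s h1 h2
  rw [Measure.map_congr e, ← Measure.map_map measurable_Phi hT.measurable, hT.map_eq]

end H37abf
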