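import Pool.Agent.H.MP_abf1f1_an.F2a

/-!
# Module F2b2: transposition preserves muG
-/

namespace H37abf

open MeasureTheory Matrix Filter Topology
open scoped ENNReal Pointwise

/-- transposition -/
def tr (g : SL2) : SL2 := g.transpose

theorem f2b2_coe (g : SL2) : (tr g : Matrix (Fin 2) (Fin 2) ℝ) = (g : Matrix (Fin 2) (Fin 2) ℝ).transpose :=
  rfl

theorem tr_mul (g g' : SL2) : tr (g * g') = tr g' * tr g := by
  exact Subtype.ext (Matrix.transpose_mul (g : Matrix (Fin 2) (Fin 2) ℝ) (g' : Matrix (Fin 2) (Fin 2) ℝ))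

theorem tr_tr (g : SL2) : tr (tr g) = g := by
  apply Subtype.ext
  show ((g : Matrix (Fin 2) (Fin 2) ℝ).transpose).transpose = _
  exact Matrix.transpose_transpose _

theorem continuous_tr : Continuous tr := by
  refine Continuous.subtype_mk ?_ _
  exact Continuous.matrix_transpose continuous_subtype_val

theorem tr_hh (s : ℝ) : tr (hh s) = nn s := by
  apply Subtype.ext
  rw [f2b2_coe, coe_nn, coe_hh]
  ext i j
  fin_cases i <;> fin_cases j <;> simp

theorem tr_nn (s : ℝ) : tr (nn s) = hh s := by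
  rw [← tr_hh, tr_tr]

/-- the map in the coordinates -/
noncomputable def f2b2_T (q : ℝ × ℝ × ℝ) : ℝ × ℝ × ℝ := (q.2.2 / q.2.1, q.2.1, q.1 * q.2.1)

theorem f2b2_measT : Measurable f2b2_T := by
  unfold f2b2_T
  fun_prop

theorem f2b2_trPhi {q : ℝ × ℝ × ℝ} (h : q.2.1 ≠ 0) : tr (Phi q) = Phi (f2b2_T q) := by
  apply Subtype.ext
  rw [f2b2_coe, coe_Phi h, coe_Phi (q := f2b2_T q) h]
  unfold f2b2_T
  ext i j
  fin_cases i <;> fin_cases j
  · simp
  · simp
  · simp
    field_simp
  · simp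
    field_simp

theorem f2b2_fibre (a : ℝ) (h : a ≠ 0) :
    Measure.map (fun q : ℝ × ℝ => (q.2 / a, q.1 * a)) ((volume : Measure ℝ).prod volume) =
      (volume : Measure ℝ).prod volume := by
  have e : (fun q : ℝ × ℝ => (q.2 / a, q.1 * a)) =
      (Prod.map (fun x : ℝ => x / a) (fun x : ℝ => x * a)) ∘ Prod.swap := rfl
  have m1 : Measurable (fun x : ℝ => x / a) := by fun_prop
  have m2 : Measurable (fun x : ℝ => x * a) := by fun_prop
  rw [e, ← Measure.map_map (m1.prodMap m2) measurable_swap, Measure.prod_swap,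
    ← Measure.map_prod_map _ _ m1 m2]
  have h1 : Measure.map (fun x : ℝ => x / a) volume = ENNReal.ofReal |a| • volume := by
    have := Real.map_volume_mul_right (a := a⁻¹) (inv_ne_zero h)
    rw [inv_inv] at this
    simpa only [div_eq_mul_inv] using this
  have h2 : Measure.map (fun x : ℝ => x * a) volume = ENNReal.ofReal |a⁻¹| • volume :=
    Real.map_volume_mul_right h
  rw [h1, h2, Measure.prod_smul_left, Measure.prod_smul_right, smul_smul,
    ← ENNReal.ofReal_mul (abs_nonneg _), ← abs_mul, mul_inv_cancel₀ h, abs_one, ENNReal.ofReal_one, one_smul]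

/-- `(u,a,b) ↦ (a,u,b)` -/
def f2b2_e (q : ℝ × ℝ × ℝ) : ℝ × ℝ × ℝ := (q.2.1, q.1, q.2.2)

theorem f2b2_pe : MeasurePreserving f2b2_e volume volume := by
  have h1 : MeasurePreserving (MeasurableEquiv.prodAssoc : (ℝ × ℝ) × ℝ ≃ᵐ ℝ × ℝ × ℝ)
      ((volume.prod volume).prod volume) (volume.prod (volume.prod volume)) :=
    measurePreserving_prodAssoc volume volume volume
  have h2 : MeasurePreserving (Prod.map (Prod.swap : ℝ × ℝ → ℝ × ℝ) (id : ℝ → ℝ))
      ((volume.prod volume).prod volume) ((volume.prod volume).prod volume) :=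
    (Measure.measurePreserving_swap).prod (MeasurePreserving.id _)
  have h3 := (h1.comp h2).comp h1.symm
  exact h3

theorem f2b2_pT : MeasurePreserving f2b2_T volume volume := by
  have hs : MeasurePreserving (fun p : ℝ × ℝ × ℝ => (p.1, (p.2.2 / p.1, p.2.1 * p.1)))
      ((volume : Measure ℝ).prod ((volume : Measure ℝ).prod volume))
      ((volume : Measure ℝ).prod ((volume : Measure ℝ).prod volume)) := by
    refine MeasurePreserving.skew_product (f := id) (g := fun a (q : ℝ × ℝ) => (q.2 / a, q.1 * a))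
      (MeasurePreserving.id _) ?_ ?_
    · show Measurable (fun p : ℝ × ℝ × ℝ => (p.2.2 / p.1, p.2.1 * p.1))
      fun_prop
    · have : ∀ᵐ x : ℝ, x ≠ 0 := by
        simp [ae_iff]
      filter_upwards [this] with x hx
      exact f2b2_fibre x hx
  have := (f2b2_pe.comp hs).comp f2b2_pe
  exact this

/-- For `a ≠ 0`: `tr (Phi (u,a,b)) = Phi (b / a, a, u * a)`, and `(u,a,b) ↦ (b / a, a, u * a)` preserves the measure: for
fixed `a ≠ 0` the map `(u,b) ↦ (b / a, u * a)` is linear with determinant `-1` (skew product, or Tonelli and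
`lintegral` scaling `∫⁻ f (a x) dx = |a|⁻¹ ∫⁻ f`). -/
theorem muG_tr : Measure.map tr muG = muG := by
  have hae : ∀ᵐ q : ℝ × ℝ × ℝ, q.2.1 ≠ 0 := by
    have h1 : ∀ᵐ x : ℝ, x ≠ 0 := by
      simp [ae_iff]
    have h0 : ∀ᵐ q : ℝ × ℝ × ℝ, q.1 ≠ 0 := Measure.quasiMeasurePreserving_fst.ae h1
    have h2 : ∀ᵐ q : ℝ × ℝ × ℝ, (f2b2_e q).1 ≠ 0 :=
      f2b2_pe.quasiMeasurePreserving.ae (p := fun q : ℝ × ℝ × ℝ => q.1 ≠ 0) h0
    exact h2
  unfold muG
  rw [Measure.map_map continuous_tr.measurable measurable_Phi]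
  have e1 : Measure.map (tr ∘ Phi) (volume : Measure (ℝ × ℝ × ℝ)) = Measure.map (Phi ∘ f2b2_T) volume := by
    refine Measure.map_congr ?_
    filter_upwards [hae] with q hq
    exact f2b2_trPhi hq
  rw [e1, ← Measure.map_map measurable_Phi f2b2_measT, f2b2_pT.map_eq]

end H37abf
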