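import Pool.Agent.H.MP_abf1f1_an.F2b1
import Pool.Agent.H.MP_abf1f1_an.F2b2

/-!
# Module F2b3: muG is a two-sided invariant Haar measure
-/

namespace H37abf

open MeasureTheory Matrix Filter Topology
open scoped ENNReal Pointwise

theorem f2b3_comp {f g : SL2 → SL2} (hf : Continuous f) (hg : Continuous g)
    (h1 : Measure.map f muG = muG) (h2 : Measure.map g muG = muG) :
    Measure.map (fun x => f (g x)) muG = muG := by
  have h := Measure.map_map (μ := muG) hf.measurable hg.measurable
  rw [h2, h1] at h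
  exact h.symm

theorem f2b3_left (g : SL2) : Measure.map (fun x => g * x) muG = muG := by
  refine SL2_induction (P := fun g => Measure.map (fun x => g * x) muG = muG) muG_left_hh ?_ ?_ g
  · intro t
    have h1 := f2b3_comp (f := fun x => x * hh t) (g := tr) (continuous_mul_const _) continuous_tr
      (muG_right_hh t) muG_tr
    have h2 := f2b3_comp (f := tr) (g := fun x => tr x * hh t) continuous_tr
      (continuous_tr.mul continuous_const) muG_tr h1
    have e : (fun x => nn t * x) = fun x => tr (tr x * hh t) := by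
      funext x
      rw [tr_mul, tr_hh, tr_tr]
    rw [e]
    exact h2
  · intro g g' h h'
    have h2 := f2b3_comp (f := fun x => g * x) (g := fun x => g' * x) (continuous_const_mul _)
      (continuous_const_mul _) h h'
    have e : (fun x => g * g' * x) = fun x => g * (g' * x) := by
      funext x
      rw [mul_assoc]
    rw [e]
    exact h2

theorem f2b3_right (g : SL2) : Measure.map (fun x => x * g) muG = muG := by
  have h1 := f2b3_comp (f := fun x => tr g * x) (g := tr) (continuous_const_mul _) continuous_tr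
    (f2b3_left _) muG_tr
  have h2 := f2b3_comp (f := tr) (g := fun x => tr g * tr x) continuous_tr
    (continuous_const.mul continuous_tr) muG_tr h1
  have e : (fun x => x * g) = fun x => tr (tr g * tr x) := by
    funext x
    rw [tr_mul, tr_tr, tr_tr]
  rw [e]
  exact h2

/-- Left invariance for all `g` (`SL2_induction`): for `hh s` this is `muG_left_hh`; `nn t * g = tr (tr g * hh t)`, so it
follows from `muG_right_hh` and `muG_tr`; compositions are clear. -/
instance instLeftInv : muG.IsMulLeftInvariant := ⟨f2b3_left⟩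

/-- `g * x = tr (tr x * tr g)`: right invariance follows from left invariance and `muG_tr`. -/
instance instRightInv : muG.IsMulRightInvariant := ⟨f2b3_right⟩

/-- The measure of a set inside the chart: for a measurable set `B` of coordinates inside `a ≠ 0` we have
`Phi ⁻¹' (Phi '' B) = B` up to the null set `a = 0`. `Phi '' B` is measurable (`MeasurableSet.image_of_continuousOn_injOn`). -/
theorem measurableSet_Phi_image {B : Set (ℝ × ℝ × ℝ)} (hB : MeasurableSet B) (h0 : ∀ q ∈ B, q.2.1 ≠ 0) :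
    MeasurableSet (Phi '' B) :=
  hB.image_of_continuousOn_injOn (continuousOn_Phi.mono h0)
    (fun q hq q' hq' e => Phi_inj (h0 q hq) (h0 q' hq') e)

theorem muG_Phi_image {B : Set (ℝ × ℝ × ℝ)} (hB : MeasurableSet B) (h0 : ∀ q ∈ B, q.2.1 ≠ 0) :
    muG (Phi '' B) = volume B := by
  rw [muG, Measure.map_apply measurable_Phi (measurableSet_Phi_image hB h0)]
  apply measure_congr
  filter_upwards [ae_ne_zero] with q hq
  apply propext
  constructor
  · rintro ⟨q', hq', e⟩
    have := Phi_inj (h0 q' hq') hq e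
    rw [← this]
    exact hq'
  · intro h
    exact ⟨q, h, rfl⟩

theorem f2b3_entry (i j : Fin 2) : Continuous (fun g : SL2 => g.1 i j) :=
  (continuous_apply j).comp ((continuous_apply i).comp f2a_closed.continuous)

/-- `muG` is a Haar measure: `isHaarMeasure_of_isCompact_nonempty_interior` with
`K = Phi '' ([0,1] × [1,2] × [0,1])`: compact (`continuousOn_Phi`), measure `1` (`muG_Phi_image`), its interior contains the
open set `{g | 1 < g00 < 2, 0 < g01 < 1, 0 < g10 / g00 < 1}` (`Phi_chart`), which contains `Phi (1/2, 3/2, 1/2)`. -/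
instance instHaar : muG.IsHaarMeasure := by
  set B : Set (ℝ × ℝ × ℝ) := Set.Icc 0 1 ×ˢ (Set.Icc 1 2 ×ˢ Set.Icc 0 1) with hB
  have h0 : ∀ q ∈ B, q.2.1 ≠ 0 := by
    rintro ⟨u, a, b⟩ ⟨_, ⟨ha, _⟩, _⟩
    simp only at ha ⊢
    intro h
    rw [h] at ha
    norm_num at ha
  have hBc : IsCompact B := isCompact_Icc.prod (isCompact_Icc.prod isCompact_Icc)
  have hvol : volume B = 1 := by
    rw [hB, Measure.volume_eq_prod, Measure.prod_prod, Measure.volume_eq_prod, Measure.prod_prod,
      Real.volume_Icc, Real.volume_Icc]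
    norm_num
  have hm : muG (Phi '' B) = 1 := by
    rw [muG_Phi_image hBc.measurableSet h0, hvol]
  refine Measure.isHaarMeasure_of_isCompact_nonempty_interior muG (Phi '' B)
    (hBc.image_of_continuousOn (continuousOn_Phi.mono h0)) ?_ (by rw [hm]; norm_num)
    (by rw [hm]; norm_num)
  have hU : IsOpen {g : SL2 | (1 < g.1 0 0 ∧ g.1 0 0 < 2) ∧ (0 < g.1 0 1 ∧ g.1 0 1 < 1) ∧
      (0 < g.1 1 0 ∧ g.1 1 0 < g.1 0 0)} := by
    refine IsOpen.inter (IsOpen.inter ?_ ?_) (IsOpen.inter (IsOpen.inter ?_ ?_)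
      (IsOpen.inter ?_ ?_))
    · exact isOpen_lt continuous_const (f2b3_entry 0 0)
    · exact isOpen_lt (f2b3_entry 0 0) continuous_const
    · exact isOpen_lt continuous_const (f2b3_entry 0 1)
    · exact isOpen_lt (f2b3_entry 0 1) continuous_const
    · exact isOpen_lt continuous_const (f2b3_entry 1 0)
    · exact isOpen_lt (f2b3_entry 1 0) (f2b3_entry 0 0)
  refine ⟨Phi (1 / 2, 3 / 2, 1 / 2), mem_interior.2 ⟨_, ?_, hU, ?_⟩⟩
  · rintro g ⟨⟨h1, h2⟩, ⟨h3, h4⟩, h5, h6⟩
    have hg : g.1 0 0 ≠ 0 := by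
      intro h
      rw [h] at h1
      norm_num at h1
    refine ⟨(g.1 1 0 / g.1 0 0, g.1 0 0, g.1 0 1), ?_, Phi_chart g hg⟩
    have hpos : 0 < g.1 0 0 := by linarith
    refine ⟨⟨?_, ?_⟩, ⟨h1.le, h2.le⟩, h3.le, h4.le⟩
    · exact (div_pos h5 hpos).le
    · exact (div_le_one hpos).2 h6.le
  · have e := coe_Phi (q := ((1 / 2 : ℝ), (3 / 2 : ℝ), (1 / 2 : ℝ))) (by norm_num)
    have e' : (Phi (1 / 2, 3 / 2, 1 / 2)).1 = _ := e
    simp only [Set.mem_ofPred_eq]
    rw [e']
    simp
    norm_num

/-- the rotation -/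
def f2b3_J : SL2 := ⟨!![0, 1; -1, 0], by simp [Matrix.det_fin_two]⟩

theorem f2b3_inv (g : SL2) : g⁻¹ = f2b3_J⁻¹ * tr g * f2b3_J := by
  rw [mul_assoc, eq_inv_mul_iff_mul_eq]
  apply Subtype.ext
  have h1 : ((f2b3_J * g⁻¹ : SL2) : Matrix (Fin 2) (Fin 2) ℝ) =
      (f2b3_J : Matrix (Fin 2) (Fin 2) ℝ) * (g : Matrix (Fin 2) (Fin 2) ℝ).adjugate := by
    simp
  have h2 : ((tr g * f2b3_J : SL2) : Matrix (Fin 2) (Fin 2) ℝ) =
      (g : Matrix (Fin 2) (Fin 2) ℝ).transpose * (f2b3_J : Matrix (Fin 2) (Fin 2) ℝ) := rfl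
  refine h1.trans (Eq.trans ?_ h2.symm)
  have h3 : (f2b3_J : Matrix (Fin 2) (Fin 2) ℝ) = !![0, 1; -1, 0] := rfl
  rw [h3, Matrix.adjugate_fin_two]
  ext i j
  fin_cases i <;> fin_cases j <;> simp [Matrix.mul_apply, Fin.sum_univ_two]

/-- `g⁻¹ = nn 1 * hh (-1) * nn 1 ... `: with `J = [[0,1],[-1,0]]` we have `g⁻¹ = J⁻¹ * tr g * J` for `g` in `SL(2,R)`.
So inversion preserves `muG` (`muG_tr`, left and right invariance). -/
instance instInvInv : muG.IsInvInvariant := by
  constructor
  show Measure.map Inv.inv muG = muG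
  have h1 := f2b3_comp (f := fun x => f2b3_J⁻¹ * x) (g := tr) (continuous_const_mul _)
    continuous_tr (f2b3_left _) muG_tr
  have h2 := f2b3_comp (f := fun x => x * f2b3_J) (g := fun x => f2b3_J⁻¹ * tr x)
    (continuous_mul_const _) (continuous_const.mul continuous_tr) (f2b3_right _) h1
  have e : (Inv.inv : SL2 → SL2) = fun x => f2b3_J⁻¹ * tr x * f2b3_J := by
    funext x
    exact f2b3_inv x
  rw [e]
  exact h2

end H37abf
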