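import Pool.Agent.H.MP_abf1f1_an.F2b3

/-!
# Module F2c: flow boxes
-/

namespace H37abf

open MeasureTheory Matrix Filter Topology
open scoped ENNReal Pointwise

/-- the flow box `{h_u p(a,b) C : 0 ≤ u < δ, (a,b) ∈ B}` -/
def box (δ : ℝ) (B : Set (ℝ × ℝ)) (C : SL2) : Set SL2 :=
  (fun g => g * C) '' (Phi '' (Set.Ico 0 δ ×ˢ B))

theorem mem_box {δ : ℝ} {B : Set (ℝ × ℝ)} {C : SL2} {g : SL2} :
    g ∈ box δ B C ↔ ∃ u a b, 0 ≤ u ∧ u < δ ∧ (a, b) ∈ B ∧ g = hh u * pp a b * C := by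
  constructor
  · rintro ⟨_, ⟨⟨u, a, b⟩, ⟨⟨h0, h1⟩, h2⟩, rfl⟩, rfl⟩
    exact ⟨u, a, b, h0, h1, h2, rfl⟩
  · rintro ⟨u, a, b, h0, h1, h2, rfl⟩
    exact ⟨_, ⟨(u, a, b), ⟨⟨h0, h1⟩, h2⟩, rfl⟩, rfl⟩

theorem f2c_meas {δ : ℝ} {B : Set (ℝ × ℝ)} (hB : MeasurableSet B) :
    MeasurableSet (Set.Ico 0 δ ×ˢ B) :=
  measurableSet_Ico.prod hB

theorem f2c_ne {δ : ℝ} {B : Set (ℝ × ℝ)} (h0 : ∀ q ∈ B, q.1 ≠ 0) :
    ∀ q ∈ Set.Ico 0 δ ×ˢ B, q.2.1 ≠ 0 :=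
  fun q hq => h0 q.2 hq.2

theorem f2c_eq (δ : ℝ) (B : Set (ℝ × ℝ)) (C : SL2) :
    box δ B C = (fun g => g * C⁻¹) ⁻¹' (Phi '' (Set.Ico 0 δ ×ˢ B)) :=
  Set.image_mul_right

/-- right invariance and `muG_Phi_image` -/
theorem muG_box {δ : ℝ} (hδ : 0 ≤ δ) {B : Set (ℝ × ℝ)} (hB : MeasurableSet B) (h0 : ∀ q ∈ B, q.1 ≠ 0) (C : SL2) :
    muG (box δ B C) = ENNReal.ofReal δ * volume B := by
  rw [f2c_eq, measure_preimage_mul_right, muG_Phi_image (f2c_meas hB) (f2c_ne h0),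
    Measure.volume_eq_prod, Measure.prod_prod, Real.volume_Ico, sub_zero]

theorem measurableSet_box {δ : ℝ} {B : Set (ℝ × ℝ)} (hB : MeasurableSet B) (h0 : ∀ q ∈ B, q.1 ≠ 0) (C : SL2) :
    MeasurableSet (box δ B C) := by
  rw [f2c_eq]
  exact (continuous_mul_const _).measurable (measurableSet_Phi_image (f2c_meas hB) (f2c_ne h0))

/-- `box δ B C` is contained in the compact set `Phi '' ([0,δ] × closure B) * C`; `closure B` is compact and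
`|a| ≥ ε` on it. -/
theorem isCompact_closure_box {δ : ℝ} {B : Set (ℝ × ℝ)} (hb : Bornology.IsBounded B) {ε : ℝ} (hε : 0 < ε)
    (h0 : ∀ q ∈ B, ε ≤ q.1) (C : SL2) : IsCompact (closure (box δ B C)) := by
  have hc : IsCompact (closure B) := hb.isCompact_closure
  have h1 : ∀ q ∈ closure B, ε ≤ q.1 := by
    have hs : closure B ⊆ {q : ℝ × ℝ | ε ≤ q.1} :=
      closure_minimal h0 (isClosed_le continuous_const continuous_fst)
    exact hs
  have h2 : ∀ q ∈ Set.Icc 0 δ ×ˢ closure B, q.2.1 ≠ 0 := by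
    intro q hq h
    have := h1 q.2 hq.2
    rw [h] at this
    exact absurd this (not_le.2 hε)
  have h3 : IsCompact ((fun g => g * C) '' (Phi '' (Set.Icc 0 δ ×ˢ closure B))) :=
    ((isCompact_Icc.prod hc).image_of_continuousOn (continuousOn_Phi.mono h2)).image
      (continuous_mul_const _)
  refine h3.closure_of_subset ?_
  exact Set.image_mono (Set.image_mono (Set.prod_mono Set.Ico_subset_Icc_self subset_closure))

end H37abf
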