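import Pool.Agent.H.MP_abf1f1_an.F2b3

/-!
# Module F3a: the counting function Psi
-/

namespace H37abf

open MeasureTheory Matrix Filter Topology
open scoped ENNReal Pointwise

variable (Γ : Subgroup SL2)

/-- `Psi Γ A g = #{γ ∈ Γ : g γ ∈ A}` -/
noncomputable def Psi (Γ : Subgroup SL2) (A : Set SL2) (g : SL2) : ℝ≥0∞ :=
  ∑' γ : Γ, A.indicator (fun _ => (1 : ℝ≥0∞)) (g * (γ : SL2))

/-- `Γ` has finite covolume (for a discrete subgroup this means: `Γ` is a lattice) -/
def FiniteCovol (Γ : Subgroup SL2) : Prop :=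
  ∃ F : Set SL2, MeasurableSet F ∧ muG F < ∞ ∧ ∀ g : SL2, ∃ γ ∈ Γ, g * γ ∈ F

theorem countable_discrete [DiscreteTopology Γ] : Countable Γ := by
  have : SecondCountableTopology Γ := inferInstance
  obtain ⟨s, hs, hd⟩ := TopologicalSpace.exists_countable_dense Γ
  have h1 : s = Set.univ := by
    rw [← hd.closure_eq, (isClosed_discrete s).closure_eq]
  rw [h1] at hs
  exact Set.countable_univ_iff.mp hs

/-- `Subgroup.isClosed_of_discrete` -/
theorem isClosed_discrete [DiscreteTopology Γ] : IsClosed (Γ : Set SL2) :=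
  Subgroup.isClosed_of_discrete

theorem finite_inter [DiscreteTopology Γ] {K : Set SL2} (hK : IsCompact K) : {γ : Γ | (γ : SL2) ∈ K}.Finite := by
  have hd : IsDiscrete (Γ : Set SL2) := isDiscrete_iff_discreteTopology.mpr ‹_›
  have h1 := (Subgroup.tendsto_coe_cofinite_of_discrete Γ hd) hK.compl_mem_cocompact
  rw [Filter.mem_map, Filter.mem_cofinite] at h1
  refine h1.subset fun γ hγ => ?_
  simpa using hγ

theorem measurable_Psi [DiscreteTopology Γ] {A : Set SL2} (hA : MeasurableSet A) : Measurable (Psi Γ A) := by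
  have := countable_discrete Γ
  unfold Psi
  refine Measurable.ennreal_tsum fun γ => ?_
  exact (measurable_const.indicator hA).comp (measurable_mul_const (γ : SL2))

theorem Psi_mono {A B : Set SL2} (h : A ⊆ B) (g : SL2) : Psi Γ A g ≤ Psi Γ B g :=
  ENNReal.tsum_le_tsum fun _ => Set.indicator_le_indicator_of_subset h (fun _ => bot_le) _

/-- reindexing of the sum -/
theorem Psi_mul_right (A : Set SL2) (g γ : SL2) (h : γ ∈ Γ) : Psi Γ A (g * γ) = Psi Γ A g := by
  unfold Psi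
  rw [← (Equiv.mulLeft (⟨γ, h⟩ : Γ)).tsum_eq
    (fun δ : Γ => A.indicator (fun _ => (1 : ℝ≥0∞)) (g * (δ : SL2)))]
  refine tsum_congr fun δ => ?_
  simp [mul_assoc]

theorem Psi_preimage (A : Set SL2) (h g : SL2) : Psi Γ ((fun x => h * x) ⁻¹' A) g = Psi Γ A (h * g) := by
  unfold Psi
  refine tsum_congr fun δ => ?_
  have e : (g * (δ : SL2) ∈ (fun x => h * x) ⁻¹' A) ↔ (h * g * (δ : SL2) ∈ A) := by
    rw [Set.mem_preimage, mul_assoc]
  by_cases hm : h * g * (δ : SL2) ∈ A
  · rw [Set.indicator_of_mem hm, Set.indicator_of_mem (e.mpr hm)]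
  · rw [Set.indicator_of_notMem hm, Set.indicator_of_notMem (fun hc => hm (e.mp hc))]

/-- a finite set of `γ`: `Psi` is the number of elements -/
theorem Psi_eq_card (A : Set SL2) (g : SL2) (hfin : {γ : Γ | g * (γ : SL2) ∈ A}.Finite) :
    Psi Γ A g = (hfin.toFinset.card : ℝ≥0∞) := by
  unfold Psi
  rw [tsum_eq_sum (s := hfin.toFinset)]
  · rw [Finset.sum_congr rfl (g := fun _ => (1 : ℝ≥0∞))]
    · simp
    · intro γ hγ
      have hm : g * (γ : SL2) ∈ A := by simpa using hγ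
      rw [Set.indicator_of_mem hm]
  · intro γ hγ
    have hm : g * (γ : SL2) ∉ A := by simpa using hγ
    rw [Set.indicator_of_notMem hm]

/-- If `g γ₁ ∈ A` and `g γ ∈ A` then `γ₁⁻¹ γ` is in the compact set `K⁻¹ K`, `K = closure A`. So the number is at most
the cardinality of the finite set `{γ : Γ | γ ∈ K⁻¹ * K}`. -/
theorem Psi_bdd [DiscreteTopology Γ] {A : Set SL2} (hA : IsCompact (closure A)) : ∃ C : ℕ, ∀ g, Psi Γ A g ≤ C := by
  have hfin := finite_inter Γ (hA.inv.mul hA)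
  refine ⟨hfin.toFinset.card, fun g => ?_⟩
  by_cases hex : ∃ γ₁ : Γ, g * (γ₁ : SL2) ∈ A
  · obtain ⟨γ₁, h1⟩ := hex
    rw [← Psi_mul_right Γ A g γ₁ γ₁.2]
    have hsub : {γ : Γ | g * (γ₁ : SL2) * (γ : SL2) ∈ A} ⊆
        {γ : Γ | (γ : SL2) ∈ (closure A)⁻¹ * closure A} := by
      intro γ hγ
      refine Set.mem_mul.mpr ⟨(g * (γ₁ : SL2))⁻¹, ?_, g * (γ₁ : SL2) * (γ : SL2), subset_closure hγ, ?_⟩
      · rw [Set.mem_inv, inv_inv]
        exact subset_closure h1
      · group
    have hfin2 : {γ : Γ | g * (γ₁ : SL2) * (γ : SL2) ∈ A}.Finite := hfin.subset hsub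
    rw [Psi_eq_card Γ A _ hfin2]
    exact_mod_cast Finset.card_le_card (by simpa using hsub)
  · push Not at hex
    have h0 : Psi Γ A g = 0 := by
      unfold Psi
      rw [ENNReal.tsum_eq_zero]
      intro γ
      exact Set.indicator_of_notMem (hex γ) _
    rw [h0]
    exact bot_le

end H37abf
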