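import Pool.Agent.H.MP_abf1f1_an.F3p

/-!
# Module F3d: a strict measurable fundamental domain
-/

namespace H37abf

open MeasureTheory Matrix Filter Topology
open scoped ENNReal Pointwise

variable (Γ : Subgroup SL2)

/-- discreteness and continuity -/
theorem f3d_nhds {G : Type*} [Group G] [TopologicalSpace G] [IsTopologicalGroup G] (Γ : Subgroup G)
    [DiscreteTopology Γ] :
    ∃ U : Set G, IsOpen U ∧ (1 : G) ∈ U ∧ ∀ x ∈ U, ∀ y ∈ U, ∀ γ : Γ, x⁻¹ * y = (γ : G) → γ = 1 := by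
  have h1 : IsOpen ({1} : Set Γ) := isOpen_discrete _
  obtain ⟨W, hW, hWe⟩ := isOpen_induced_iff.1 h1
  have h1W : (1 : G) ∈ W := by
    have h2 : (1 : Γ) ∈ (Subtype.val ⁻¹' W : Set Γ) := by rw [hWe]; exact Set.mem_singleton _
    exact h2
  have hc : Continuous (fun p : G × G => p.1⁻¹ * p.2) := continuous_fst.inv.mul continuous_snd
  have hpre : IsOpen ((fun p : G × G => p.1⁻¹ * p.2) ⁻¹' W) := hW.preimage hc
  have hmem : ((1 : G), (1 : G)) ∈ ((fun p : G × G => p.1⁻¹ * p.2) ⁻¹' W) := by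
    have h3 : (1 : G)⁻¹ * 1 ∈ W := by rw [inv_one, one_mul]; exact h1W
    exact h3
  obtain ⟨A, B, hA, hB, h1A, h1B, hAB⟩ := isOpen_prod_iff.1 hpre 1 1 hmem
  refine ⟨A ∩ B, hA.inter hB, ⟨h1A, h1B⟩, ?_⟩
  intro x hx y hy γ hγ
  have h3 : x⁻¹ * y ∈ W := hAB (Set.mk_mem_prod hx.1 hy.2)
  rw [hγ] at h3
  have h4 : γ ∈ (Subtype.val ⁻¹' W : Set Γ) := h3
  rw [hWe] at h4
  exact h4

/-- A strict measurable fundamental domain of finite measure. There is an open `U` containing `1` with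
`U⁻¹ * U ∩ Γ = {1}` (discreteness and continuity). Let `g_0, g_1, ...` be dense; the open sets `V i = g_i U` cover the group
and `v γ = v'` with `v, v' ∈ V i`, `γ ∈ Γ` forces `γ = 1`. Let `S i = {g | ∃ γ ∈ Γ, g γ ∈ V i}` (open) and
`𝓕 = ⋃ i, V i \ ⋃ j < i, S j`. For every `g` take the smallest `i` with `g ∈ S i`: this gives exactly one `γ` with
`g γ ∈ 𝓕`. So `Psi Γ 𝓕 g = 1` for all `g` and `packing` gives `muG 𝓕 ≤ muG F < ∞`. -/
theorem exists_strict_domain [DiscreteTopology Γ] (h : FiniteCovol Γ) :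
    ∃ D : Set SL2, MeasurableSet D ∧ (∀ g : SL2, ∃! γ : Γ, g * (γ : SL2) ∈ D) ∧ muG D < ∞ := by
  classical
  obtain ⟨F, hF, hFfin, hcov⟩ := h
  obtain ⟨U, hU, h1U, hUΓ⟩ := f3d_nhds Γ
  have hd : DenseRange (TopologicalSpace.denseSeq SL2) := TopologicalSpace.denseRange_denseSeq SL2
  set d : ℕ → SL2 := TopologicalSpace.denseSeq SL2 with hddef
  set V : ℕ → Set SL2 := fun i => (fun g => (d i)⁻¹ * g) ⁻¹' U with hV
  have hVo : ∀ i, IsOpen (V i) := fun i => hU.preimage (continuous_const_mul _)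
  have hVcov : ∀ g : SL2, ∃ i, g ∈ V i := by
    intro g
    have ho : IsOpen ((fun x : SL2 => x⁻¹ * g) ⁻¹' U) := hU.preimage (by fun_prop)
    have hne : ((fun x : SL2 => x⁻¹ * g) ⁻¹' U).Nonempty := ⟨g, by simpa using h1U⟩
    obtain ⟨i, hi⟩ := hd.exists_mem_open ho hne
    exact ⟨i, hi⟩
  have hVinj : ∀ i, ∀ x ∈ V i, ∀ y ∈ V i, ∀ γ : Γ, x⁻¹ * y = (γ : SL2) → γ = 1 := by
    intro i x hx y hy γ hγ
    refine hUΓ _ hx _ hy γ ?_
    rw [← hγ]
    group
  set S : ℕ → Set SL2 := fun i => ⋃ γ : Γ, (fun g => g * (γ : SL2)) ⁻¹' (V i) with hS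
  have hSo : ∀ i, IsOpen (S i) := fun i =>
    isOpen_iUnion fun γ => (hVo i).preimage (continuous_mul_const _)
  have hSmem : ∀ i g, g ∈ S i ↔ ∃ γ : Γ, g * (γ : SL2) ∈ V i := by
    intro i g
    simp [hS]
  have hSinv : ∀ i g (γ : Γ), g * (γ : SL2) ∈ S i ↔ g ∈ S i := by
    intro i g γ
    rw [hSmem, hSmem]
    constructor
    · rintro ⟨γ', h'⟩
      refine ⟨γ * γ', ?_⟩
      rw [Subgroup.coe_mul, ← mul_assoc]
      exact h'
    · rintro ⟨γ', h'⟩
      refine ⟨γ⁻¹ * γ', ?_⟩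
      have h2 : g * (γ : SL2) * ((γ⁻¹ * γ' : Γ) : SL2) = g * (γ' : SL2) := by
        rw [Subgroup.coe_mul, Subgroup.coe_inv]
        group
      rw [h2]
      exact h'
  set D : Set SL2 := ⋃ i, (V i \ ⋃ j, ⋃ (_ : j < i), S j) with hD
  have hDmem : ∀ g, g ∈ D ↔ ∃ i, g ∈ V i ∧ ∀ j < i, g ∉ S j := by
    intro g
    simp [hD]
  have hDm : MeasurableSet D := by
    refine MeasurableSet.iUnion fun i => (hVo i).measurableSet.diff ?_
    exact MeasurableSet.iUnion fun j => MeasurableSet.iUnion fun _ => (hSo j).measurableSet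
  have huniq : ∀ g : SL2, ∃! γ : Γ, g * (γ : SL2) ∈ D := by
    intro g
    have hex : ∃ i, g ∈ S i := by
      obtain ⟨i, hi⟩ := hVcov g
      refine ⟨i, (hSmem i g).2 ⟨1, ?_⟩⟩
      simpa using hi
    obtain ⟨γ, hγ⟩ := (hSmem _ g).1 (Nat.find_spec hex)
    refine ⟨γ, (hDmem _).2 ⟨Nat.find hex, hγ, ?_⟩, ?_⟩
    · intro j hj hjS
      exact Nat.find_min hex hj ((hSinv j g γ).1 hjS)
    · intro γ' hγ'
      obtain ⟨i', hi'V, hi'S⟩ := (hDmem _).1 hγ'
      have hgS : g ∈ S i' := (hSmem i' g).2 ⟨γ', hi'V⟩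
      have hle : Nat.find hex ≤ i' := Nat.find_min' hex hgS
      have hge : ¬ Nat.find hex < i' := by
        intro hlt
        exact hi'S _ hlt ((hSinv _ g γ').2 (Nat.find_spec hex))
      have heq : i' = Nat.find hex := le_antisymm (not_lt.1 hge) hle
      rw [heq] at hi'V
      have h3 := hVinj _ _ hγ _ hi'V (γ⁻¹ * γ') (by
        rw [Subgroup.coe_mul, Subgroup.coe_inv]
        group)
      exact (inv_mul_eq_one.1 h3).symm
  refine ⟨D, hDm, huniq, ?_⟩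
  have hPsi : ∀ g, Psi Γ D g ≤ 1 := by
    intro g
    obtain ⟨γ, hγ, hun⟩ := huniq g
    unfold Psi
    rw [tsum_eq_single γ]
    · exact Set.indicator_le_self' (fun _ _ => zero_le') _
    · intro γ' hne
      refine Set.indicator_of_notMem (fun hmem => hne (hun γ' hmem)) _
  calc muG D ≤ 1 * muG F := packing Γ hF hcov hDm hPsi
    _ = muG F := one_mul _
    _ < ∞ := hFfin

end H37abf
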