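import Pool.Agent.H.MP_abf1f1_an.F3q
import Pool.Agent.H.MP_abf1f1_an.F3d

/-!
# Module F3m: the invariant measure on the quotient
-/

namespace H37abf

open MeasureTheory Matrix Filter Topology
open scoped ENNReal Pointwise

variable (Γ : Subgroup SL2)

lemma f3m_Psi_one {D : Set SL2} (hu : ∀ g : SL2, ∃! γ : Γ, g * (γ : SL2) ∈ D) (g : SL2) :
    Psi Γ D g = 1 := by
  obtain ⟨γ, h1, h2⟩ := hu g
  unfold Psi
  rw [tsum_eq_single γ]
  · exact Set.indicator_of_mem h1 _
  · intro γ' hγ'
    refine Set.indicator_of_notMem (fun h => hγ' (h2 γ' h)) _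

lemma f3m_unfold [DiscreteTopology Γ] {D : Set SL2} (hD : MeasurableSet D)
    (hu : ∀ g : SL2, ∃! γ : Γ, g * (γ : SL2) ∈ D) (f : SL2 ⧸ Γ → ℝ≥0∞) (hf : Measurable f)
    (A : Set SL2) (hA : MeasurableSet A) :
    ∫⁻ g in A, f (QuotientGroup.mk g) ∂muG =
      ∫⁻ g in D, Psi Γ A g * f (QuotientGroup.mk g) ∂muG := by
  have := countable_discrete Γ
  set F : SL2 → ℝ≥0∞ := A.indicator (fun g => f (QuotientGroup.mk g)) with hF
  have hfm : Measurable (fun g : SL2 => f (QuotientGroup.mk g)) :=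
    hf.comp QuotientGroup.measurable_coe
  have hFm : Measurable F := hfm.indicator hA
  have hDm : Measurable (D.indicator (fun _ => (1 : ℝ≥0∞))) := measurable_const.indicator hD
  have h1 : ∀ g, F g = ∑' γ : Γ, D.indicator (fun _ => (1 : ℝ≥0∞)) (g * (γ : SL2)) * F g := by
    intro g
    rw [ENNReal.tsum_mul_right]
    have := f3m_Psi_one Γ hu g
    unfold Psi at this
    rw [this, one_mul]
  have h2 : ∀ g, ∑' γ : Γ, F (g * (γ : SL2)) = Psi Γ A g * f (QuotientGroup.mk g) := by
    intro g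
    unfold Psi
    rw [← ENNReal.tsum_mul_right]
    refine tsum_congr fun γ => ?_
    have e : (QuotientGroup.mk (g * (γ : SL2)) : SL2 ⧸ Γ) = QuotientGroup.mk g :=
      QuotientGroup.mk_mul_of_mem g γ.2
    by_cases hg : g * (γ : SL2) ∈ A
    · rw [hF, Set.indicator_of_mem hg, Set.indicator_of_mem hg, one_mul, e]
    · rw [hF, Set.indicator_of_notMem hg, Set.indicator_of_notMem hg, zero_mul]
  calc ∫⁻ g in A, f (QuotientGroup.mk g) ∂muG = ∫⁻ g, F g ∂muG := (lintegral_indicator hA _).symm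
    _ = ∫⁻ g, ∑' γ : Γ, D.indicator (fun _ => (1 : ℝ≥0∞)) (g * (γ : SL2)) * F g ∂muG :=
        lintegral_congr h1
    _ = ∑' γ : Γ, ∫⁻ g, D.indicator (fun _ => (1 : ℝ≥0∞)) (g * (γ : SL2)) * F g ∂muG :=
        lintegral_tsum (fun γ =>
          ((hDm.comp (measurable_mul_const (γ : SL2))).mul hFm).aemeasurable)
    _ = ∑' γ : Γ, ∫⁻ g, D.indicator (fun _ => (1 : ℝ≥0∞)) g * F (g * ((γ⁻¹ : Γ) : SL2)) ∂muG := by
        refine tsum_congr fun γ => ?_
        rw [← lintegral_mul_right_eq_self (fun g => D.indicator (fun _ => (1 : ℝ≥0∞)) g *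
          F (g * ((γ⁻¹ : Γ) : SL2))) (γ : SL2)]
        refine lintegral_congr fun g => ?_
        simp
    _ = ∑' γ : Γ, ∫⁻ g, D.indicator (fun _ => (1 : ℝ≥0∞)) g * F (g * (γ : SL2)) ∂muG :=
        (Equiv.inv Γ).tsum_eq
          (fun γ : Γ => ∫⁻ g, D.indicator (fun _ => (1 : ℝ≥0∞)) g * F (g * (γ : SL2)) ∂muG)
    _ = ∫⁻ g, ∑' γ : Γ, D.indicator (fun _ => (1 : ℝ≥0∞)) g * F (g * (γ : SL2)) ∂muG :=
        (lintegral_tsum (fun γ : Γ =>
          (hDm.mul (hFm.comp (measurable_mul_const (γ : SL2)))).aemeasurable)).symm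
    _ = ∫⁻ g in D, Psi Γ A g * f (QuotientGroup.mk g) ∂muG := by
        rw [← lintegral_indicator hD]
        refine lintegral_congr fun g => ?_
        rw [ENNReal.tsum_mul_left, h2]
        by_cases hg : g ∈ D
        · rw [Set.indicator_of_mem hg, Set.indicator_of_mem hg, one_mul]
        · rw [Set.indicator_of_notMem hg, Set.indicator_of_notMem hg, zero_mul]

/-- With the strict domain `D` of `exists_strict_domain` let `ν` be the image of `muG.restrict D` under the
quotient map. -/
theorem exists_QM [DiscreteTopology Γ] (h : FiniteCovol Γ) : ∃ ν : Measure (SL2 ⧸ Γ), QM Γ ν := by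
  obtain ⟨D, hD, hu, hfin⟩ := exists_strict_domain Γ h
  have hmk : Measurable (QuotientGroup.mk : SL2 → SL2 ⧸ Γ) := QuotientGroup.measurable_coe
  set ν : Measure (SL2 ⧸ Γ) := Measure.map QuotientGroup.mk (muG.restrict D) with hν
  have hint : ∀ f : SL2 ⧸ Γ → ℝ≥0∞, Measurable f →
      ∫⁻ x, f x ∂ν = ∫⁻ g in D, f (QuotientGroup.mk g) ∂muG := by
    intro f hf
    rw [hν, lintegral_map hf hmk]
  have hunf : ∀ f : SL2 ⧸ Γ → ℝ≥0∞, Measurable f → ∀ A : Set SL2, MeasurableSet A →
      ∫⁻ g in A, f (QuotientGroup.mk g) ∂muG = ∫⁻ x, PsiQ Γ A x * f x ∂ν := by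
    intro f hf A hA
    rw [f3m_unfold Γ hD hu f hf A hA,
      hint (fun x => PsiQ Γ A x * f x) ((measurable_PsiQ Γ hA).mul hf)]
    rfl
  refine ⟨ν, ?_, ?_, ?_, hunf⟩
  · have : IsFiniteMeasure (muG.restrict D) := ⟨by rwa [Measure.restrict_apply_univ]⟩
    exact Measure.isFiniteMeasure_map _ _
  · intro h0
    have h1 := hunf (fun _ => 1) measurable_const Set.univ MeasurableSet.univ
    rw [Measure.measure_univ_eq_zero.1 h0, lintegral_zero_measure, Measure.restrict_univ,
      lintegral_one] at h1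
    exact isOpen_univ.measure_ne_zero muG Set.univ_nonempty h1
  · constructor
    intro c s hs
    have hc : Measurable (fun x : SL2 ⧸ Γ => c • x) := by
      rw [QuotientGroup.measurable_from_quotient]
      exact hmk.comp (measurable_const_mul c)
    set A : Set SL2 := (fun g => c⁻¹ * g) ⁻¹' D with hA
    have hAm : MeasurableSet A := measurable_const_mul c⁻¹ hD
    have hA1 : ∀ x, PsiQ Γ A x = 1 := by
      intro x
      induction x using QuotientGroup.induction_on with
      | H g =>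
        rw [PsiQ_mk, hA, Psi_preimage, f3m_Psi_one Γ hu]
    have hsm : Measurable (s.indicator (fun _ => (1 : ℝ≥0∞))) := measurable_const.indicator hs
    have hBm : Measurable (((fun x : SL2 ⧸ Γ => c • x) ⁻¹' s).indicator (fun _ => (1 : ℝ≥0∞))) :=
      measurable_const.indicator (hc hs)
    calc ν ((fun x => c • x) ⁻¹' s)
        = ∫⁻ x, ((fun x : SL2 ⧸ Γ => c • x) ⁻¹' s).indicator (fun _ => (1 : ℝ≥0∞)) x ∂ν :=
          (lintegral_indicator_one (hc hs)).symm
      _ = ∫⁻ g in D, ((fun x : SL2 ⧸ Γ => c • x) ⁻¹' s).indicator (fun _ => (1 : ℝ≥0∞))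
            (QuotientGroup.mk g) ∂muG := hint _ hBm
      _ = ∫⁻ g, D.indicator (fun g => s.indicator (fun _ => (1 : ℝ≥0∞))
            (QuotientGroup.mk (c * g))) g ∂muG := by
          rw [← lintegral_indicator hD]
          rfl
      _ = ∫⁻ g, A.indicator (fun g => s.indicator (fun _ => (1 : ℝ≥0∞))
            (QuotientGroup.mk g)) g ∂muG := by
          rw [← lintegral_mul_left_eq_self (fun g => A.indicator (fun g => s.indicator
            (fun _ => (1 : ℝ≥0∞)) (QuotientGroup.mk g)) g) c]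
          refine lintegral_congr fun g => ?_
          by_cases hg : g ∈ D
          · have : c * g ∈ A := by
              show c⁻¹ * (c * g) ∈ D
              rwa [inv_mul_cancel_left]
            rw [Set.indicator_of_mem hg, Set.indicator_of_mem this]
          · have : c * g ∉ A := by
              intro h'
              apply hg
              have h'' : c⁻¹ * (c * g) ∈ D := h'
              rwa [inv_mul_cancel_left] at h''
            rw [Set.indicator_of_notMem hg, Set.indicator_of_notMem this]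
      _ = ∫⁻ x, PsiQ Γ A x * s.indicator (fun _ => (1 : ℝ≥0∞)) x ∂ν := by
          rw [lintegral_indicator hAm]
          exact hunf _ hsm A hAm
      _ = ∫⁻ x, s.indicator (fun _ => (1 : ℝ≥0∞)) x ∂ν := by
          refine lintegral_congr fun x => ?_
          rw [hA1, one_mul]
      _ = ν s := lintegral_indicator_one hs

end H37abf
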