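import Pool.Agent.H.MP_abf1f1_an.F3q

/-!
# Module F3n: null sets and integral of PsiQ
-/

namespace H37abf

open MeasureTheory Matrix Filter Topology
open scoped ENNReal Pointwise

variable {Γ : Subgroup SL2}

/-- `PsiQ Γ univ x ≥ 1` -/
theorem f3n_one_le (x : SL2 ⧸ Γ) : 1 ≤ PsiQ Γ Set.univ x := by
  obtain ⟨g, rfl⟩ := QuotientGroup.mk_surjective x
  rw [PsiQ_mk]
  unfold Psi
  refine le_trans ?_ (ENNReal.le_tsum (1 : Γ))
  simp

/-- `unfold` with `f = 1_s`, `A = univ`: `muG (mk ⁻¹ s) = ∫⁻ x in s, PsiQ Γ univ x ∂ν` and `PsiQ Γ univ x ≥ 1`. -/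
theorem QM.null_iff [DiscreteTopology Γ] {ν : Measure (SL2 ⧸ Γ)} (hν : QM Γ ν) {s : Set (SL2 ⧸ Γ)} (hs : MeasurableSet s) :
    ν s = 0 ↔ muG (QuotientGroup.mk ⁻¹' s) = 0 := by
  have h1 := hν.unfold (s.indicator (fun _ => (1 : ℝ≥0∞))) (measurable_const.indicator hs)
    Set.univ MeasurableSet.univ
  have h2 : ∫⁻ g in Set.univ, s.indicator (fun _ => (1 : ℝ≥0∞)) (QuotientGroup.mk g) ∂muG
      = muG (QuotientGroup.mk ⁻¹' s) := by
    rw [Measure.restrict_univ]
    have h3 : (fun g : SL2 => s.indicator (fun _ => (1 : ℝ≥0∞)) (QuotientGroup.mk g : SL2 ⧸ Γ))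
        = (QuotientGroup.mk ⁻¹' s : Set SL2).indicator (fun _ => (1 : ℝ≥0∞)) := by
      funext g
      rfl
    rw [h3, lintegral_indicator (QuotientGroup.measurable_coe hs)]
    simp
  rw [h2] at h1
  have hm : Measurable (fun x : SL2 ⧸ Γ => PsiQ Γ Set.univ x * s.indicator (fun _ => (1 : ℝ≥0∞)) x) :=
    (measurable_PsiQ Γ MeasurableSet.univ).mul (measurable_const.indicator hs)
  rw [h1, lintegral_eq_zero_iff hm]
  constructor
  · intro h
    have h4 : ∀ᵐ x ∂ν, x ∉ s := measure_eq_zero_iff_ae_notMem.1 h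
    filter_upwards [h4] with x hx
    simp [Set.indicator_of_notMem hx]
  · intro h
    refine measure_eq_zero_iff_ae_notMem.2 ?_
    filter_upwards [h] with x hx hxs
    have h5 : PsiQ Γ Set.univ x = 0 := by
      simpa [Set.indicator_of_mem hxs] using hx
    have h6 := f3n_one_le x
    rw [h5] at h6
    simp at h6

/-- `unfold` with `f = 1` -/
theorem QM.lintegral_PsiQ [DiscreteTopology Γ] {ν : Measure (SL2 ⧸ Γ)} (hν : QM Γ ν) {A : Set SL2} (hA : MeasurableSet A) :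
    ∫⁻ x, PsiQ Γ A x ∂ν = muG A := by
  have h1 := hν.unfold (fun _ => 1) measurable_const A hA
  simp only [mul_one] at h1
  rw [← h1]
  simp

end H37abf
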