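import Pool.Agent.H.MP_abf1f1_an.F3a

/-!
# Module F3q: the quotient
-/

namespace H37abf

open MeasureTheory Matrix Filter Topology
open scoped ENNReal Pointwise

variable (Γ : Subgroup SL2)

/-- `Psi` on the quotient -/
noncomputable def PsiQ (A : Set SL2) (x : SL2 ⧸ Γ) : ℝ≥0∞ :=
  Quotient.liftOn' x (Psi Γ A) (by
    intro g g' h
    have h2 : g⁻¹ * g' ∈ Γ := QuotientGroup.leftRel_apply.1 h
    have h3 : g' = g * (g⁻¹ * g') := by group
    rw [h3, Psi_mul_right Γ A g _ h2])

theorem PsiQ_mk (A : Set SL2) (g : SL2) : PsiQ Γ A (QuotientGroup.mk g) = Psi Γ A g := rfl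

/-- `PsiQ Γ A` is measurable because its composition with the quotient map is (the σ-algebra of the quotient is the
quotient σ-algebra). -/
theorem measurable_PsiQ [DiscreteTopology Γ] {A : Set SL2} (hA : MeasurableSet A) : Measurable (PsiQ Γ A) := by
  have h : Measurable ((PsiQ Γ A) ∘ (QuotientGroup.mk : SL2 → SL2 ⧸ Γ)) := measurable_Psi Γ hA
  exact measurable_from_quotient.2 h

/-- what we need to know about the measure on the quotient -/
structure QM (ν : Measure (SL2 ⧸ Γ)) : Prop where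
  /-- finite -/
  fin : IsFiniteMeasure ν
  /-- nonzero -/
  pos : ν Set.univ ≠ 0
  /-- invariant -/
  inv : SMulInvariantMeasure SL2 (SL2 ⧸ Γ) ν
  /-- unfolding -/
  unfold : ∀ f : SL2 ⧸ Γ → ℝ≥0∞, Measurable f → ∀ A : Set SL2, MeasurableSet A →
    ∫⁻ g in A, f (QuotientGroup.mk g) ∂muG = ∫⁻ x, PsiQ Γ A x * f x ∂ν

/-- the topology of the quotient: Hausdorff, second countable, locally compact, Borel -/
theorem quotient_topology [DiscreteTopology Γ] :
    T2Space (SL2 ⧸ Γ) ∧ SecondCountableTopology (SL2 ⧸ Γ) ∧ LocallyCompactSpace (SL2 ⧸ Γ) ∧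
      BorelSpace (SL2 ⧸ Γ) := by
  have h0 : IsClosed (Γ : Set SL2) := isClosed_discrete Γ
  exact ⟨inferInstance, inferInstance, inferInstance, CosetSpace.borelSpace⟩

end H37abf
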