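import Pool.Agent.H.MP_abf1f1_an.F3q

/-!
# Module F4a: Mautner phenomenon
-/

namespace H37abf

open MeasureTheory Matrix Filter Topology
open scoped ENNReal Pointwise

variable {Γ : Subgroup SL2}

/-- the action on `L²` is continuous in the group element -/
lemma f4a_cont [DiscreteTopology Γ] {ν : Measure (SL2 ⧸ Γ)} (hν : QM Γ ν) [SMulInvariantMeasure SL2 (SL2 ⧸ Γ) ν]
    [MeasurableConstSMul SL2 (SL2 ⧸ Γ)] (f : Lp ℝ 2 ν) :
    Continuous (fun g : SL2 => DomMulAct.mk g • f) := by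
  obtain ⟨h1, h2, h3, h4⟩ := quotient_topology Γ
  have := hν.fin
  have : Measure.InnerRegularCompactLTTop ν := inferInstance
  have : ContinuousSMul SL2 (SL2 ⧸ Γ) := inferInstance
  have : Fact ((2 : ℝ≥0∞) ≠ ∞) := ⟨by norm_num⟩
  have h : Continuous (fun c : SL2ᵈᵐᵃ => c • f) := continuous_id.smul continuous_const
  exact h.comp DomMulAct.continuous_mk

lemma f4a_scale_lt {E : ℝ → ℝ} (hE : Continuous E) (h0 : E 0 = 0) {q : ℝ} (hq : 0 < q) (hq1 : q < 1)
    (h : ∀ t, E (q * t) = E t) (t : ℝ) : E t = 0 := by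
  have h1 : ∀ n : ℕ, E (q ^ n * t) = E t := by
    intro n
    induction n with
    | zero => simp
    | succ n ih => rw [pow_succ', mul_assoc, h, ih]
  have h2 : Tendsto (fun n : ℕ => E (q ^ n * t)) atTop (𝓝 (E (0 * t))) :=
    (hE.tendsto _).comp ((tendsto_pow_atTop_nhds_zero_of_lt_one hq.le hq1).mul_const t)
  simp only [h1, zero_mul, h0] at h2
  exact tendsto_nhds_unique tendsto_const_nhds h2

lemma f4a_scale {E : ℝ → ℝ} (hE : Continuous E) (h0 : E 0 = 0) {q : ℝ} (hq : 0 < q) (hq1 : q ≠ 1)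
    (h : ∀ t, E (q * t) = E t) (t : ℝ) : E t = 0 := by
  rcases lt_or_gt_of_ne hq1 with h1 | h1
  · exact f4a_scale_lt hE h0 hq h1 h t
  · refine f4a_scale_lt hE h0 (inv_pos.2 hq) (inv_lt_one_of_one_lt₀ h1) (fun t => ?_) t
    have := h (q⁻¹ * t)
    rw [← mul_assoc, mul_inv_cancel₀ hq.ne', one_mul] at this
    exact this.symm

lemma f4a_conj_nn {r : ℝ} (hr : 0 < r) (t : ℝ) :
    dd r * nn t * (dd r)⁻¹ = nn (r ^ 2 * t) := by
  rw [mul_inv_eq_iff_eq_mul]
  apply Subtype.ext
  have h : ((dd r : SL2) : Matrix (Fin 2) (Fin 2) ℝ) = !![r, 0; 0, r⁻¹] := by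
    simp [dd, coe_pp hr.ne']
  simp only [Matrix.SpecialLinearGroup.coe_mul, h, coe_nn]
  ext i j
  fin_cases i <;> fin_cases j <;> simp [Matrix.mul_apply, Fin.sum_univ_two]
  field_simp

lemma f4a_conj_hh {r : ℝ} (hr : 0 < r) (t : ℝ) :
    dd r * hh t * (dd r)⁻¹ = hh ((r ^ 2)⁻¹ * t) := by
  rw [mul_inv_eq_iff_eq_mul]
  apply Subtype.ext
  have h : ((dd r : SL2) : Matrix (Fin 2) (Fin 2) ℝ) = !![r, 0; 0, r⁻¹] := by
    simp [dd, coe_pp hr.ne']
  simp only [Matrix.SpecialLinearGroup.coe_mul, h, coe_hh]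
  ext i j
  fin_cases i <;> fin_cases j <;> simp [Matrix.mul_apply, Fin.sum_univ_two]
  field_simp

lemma f4a_cont_nn : Continuous nn := by
  refine Continuous.subtype_mk ?_ _
  refine continuous_matrix fun i j => ?_
  fin_cases i <;> fin_cases j <;> simp <;> fun_prop

lemma f4a_cont_hh : Continuous hh := by
  refine Continuous.subtype_mk ?_ _
  refine continuous_matrix fun i j => ?_
  fin_cases i <;> fin_cases j <;> simp <;> fun_prop

/-- Mautner. Let `a = dd r`, `r > 0`, `r ≠ 1`. The map `g ↦ mk g • f` is continuous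
(`Mathlib.MeasureTheory.Function.LpSpace.DomAct.Continuous`; instances from `quotient_topology`,
`ContinuousSMul SL2 (SL2 ⧸ Γ)`, the finite measure `ν` on a second countable locally compact Hausdorff space is inner regular).
`(mk a) ^ n • f = f` for all integers `n`, so
`‖mk h • f - f‖ = ‖mk (a⁻ⁿ * h * aⁿ) • f - f‖` for all integers `n` (`DomMulAct` is an isometric action and `mk` reverses
products). For `h = nn t` we have `a⁻ⁿ * nn t * aⁿ = nn (r^(-2n) t)`, for `h = hh s` it is `hh (r^(2n) s)`; letting `n → ∞`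
or `n → -∞` this tends to `1`, so `mk h • f = f`. The set of `g` with `mk g • f = f` is closed under products, so
`SL2_induction` finishes. -/
theorem mautner [DiscreteTopology Γ] {ν : Measure (SL2 ⧸ Γ)} (hν : QM Γ ν) [SMulInvariantMeasure SL2 (SL2 ⧸ Γ) ν]
    [MeasurableConstSMul SL2 (SL2 ⧸ Γ)]
    {r : ℝ} (hr : 0 < r) (hr1 : r ≠ 1) (f : Lp ℝ 2 ν) (hf : DomMulAct.mk (dd r) • f = f) (g : SL2) :
    DomMulAct.mk g • f = f := by
  have hD : Continuous (fun g : SL2 => dist (DomMulAct.mk g • f) f) :=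
    (f4a_cont hν f).dist continuous_const
  have hinv : DomMulAct.mk (dd r)⁻¹ • f = f := by
    conv_lhs => rw [← hf]
    rw [← mul_smul, ← DomMulAct.mk_mul, mul_inv_cancel, DomMulAct.mk_one, one_smul]
  have hconj : ∀ h : SL2, dist (DomMulAct.mk (dd r * h * (dd r)⁻¹) • f) f =
      dist (DomMulAct.mk h • f) f := by
    intro h
    rw [DomMulAct.mk_mul, DomMulAct.mk_mul, mul_smul, mul_smul, hf]
    conv_lhs => rw [← hinv]
    rw [hinv]
    conv_lhs =>
      arg 2
      rw [← hinv]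
    exact DomMulAct.dist_smul_Lp _ _ _
  have hr2 : 0 < r ^ 2 := by positivity
  have hr3 : r ^ 2 ≠ 1 := by
    intro h
    apply hr1
    have : (r - 1) * (r + 1) = 0 := by linear_combination h
    rcases mul_eq_zero.1 this with h | h
    · linarith
    · linarith
  have hnn : ∀ t, dist (DomMulAct.mk (nn t) • f) f = 0 := by
    refine f4a_scale (hD.comp f4a_cont_nn) ?_ hr2 hr3 (fun t => ?_)
    · have : nn 0 = 1 := by
        ext i j
        fin_cases i <;> fin_cases j <;> simp [coe_nn]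
      simp [this]
    · have := hconj (nn t)
      rw [f4a_conj_nn hr] at this
      exact this
  have hhh : ∀ t, dist (DomMulAct.mk (hh t) • f) f = 0 := by
    refine f4a_scale (hD.comp f4a_cont_hh) ?_ (inv_pos.2 hr2) (by simpa using hr3) (fun t => ?_)
    · have : hh 0 = 1 := by
        ext i j
        fin_cases i <;> fin_cases j <;> simp [coe_hh]
      simp [this]
    · have := hconj (hh t)
      rw [f4a_conj_hh hr] at this
      exact this
  refine SL2_induction (P := fun g => DomMulAct.mk g • f = f) (fun s => dist_eq_zero.1 (hhh s))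
    (fun t => dist_eq_zero.1 (hnn t)) (fun g g' h h' => ?_) g
  rw [DomMulAct.mk_mul, mul_smul, h, h']

end H37abf
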