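import Pool.Agent.H.MP_abf1f1_an.F3n

/-!
# Module F4b: invariant functions are constant
-/

namespace H37abf

open MeasureTheory Matrix Filter Topology
open scoped ENNReal Pointwise

variable {Γ : Subgroup SL2}

theorem f4b_measurable_mk : Measurable (fun g : SL2 => (QuotientGroup.mk g : SL2 ⧸ Γ)) :=
  measurable_quotient_mk''

theorem f4b_measurable_smul (g : SL2) : Measurable (fun x : SL2 ⧸ Γ => g • x) := by
  apply measurable_from_quotient.2
  have h : Measurable (fun y : SL2 => (QuotientGroup.mk (g * y) : SL2 ⧸ Γ)) :=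
    f4b_measurable_mk.comp (measurable_const_mul g)
  exact h

/-- Let `F y = f (mk y)`. For every `g`: `F (g y) = F y` for almost all `y`; by Fubini there is `y` with `F (g y) = F y`
for almost all `g`. Right translation by `y` preserves null sets, so `F` is almost everywhere equal to the constant `F y`,
and so is `f` (`QM.null_iff`). -/
theorem const_of_invariant [DiscreteTopology Γ] {ν : Measure (SL2 ⧸ Γ)} (hν : QM Γ ν) {f : SL2 ⧸ Γ → ℝ} (hm : Measurable f)
    (hf : ∀ g : SL2, ∀ᵐ x ∂ν, f (g • x) = f x) : ∃ c : ℝ, ∀ᵐ x ∂ν, f x = c := by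
  have hF : Measurable (fun y : SL2 => f (QuotientGroup.mk y)) := hm.comp f4b_measurable_mk
  -- step 1
  have h1 : ∀ g : SL2, ∀ᵐ y ∂muG, f (QuotientGroup.mk (g * y)) = f (QuotientGroup.mk y) := by
    intro g
    have hs : MeasurableSet {x : SL2 ⧸ Γ | ¬ f (g • x) = f x} :=
      (measurableSet_eq_fun (hm.comp (f4b_measurable_smul g)) hm).compl
    have h2 := (hν.null_iff hs).1 (hf g)
    exact h2
  have hmeas : MeasurableSet {p : SL2 × SL2 | f (QuotientGroup.mk (p.1 * p.2)) = f (QuotientGroup.mk p.2)} :=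
    measurableSet_eq_fun (hF.comp measurable_mul) (hF.comp measurable_snd)
  have h2 : ∀ᵐ y ∂muG, ∀ᵐ g ∂muG, f (QuotientGroup.mk (g * y)) = f (QuotientGroup.mk y) :=
    (Measure.ae_ae_comm (μ := muG) (ν := muG)
      (p := fun g y => f (QuotientGroup.mk (g * y)) = f (QuotientGroup.mk y)) hmeas).1
      (Eventually.of_forall h1)
  obtain ⟨y, hy⟩ := h2.exists
  refine ⟨f (QuotientGroup.mk y), ?_⟩
  have hmz : MeasurableSet {z : SL2 | f (QuotientGroup.mk z) = f (QuotientGroup.mk y)} :=
    measurableSet_eq_fun hF measurable_const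
  have h3 : ∀ᵐ z ∂muG, f (QuotientGroup.mk z) = f (QuotientGroup.mk y) := by
    have h4 : ∀ᵐ z ∂(Measure.map (fun g => g * y) muG), f (QuotientGroup.mk z) = f (QuotientGroup.mk y) :=
      (ae_map_iff (measurable_mul_const y).aemeasurable hmz).2 hy
    rwa [map_mul_right_eq_self] at h4
  have hs : MeasurableSet {x : SL2 ⧸ Γ | ¬ f x = f (QuotientGroup.mk y)} :=
    (measurableSet_eq_fun hm measurable_const).compl
  exact (hν.null_iff hs).2 h3

end H37abf
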