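import Pool.Agent.H.MP_abf1f1_an.F4a
import Pool.Agent.H.MP_abf1f1_an.F4b

/-!
# Module F5a: mean ergodic theorem on the quotient
-/

namespace H37abf

open MeasureTheory Matrix Filter Topology
open scoped ENNReal Pointwise

variable {Γ : Subgroup SL2}

/-- Let `U` be the linear isometry `f ↦ f ∘ (dd r • ·)` of `Lp ℝ 2 ν` (`DomMulAct` or `Lp.compMeasurePreservingₗᵢ`).
`ContinuousLinearMap.tendsto_birkhoffAverage_orthogonalProjection` (Mathlib.Analysis.InnerProductSpace.MeanErgodic): the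
averages of `Uⁿ f` tend to the projection `P f` onto the fixed space. By `mautner` and `const_of_invariant` every fixed vector
is a constant, so `P f = c` and `⟪P f, 1⟫ = ⟪f, 1⟫` gives `c * ν univ = ∫ f`. Take the inner product with `f'`:
the limit is `c * ∫ f'`. -/
theorem mean_ergodic [DiscreteTopology Γ] {ν : Measure (SL2 ⧸ Γ)} (hν : QM Γ ν) {r : ℝ} (hr : 0 < r) (hr1 : r ≠ 1)
    {f f' : SL2 ⧸ Γ → ℝ} (hf : MemLp f 2 ν) (hf' : MemLp f' 2 ν) :
    Tendsto (fun N : ℕ => (N : ℝ)⁻¹ * ∑ n ∈ Finset.range N, ∫ x, f' x * f ((dd r) ^ n • x) ∂ν) atTop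
      (𝓝 ((∫ x, f x ∂ν) * (∫ x, f' x ∂ν) / (ν Set.univ).toReal)) := by
  have h0 : IsClosed (Γ : Set SL2) := isClosed_discrete Γ
  have hB : BorelSpace (SL2 ⧸ Γ) := (quotient_topology Γ).2.2.2
  have hfin := hν.fin
  have hinv := hν.inv
  have hms : MeasurableConstSMul SL2 (SL2 ⧸ Γ) := inferInstance
  let U : Lp ℝ 2 ν →L[ℝ] Lp ℝ 2 ν :=
    (Lp.compMeasurePreservingₗᵢ ℝ (fun x => dd r • x) (measurePreserving_smul (dd r) ν)).toContinuousLinearMap
  have hUsmul : ∀ F : Lp ℝ 2 ν, U F = DomMulAct.mk (dd r) • F := fun F => rfl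
  have hUnorm : ‖U‖ ≤ 1 := by
    apply ContinuousLinearMap.opNorm_le_bound _ zero_le_one
    intro F
    rw [hUsmul, DomMulAct.norm_smul_Lp, one_mul]
  have hiter : ∀ n : ℕ, ∀ F : Lp ℝ 2 ν, (U^[n] F : SL2 ⧸ Γ → ℝ) =ᵐ[ν] fun x => F ((dd r) ^ n • x) := by
    intro n F
    have h1 : U^[n] F = DomMulAct.mk ((dd r) ^ n) • F := by
      induction n with
      | zero => simp
      | succ n ih =>
        rw [Function.iterate_succ_apply', ih, hUsmul, smul_smul, pow_succ, DomMulAct.mk_mul]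
    rw [h1]
    exact DomMulAct.smul_Lp_ae_eq _ _
  set F : Lp ℝ 2 ν := hf.toLp f with hFdef
  set F' : Lp ℝ 2 ν := hf'.toLp f' with hF'def
  have hF : (F : SL2 ⧸ Γ → ℝ) =ᵐ[ν] f := hf.coeFn_toLp
  have hF' : (F' : SL2 ⧸ Γ → ℝ) =ᵐ[ν] f' := hf'.coeFn_toLp
  have hfi : Integrable f ν := hf.integrable (by norm_num)
  have hf'i : Integrable f' ν := hf'.integrable (by norm_num)
  -- the projection
  set S := U.eqLocus (1 : Lp ℝ 2 ν →L[ℝ] Lp ℝ 2 ν) with hS
  have hlim := U.tendsto_birkhoffAverage_orthogonalProjection hUnorm F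
  set P : Lp ℝ 2 ν := (S.orthogonalProjectionOnto F : Lp ℝ 2 ν) with hP
  have hPfix : DomMulAct.mk (dd r) • P = P := by
    have h1 : P ∈ S := (S.orthogonalProjectionOnto F).2
    have h2 : U P = P := by simpa [hS] using h1
    rw [← hUsmul, h2]
  have hPinv : ∀ g : SL2, ∀ᵐ x ∂ν, (P : SL2 ⧸ Γ → ℝ) (g • x) = P x := by
    intro g
    have h1 := mautner hν hr hr1 P hPfix g
    have h2 := DomMulAct.smul_Lp_ae_eq (DomMulAct.mk g) P
    rw [h1] at h2
    filter_upwards [h2] with x hx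
    rw [hx]
    rfl
  obtain ⟨c, hc⟩ : ∃ c : ℝ, ∀ᵐ x ∂ν, (P : SL2 ⧸ Γ → ℝ) x = c := by
    have hsm := Lp.stronglyMeasurable P
    exact const_of_invariant hν hsm.measurable hPinv
  -- the constant function
  set one : Lp ℝ 2 ν := Lp.const 2 ν (1 : ℝ) with hone
  have hone' : (one : SL2 ⧸ Γ → ℝ) =ᵐ[ν] fun _ => 1 := Lp.coeFn_const 2 ν (1 : ℝ)
  have honeS : one ∈ S := by
    have : U one = one := by
      rw [hUsmul, hone]
      exact DomMulAct.smul_Lp_const _ _
    simpa [hS] using this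
  have hinner : inner ℝ one P = inner ℝ one F := by
    have h1 : inner ℝ (⟨one, honeS⟩ : S) (S.orthogonalProjectionOnto F) = inner ℝ one F :=
      Submodule.inner_orthogonalProjectionOnto_eq_of_mem_left ⟨one, honeS⟩ F
    exact h1
  have hcval : c * (ν Set.univ).toReal = ∫ x, f x ∂ν := by
    rw [L2.inner_def, L2.inner_def] at hinner
    have e1 : ∫ x, inner ℝ ((one : SL2 ⧸ Γ → ℝ) x) ((P : SL2 ⧸ Γ → ℝ) x) ∂ν = ∫ x, c ∂ν := by
      apply integral_congr_ae
      filter_upwards [hone', hc] with x h1 h2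
      rw [h1, h2]; simp
    have e2 : ∫ x, inner ℝ ((one : SL2 ⧸ Γ → ℝ) x) ((F : SL2 ⧸ Γ → ℝ) x) ∂ν = ∫ x, f x ∂ν := by
      apply integral_congr_ae
      filter_upwards [hone', hF] with x h1 h2
      rw [h1, h2]; simp
    rw [e1, e2] at hinner
    rw [← hinner, integral_const, smul_eq_mul, mul_comm]
    rfl
  have hpos : 0 < (ν Set.univ).toReal := ENNReal.toReal_pos hν.pos (measure_ne_top _ _)
  have hcv : c = (∫ x, f x ∂ν) / (ν Set.univ).toReal := by
    rw [← hcval]; field_simp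
  -- take inner products
  have hlim2 : Tendsto (fun N : ℕ => inner ℝ F' (birkhoffAverage ℝ U _root_.id N F)) atTop (𝓝 (inner ℝ F' P)) :=
    (Filter.Tendsto.inner tendsto_const_nhds hlim)
  have e3 : inner ℝ F' P = (∫ x, f x ∂ν) * (∫ x, f' x ∂ν) / (ν Set.univ).toReal := by
    rw [L2.inner_def]
    have e1 : ∫ x, inner ℝ ((F' : SL2 ⧸ Γ → ℝ) x) ((P : SL2 ⧸ Γ → ℝ) x) ∂ν = ∫ x, c * f' x ∂ν := by
      apply integral_congr_ae
      filter_upwards [hF', hc] with x h1 h2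
      rw [h1, h2]; simp
    rw [e1, integral_const_mul, hcv]; ring
  rw [e3] at hlim2
  refine hlim2.congr ?_
  intro N
  rw [birkhoffAverage, birkhoffSum, inner_smul_right, inner_sum]
  congr 1
  apply Finset.sum_congr rfl
  intro n _
  rw [L2.inner_def]
  apply integral_congr_ae
  have hq : ∀ᵐ x ∂ν, (F : SL2 ⧸ Γ → ℝ) ((dd r) ^ n • x) = f ((dd r) ^ n • x) :=
    (measurePreserving_smul ((dd r) ^ n) ν).quasiMeasurePreserving.ae hF
  filter_upwards [hiter n F, hF', hq] with x h1 h2 h3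
  simp only [id]
  rw [h1, h2, h3]
  simp [mul_comm]

end H37abf
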