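import Pool.Agent.H.MP_abf1f1_an.F5a

/-!
# Module F5b: mean ergodic theorem for the counting functions
-/

namespace H37abf

open MeasureTheory Matrix Filter Topology
open scoped ENNReal Pointwise

variable {Γ : Subgroup SL2}

theorem f5b_bdd [DiscreteTopology Γ] {A : Set SL2} (hA' : IsCompact (closure A)) :
    ∃ C : ℕ, ∀ x : SL2 ⧸ Γ, PsiQ Γ A x ≤ C := by
  obtain ⟨C, hC⟩ := Psi_bdd Γ hA'
  refine ⟨C, fun x => ?_⟩
  induction x using QuotientGroup.induction_on with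
  | H g => rw [PsiQ_mk]; exact hC g

theorem f5b_memLp [DiscreteTopology Γ] {ν : Measure (SL2 ⧸ Γ)} (hν : QM Γ ν) {A : Set SL2}
    (hA : MeasurableSet A) (hA' : IsCompact (closure A)) :
    MemLp (fun x => (PsiQ Γ A x).toReal) 2 ν := by
  have := hν.fin
  obtain ⟨C, hC⟩ := f5b_bdd (Γ := Γ) hA'
  refine MemLp.of_bound (measurable_PsiQ Γ hA).ennreal_toReal.aestronglyMeasurable (C : ℝ)
    (Eventually.of_forall fun x => ?_)
  rw [Real.norm_of_nonneg ENNReal.toReal_nonneg]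
  have h := ENNReal.toReal_mono (ENNReal.natCast_ne_top C) (hC x)
  rwa [ENNReal.toReal_natCast] at h

theorem f5b_integral [DiscreteTopology Γ] {ν : Measure (SL2 ⧸ Γ)} (hν : QM Γ ν) {A : Set SL2}
    (hA : MeasurableSet A) (hA' : IsCompact (closure A)) :
    ∫ x, (PsiQ Γ A x).toReal ∂ν = (muG A).toReal := by
  obtain ⟨C, hC⟩ := f5b_bdd (Γ := Γ) hA'
  rw [integral_toReal (measurable_PsiQ Γ hA).aemeasurable
    (Eventually.of_forall fun x => lt_of_le_of_lt (hC x) (ENNReal.natCast_lt_top C)),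
    hν.lintegral_PsiQ hA]

theorem f5b_measurable_smul [DiscreteTopology Γ] (g : SL2) :
    Measurable (fun x : SL2 ⧸ Γ => g • x) := by
  obtain ⟨h1, h2, h3, h4⟩ := quotient_topology Γ
  exact (continuous_const_smul g).measurable

/-- `mean_ergodic` with `f x = (PsiQ Γ A x).toReal`, `f' x = (PsiQ Γ B x).toReal`, bounded functions by `Psi_bdd`, and
`QM.lintegral_PsiQ`. -/
theorem mean_ergodic_Psi [DiscreteTopology Γ] {ν : Measure (SL2 ⧸ Γ)} (hν : QM Γ ν) {r : ℝ} (hr : 0 < r) (hr1 : r ≠ 1)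
    {A B : Set SL2} (hA : MeasurableSet A) (hA' : IsCompact (closure A)) (hB : MeasurableSet B)
    (hB' : IsCompact (closure B)) :
    Tendsto (fun N : ℕ => (N : ℝ)⁻¹ * ∑ n ∈ Finset.range N,
        (∫⁻ x, PsiQ Γ B x * PsiQ Γ A ((dd r) ^ n • x) ∂ν).toReal) atTop
      (𝓝 ((muG A).toReal * (muG B).toReal / (ν Set.univ).toReal)) := by
  have h1 := mean_ergodic hν hr hr1 (f5b_memLp hν hA hA') (f5b_memLp hν hB hB')
  rw [f5b_integral hν hA hA', f5b_integral hν hB hB'] at h1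
  obtain ⟨C, hC⟩ := f5b_bdd (Γ := Γ) hA'
  obtain ⟨C', hC'⟩ := f5b_bdd (Γ := Γ) hB'
  have h2 : ∀ n : ℕ, ∫ x, (PsiQ Γ B x).toReal * (PsiQ Γ A ((dd r) ^ n • x)).toReal ∂ν =
      (∫⁻ x, PsiQ Γ B x * PsiQ Γ A ((dd r) ^ n • x) ∂ν).toReal := by
    intro n
    rw [← integral_toReal]
    · refine integral_congr_ae (Eventually.of_forall fun x => ?_)
      exact (ENNReal.toReal_mul).symm
    · exact ((measurable_PsiQ Γ hB).mul
        ((measurable_PsiQ Γ hA).comp (f5b_measurable_smul _))).aemeasurable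
    · refine Eventually.of_forall fun x => ?_
      exact ENNReal.mul_lt_top (lt_of_le_of_lt (hC' x) (ENNReal.natCast_lt_top C'))
        (lt_of_le_of_lt (hC _) (ENNReal.natCast_lt_top C))
  refine h1.congr fun N => ?_
  congr 1
  exact Finset.sum_congr rfl fun n _ => h2 n

/-- `∫⁻ g in W, Psi Γ A (a ^ n * g⁻¹) ∂muG = ∫⁻ g in W⁻¹, Psi Γ A (a ^ n * g) ∂muG` (inversion invariance), which is
`∫⁻ x, PsiQ Γ W⁻¹ x * PsiQ Γ A (a ^ n • x) ∂ν` by `QM.unfold`, and `muG W⁻¹ = muG W`. -/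
theorem ces_W [DiscreteTopology Γ] {ν : Measure (SL2 ⧸ Γ)} (hν : QM Γ ν) {r : ℝ} (hr : 0 < r) (hr1 : r ≠ 1)
    {A W : Set SL2} (hA : MeasurableSet A) (hA' : IsCompact (closure A)) (hW : MeasurableSet W)
    (hW' : IsCompact (closure W)) :
    Tendsto (fun N : ℕ => (N : ℝ)⁻¹ * ∑ n ∈ Finset.range N,
        (∫⁻ g in W, Psi Γ A ((dd r) ^ n * g⁻¹) ∂muG).toReal) atTop
      (𝓝 ((muG A).toReal * (muG W).toReal / (ν Set.univ).toReal)) := by
  have hWi : MeasurableSet W⁻¹ := hW.inv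
  have hWc : IsCompact (closure W⁻¹) := by
    rw [← inv_closure]
    exact hW'.inv
  have h1 := mean_ergodic_Psi hν hr hr1 hA hA' hWi hWc
  rw [muG.measure_inv] at h1
  refine h1.congr fun N => ?_
  congr 1
  refine Finset.sum_congr rfl fun n _ => ?_
  congr 1
  rw [← hν.unfold (fun x => PsiQ Γ A ((dd r) ^ n • x))
    ((measurable_PsiQ Γ hA).comp (f5b_measurable_smul _)) W⁻¹ hWi,
    ← lintegral_indicator hWi, ← lintegral_indicator hW, ← lintegral_inv_eq_self]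
  refine lintegral_congr fun g => ?_
  by_cases hg : g ∈ W
  · rw [Set.indicator_of_mem hg, Set.indicator_of_mem (by simpa using hg)]
    rfl
  · rw [Set.indicator_of_notMem hg, Set.indicator_of_notMem (by simpa using hg)]

end H37abf
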