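import Pool.Agent.H.MP_abf1f1_an.F1

/-!
# Module F7c: Cesaro sandwich
-/

namespace H37abf

open MeasureTheory Matrix Filter Topology
open scoped ENNReal Pointwise

/-- the abstract sandwich: Cesaro means -/
theorem ces_sandwich {x : ℕ → ℝ} {L : ℝ}
    (hup : ∀ ε > 0, ∃ y : ℕ → ℝ, ∃ M : ℝ, M ≤ L + ε ∧ (∀ n, x n ≤ y n) ∧
      Tendsto (fun N : ℕ => (N : ℝ)⁻¹ * ∑ n ∈ Finset.range N, y n) atTop (𝓝 M))
    (hdown : ∀ ε > 0, ∃ y : ℕ → ℝ, ∃ M : ℝ, L - ε ≤ M ∧ (∀ n, y n ≤ x n) ∧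
      Tendsto (fun N : ℕ => (N : ℝ)⁻¹ * ∑ n ∈ Finset.range N, y n) atTop (𝓝 M)) :
    Tendsto (fun N : ℕ => (N : ℝ)⁻¹ * ∑ n ∈ Finset.range N, x n) atTop (𝓝 L) := by
  rw [tendsto_order]
  constructor
  · intro a ha
    obtain ⟨y, M, hM, hy, hT⟩ := hdown ((L - a) / 2) (by linarith)
    have haM : a < M := by linarith
    filter_upwards [(tendsto_order.1 hT).1 a haM] with N hN
    refine lt_of_lt_of_le hN ?_
    exact mul_le_mul_of_nonneg_left (Finset.sum_le_sum fun n _ => hy n) (by positivity)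
  · intro a ha
    obtain ⟨y, M, hM, hy, hT⟩ := hup ((a - L) / 2) (by linarith)
    have haM : M < a := by linarith
    filter_upwards [(tendsto_order.1 hT).2 a haM] with N hN
    refine lt_of_le_of_lt ?_ hN
    exact mul_le_mul_of_nonneg_left (Finset.sum_le_sum fun n _ => hy n) (by positivity)

end H37abf
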