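import Pool.Agent.H.MP_abf1f1_an.F2b3

/-!
# Module F7p: approximation of sets
-/

namespace H37abf

open MeasureTheory Matrix Filter Topology
open scoped ENNReal Pointwise

/-- a relatively compact set whose boundary is a null set is approximated from outside by `U * A` -/
theorem approx_up {A : Set SL2} (hA : IsCompact (closure A)) (hf : muG (frontier A) = 0) {ε : ℝ≥0∞} (hε : ε ≠ 0) :
    ∃ U : Set SL2, IsOpen U ∧ (1 : SL2) ∈ U ∧ IsCompact (closure (U * A)) ∧ muG (U * A) ≤ muG A + ε := by
  have hcl : muG (closure A) ≤ muG A := by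
    have h1 : closure A ⊆ A ∪ frontier A := by
      intro x hx
      by_cases hxA : x ∈ A
      · exact Or.inl hxA
      · exact Or.inr ⟨hx, fun h => hxA (interior_subset h)⟩
    calc muG (closure A) ≤ muG (A ∪ frontier A) := measure_mono h1
      _ ≤ muG A + muG (frontier A) := measure_union_le _ _
      _ = muG A := by rw [hf, add_zero]
  have hfin : muG (closure A) ≠ ∞ := hA.measure_lt_top.ne
  obtain ⟨O, hAO, hO, hOlt⟩ := (closure A).exists_isOpen_lt_of_lt (muG (closure A) + ε)
    (ENNReal.lt_add_right hfin hε)
  obtain ⟨K', hK', hAK'⟩ := exists_compact_superset hA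
  obtain ⟨V, hV, hVO⟩ := compact_open_separated_mul_left hA (hO.inter isOpen_interior)
    (Set.subset_inter hAO hAK')
  have hsub : interior V * A ⊆ O ∩ interior K' :=
    (Set.mul_subset_mul interior_subset subset_closure).trans hVO
  refine ⟨interior V, isOpen_interior, mem_interior_iff_mem_nhds.mpr hV, ?_, ?_⟩
  · refine hK'.of_isClosed_subset isClosed_closure ?_
    exact closure_minimal ((hsub.trans Set.inter_subset_right).trans interior_subset) hK'.isClosed
  · calc muG (interior V * A) ≤ muG O := measure_mono (hsub.trans Set.inter_subset_left)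
      _ ≤ muG (closure A) + ε := hOlt.le
      _ ≤ muG A + ε := by gcongr

/-- a relatively compact set whose boundary is a null set is approximated from inside by the points which stay in `A`
under small left translations -/
theorem approx_down {A : Set SL2} (hA : IsCompact (closure A)) (hf : muG (frontier A) = 0) {ε : ℝ≥0∞} (hε : ε ≠ 0) :
    ∃ U : Set SL2, IsOpen U ∧ (1 : SL2) ∈ U ∧ muG A ≤ muG (U * Aᶜ)ᶜ + ε := by
  have hint : muG A ≤ muG (interior A) := by
    have h1 : A ⊆ interior A ∪ frontier A := by
      intro x hx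
      by_cases hxi : x ∈ interior A
      · exact Or.inl hxi
      · exact Or.inr ⟨subset_closure hx, hxi⟩
    calc muG A ≤ muG (interior A ∪ frontier A) := measure_mono h1
      _ ≤ muG (interior A) + muG (frontier A) := measure_union_le _ _
      _ = muG (interior A) := by rw [hf, add_zero]
  have hfin : muG (interior A) ≠ ∞ :=
    ((measure_mono (interior_subset.trans subset_closure)).trans_lt hA.measure_lt_top).ne
  obtain ⟨K, hKA, hK, hKm⟩ : ∃ K ⊆ interior A, IsCompact K ∧ muG (interior A) ≤ muG K + ε := by
    rcases eq_or_ne (muG (interior A)) 0 with h0 | h0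
    · exact ⟨∅, Set.empty_subset _, isCompact_empty, by rw [h0]; exact zero_le⟩
    · obtain ⟨K, hKA, hK, hlt⟩ := isOpen_interior.exists_lt_isCompact
        (ENNReal.sub_lt_self hfin h0 hε)
      exact ⟨K, hKA, hK, tsub_le_iff_right.mp hlt.le⟩
  obtain ⟨V, hV, hVK⟩ := compact_open_separated_mul_left hK isOpen_interior hKA
  refine ⟨(interior V)⁻¹, isOpen_interior.inv, ?_, ?_⟩
  · rw [Set.mem_inv, inv_one]
    exact mem_interior_iff_mem_nhds.mpr hV
  · have hsub : K ⊆ ((interior V)⁻¹ * Aᶜ)ᶜ := by
      rintro k hk ⟨u, hu, x, hx, rfl⟩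
      apply hx
      apply interior_subset
      apply hVK
      refine ⟨u⁻¹, interior_subset (Set.mem_inv.mp hu), u * x, hk, ?_⟩
      simp
    calc muG A ≤ muG (interior A) := hint
      _ ≤ muG K + ε := hKm
      _ ≤ muG ((interior V)⁻¹ * Aᶜ)ᶜ + ε := by gcongr

end H37abf
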