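import Pool.Agent.H.MP_abf1f1_an.F2b3

/-!
# Module F7l: change of variables
-/

namespace H37abf

open MeasureTheory Matrix Filter Topology
open scoped ENNReal Pointwise

/-- change of variables: `∫⁻ g in Phi '' (Icc 0 1 ×ˢ E), f g ∂muG = ∫⁻ q in E, ∫⁻ s in Icc 0 1, f (Phi (s, q))`
(`muG = map Phi volume`, `Phi` injective on `a ≠ 0`, Tonelli). -/
theorem lintegral_thick {E : Set (ℝ × ℝ)} (hE : MeasurableSet E) (h0 : ∀ q ∈ E, q.1 ≠ 0) {f : SL2 → ℝ≥0∞}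
    (hf : Measurable f) :
    ∫⁻ g in Phi '' (Set.Icc 0 1 ×ˢ E), f g ∂muG = ∫⁻ q in E, ∫⁻ s in Set.Icc (0 : ℝ) 1, f (Phi (s, q)) := by
  have hB : MeasurableSet ((Set.Icc (0 : ℝ) 1) ×ˢ E) := measurableSet_Icc.prod hE
  have h0' : ∀ q ∈ (Set.Icc (0 : ℝ) 1) ×ˢ E, q.2.1 ≠ 0 := fun q hq => h0 q.2 hq.2
  have hI := measurableSet_Phi_image hB h0'
  have h1 : ∫⁻ g in Phi '' (Set.Icc 0 1 ×ˢ E), f g ∂muG =
      ∫⁻ q, (Phi '' (Set.Icc 0 1 ×ˢ E)).indicator f (Phi q) := by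
    rw [← lintegral_indicator hI]
    unfold muG
    rw [lintegral_map (hf.indicator hI) measurable_Phi]
  have h2 : ∫⁻ q, (Phi '' (Set.Icc 0 1 ×ˢ E)).indicator f (Phi q) =
      ∫⁻ q, ((Set.Icc (0 : ℝ) 1) ×ˢ E).indicator (fun q => f (Phi q)) q := by
    refine lintegral_congr_ae ?_
    filter_upwards [ae_ne_zero] with q hq
    by_cases hqB : q ∈ (Set.Icc (0 : ℝ) 1) ×ˢ E
    · rw [Set.indicator_of_mem hqB, Set.indicator_of_mem (Set.mem_image_of_mem _ hqB)]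
    · rw [Set.indicator_of_notMem hqB, Set.indicator_of_notMem]
      rintro ⟨q', hq', e⟩
      have : q' = q := Phi_inj (h0' q' hq') hq e
      exact hqB (this ▸ hq')
  rw [h1, h2, lintegral_indicator hB, Measure.volume_eq_prod, ← Measure.prod_restrict]
  exact lintegral_prod_symm (fun q => f (Phi q)) (hf.comp measurable_Phi).aemeasurable

end H37abf
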