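import Pool.Agent.H.MP_abf1f1_an.F7t
import Pool.Agent.H.MP_abf1f1_an.F7l
import Pool.Agent.H.MP_abf1f1_an.F3a

/-!
# Module F7s: the sandwich inequalities
-/

namespace H37abf

open MeasureTheory Matrix Filter Topology
open scoped ENNReal Pointwise

variable {Γ : Subgroup SL2}

/-- If `u ∈ U` then `Psi Γ A y ≤ Psi Γ (U * A) (u * y)`. -/
theorem Psi_le_up {U A : Set SL2} {u : SL2} (hu : u ∈ U) (y : SL2) : Psi Γ A y ≤ Psi Γ (U * A) (u * y) := by
  unfold Psi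
  refine ENNReal.tsum_le_tsum fun γ => ?_
  by_cases h : y * (γ : SL2) ∈ A
  · have h2 : u * y * (γ : SL2) ∈ U * A := by
      rw [mul_assoc]
      exact Set.mul_mem_mul hu h
    rw [Set.indicator_of_mem h, Set.indicator_of_mem h2]
  · rw [Set.indicator_of_notMem h]
    exact zero_le

/-- If `u ∈ U` then `Psi Γ (U * Aᶜ)ᶜ (u * y) ≤ Psi Γ A y`. -/
theorem Psi_le_down {U A : Set SL2} {u : SL2} (hu : u ∈ U) (y : SL2) : Psi Γ (U * Aᶜ)ᶜ (u * y) ≤ Psi Γ A y := by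
  unfold Psi
  refine ENNReal.tsum_le_tsum fun γ => ?_
  by_cases h : y * (γ : SL2) ∈ A
  · rw [Set.indicator_of_mem h]
    exact Set.indicator_le_self' (fun _ _ => zero_le) _
  · have h2 : u * y * (γ : SL2) ∉ (U * Aᶜ)ᶜ := by
      rw [Set.notMem_compl_iff, mul_assoc]
      exact Set.mul_mem_mul hu h
    rw [Set.indicator_of_notMem h, Set.indicator_of_notMem h2]

/-- the translated counting function is measurable in `g` -/
theorem f7s_meas [DiscreteTopology Γ] {B : Set SL2} (hB : MeasurableSet B) (a : SL2) :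
    Measurable fun g : SL2 => Psi Γ B (a * g⁻¹) := by
  have hc : Continuous fun g : SL2 => a * g⁻¹ := continuous_const.mul continuous_inv
  exact (measurable_Psi Γ hB).comp hc.measurable

/-- With the `E` of `exists_thick`, `lintegral_thick` and `Psi_le_up`. `U * A` is open. -/
theorem sandwich_up [DiscreteTopology Γ] {ρ : ℝ} (hρ : 1 < ρ) {U : Set SL2} (hU : IsOpen U) (h1 : (1 : SL2) ∈ U)
    (A : Set SL2) :
    ∃ W : Set SL2, MeasurableSet W ∧ IsCompact (closure W) ∧ muG W ≠ 0 ∧ muG W ≠ ∞ ∧ ∀ n : ℕ,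
      muG W * ∫⁻ s in Set.Icc (0 : ℝ) 1, Psi Γ A ((dd ρ⁻¹) ^ n * hh (-s)) ≤
        ∫⁻ g in W, Psi Γ (U * A) ((dd ρ⁻¹) ^ n * g⁻¹) ∂muG := by
  obtain ⟨E, hE, hE2, hE0, hE1, hW, hWc, hWv, hn⟩ := exists_thick hρ hU h1
  refine ⟨Phi '' (Set.Icc 0 1 ×ˢ E), hW, hWc, ?_, ?_, fun n => ?_⟩
  · rw [hWv]
    exact hE0.ne'
  · rw [hWv]
    exact hE1.ne
  · have hq0 : ∀ q ∈ E, q.1 ≠ 0 := by
      intro q hq h
      have := hE2 q hq
      rw [h] at this
      norm_num at this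
    rw [lintegral_thick hE hq0 (f7s_meas (hU.mul_right).measurableSet ((dd ρ⁻¹) ^ n)), hWv,
      mul_comm, ← setLIntegral_const]
    refine setLIntegral_mono' hE fun q hq => lintegral_mono fun s => ?_
    obtain ⟨u, hu, he⟩ := hn n s q hq
    rw [he]
    exact Psi_le_up hu _

theorem sandwich_down [DiscreteTopology Γ] {ρ : ℝ} (hρ : 1 < ρ) {U : Set SL2} (hU : IsOpen U) (h1 : (1 : SL2) ∈ U)
    (A : Set SL2) :
    ∃ W : Set SL2, MeasurableSet W ∧ IsCompact (closure W) ∧ muG W ≠ 0 ∧ muG W ≠ ∞ ∧ ∀ n : ℕ,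
      ∫⁻ g in W, Psi Γ (U * Aᶜ)ᶜ ((dd ρ⁻¹) ^ n * g⁻¹) ∂muG ≤
        muG W * ∫⁻ s in Set.Icc (0 : ℝ) 1, Psi Γ A ((dd ρ⁻¹) ^ n * hh (-s)) := by
  obtain ⟨E, hE, hE2, hE0, hE1, hW, hWc, hWv, hn⟩ := exists_thick hρ hU h1
  refine ⟨Phi '' (Set.Icc 0 1 ×ˢ E), hW, hWc, ?_, ?_, fun n => ?_⟩
  · rw [hWv]
    exact hE0.ne'
  · rw [hWv]
    exact hE1.ne
  · have hq0 : ∀ q ∈ E, q.1 ≠ 0 := by
      intro q hq h
      have := hE2 q hq
      rw [h] at this
      norm_num at this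
    rw [lintegral_thick hE hq0 (f7s_meas (hU.mul_right).measurableSet.compl ((dd ρ⁻¹) ^ n)), hWv,
      mul_comm, ← setLIntegral_const]
    refine setLIntegral_mono' hE fun q hq => lintegral_mono fun s => ?_
    obtain ⟨u, hu, he⟩ := hn n s q hq
    rw [he]
    exact Psi_le_down hu _

end H37abf
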