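import Pool.Agent.H.MP_abf1f1_an.F5b
import Pool.Agent.H.MP_abf1f1_an.F3m
import Pool.Agent.H.MP_abf1f1_an.F7s
import Pool.Agent.H.MP_abf1f1_an.F7p
import Pool.Agent.H.MP_abf1f1_an.F7c

/-!
# Module F7e: the equidistribution theorem
-/

namespace H37abf

open MeasureTheory Matrix Filter Topology
open scoped ENNReal Pointwise

variable {Γ : Subgroup SL2}

/-- The integral of a bounded function over a set of finite measure is finite. -/
theorem f7e_fin {A W : Set SL2} (φ : SL2 → SL2) {C : ℕ} (hC : ∀ g, Psi Γ A g ≤ C) (hW : muG W ≠ ∞) :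
    ∫⁻ g in W, Psi Γ A (φ g) ∂muG ≠ ∞ := by
  have h1 : ∫⁻ g in W, Psi Γ A (φ g) ∂muG ≤ ∫⁻ _ in W, (C : ℝ≥0∞) ∂muG :=
    lintegral_mono fun g => hC _
  rw [setLIntegral_const] at h1
  exact ne_top_of_le_ne_top (ENNReal.mul_ne_top (ENNReal.natCast_ne_top _) hW) h1

theorem f7e_fin2 {A : Set SL2} (φ : ℝ → SL2) {C : ℕ} (hC : ∀ g, Psi Γ A g ≤ C) :
    ∫⁻ s in Set.Icc (0 : ℝ) 1, Psi Γ A (φ s) ≠ ∞ := by
  have h1 : ∫⁻ s in Set.Icc (0 : ℝ) 1, Psi Γ A (φ s) ≤ ∫⁻ _ in Set.Icc (0 : ℝ) 1, (C : ℝ≥0∞) :=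
    lintegral_mono fun g => hC _
  rw [setLIntegral_const] at h1
  refine ne_top_of_le_ne_top (ENNReal.mul_ne_top (ENNReal.natCast_ne_top _) ?_) h1
  simp

/-- The equidistribution theorem. `V = (ν univ).toReal` with `ν` from `exists_QM`. The second statement is `packing` for the
measure `ν` (`QM.lintegral_PsiQ`: `muG A = ∫⁻ PsiQ Γ A ≤ C * ν univ`). Third: `ces_sandwich` with
`y n = (∫⁻ g in W, Psi Γ (U * A) ((dd ρ⁻¹) ^ n * g⁻¹) ∂muG).toReal / (muG W).toReal` (`sandwich_up`, `ces_W`, `approx_up`) and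
`y n = (∫⁻ g in W, Psi Γ (U * Aᶜ)ᶜ ((dd ρ⁻¹) ^ n * g⁻¹) ∂muG).toReal / (muG W).toReal`
(`sandwich_down`, `ces_W`, `approx_down`; `(U * Aᶜ)ᶜ ⊆ A`). All integrals are finite by `Psi_bdd`. -/
theorem equidistribution [DiscreteTopology Γ] (h : FiniteCovol Γ) : ∃ V : ℝ, 0 < V ∧
    (∀ A : Set SL2, MeasurableSet A → ∀ C : ℝ≥0∞, (∀ g, Psi Γ A g ≤ C) → muG A ≤ C * ENNReal.ofReal V) ∧
    ∀ ρ : ℝ, 1 < ρ → ∀ A : Set SL2, MeasurableSet A → IsCompact (closure A) → muG (frontier A) = 0 →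
      Tendsto (fun N : ℕ => (N : ℝ)⁻¹ * ∑ n ∈ Finset.range N,
        (∫⁻ s in Set.Icc (0 : ℝ) 1, Psi Γ A ((dd ρ⁻¹) ^ n * hh (-s))).toReal) atTop (𝓝 ((muG A).toReal / V)) := by
  obtain ⟨ν, hν⟩ := exists_QM Γ h
  have hfin := hν.fin
  have hV : 0 < (ν Set.univ).toReal := ENNReal.toReal_pos hν.pos (measure_ne_top _ _)
  refine ⟨(ν Set.univ).toReal, hV, ?_, ?_⟩
  · intro A hA C hC
    rw [ENNReal.ofReal_toReal (measure_ne_top _ _), ← QM.lintegral_PsiQ hν hA, ← lintegral_const]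
    apply lintegral_mono
    intro x
    induction x using QuotientGroup.induction_on with
    | H g => exact hC g
  · intro ρ hρ A hA hAc hfr
    have hr : (0 : ℝ) < ρ⁻¹ := by positivity
    have hr1 : ρ⁻¹ ≠ 1 := by
      intro e
      have : ρ = 1 := by rw [← inv_inv ρ, e, inv_one]
      linarith
    have hAfin : muG A ≠ ∞ := ne_top_of_le_ne_top hAc.measure_lt_top.ne (measure_mono subset_closure)
    obtain ⟨CA, hCA⟩ := Psi_bdd Γ hAc
    set V := (ν Set.univ).toReal with hVdef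
    apply ces_sandwich
    · intro ε hε
      have hε' : 0 < ε * V := mul_pos hε hV
      obtain ⟨U, hUo, hU1, hUc, hUm⟩ := approx_up hAc hfr (ε := ENNReal.ofReal (ε * V))
        (by simpa using hε')
      obtain ⟨W, hWm, hWc, hW0, hWt, hW⟩ := sandwich_up (Γ := Γ) hρ hUo hU1 A
      have hUA : MeasurableSet (U * A) := (hUo.mul_right).measurableSet
      obtain ⟨C, hC⟩ := Psi_bdd Γ hUc
      have hWpos : 0 < (muG W).toReal := ENNReal.toReal_pos hW0 hWt
      refine ⟨fun n => (∫⁻ g in W, Psi Γ (U * A) ((dd ρ⁻¹) ^ n * g⁻¹) ∂muG).toReal / (muG W).toReal,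
        (muG (U * A)).toReal / V, ?_, ?_, ?_⟩
      · rw [div_add' _ _ _ hV.ne']
        apply div_le_div_of_nonneg_right _ hV.le
        have h1 : (muG (U * A)).toReal ≤ (muG A + ENNReal.ofReal (ε * V)).toReal :=
          ENNReal.toReal_mono (by finiteness) hUm
        rwa [ENNReal.toReal_add hAfin ENNReal.ofReal_ne_top, ENNReal.toReal_ofReal hε'.le] at h1
      · intro n
        rw [le_div_iff₀ hWpos]
        have h1 := ENNReal.toReal_mono (f7e_fin (fun g => (dd ρ⁻¹) ^ n * g⁻¹) hC hWt) (hW n)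
        rw [ENNReal.toReal_mul] at h1
        linarith
      · have h1 := ces_W hν hr hr1 hUA hUc hWm hWc
        have h2 := h1.div_const (muG W).toReal
        have e1 : (muG (U * A)).toReal * (muG W).toReal / (ν Set.univ).toReal / (muG W).toReal =
            (muG (U * A)).toReal / V := by
          rw [hVdef]; field_simp
        rw [e1] at h2
        refine h2.congr fun N => ?_
        rw [← Finset.sum_div, mul_div_assoc]
    · intro ε hε
      have hε' : 0 < ε * V := mul_pos hε hV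
      obtain ⟨U, hUo, hU1, hUm⟩ := approx_down hAc hfr (ε := ENNReal.ofReal (ε * V))
        (by simpa using hε')
      obtain ⟨W, hWm, hWc, hW0, hWt, hW⟩ := sandwich_down (Γ := Γ) hρ hUo hU1 A
      have hsub : (U * Aᶜ)ᶜ ⊆ A := by
        intro x hx
        by_contra hxA
        exact hx ⟨1, hU1, x, hxA, one_mul x⟩
      have hUA : MeasurableSet (U * Aᶜ)ᶜ := ((hUo.mul_right).measurableSet).compl
      have hUc : IsCompact (closure ((U * Aᶜ)ᶜ)) :=
        hAc.of_isClosed_subset isClosed_closure (closure_mono hsub)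
      obtain ⟨C, hC⟩ := Psi_bdd Γ hUc
      have hWpos : 0 < (muG W).toReal := ENNReal.toReal_pos hW0 hWt
      refine ⟨fun n => (∫⁻ g in W, Psi Γ (U * Aᶜ)ᶜ ((dd ρ⁻¹) ^ n * g⁻¹) ∂muG).toReal / (muG W).toReal,
        (muG (U * Aᶜ)ᶜ).toReal / V, ?_, ?_, ?_⟩
      · rw [sub_le_iff_le_add, div_add' _ _ _ hV.ne']
        apply div_le_div_of_nonneg_right _ hV.le
        have hfin2 : muG (U * Aᶜ)ᶜ ≠ ∞ := ne_top_of_le_ne_top hAfin (measure_mono hsub)
        have h1 : (muG A).toReal ≤ (muG (U * Aᶜ)ᶜ + ENNReal.ofReal (ε * V)).toReal :=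
          ENNReal.toReal_mono (by finiteness) hUm
        rwa [ENNReal.toReal_add hfin2 ENNReal.ofReal_ne_top, ENNReal.toReal_ofReal hε'.le] at h1
      · intro n
        rw [div_le_iff₀ hWpos]
        have hfin3 : muG W * ∫⁻ s in Set.Icc (0 : ℝ) 1, Psi Γ A ((dd ρ⁻¹) ^ n * hh (-s)) ≠ ∞ :=
          ENNReal.mul_ne_top hWt (f7e_fin2 (fun s => (dd ρ⁻¹) ^ n * hh (-s)) hCA)
        have h1 := ENNReal.toReal_mono hfin3 (hW n)
        rw [ENNReal.toReal_mul] at h1
        linarith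
      · have h1 := ces_W hν hr hr1 hUA hUc hWm hWc
        have h2 := h1.div_const (muG W).toReal
        have e1 : (muG (U * Aᶜ)ᶜ).toReal * (muG W).toReal / (ν Set.univ).toReal / (muG W).toReal =
            (muG (U * Aᶜ)ᶜ).toReal / V := by
          rw [hVdef]; field_simp
        rw [e1] at h2
        refine h2.congr fun N => ?_
        rw [← Finset.sum_div, mul_div_assoc]

end H37abf
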