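import Pool.Agent.H.MP_abf1f1_an.F2b3

/-!
# Module F7t: thickening in the direction of the upper triangular group
-/

namespace H37abf

open MeasureTheory Matrix Filter Topology
open scoped ENNReal Pointwise

variable {Γ : Subgroup SL2}

theorem f7t_dd_mul {x y : ℝ} (hx : x ≠ 0) (hy : y ≠ 0) : dd x * dd y = dd (x * y) := by
  have hxy : x * y ≠ 0 := mul_ne_zero hx hy
  ext i j
  fin_cases i <;> fin_cases j <;>
    simp [dd, coe_pp hx, coe_pp hy, coe_pp hxy, mul_comm]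

/-- powers of diagonal matrices -/
theorem f7t_dd_pow {r : ℝ} (hr : r ≠ 0) (n : ℕ) : (dd r) ^ n = dd (r ^ n) := by
  induction n with
  | zero =>
    ext i j
    fin_cases i <;> fin_cases j <;> simp [dd, coe_pp (one_ne_zero : (1 : ℝ) ≠ 0)]
  | succ k ih =>
    have hk : r ^ k ≠ 0 := pow_ne_zero k hr
    rw [pow_succ, ih, f7t_dd_mul hk hr, pow_succ]

theorem f7t_comm {r : ℝ} (hr : r ≠ 0) {x : ℝ} (hx : x ≠ 0) (y : ℝ) :
    pp x (r ^ 2 * y) * dd r = dd r * pp x y := by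
  ext i j
  fin_cases i <;> fin_cases j <;>
    simp [dd, coe_pp hx, coe_pp hr, mul_comm]
  field_simp

theorem f7t_hh_inv (s : ℝ) : (hh s)⁻¹ = hh (-s) := by
  have h : hh (-s) * hh s = 1 := by
    rw [← hh_add]
    ext i j
    fin_cases i <;> fin_cases j <;> simp [coe_hh]
  exact inv_eq_of_mul_eq_one_left h

/-- `dd (ρ⁻¹)^n = dd ((ρ^n)⁻¹)`; conjugation of `(pp x y)⁻¹ = [[1/x,-y],[0,x]]` multiplies the upper right entry by
`ρ^(-2n)`. -/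
theorem conj_pp {ρ : ℝ} (hρ : 1 < ρ) (n : ℕ) {x : ℝ} (hx : x ≠ 0) (y : ℝ) :
    (dd ρ⁻¹) ^ n * (pp x y)⁻¹ = (pp x (((ρ ^ n)⁻¹) ^ 2 * y))⁻¹ * (dd ρ⁻¹) ^ n := by
  have hρ0 : ρ ≠ 0 := by positivity
  have hr : (ρ ^ n)⁻¹ ≠ 0 := inv_ne_zero (pow_ne_zero n hρ0)
  rw [f7t_dd_pow (inv_ne_zero hρ0) n, inv_pow]
  have h := f7t_comm hr hx y
  rw [mul_inv_eq_iff_eq_mul, mul_assoc, eq_inv_mul_iff_mul_eq]
  exact h

/-- Let `E = {(a,b) | |a - 1| < ε, |b| < ε}` with `ε` so small that `ε < 1/2` and `(pp a b)⁻¹ ∈ U` for `(a,b) ∈ E`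
(continuity of `(a,b) ↦ (pp a b)⁻¹` at `(1,0)`). `W = Phi '' (Icc 0 1 ×ˢ E)`, `muG W = volume E`. For `g = hh s * pp a b`:
`a₀ⁿ g⁻¹ = (pp a b')⁻¹ * (a₀ⁿ hh(-s))` with `(a,b') ∈ E` (`conj_pp`). -/
theorem exists_thick {ρ : ℝ} (hρ : 1 < ρ) {U : Set SL2} (hU : IsOpen U) (h1 : (1 : SL2) ∈ U) :
    ∃ E : Set (ℝ × ℝ), MeasurableSet E ∧ (∀ q ∈ E, 1 / 2 ≤ q.1) ∧ 0 < volume E ∧ volume E < ∞ ∧
      MeasurableSet (Phi '' (Set.Icc 0 1 ×ˢ E)) ∧ IsCompact (closure (Phi '' (Set.Icc 0 1 ×ˢ E))) ∧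
      muG (Phi '' (Set.Icc 0 1 ×ˢ E)) = volume E ∧
      ∀ n : ℕ, ∀ s : ℝ, ∀ q ∈ E, ∃ u ∈ U, (dd ρ⁻¹) ^ n * (Phi (s, q))⁻¹ = u * ((dd ρ⁻¹) ^ n * hh (-s)) := by
  have hopen : IsOpen {q : ℝ × ℝ | q.1 ≠ 0} := isOpen_ne.preimage continuous_fst
  have hpp1 : pp 1 0 = 1 := by
    ext i j
    fin_cases i <;> fin_cases j <;> simp [coe_pp (one_ne_zero : (1 : ℝ) ≠ 0)]
  have hc : ContinuousAt (fun q : ℝ × ℝ => (pp q.1 q.2)⁻¹) ((1 : ℝ), (0 : ℝ)) := by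
    have h := continuousOn_pp.continuousAt (hopen.mem_nhds (show ((1 : ℝ), (0 : ℝ)) ∈ {q : ℝ × ℝ | q.1 ≠ 0} from
      one_ne_zero))
    exact h.inv
  have hmem : (fun q : ℝ × ℝ => (pp q.1 q.2)⁻¹) ⁻¹' U ∈ 𝓝 ((1 : ℝ), (0 : ℝ)) := by
    apply hc.preimage_mem_nhds
    apply hU.mem_nhds
    simpa [hpp1] using h1
  obtain ⟨ε0, hε0, hb⟩ := Metric.mem_nhds_iff.mp hmem
  set ε : ℝ := min ε0 (1 / 2) with hε
  have hεpos : 0 < ε := lt_min hε0 (by norm_num)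
  have hεle : ε ≤ 1 / 2 := min_le_right _ _
  have hsub : Metric.ball ((1 : ℝ), (0 : ℝ)) ε ⊆ (fun q : ℝ × ℝ => (pp q.1 q.2)⁻¹) ⁻¹' U :=
    (Metric.ball_subset_ball (min_le_left _ _)).trans hb
  have hfst : ∀ q ∈ Metric.closedBall ((1 : ℝ), (0 : ℝ)) ε, 1 / 2 ≤ q.1 := by
    intro q hq
    rw [Metric.mem_closedBall, Prod.dist_eq] at hq
    have h2 : dist q.1 1 ≤ ε := (le_max_left _ _).trans hq
    rw [Real.dist_eq, abs_le] at h2
    linarith [h2.1]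
  have hne : ∀ q ∈ (Set.Icc (0 : ℝ) 1 ×ˢ Metric.closedBall ((1 : ℝ), (0 : ℝ)) ε), q.2.1 ≠ 0 := by
    intro q hq
    have := hfst q.2 hq.2
    linarith
  have hne' : ∀ q ∈ (Set.Icc (0 : ℝ) 1 ×ˢ Metric.ball ((1 : ℝ), (0 : ℝ)) ε), q.2.1 ≠ 0 := by
    intro q hq
    exact hne q ⟨hq.1, Metric.ball_subset_closedBall hq.2⟩
  have hmB : MeasurableSet (Set.Icc (0 : ℝ) 1 ×ˢ Metric.ball ((1 : ℝ), (0 : ℝ)) ε) :=
    measurableSet_Icc.prod measurableSet_ball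
  refine ⟨Metric.ball ((1 : ℝ), (0 : ℝ)) ε, measurableSet_ball, ?_, ?_, ?_, ?_, ?_, ?_, ?_⟩
  · intro q hq
    exact hfst q (Metric.ball_subset_closedBall hq)
  · exact Metric.measure_ball_pos volume _ hεpos
  · exact measure_ball_lt_top
  · exact measurableSet_Phi_image hmB hne'
  · have hK : IsCompact (Phi '' (Set.Icc (0 : ℝ) 1 ×ˢ Metric.closedBall ((1 : ℝ), (0 : ℝ)) ε)) := by
      apply (isCompact_Icc.prod (isCompact_closedBall _ _)).image_of_continuousOn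
      exact continuousOn_Phi.mono (fun q hq => hne q hq)
    apply hK.closure_of_subset
    apply Set.image_mono
    exact Set.prod_mono le_rfl Metric.ball_subset_closedBall
  · rw [muG_Phi_image hmB hne', Measure.volume_eq_prod, Measure.prod_prod, Real.volume_Icc]
    simp
  · intro n s q hq
    obtain ⟨a, b⟩ := q
    have ha : a ≠ 0 := by
      have := hfst (a, b) (Metric.ball_subset_closedBall hq)
      simp only at this
      linarith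
    refine ⟨(pp a (((ρ ^ n)⁻¹) ^ 2 * b))⁻¹, ?_, ?_⟩
    · apply hsub (show (a, ((ρ ^ n)⁻¹) ^ 2 * b) ∈ Metric.ball ((1 : ℝ), (0 : ℝ)) ε from ?_)
      rw [Metric.mem_ball, Prod.dist_eq, max_lt_iff] at hq ⊢
      refine ⟨hq.1, ?_⟩
      have h2 := hq.2
      simp only [Real.dist_eq, sub_zero] at h2 ⊢
      rw [abs_mul]
      have hp : 1 ≤ ρ ^ n := one_le_pow₀ hρ.le
      have hq1 : (ρ ^ n)⁻¹ ≤ 1 := inv_le_one_of_one_le₀ hp
      have hq0 : 0 ≤ (ρ ^ n)⁻¹ := by positivity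
      have hq2 : |((ρ ^ n)⁻¹) ^ 2| ≤ 1 := by
        rw [abs_of_nonneg (by positivity)]
        exact pow_le_one₀ hq0 hq1
      calc |((ρ ^ n)⁻¹) ^ 2| * |b| ≤ 1 * |b| := by
            exact mul_le_mul_of_nonneg_right hq2 (abs_nonneg b)
        _ = |b| := one_mul _
        _ < ε := h2
    · show (dd ρ⁻¹) ^ n * (hh s * pp a b)⁻¹ = _
      rw [_root_.mul_inv_rev, f7t_hh_inv, ← mul_assoc, conj_pp hρ n ha b, mul_assoc]

end H37abf
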