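import Pool.Agent.H.MP_abf1f1_an.Trap

/-! MP_abf1f1_an, module A: finiteness of the vectors of straight paths between two points. -/

set_option autoImplicit false

open scoped Topology
open Set Filter

namespace H37abf

variable {X : Type} [TopologicalSpace X] [T2Space X] [CompactSpace X] (Φ : Flat X)

/-- The difference of two primitives takes finitely many values on a compact set. PROOF. It is locally
constant there (`Φ.sub`), and continuous images of compact sets which are locally constant are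
finite: cover the compact set by finitely many open sets on which the difference is constant. -/
theorem Flat.diff_finite {K : Set X} (hK : IsCompact K) {F F' : X → ℂ} (h : ∀ y ∈ K, Φ.P y F)
    (h' : ∀ y ∈ K, Φ.P y F') : ((fun y => F y - F' y) '' K).Finite := by
  obtain ⟨t, hcov⟩ := hK.elim_nhds_subcover' (fun y _ => {z | F z - F' z = F y - F' y})
    (fun y hy => Φ.sub y F F' (h y hy) (h' y hy))
  refine Set.Finite.subset ((t.image (fun y : K => F y.1 - F' y.1)).finite_toSet) ?_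
  rintro _ ⟨z, hz, rfl⟩
  obtain ⟨y, hy, hzy⟩ := Set.mem_iUnion₂.1 (hcov hz)
  simp only [Finset.coe_image, Set.mem_image, Finset.mem_coe]
  exact ⟨y, hy, (hzy : F z - F' z = F y.1 - F' y.1).symm⟩

/-- PROOF. Choose traps `T i` (`i` in a finite set `I`) whose `V`s cover `X` (`exists_trap` with
`W = univ`, compactness), and `N ≥ 1` with `C / N < (T i).δ` for all `i`. Define finite sets
`A k ⊆ I × ℂ`: `A 0 = {(i, F_i x) | i ∈ I}`, `A (k + 1) = {(j, c + d) | (i, c) ∈ A k, d ∈ D i j}`,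
`D i j` = the values of `F_j - F_i` on `K_i ∩ K_j` (`diff_finite`; `K_i ∩ K_j` is compact). Let `γ` be a
straight path from `x` to `y` with vector `v`, `|v| ≤ C`. For all `k ≤ N` and all `i` with
`γ (k / N) ∈ V_i`: `(i, F_i (γ (k/N)) - (k/N) v) ∈ A k`. Induction on `k`: choose `i` with
`γ (k/N) ∈ V_i`; then `γ ((k+1)/N) ∈ K_i` and `F_i (γ ((k+1)/N)) - F_i (γ (k/N)) = v/N` by the trap
property, so `F_j (γ ((k+1)/N)) - ((k+1)/N) v = (F_i (γ (k/N)) - (k/N) v) + (F_j - F_i) (γ ((k+1)/N))`.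
For `k = N`: `v = F_i y - c` with `(i, c) ∈ A N`. -/
theorem Flat.join_finite (x y : X) (C : ℝ) : {v : ℂ | ‖v‖ ≤ C ∧ Φ.Join x y v}.Finite := by
  classical
  have hex : ∀ z : X, Nonempty (Φ.Trap z) := fun z => by
    obtain ⟨T, -⟩ := Φ.exists_trap z (W := univ) univ_mem
    exact ⟨T⟩
  have T' : ∀ z : X, Φ.Trap z := fun z => Classical.choice (hex z)
  obtain ⟨t, -, hcov⟩ := (isCompact_univ (X := X)).elim_nhds_subcover (fun z => (T' z).V)
    (fun z _ => (T' z).hV)
  have hN : ∀ᶠ N : ℕ in atTop, ∀ z ∈ t, C / (N : ℝ) < (T' z).δ := by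
    rw [Filter.eventually_all_finset]
    intro z _
    have h1 : Tendsto (fun N : ℕ => C / (N : ℝ)) atTop (𝓝 0) := tendsto_const_div_atTop_nhds_zero_nat C
    exact h1.eventually_lt_const (T' z).δpos
  obtain ⟨N, hN, hN0⟩ := (hN.and (eventually_gt_atTop 0)).exists
  have hN0' : (0 : ℝ) < N := by exact_mod_cast hN0
  set S : ℕ → Set (X × ℂ) := fun k => {p | p.1 ∈ t ∧ ∃ (γ : ℝ → X) (v : ℂ), ‖v‖ ≤ C ∧ Φ.Str γ v 0 1 ∧
    γ 0 = x ∧ γ ((k : ℝ) / N) ∈ (T' p.1).V ∧
    p.2 = (T' p.1).F (γ ((k : ℝ) / N)) - (((k : ℝ) / N : ℝ) : ℂ) * v} with hS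
  have hfin : ∀ k : ℕ, k ≤ N → (S k).Finite := by
    intro k
    induction k with
    | zero =>
      intro _
      refine Set.Finite.subset ((t.image (fun i => (i, (T' i).F x))).finite_toSet) ?_
      rintro ⟨i, c⟩ ⟨hi, γ, v, hv, hγ, h0, hV, hc⟩
      simp only [Finset.coe_image, Set.mem_image, Finset.mem_coe]
      refine ⟨i, hi, ?_⟩
      simp only [Nat.cast_zero, zero_div, h0, Complex.ofReal_zero, zero_mul, sub_zero] at hc
      rw [hc]
    | succ k ih =>
      intro hk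
      have hSk := ih (by omega)
      have hD : ∀ i j : X, ((fun y => (T' j).F y - (T' i).F y) '' ((T' i).K ∩ (T' j).K)).Finite := by
        intro i j
        exact Φ.diff_finite ((T' i).hK.inter (T' j).hK) (fun y hy => (T' j).prim y hy.2)
          (fun y hy => (T' i).prim y hy.1)
      have hbig : (⋃ p ∈ S k, ⋃ j ∈ t, (fun d => (j, p.2 + d)) ''
          ((fun y => (T' j).F y - (T' p.1).F y) '' ((T' p.1).K ∩ (T' j).K))).Finite := by
        refine hSk.biUnion fun p _ => ?_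
        refine t.finite_toSet.biUnion fun j _ => ?_
        exact (hD p.1 j).image _
      refine hbig.subset ?_
      rintro ⟨j, c⟩ ⟨hj, γ, v, hv, hγ, h0, hV, hc⟩
      dsimp only at hj hV hc
      obtain ⟨i, hi, hVi⟩ := Set.mem_iUnion₂.1 (hcov (mem_univ (γ ((k : ℝ) / N))))
      have hkN : ((k + 1 : ℕ) : ℝ) ≤ N := by exact_mod_cast hk
      have ha : (0 : ℝ) ≤ (k : ℝ) / N := by positivity
      have hb : ((k + 1 : ℕ) : ℝ) / N ≤ 1 := by
        rw [div_le_one hN0']; exact hkN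
      have hab : (k : ℝ) / N ≤ ((k + 1 : ℕ) : ℝ) / N := by
        apply div_le_div_of_nonneg_right _ hN0'.le
        push_cast; linarith
      have hba : ((k + 1 : ℕ) : ℝ) / N - (k : ℝ) / N = 1 / N := by
        rw [← sub_div]; push_cast; ring_nf
      have hlen : ‖v‖ * (((k + 1 : ℕ) : ℝ) / N - (k : ℝ) / N) < (T' i).δ := by
        rw [hba, mul_one_div]
        exact lt_of_le_of_lt (div_le_div_of_nonneg_right hv hN0'.le) (hN i hi)
      obtain ⟨hKi, hFi⟩ := (T' i).trap γ v _ _ hab (hγ.mono ha hb) hVi hlen _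
        (right_mem_Icc.2 hab)
      refine Set.mem_iUnion₂.2 ⟨(i, (T' i).F (γ ((k : ℝ) / N)) - (((k : ℝ) / N : ℝ) : ℂ) * v), ?_, ?_⟩
      · exact ⟨hi, γ, v, hv, hγ, h0, hVi, rfl⟩
      · refine Set.mem_iUnion₂.2 ⟨j, hj, ?_⟩
        refine ⟨(T' j).F (γ (((k + 1 : ℕ) : ℝ) / N)) - (T' i).F (γ (((k + 1 : ℕ) : ℝ) / N)),
          ⟨_, ⟨hKi, (T' j).hVK hV⟩, rfl⟩, ?_⟩
        simp only [Prod.mk.injEq, true_and]
        rw [hc]
        have h5 : (T' i).F (γ (((k + 1 : ℕ) : ℝ) / N)) = (T' i).F (γ ((k : ℝ) / N)) +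
            ((((k + 1 : ℕ) : ℝ) / N - (k : ℝ) / N : ℝ) : ℂ) * v := by
          rw [← hFi]; ring
        rw [h5]
        push_cast
        ring
  have hone : ((N : ℕ) : ℝ) / N = 1 := div_self hN0'.ne'
  refine Set.Finite.subset ((hfin N le_rfl).image (fun p => (T' p.1).F y - p.2)) ?_
  rintro v ⟨hv, γ, hγ, h0, h1⟩
  obtain ⟨i, hi, hVi⟩ := Set.mem_iUnion₂.1 (hcov (mem_univ (γ 1)))
  refine ⟨(i, (T' i).F (γ 1) - v), ⟨hi, γ, v, hv, hγ, h0, ?_, ?_⟩, ?_⟩
  · rw [hone]; exact hVi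
  · dsimp only
    rw [hone]; simp
  · dsimp only
    rw [h1]; ring

end H37abf
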