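import Pool.Agent.H.MP_abf1f1_an.Fin

/-! MP_abf1f1_an, module A: finiteness of the vectors of straight paths between two points. -/

set_option autoImplicit false

open scoped Topology
open Set Filter

namespace H37abf

variable {X : Type} [TopologicalSpace X] [T2Space X] [CompactSpace X] (Φ : Flat X)

/-- Only finitely many visible cone points in a bounded region. -/
theorem Flat.vis_finite (x : X) (C : ℝ) : {v ∈ Φ.Vis x | ‖v‖ ≤ C}.Finite := by
  refine (Φ.zfin.biUnion fun p _ => Φ.join_finite x p C).subset ?_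
  rintro v ⟨⟨p, γ, h, h0, h1, hp, -⟩, hv⟩
  exact mem_iUnion₂.mpr ⟨p, hp, hv, γ, h, h0, h1⟩

/-- Only finitely many holonomies of saddle connections in a bounded region. -/
theorem Flat.lam_finite (C : ℝ) : {v ∈ Φ.Lam | ‖v‖ ≤ C}.Finite := by
  refine (Φ.zfin.biUnion fun p _ => Φ.zfin.biUnion fun q _ => Φ.join_finite p q C).subset ?_
  rintro v ⟨⟨γ, h, h0, h1, -⟩, hv⟩
  exact mem_iUnion₂.mpr ⟨γ 0, h0, mem_iUnion₂.mpr ⟨γ 1, h1, hv, γ, h, rfl, rfl⟩⟩

/-- A saddle connection has nonzero holonomy. -/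
theorem Flat.zero_notMem_lam : (0 : ℂ) ∉ Φ.Lam := by
  rintro ⟨γ, h, h0, -, h2⟩
  have h3 := h.const (1 / 2) ⟨by norm_num, by norm_num⟩
  refine h2 (1 / 2) ⟨by norm_num, by norm_num⟩ ?_
  rw [h3]
  exact h0

/-- The holonomies of saddle connections are bounded below. -/
theorem Flat.exists_min : ∃ s₀ : ℝ, 0 < s₀ ∧ ∀ v ∈ Φ.Lam, s₀ ≤ ‖v‖ := by
  have hfin := Φ.lam_finite 1
  by_cases hne : {v ∈ Φ.Lam | ‖v‖ ≤ 1}.Nonempty
  · obtain ⟨w, hw, hmin⟩ := Set.exists_min_image _ (fun v : ℂ => ‖v‖) hfin hne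
    refine ⟨‖w‖, norm_pos_iff.mpr ?_, ?_⟩
    · intro h0
      apply Φ.zero_notMem_lam
      rw [← h0]
      exact hw.1
    · intro v hv
      rcases le_total ‖v‖ 1 with h | h
      · exact hmin v ⟨hv, h⟩
      · exact hw.2.trans h
  · refine ⟨1, one_pos, fun v hv => ?_⟩
    by_contra h
    exact hne ⟨v, hv, (not_le.mp h).le⟩

/-- The set of visible cone points is closed. -/
theorem Flat.vis_closed (x : X) : IsClosed (Φ.Vis x) := by
  refine isClosed_of_closure_subset fun z hz => ?_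
  have h1 : z ∈ closure (Metric.ball z 1 ∩ Φ.Vis x) :=
    Metric.isOpen_ball.inter_closure ⟨Metric.mem_ball_self one_pos, hz⟩
  have h2 : Metric.ball z 1 ∩ Φ.Vis x ⊆ {v ∈ Φ.Vis x | ‖v‖ ≤ ‖z‖ + 1} := by
    rintro v ⟨hv1, hv2⟩
    refine ⟨hv2, ?_⟩
    have h3 : ‖v - z‖ < 1 := by rwa [mem_ball_iff_norm] at hv1
    have h4 : ‖v‖ ≤ ‖v - z‖ + ‖z‖ := by
      have := norm_add_le (v - z) z
      rwa [sub_add_cancel] at this
    linarith
  have h5 := closure_mono h2 h1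
  rw [(Φ.vis_finite x (‖z‖ + 1)).isClosed.closure_eq] at h5
  exact h5.1

end H37abf
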