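import Pool.Agent.H.MP_abf1f1_an.C2

/-! MP_abf1f1_an, module G: the coordinates `(a, b)` of the vectors with positive real part. -/

set_option autoImplicit false

open scoped Topology
open Set Filter MeasureTheory

namespace H37abf

variable {Γ : Subgroup SL2} {Λ : Set ℂ} {K : Subfield ℝ} {lam : ℝ} (D : Cusps Γ Λ K lam)

namespace Cusps

/-- The vectors of `Λ` in the coordinates of the cusp `j`. -/
def W (j : Fin D.m) : Set ℂ := {w | ∃ u ∈ Λ, act (D.C j) u = w}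

/-- The section of the cusp `j`. -/
def EE (j : Fin D.m) : Set (ℝ × ℝ) := {q | 0 < q.1 ∧ q.1 ≤ 1 ∧ 0 ≤ q.2 ∧ q.2 < q.1 * D.a j}

/-- The part of the section where the slope gap is at most `x`. -/
def FF (j : Fin D.m) (x : ℝ) : Set (ℝ × ℝ) :=
  {q ∈ D.EE j | ∃ w ∈ D.W j, 0 < w.im ∧ 0 < q.1 * w.re + q.2 * w.im ∧
    q.1 * w.re + q.2 * w.im ≤ 1 ∧ w.im ≤ x * (q.1 * (q.1 * w.re + q.2 * w.im))}

/-- The vectors with real part in `(0, R]` and slope in `[0, 1]`. -/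
def T (Λ : Set ℂ) (R : ℝ) : Set ℂ := {w ∈ Λ | 0 < w.re ∧ w.re ≤ R ∧ 0 ≤ w.im ∧ w.im ≤ w.re}

/-- The matrix of `γ` in the coordinates of the cusp `j`; its first column is `act γ (v j)`. -/
noncomputable def M (j : Fin D.m) (γ : SL2) : SL2 := γ * (D.C j)⁻¹

/-- PROOF. `act_C`, `act_one_eq`. -/
theorem act_v (j : Fin D.m) (γ : SL2) :
    act γ (D.v j) = ⟨(D.M j γ).1 0 0, (D.M j γ).1 1 0⟩ := by
  rw [← act_one_eq, M, act_comp, ← D.act_C j, act_inv_act]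

theorem G1_M_mul_unip (j : Fin D.m) (γ : SL2) (t : ℝ) :
    D.M j (γ * unip (D.v j) t) = D.M j γ * nn t := by
  have h1 := unip_conj (D.C j) (D.v j) t
  rw [D.act_C j, unip_one] at h1
  rw [M, M, ← h1]
  group

theorem G1_entry0 (g : SL2) (t : ℝ) : (g * nn t).1 0 0 = g.1 0 0 := by
  rw [Matrix.SpecialLinearGroup.coe_mul, Matrix.mul_apply, Fin.sum_univ_two]
  simp [nn]

theorem G1_entry1 (g : SL2) (t : ℝ) : (g * nn t).1 0 1 = g.1 0 1 + t * g.1 0 0 := by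
  rw [Matrix.SpecialLinearGroup.coe_mul, Matrix.mul_apply, Fin.sum_univ_two]
  simp [nn]
  ring

/-- The coordinates `(a, b)` of `γ`. -/
noncomputable def ab (j : Fin D.m) (R : ℝ) (γ : SL2) : ℝ × ℝ :=
  ((D.M j γ).1 0 0 / R, (D.M j γ).1 0 1 / R)

theorem G1_ab (j : Fin D.m) (R : ℝ) (γ : SL2) (t : ℝ) :
    D.ab j R (γ * unip (D.v j) t) = ((D.ab j R γ).1, (D.ab j R γ).2 + t * (D.ab j R γ).1) := by
  have h := D.G1_M_mul_unip j γ t
  unfold ab
  rw [h, G1_entry0, G1_entry1]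
  simp only [Prod.mk.injEq, true_and]
  ring

/-- PROOF. `γ' = γ * unip (v j) (k a j)` (`fix`), `unip (v j) t = (C j)⁻¹ * nn t * C j` (`unip_conj`), so
`M j γ' = M j γ * nn (k a j)`: the entry `0 1` is increased by `k a_j` times the entry `0 0 > 0`; both
normalised entries are in `[0, a_j · entry 0 0)`, so `k = 0`. -/
theorem ab_inj {j : Fin D.m} {R : ℝ} (hR : 0 < R) {γ γ' : SL2} (hγ : γ ∈ Γ) (hγ' : γ' ∈ Γ)
    (e : act γ (D.v j) = act γ' (D.v j)) (h : D.ab j R γ ∈ D.EE j) (h' : D.ab j R γ' ∈ D.EE j) :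
    γ = γ' := by
  have h1 : act (γ⁻¹ * γ') (D.v j) = D.v j := by
    rw [act_comp, ← e, act_inv_act]
  obtain ⟨k, hk⟩ := (D.fix j (γ⁻¹ * γ')).1 ⟨mul_mem (inv_mem hγ) hγ', h1⟩
  have h2 : γ' = γ * unip (D.v j) (k * D.a j) := by
    rw [← hk, mul_inv_cancel_left]
  have h3 : D.ab j R γ' = ((D.ab j R γ).1, (D.ab j R γ).2 + (k * D.a j) * (D.ab j R γ).1) := by
    rw [h2, D.G1_ab]
  rw [h3] at h'
  obtain ⟨a1, _, a3, a4⟩ := h
  obtain ⟨_, _, b3, b4⟩ := h'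
  have ha := D.a_pos j
  have hk0 : k = 0 := by
    rcases lt_trichotomy k 0 with hk0 | hk0 | hk0
    · exfalso
      have h5 : (k : ℝ) ≤ -1 := by exact_mod_cast Int.le_sub_one_of_lt hk0
      have h6 : (k : ℝ) * (D.a j * (D.ab j R γ).1) ≤ -1 * (D.a j * (D.ab j R γ).1) :=
        mul_le_mul_of_nonneg_right h5 (mul_nonneg ha.le a1.le)
      simp only at b3
      nlinarith
    · exact hk0
    · exfalso
      have h5 : (1 : ℝ) ≤ k := by exact_mod_cast hk0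
      have h6 : 1 * (D.a j * (D.ab j R γ).1) ≤ (k : ℝ) * (D.a j * (D.ab j R γ).1) :=
        mul_le_mul_of_nonneg_right h5 (mul_nonneg ha.le a1.le)
      simp only at b4
      nlinarith
  rw [h2, hk0, Int.cast_zero, zero_mul, unip_zero, mul_one]

/-- PROOF. `cover` gives `γ`; multiply by `unip (v j) (k a j)` with `k` such that the entry `0 1` becomes
`≥ 0` and `< a_j ·` entry `0 0` (`toIcoDiv` or `Int.floor`). -/
theorem ab_surj {R : ℝ} (hR : 0 < R) {w : ℂ} (hw : w ∈ Λ) (h0 : 0 < w.re) (h1 : w.re ≤ R) :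
    ∃ j, ∃ γ ∈ Γ, act γ (D.v j) = w ∧ D.ab j R γ ∈ D.EE j := by
  obtain ⟨j, γ, hγ, hw'⟩ := D.cover w hw
  have ha := D.a_pos j
  have h2 : (D.ab j R γ).1 = w.re / R := by
    have h3 := D.act_v j γ
    rw [hw'] at h3
    rw [h3]
    rfl
  have h4 : 0 < (D.ab j R γ).1 := by
    rw [h2]
    exact div_pos h0 hR
  have h5 : (D.ab j R γ).1 ≤ 1 := by
    rw [h2]
    exact (div_le_one hR).2 h1
  set k : ℤ := ⌊(D.ab j R γ).2 / ((D.ab j R γ).1 * D.a j)⌋ with hk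
  obtain ⟨h6, h7⟩ := (D.fix j (unip (D.v j) ((-k : ℤ) * D.a j))).2 ⟨-k, rfl⟩
  refine ⟨j, γ * unip (D.v j) ((-k : ℤ) * D.a j), mul_mem hγ h6, ?_, ?_⟩
  · rw [act_comp, h7, hw']
  · rw [D.G1_ab]
    have h8 : 0 < (D.ab j R γ).1 * D.a j := mul_pos h4 ha
    have h9 := Int.floor_le ((D.ab j R γ).2 / ((D.ab j R γ).1 * D.a j))
    have h10 := Int.lt_floor_add_one ((D.ab j R γ).2 / ((D.ab j R γ).1 * D.a j))
    rw [← hk, le_div_iff₀ h8] at h9
    rw [← hk, div_lt_iff₀ h8] at h10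
    refine ⟨h4, h5, ?_, ?_⟩
    · push_cast
      nlinarith
    · push_cast
      nlinarith

end Cusps

end H37abf
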