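import Pool.Agent.H.MP_abf1f1_an.G8

/-! MP_abf1f1_an, module G: volumes of the intersections of the pieces. -/

set_option autoImplicit false

open scoped Topology
open Set Filter MeasureTheory

namespace H37abf

variable {Γ : Subgroup SL2} {Λ : Set ℂ} {K : Subfield ℝ} {lam : ℝ} (D : Cusps Γ Λ K lam)

namespace Cusps

/-- PROOF. Let `σ w = w.re / w.im` and `σ` the minimum of the `σ w`, `w ∈ Tf`; `P a = max 0 (1 / (x a) - a σ)`,
`Q a = min` of `a a_j` and of `1 / w.im - a σ w` (`w ∈ Tf`). The intersection satisfies the conditions of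
`volume_between` (`mem_SS`, `FF_ge` or: `w.im ≤ x a`, `W_im` for `A0 ≤ a`). Put (for `none`)
`r = (a_j + σ) / lam`, `s = 0`, (for `w`) `r = (σ - σ w) / lam`, `s = 1 / (lam w.im)`, `p = σ / lam`: then
`Q a - P a = lam ((inf' of r_i a + s_i) - max (p a) (1 / (lam x) / a))` (add `a σ` to both). The numbers
are in `K`: `rat`, `rat_a` (`σ w / lam = w.re / (lam w.im)`). `S = insertNone Tf`. -/
theorem volume_inter (j : Fin D.m) (Tf : Finset ℂ) (hT : Tf.Nonempty)
    (hW : ∀ w ∈ Tf, w ∈ D.W j ∧ 0 < w.im) :
    ∃ (S : Finset (Option ℂ)) (hS : S.Nonempty) (r s : Option ℂ → ℝ) (p : ℝ),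
      (∀ i ∈ S, r i ∈ K) ∧ (∀ i ∈ S, s i ∈ K) ∧ p ∈ K ∧
      ∀ x A0 : ℝ, 0 < x → 0 < A0 → A0 ≤ 1 → A0 ≤ D.c₀ / x →
        volume.real (⋂ w ∈ Tf, D.SS j w x) =
          lam * ∫ a in A0..1, max (S.inf' hS (fun i => r i * a + s i) - max (p * a) (1 / (lam * x) / a)) 0 := by
  classical
  obtain ⟨w0, hw0, hmin⟩ := Tf.exists_min_image (fun w => w.re / w.im) hT
  have hl := D.lam_pos
  set σ := w0.re / w0.im with hσ
  have hKw : ∀ w ∈ Tf, w.re / w.im / lam ∈ K ∧ 1 / (lam * w.im) ∈ K := by
    intro w hw
    obtain ⟨⟨u, hu, hcu⟩, hpos⟩ := hW w hw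
    obtain ⟨h1, h2⟩ := D.rat j u hu
    rw [hcu] at h1 h2
    constructor
    · have h3 := K.div_mem h1 h2
      have h4 : w.re / w.im / lam = w.re / (lam * w.im) := by
        rw [div_div, mul_comm]
      rw [h4]; exact h3
    · exact K.div_mem K.one_mem h2
  set S := Finset.insertNone Tf with hSd
  have hS : S.Nonempty := ⟨none, Finset.none_mem_insertNone⟩
  set r : Option ℂ → ℝ := fun i => i.elim ((D.a j + σ) / lam) (fun w => (σ - w.re / w.im) / lam)
    with hr
  set s : Option ℂ → ℝ := fun i => i.elim 0 (fun w => 1 / (lam * w.im)) with hs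
  refine ⟨S, hS, r, s, σ / lam, ?_, ?_, (hKw w0 hw0).1, ?_⟩
  · intro i hi
    cases i with
    | none =>
      simp only [hr, Option.elim_none]
      rw [add_div]
      exact K.add_mem (D.rat_a j) (hKw w0 hw0).1
    | some w =>
      simp only [hr, Option.elim_some]
      rw [sub_div]
      exact K.sub_mem (hKw w0 hw0).1 (hKw w (Finset.some_mem_insertNone.1 hi)).1
  · intro i hi
    cases i with
    | none =>
      simp only [hs, Option.elim_none]
      exact K.zero_mem
    | some w =>
      simp only [hs, Option.elim_some]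
      exact (hKw w (Finset.some_mem_insertNone.1 hi)).2
  · intro x A0 hx hA0 hA1 hAc
    have hcontQ : Continuous (fun a : ℝ => S.inf' hS (fun i => r i * a + s i)) :=
      Continuous.finset_inf'_apply hS (fun i _ => by fun_prop)
    have hbig : ContinuousOn (fun a : ℝ => max (σ / lam * a) (1 / (lam * x) / a)) (Icc A0 1) := by
      apply ContinuousOn.sup
      · exact (continuous_const.mul continuous_id).continuousOn
      · apply ContinuousOn.div continuousOn_const continuousOn_id
        intro a ha
        exact (lt_of_lt_of_le hA0 ha.1).ne'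
    have hvol := volume_between (S := ⋂ w ∈ Tf, D.SS j w x)
      (P := fun a => lam * max (σ / lam * a) (1 / (lam * x) / a) - a * σ)
      (Q := fun a => lam * S.inf' hS (fun i => r i * a + s i) - a * σ) (A0 := A0)
      (Finset.measurableSet_biInter Tf (fun w _ => D.measurableSet_SS j w x)) hA0 hA1
      ((continuousOn_const.mul hbig).sub (continuous_id.mul continuous_const).continuousOn)
      ((continuous_const.mul hcontQ).sub (continuous_id.mul continuous_const)).continuousOn
      ?_ ?_
    · rw [hvol, ← intervalIntegral.integral_const_mul]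
      congr 1
      ext a
      have e1 : ∀ t : ℝ, max (lam * t) 0 = lam * max t 0 := fun t => by
        rw [mul_max_of_nonneg _ _ hl.le, mul_zero]
      have e2 : (lam * S.inf' hS fun i => r i * a + s i) - a * σ -
          (lam * max (σ / lam * a) (1 / (lam * x) / a) - a * σ) =
          lam * ((S.inf' hS fun i => r i * a + s i) - max (σ / lam * a) (1 / (lam * x) / a)) := by
        ring
      rw [e2, e1]
    · rintro ⟨a, b⟩ hq
      rw [mem_iInter₂] at hq
      have h1 := fun w hw => (D.mem_SS (hW w hw).2 hx (a, b)).1 (hq w hw)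
      obtain ⟨⟨ha0, ha1, hb0, hb1⟩, h2, h3⟩ := h1 w0 hw0
      simp only at ha0 ha1 hb0 hb1 h2 h3
      have hA : A0 ≤ a := by
        have h4 : a ∈ {a : ℝ | D.c₀ / x ≤ a} := by
          have h5 := D.W_im (hW w0 hw0).1 (hW w0 hw0).2
          obtain ⟨-, -, h6, h7⟩ := hq w0 hw0
          simp only at h6 h7
          have h8 : w0.im ≤ x * a := by
            refine h7.trans ?_
            apply mul_le_mul_of_nonneg_left _ hx.le
            calc a * (a * w0.re + b * w0.im) ≤ a * 1 := mul_le_mul_of_nonneg_left h6 ha0.le
              _ = a := mul_one a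
          change D.c₀ / x ≤ a
          rw [div_le_iff₀ hx]
          linarith
        exact hAc.trans h4
      refine ⟨hA, ha1, ?_, ?_⟩
      · simp only
        rw [sub_le_iff_le_add, mul_max_of_nonneg _ _ hl.le]
        apply max_le
        · have h4 : lam * (σ / lam * a) = a * σ := by field_simp
          rw [h4]
          linarith
        · have h4 : lam * (1 / (lam * x) / a) = 1 / (x * a) := by field_simp
          rw [h4]
          linarith
      · simp only
        rw [le_sub_iff_add_le, ← div_le_iff₀' hl, Finset.le_inf'_iff]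
        intro i hi
        rw [div_le_iff₀' hl]
        cases i with
        | none =>
          simp only [hr, hs, Option.elim_none]
          have h4 : lam * ((D.a j + σ) / lam * a + 0) = a * D.a j + a * σ := by
            rw [add_zero, ← mul_assoc, mul_div_cancel₀ _ hl.ne']; ring
          rw [h4]
          linarith
        | some w =>
          have hw := Finset.some_mem_insertNone.1 hi
          obtain ⟨-, -, h5⟩ := h1 w hw
          simp only at h5
          have hwi := (hW w hw).2
          simp only [hr, hs, Option.elim_some]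
          have h4 : lam * ((σ - w.re / w.im) / lam * a + 1 / (lam * w.im)) =
              a * σ - a * (w.re / w.im) + 1 / w.im := by field_simp
          rw [h4]
          linarith
    · rintro ⟨a, b⟩ hA ha1 hP hQ
      simp only at hA ha1 hP hQ
      have ha0 : 0 < a := lt_of_lt_of_le hA0 hA
      rw [sub_lt_iff_lt_add, mul_max_of_nonneg _ _ hl.le, max_lt_iff] at hP
      obtain ⟨hP1, hP2⟩ := hP
      have h4 : lam * (σ / lam * a) = a * σ := by field_simp
      have h4' : lam * (1 / (lam * x) / a) = 1 / (x * a) := by field_simp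
      rw [h4] at hP1
      rw [h4'] at hP2
      rw [lt_sub_iff_add_lt, ← div_lt_iff₀' hl, Finset.lt_inf'_iff] at hQ
      have hQn := hQ none Finset.none_mem_insertNone
      rw [div_lt_iff₀' hl] at hQn
      simp only [hr, hs, Option.elim_none] at hQn
      have h5 : lam * ((D.a j + σ) / lam * a + 0) = a * D.a j + a * σ := by
        rw [add_zero, ← mul_assoc, mul_div_cancel₀ _ hl.ne']; ring
      rw [h5] at hQn
      rw [mem_iInter₂]
      intro w hw
      rw [D.mem_SS (hW w hw).2 hx (a, b)]
      have hQw := hQ (some w) (Finset.some_mem_insertNone.2 hw)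
      rw [div_lt_iff₀' hl] at hQw
      have hwi := (hW w hw).2
      simp only [hr, hs, Option.elim_some] at hQw
      have h6 : lam * ((σ - w.re / w.im) / lam * a + 1 / (lam * w.im)) =
          a * σ - a * (w.re / w.im) + 1 / w.im := by field_simp
      rw [h6] at hQw
      have h7 : a * σ ≤ a * (w.re / w.im) := mul_le_mul_of_nonneg_left (hmin w hw) ha0.le
      refine ⟨⟨ha0, ha1, ?_, ?_⟩, ?_, ?_⟩
      · simp only; linarith
      · simp only; linarith
      · simp only; linarith
      · simp only; linarith

end Cusps

end H37abf
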