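import Pool.Agent.H.MP_abf1f1_an.G7d
import Pool.Agent.H.MP_abf1f1_an.G8b

/-! MP_abf1f1_an, module G: analyticity of the volumes. -/

set_option autoImplicit false

open scoped Topology
open Set Filter MeasureTheory

namespace H37abf

variable {Γ : Subgroup SL2} {Λ : Set ℂ} {K : Subfield ℝ} {lam : ℝ} (D : Cusps Γ Λ K lam)

namespace Cusps

/-- The volume of an intersection of pieces is analytic in the level. -/
theorem analytic_inter (j : Fin D.m) (Tf : Finset ℂ) (hT : Tf.Nonempty)
    (hW : ∀ w ∈ Tf, w ∈ D.W j ∧ 0 < w.im) {x0 : ℝ} (h0 : 0 < x0) (hK : lam * x0 ∉ K) :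
    AnalyticAt ℝ (fun x => volume.real (⋂ w ∈ Tf, D.SS j w x)) x0 := by
  obtain ⟨S, hS, r, s, p, hr, hs, hp, hvol⟩ := D.volume_inter j Tf hT hW
  have hc := D.c₀_pos
  have hlam := D.lam_pos
  have hmin : (0 : ℝ) < min 1 (D.c₀ / (x0 + 1)) := lt_min one_pos (div_pos hc (by linarith))
  obtain ⟨q, hq0, hq1⟩ := exists_rat_btwn hmin
  have hqK : (q : ℝ) ∈ K := SubfieldClass.ratCast_mem K q
  have hy0 : 0 < 1 / (lam * x0) := by positivity
  have hyK : 1 / (lam * x0) ∉ K := by
    intro h
    apply hK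
    have := K.inv_mem h
    rwa [one_div, inv_inv] at this
  have hA := analytic_max S hS r s hr hs hp hqK K.one_mem hq0
    (hq1.le.trans (min_le_left _ _)) hy0 hyK
  have hg : AnalyticAt ℝ (fun x : ℝ => 1 / (lam * x)) x0 :=
    analyticAt_const.div (analyticAt_const.mul analyticAt_id) (by positivity)
  have hcomp := (analyticAt_const (v := lam)).mul (hA.comp_of_eq hg rfl)
  refine hcomp.congr ?_
  have hev : ∀ᶠ x in 𝓝 x0, 0 < x ∧ x < x0 + 1 :=
    (eventually_gt_nhds h0).and (eventually_lt_nhds (by linarith))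
  filter_upwards [hev] with x hx
  have hle : (q : ℝ) ≤ D.c₀ / x := by
    refine hq1.le.trans ((min_le_right _ _).trans ?_)
    exact div_le_div_of_nonneg_left hc.le hx.1 hx.2.le
  exact (hvol x q hx.1 hq0 (hq1.le.trans (min_le_left _ _)) hle).symm

/-- The volume of the part of the section where the gap is at most the level is analytic in the level. -/
theorem analytic_FF (j : Fin D.m) {x0 : ℝ} (h0 : 0 < x0) (hK : lam * x0 ∉ K) :
    AnalyticAt ℝ (fun x => volume.real (D.FF j x)) x0 := by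
  obtain ⟨Wf, hWf, hFF⟩ := D.FF_eq j (X := x0 + 1) (by linarith)
  have hsum : AnalyticAt ℝ (fun x => ∑ u ∈ Wf.powerset with u.Nonempty,
      (-1 : ℝ) ^ (u.card + 1) * volume.real (⋂ i ∈ u, D.SS j i x)) x0 := by
    refine Finset.analyticAt_fun_sum _ fun u hu => ?_
    rw [Finset.mem_filter, Finset.mem_powerset] at hu
    exact analyticAt_const.mul
      (D.analytic_inter j u hu.2 (fun w hw => hWf w (hu.1 hw)) h0 hK)
  refine hsum.congr ?_
  have hev : ∀ᶠ x in 𝓝 x0, 0 < x ∧ x < x0 + 1 :=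
    (eventually_gt_nhds h0).and (eventually_lt_nhds (by linarith))
  filter_upwards [hev] with x hx
  rw [hFF x hx.1 hx.2.le]
  symm
  refine measureReal_biUnion_eq_sum_powerset (fun i _ => D.measurableSet_SS j i x) fun i _ => ?_
  exact ((D.bounded_EE j).subset fun q hq => hq.1).measure_lt_top.ne

end Cusps

end H37abf
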