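import Pool.Agent.H.MP_abf1f1_an.G6b
import Pool.Agent.H.MP_abf1f1_an.G9

/-! MP_abf1f1_an, module G: the slope gap distribution is analytic outside of the field. -/

set_option autoImplicit false

open scoped Topology
open Set Filter MeasureTheory

namespace H37abf

variable {Γ : Subgroup SL2} {Λ : Set ℂ} {K : Subfield ℝ} {lam : ℝ}

/-- The derivative of a primitive on `(0, ∞)`. -/
theorem G10_prim {f G : ℝ → ℝ} (hint : ∀ x : ℝ, 0 < x → IntervalIntegrable f volume 0 x)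
    (hG : ∀ x : ℝ, 0 < x → G x = ∫ t in (0 : ℝ)..x, f t) :
    (∀ᵐ x ∂volume.restrict (Ioi 0), deriv G x = f x) ∧
      ∀ x : ℝ, 0 < x → ContinuousAt f x → deriv G x = f x := by
  have hev : ∀ x : ℝ, 0 < x → G =ᶠ[𝓝 x] fun u => ∫ t in (0 : ℝ)..u, f t := fun x hx => by
    filter_upwards [Ioi_mem_nhds hx] with u hu using hG u hu
  constructor
  · rw [ae_restrict_iff' measurableSet_Ioi]
    have h1 : ∀ n : ℕ, ∀ᵐ x, x ∈ uIcc (0 : ℝ) (n + 1) → ∀ c ∈ uIcc (0 : ℝ) (n + 1),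
        HasDerivAt (fun x => ∫ t in c..x, f t) (f x) x :=
      fun n => (hint (n + 1) (by positivity)).ae_hasDerivAt_integral
    filter_upwards [ae_all_iff.2 h1] with x hx hx0
    obtain ⟨n, hn⟩ := exists_nat_gt x
    have hx0' : (0 : ℝ) < x := hx0
    have h2 := hx n (by
      rw [uIcc_of_le (by positivity)]
      exact ⟨hx0'.le, by linarith⟩) 0 left_mem_uIcc
    rw [(hev x hx0').deriv_eq]
    exact h2.deriv
  · intro x hx hc
    rw [(hev x hx).deriv_eq]
    refine (intervalIntegral.integral_hasDerivAt_right (hint x hx) ?_ hc).deriv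
    exact ⟨Ioc 0 (x + 1), Ioc_mem_nhds hx (by linarith),
      (hint (x + 1) (by linarith)).1.aestronglyMeasurable⟩

/-- The slope gap distribution agrees with a function `g` that is analytic at `x0` if
`lam * x0 ∉ K`. -/
theorem Cusps.final (D : Cusps Γ Λ K lam) {f : ℝ → ℝ} (hf : IsGapDist Λ f) :
    ∃ g : ℝ → ℝ, (∀ᵐ x ∂volume.restrict (Ioi 0), g x = f x) ∧
      (∀ x : ℝ, 0 < x → ContinuousAt f x → g x = f x) ∧
      ∀ x0 : ℝ, 0 < x0 → ¬ AnalyticAt ℝ g x0 → lam * x0 ∈ K := by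
  have hE : 0 < ∑ j, D.a j / 2 := by
    have : Nonempty (Fin D.m) := ⟨⟨0, D.m_pos⟩⟩
    exact Finset.sum_pos (fun j _ => half_pos (D.a_pos j)) Finset.univ_nonempty
  have hG : ∀ x : ℝ, 0 < x → (∑ j, D.a j / 2)⁻¹ * ∑ j, volume.real (D.FF j x) =
      ∫ t in (0 : ℝ)..x, f t := by
    intro x hx
    rw [← D.gap_identity hf hx, mul_comm, mul_assoc, mul_inv_cancel₀ hE.ne', mul_one]
  have hint : ∀ x : ℝ, 0 < x → IntervalIntegrable f volume 0 x :=
    fun x hx => (hf.2 0 x le_rfl hx).1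
  obtain ⟨h1, h2⟩ := G10_prim
    (G := fun x => (∑ j, D.a j / 2)⁻¹ * ∑ j, volume.real (D.FF j x)) hint hG
  refine ⟨_, h1, h2, fun x0 hx0 hna => ?_⟩
  by_contra hK
  refine hna (AnalyticAt.deriv ?_)
  exact analyticAt_const.mul
    (Finset.analyticAt_fun_sum _ fun j _ => D.analytic_FF j hx0 hK)

/-- The case of an empty set of holonomies. -/
theorem final_empty {f : ℝ → ℝ} (hf : IsGapDist ∅ f) :
    ∃ g : ℝ → ℝ, (∀ᵐ x ∂volume.restrict (Ioi 0), g x = f x) ∧
      (∀ x : ℝ, 0 < x → ContinuousAt f x → g x = f x) ∧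
      ∀ x0 : ℝ, AnalyticAt ℝ g x0 := by
  have h0 : ∀ x : ℝ, 0 < x → (0 : ℝ) = ∫ t in (0 : ℝ)..x, f t := by
    intro x hx
    refine tendsto_nhds_unique (f := fun R => (gapCount ∅ R 0 x : ℝ) / ((slopes ∅ R).ncard : ℝ))
      (l := atTop) ?_ (hf.2 0 x le_rfl hx).2
    have h1 : ∀ R, slopes ∅ R = ∅ := by
      intro R
      ext s
      simp [slopes]
    have h2 : (fun R => (gapCount ∅ R 0 x : ℝ) / ((slopes ∅ R).ncard : ℝ)) = fun _ => 0 := by
      funext R
      rw [h1, ncard_empty, Nat.cast_zero, div_zero]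
    rw [h2]
    exact tendsto_const_nhds
  obtain ⟨h1, h2⟩ := G10_prim (G := fun _ => 0) (fun x hx => (hf.2 0 x le_rfl hx).1) h0
  refine ⟨_, h1, h2, fun x0 => AnalyticAt.deriv analyticAt_const⟩

end H37abf
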