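import Pool.Agent.H.MP_abf1f1_an.G7f
import Pool.Agent.H.MP_abf1f1_an.G8b

/-! MP_abf1f1_an, module G: continuous differentiability of the volumes. -/

set_option autoImplicit false

open scoped Topology
open Set Filter MeasureTheory

namespace H37abf

variable {Γ : Subgroup SL2} {Λ : Set ℂ} {K : Subfield ℝ} {lam : ℝ} (D : Cusps Γ Λ K lam)

namespace Cusps

/-- PROOF. `volume_inter`; take `A0 = min 1 (c₀ / (x0 + 1))`, so the formula holds for all `x ∈ (0, x0 + 1)`.
`c1_max` at `y0 = 1 / (lam x0) > 0`, composed with `x ↦ 1 / (lam x)`. -/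
theorem c1_inter (j : Fin D.m) (Tf : Finset ℂ) (hT : Tf.Nonempty)
    (hW : ∀ w ∈ Tf, w ∈ D.W j ∧ 0 < w.im) {x0 : ℝ} (h0 : 0 < x0) :
    ContDiffAt ℝ 1 (fun x => volume.real (⋂ w ∈ Tf, D.SS j w x)) x0 := by
  obtain ⟨S, hS, r, s, p, _, _, _, hvol⟩ := D.volume_inter j Tf hT hW
  have hl := D.lam_pos
  have hc := D.c₀_pos
  set A0 : ℝ := min 1 (D.c₀ / (x0 + 1)) with hA0
  have hA0pos : 0 < A0 := lt_min one_pos (div_pos hc (by linarith))
  have hA01 : A0 ≤ 1 := min_le_left _ _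
  have hev : (fun x => volume.real (⋂ w ∈ Tf, D.SS j w x)) =ᶠ[𝓝 x0] fun x =>
      lam * ∫ a in A0..1,
        max (S.inf' hS (fun i => r i * a + s i) - max (p * a) (1 / (lam * x) / a)) 0 := by
    filter_upwards [Ioo_mem_nhds h0 (lt_add_one x0)] with x hx
    refine hvol x A0 hx.1 hA0pos hA01 ((min_le_right _ _).trans ?_)
    exact div_le_div_of_nonneg_left hc.le hx.1 hx.2.le
  refine ContDiffAt.congr_of_eventuallyEq ?_ hev
  refine contDiffAt_const.mul ?_
  have h1 := c1_max S hS r s (p := p) (y0 := 1 / (lam * x0)) hA0pos hA01 (by positivity)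
  have h2 : ContDiffAt ℝ 1 (fun x : ℝ => 1 / (lam * x)) x0 :=
    contDiffAt_const.div (contDiffAt_const.mul contDiffAt_id) (by positivity)
  exact ContDiffAt.comp x0 h1 h2

/-- PROOF. `Wf` from `FF_eq` with `X = x0 + 1`. For `x` near `x0`: `FF j x = ⋃ w ∈ Wf, SS j w x` and
inclusion-exclusion (`MeasureTheory.measureReal_biUnion_eq_sum_powerset`) writes `volume.real (FF j x)` as a
finite sum of `± volume.real (⋂ w ∈ Tf, SS j w x)` with `Tf ⊆ Wf` not empty (finite measures: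
`bounded_EE`); `c1_inter`, `ContDiffAt.congr_of_eventuallyEq`, `ContDiffAt.sum`. (The file G9 does the same for
analyticity.) -/
theorem c1_FF (j : Fin D.m) {x0 : ℝ} (h0 : 0 < x0) :
    ContDiffAt ℝ 1 (fun x => volume.real (D.FF j x)) x0 := by
  obtain ⟨Wf, hWf, hFF⟩ := D.FF_eq j (show 0 < x0 + 1 by linarith)
  have hfin : ∀ w x, volume (D.SS j w x) ≠ ⊤ := fun w x =>
    ((D.bounded_EE j).subset fun _ hq => hq.1).measure_lt_top.ne
  have hev : (fun x => volume.real (D.FF j x)) =ᶠ[𝓝 x0] fun x =>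
      ∑ u ∈ Wf.powerset with u.Nonempty,
        (-1 : ℝ) ^ (u.card + 1) * volume.real (⋂ w ∈ u, D.SS j w x) := by
    filter_upwards [Ioo_mem_nhds h0 (lt_add_one x0)] with x hx
    rw [hFF x hx.1 hx.2.le]
    exact measureReal_biUnion_eq_sum_powerset (fun w _ => D.measurableSet_SS j w x)
      (fun w _ => hfin w x)
  refine ContDiffAt.congr_of_eventuallyEq ?_ hev
  refine ContDiffAt.sum fun u hu => contDiffAt_const.mul ?_
  rw [Finset.mem_filter, Finset.mem_powerset] at hu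
  exact D.c1_inter j u hu.2 (fun w hw => hWf w (hu.1 hw)) h0

end Cusps

end H37abf
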