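import Pool.Agent.H.MP_abf1f1_an.G10
import Pool.Agent.H.MP_abf1f1_an.G9b

/-! MP_abf1f1_an, module G: the continuous version of the slope gap distribution. -/

set_option autoImplicit false

open scoped Topology
open Set Filter MeasureTheory

namespace H37abf

variable {Γ : Subgroup SL2} {Λ : Set ℂ} {K : Subfield ℝ} {lam : ℝ}

theorem Cusps.G11_pos (D : Cusps Γ Λ K lam) : 0 < ∑ j, D.a j / 2 := by
  have : Nonempty (Fin D.m) := ⟨⟨0, D.m_pos⟩⟩
  exact Finset.sum_pos (fun j _ => half_pos (D.a_pos j)) Finset.univ_nonempty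

theorem Cusps.G11_eq (D : Cusps Γ Λ K lam) {f : ℝ → ℝ} (hf : IsGapDist Λ f) {x : ℝ} (hx : 0 < x) :
    (∑ j, volume.real (D.FF j x)) / (∑ j, D.a j / 2) = ∫ t in (0 : ℝ)..x, f t := by
  rw [div_eq_iff D.G11_pos.ne', D.gap_identity hf hx]

theorem Cusps.G11_deriv (D : Cusps Γ Λ K lam) {f : ℝ → ℝ} (hf : IsGapDist Λ f) {x c : ℝ}
    (hx : 0 < x) (h : HasDerivAt (fun x => ∫ t in (0 : ℝ)..x, f t) c x) :
    deriv (fun x => (∑ j, volume.real (D.FF j x)) / (∑ j, D.a j / 2)) x = c := by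
  refine (h.congr_of_eventuallyEq ?_).deriv
  filter_upwards [Ioi_mem_nhds hx] with y hy
  exact D.G11_eq hf hy

/-- The derivative of `G x = (∑ volume.real (FF j x)) / (∑ a_j / 2)` is continuous on `(0, ∞)` by `c1_FF`; by
`gap_identity`, `G x = ∫_0^x f` for `x > 0`, so it is `f` almost everywhere and at all continuity points. -/
theorem Cusps.final_cont (D : Cusps Γ Λ K lam) {f : ℝ → ℝ} (hf : IsGapDist Λ f) :
    ∃ g : ℝ → ℝ, ContinuousOn g (Ioi 0) ∧ (∀ᵐ x ∂volume.restrict (Ioi 0), g x = f x) ∧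
      (∀ x : ℝ, 0 < x → ContinuousAt f x → g x = f x) ∧
      ∀ x0 : ℝ, 0 < x0 → ¬ AnalyticAt ℝ g x0 → lam * x0 ∈ K := by
  refine ⟨deriv (fun x => (∑ j, volume.real (D.FF j x)) / (∑ j, D.a j / 2)), ?_, ?_, ?_, ?_⟩
  · refine ContDiffOn.continuousOn_deriv_of_isOpen (n := 1) ?_ isOpen_Ioi le_rfl
    intro x hx
    refine ContDiffAt.contDiffWithinAt ?_
    exact (ContDiffAt.sum fun j _ => D.c1_FF j hx).div_const _
  · rw [ae_restrict_iff' measurableSet_Ioi]
    have h : ∀ n : ℕ, ∀ᵐ x : ℝ, 0 < x → x < n → HasDerivAt (fun x => ∫ t in (0 : ℝ)..x, f t) (f x) x := by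
      intro n
      by_cases hn : (0 : ℝ) < n
      · have h1 := ((hf.2 0 n le_rfl hn).1).ae_hasDerivAt_integral
        filter_upwards [h1] with x h2 h3 h4
        refine h2 ?_ 0 left_mem_uIcc
        rw [uIcc_of_le hn.le]
        exact ⟨h3.le, h4.le⟩
      · exact ae_of_all _ fun x h1 h2 => absurd (h1.trans h2) hn
    filter_upwards [ae_all_iff.2 h] with x hx h0
    obtain ⟨n, hn⟩ := exists_nat_gt x
    exact D.G11_deriv hf h0 (hx n h0 hn)
  · intro x hx hc
    have h1 := (hf.2 0 (x + 1) le_rfl (by linarith)).1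
    refine D.G11_deriv hf hx (intervalIntegral.integral_hasDerivAt_right (hf.2 0 x le_rfl hx).1 ?_ hc)
    exact ⟨Ioc 0 (x + 1), Ioc_mem_nhds hx (by linarith), h1.1.aestronglyMeasurable⟩
  · intro x0 h0 hna
    by_contra hK
    refine hna (AnalyticAt.deriv ?_)
    refine AnalyticAt.div ?_ analyticAt_const D.G11_pos.ne'
    exact Finset.univ.analyticAt_fun_sum fun j _ => D.analytic_FF j h0 hK

end H37abf
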