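import Pool.Agent.H.MP_abf1f1_an.G1

/-! MP_abf1f1_an, module G: the coordinates `(a, b)` of the vectors with positive real part. -/

set_option autoImplicit false

open scoped Topology
open Set Filter MeasureTheory

namespace H37abf

variable {Γ : Subgroup SL2} {Λ : Set ℂ} {K : Subfield ℝ} {lam : ℝ} (D : Cusps Γ Λ K lam)

namespace Cusps

/-- the computation behind `mem_FF` -/
theorem G1b_key (M : SL2) {R : ℝ} (hR : 0 < R) (hx : 0 < M.1 0 0)
    (hdet : M.1 0 0 * M.1 1 1 - M.1 0 1 * M.1 1 0 = 1) (x : ℝ) (w : ℂ) :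
    (0 < w.im ∧ 0 < M.1 0 0 / R * w.re + M.1 0 1 / R * w.im ∧
      M.1 0 0 / R * w.re + M.1 0 1 / R * w.im ≤ 1 ∧
      w.im ≤ x * (M.1 0 0 / R * (M.1 0 0 / R * w.re + M.1 0 1 / R * w.im))) ↔
    (0 < (act M w).re ∧ (act M w).re ≤ R ∧
      M.1 1 0 / M.1 0 0 < (act M w).im / (act M w).re ∧
      R ^ 2 * ((act M w).im / (act M w).re - M.1 1 0 / M.1 0 0) ≤ x) := by
  have hl : M.1 0 0 / R * w.re + M.1 0 1 / R * w.im = (act M w).re / R := by
    simp only [act]
    ring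
  rw [hl]
  have hpos : 0 < (act M w).re / R ↔ 0 < (act M w).re :=
    ⟨fun h => by
      have h2 := mul_pos h hR
      rwa [div_mul_cancel₀ _ hR.ne'] at h2, fun h => div_pos h hR⟩
  have hsub : ∀ h : 0 < (act M w).re, (act M w).im / (act M w).re - M.1 1 0 / M.1 0 0 =
      w.im / (M.1 0 0 * (act M w).re) := by
    intro h
    rw [div_sub_div _ _ h.ne' hx.ne', mul_comm ((act M w).re) (M.1 0 0)]
    congr 1
    simp only [act]
    linear_combination w.im * hdet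
  constructor
  · rintro ⟨h1, h2, h3, h4⟩
    have h5 := hpos.1 h2
    have h6 : 0 < M.1 0 0 * (act M w).re := mul_pos hx h5
    refine ⟨h5, (div_le_one hR).1 h3, ?_, ?_⟩
    · rw [← sub_pos, hsub h5]
      exact div_pos h1 h6
    · rw [hsub h5, ← mul_div_assoc, div_le_iff₀ h6]
      have h7 : x * (M.1 0 0 / R * ((act M w).re / R)) * R ^ 2 = x * (M.1 0 0 * (act M w).re) := by
        field_simp
      have h8 := mul_le_mul_of_nonneg_right h4 (sq_nonneg R)
      rw [h7] at h8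
      linarith
  · rintro ⟨h1, h2, h3, h4⟩
    have h6 : 0 < M.1 0 0 * (act M w).re := mul_pos hx h1
    refine ⟨?_, hpos.2 h1, (div_le_one hR).2 h2, ?_⟩
    · rw [← sub_pos, hsub h1] at h3
      have h7 := mul_pos h3 h6
      rwa [div_mul_cancel₀ _ h6.ne'] at h7
    · rw [hsub h1, ← mul_div_assoc, div_le_iff₀ h6] at h4
      have h7 : x * (M.1 0 0 / R * ((act M w).re / R)) = x * (M.1 0 0 * (act M w).re) / R ^ 2 := by
        field_simp
      rw [h7, le_div_iff₀ (by positivity)]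
      linarith

/-- The gap criterion. PROOF. Write `u = act γ ((C j)⁻¹ w')`, `w' ∈ W j`: with `M = M j γ = [[x, z], [y, t]]`,
`x = R a`, `z = R b`: `u.re = x w'.re + z w'.im = R (a w'.re + b w'.im)`, and
`cr (act γ (v j)) u = cr 1 w' = w'.im` (`cr_act`). The slope of `u` minus the slope of `act γ (v j)` is
`w'.im / (x u.re)`, and `R² w'.im / (R a R ℓ) = w'.im / (a ℓ)`, `ℓ = a w'.re + b w'.im`. -/
theorem mem_FF {j : Fin D.m} {R : ℝ} (hR : 0 < R) {γ : SL2} (hγ : γ ∈ Γ)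
    (h : D.ab j R γ ∈ D.EE j) (x : ℝ) : D.ab j R γ ∈ D.FF j x ↔
      ∃ u ∈ Λ, 0 < u.re ∧ u.re ≤ R ∧ (act γ (D.v j)).im / (act γ (D.v j)).re < u.im / u.re ∧
        R ^ 2 * (u.im / u.re - (act γ (D.v j)).im / (act γ (D.v j)).re) ≤ x := by
  obtain ⟨g1, g2, g3, g4⟩ := h
  have hx : 0 < (D.M j γ).1 0 0 := by
    have h1 : 0 < (D.M j γ).1 0 0 / R := g1
    have h2 := mul_pos h1 hR
    rwa [div_mul_cancel₀ _ hR.ne'] at h2
  have hdet : (D.M j γ).1 0 0 * (D.M j γ).1 1 1 - (D.M j γ).1 0 1 * (D.M j γ).1 1 0 = 1 := by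
    have := (D.M j γ).2
    rwa [Matrix.det_fin_two] at this
  have hkey := fun w : ℂ => G1b_key (D.M j γ) hR hx hdet x w
  rw [D.act_v j γ]
  constructor
  · rintro ⟨_, w, ⟨u, hu, rfl⟩, hw⟩
    refine ⟨act γ u, D.inv γ hγ u hu, ?_⟩
    have h3 : act γ u = act (D.M j γ) (act (D.C j) u) := by
      rw [← act_comp, M, inv_mul_cancel_right]
    rw [h3]
    exact (hkey _).1 hw
  · rintro ⟨u, hu, hw⟩
    refine ⟨⟨g1, g2, g3, g4⟩, act (D.C j) (act γ⁻¹ u),
      ⟨_, D.inv _ (inv_mem hγ) u hu, rfl⟩, ?_⟩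
    have h3 : act (D.M j γ) (act (D.C j) (act γ⁻¹ u)) = u := by
      rw [← act_comp, ← act_comp, M, inv_mul_cancel_right, mul_inv_cancel]
      simp [act]
    rw [← h3] at hw
    exact (hkey _).2 hw

end Cusps

end H37abf
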