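import Pool.Agent.H.MP_abf1f1_an.G1

/-! MP_abf1f1_an, module G: the coordinates `(a, b)` of the vectors with positive real part. -/

set_option autoImplicit false

open scoped Topology
open Set Filter MeasureTheory

namespace H37abf

variable {Γ : Subgroup SL2} {Λ : Set ℂ} {K : Subfield ℝ} {lam : ℝ} (D : Cusps Γ Λ K lam)

namespace Cusps

/-- Separation of slopes. PROOF. Different elements of `Λ` with positive real part are not parallel
(`ray`), and the difference of the slopes is `|cr w w'| / (w.re w'.re)`. -/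
theorem slope_sep {R : ℝ} {w w' : ℂ} (hw : w ∈ Λ) (hw' : w' ∈ Λ) (h0 : 0 < w.re)
    (h1 : w.re ≤ R) (h0' : 0 < w'.re) (h1' : w'.re ≤ R) (hne : w ≠ w') :
    D.c₀ / R ^ 2 ≤ |w.im / w.re - w'.im / w'.re| := by
  have hcr : cr w w' ≠ 0 := by
    intro h
    rcases D.ray w hw w' hw' h with h2 | ⟨c, hc, h2⟩
    · exact hne h2.symm
    · have h3 : w'.re = c * w.re := by
        rw [h2, Complex.re_ofReal_mul]
      have h4 : c * w.re < 0 := mul_neg_of_neg_of_pos hc h0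
      linarith
  have h2 := D.c₀_le w hw w' hw' hcr
  have hR : 0 < R := h0.trans_le h1
  have h3 : w.im / w.re - w'.im / w'.re = -(cr w w') / (w.re * w'.re) := by
    unfold cr
    field_simp
    ring
  rw [h3, abs_div, abs_neg, abs_of_pos (mul_pos h0 h0')]
  have h4 : w.re * w'.re ≤ R ^ 2 := by
    rw [sq]
    exact mul_le_mul h1 h1' h0'.le hR.le
  exact div_le_div₀ (abs_nonneg _) h2 (mul_pos h0 h0') h4

/-- the slope is injective -/
theorem G1c_inj {R : ℝ} {w w' : ℂ} (hw : w ∈ Λ) (hw' : w' ∈ Λ) (h0 : 0 < w.re)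
    (h1 : w.re ≤ R) (h0' : 0 < w'.re) (h1' : w'.re ≤ R)
    (h : |w.im / w.re - w'.im / w'.re| < D.c₀ / R ^ 2) : w = w' := by
  by_contra hne
  exact absurd (D.slope_sep hw hw' h0 h1 h0' h1' hne) (not_le.2 h)

include D in
/-- PROOF. `slope_sep`: the slopes are different; they are the elements of `slopes Λ R`. -/
theorem ncard_slopes (R : ℝ) : (slopes Λ R).ncard = (T Λ R).ncard ∧ (T Λ R).Finite := by
  have himg : slopes Λ R = (fun w : ℂ => w.im / w.re) '' T Λ R := by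
    ext s
    constructor
    · rintro ⟨v, hv, h1, h2, h3, h4, h5⟩
      exact ⟨v, ⟨hv, h1, h4, h2, h3⟩, h5.symm⟩
    · rintro ⟨v, ⟨hv, h1, h4, h2, h3⟩, h5⟩
      exact ⟨v, hv, h1, h2, h3, h4, h5.symm⟩
  have hinj : InjOn (fun w : ℂ => w.im / w.re) (T Λ R) := by
    rintro w ⟨hw, h1, h4, h2, h3⟩ w' ⟨hw', h1', h4', h2', h3'⟩ h
    have hR : 0 < R := h1.trans_le h4
    refine D.G1c_inj hw hw' h1 h4 h1' h4' ?_
    have h5 : w.im / w.re = w'.im / w'.re := h
    rw [h5, sub_self, abs_zero]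
    exact div_pos D.c₀_pos (by positivity)
  refine ⟨?_, ?_⟩
  · rw [himg]
    exact hinj.ncard_image
  · refine (D.fin (2 * R)).subset ?_
    rintro w ⟨hw, h1, h4, h2, h3⟩
    refine ⟨hw, ?_⟩
    have h5 := Complex.norm_le_abs_re_add_abs_im w
    rw [abs_of_pos h1, abs_of_nonneg h2] at h5
    linarith

/-- PROOF. The slopes of the elements are in an interval of length `L` and are separated by `c₀ / R ^ 2`
(`slope_sep`): at most `L R ^ 2 / c₀ + 1`. -/
theorem ncard_window {R : ℝ} (hR : 0 < R) (s L : ℝ) (hL : 0 ≤ L) :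
    {w ∈ Λ | 0 < w.re ∧ w.re ≤ R ∧ s ≤ w.im / w.re ∧ w.im / w.re ≤ s + L}.Finite ∧
    ({w ∈ Λ | 0 < w.re ∧ w.re ≤ R ∧ s ≤ w.im / w.re ∧ w.im / w.re ≤ s + L}.ncard : ℝ) ≤
      L * R ^ 2 / D.c₀ + 1 := by
  set S : Set ℂ := {w ∈ Λ | 0 < w.re ∧ w.re ≤ R ∧ s ≤ w.im / w.re ∧ w.im / w.re ≤ s + L} with hS
  set δ : ℝ := D.c₀ / R ^ 2 with hδ
  have hδ0 : 0 < δ := div_pos D.c₀_pos (by positivity)
  set f : ℂ → ℕ := fun w => ⌊(w.im / w.re - s) / δ⌋₊ with hf
  have hmap : ∀ w ∈ S, f w ∈ Iic ⌊L / δ⌋₊ := by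
    rintro w ⟨_, _, _, h3, h4⟩
    refine Nat.floor_le_floor ?_
    exact div_le_div_of_nonneg_right (by linarith) hδ0.le
  have hinj : InjOn f S := by
    rintro w ⟨hw, h1, h2, h3, h4⟩ w' ⟨hw', h1', h2', h3', h4'⟩ h
    refine D.G1c_inj hw hw' h1 h2 h1' h2' ?_
    have hx : 0 ≤ (w.im / w.re - s) / δ := div_nonneg (by linarith) hδ0.le
    have hx' : 0 ≤ (w'.im / w'.re - s) / δ := div_nonneg (by linarith) hδ0.le
    have h5 := Nat.floor_le hx
    have h6 := Nat.lt_floor_add_one ((w.im / w.re - s) / δ)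
    have h5' := Nat.floor_le hx'
    have h6' := Nat.lt_floor_add_one ((w'.im / w'.re - s) / δ)
    have h7 : (⌊(w.im / w.re - s) / δ⌋₊ : ℝ) = (⌊(w'.im / w'.re - s) / δ⌋₊ : ℝ) := by
      exact_mod_cast h
    have h8 : |(w.im / w.re - s) / δ - (w'.im / w'.re - s) / δ| < 1 := by
      rw [abs_lt]
      constructor <;> linarith
    have h9 : (w.im / w.re - s) / δ - (w'.im / w'.re - s) / δ =
        (w.im / w.re - w'.im / w'.re) / δ := by ring
    rw [h9, abs_div, abs_of_pos hδ0, div_lt_one hδ0] at h8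
    exact h8
  have hfin : S.Finite := by
    refine Set.Finite.of_finite_image ((finite_Iic ⌊L / δ⌋₊).subset ?_) hinj
    rintro _ ⟨w, hw, rfl⟩
    exact hmap w hw
  refine ⟨hfin, ?_⟩
  have h1 : S.ncard ≤ (Iic ⌊L / δ⌋₊).ncard :=
    ncard_le_ncard_of_injOn f hmap hinj (finite_Iic _)
  have h2 : (Iic ⌊L / δ⌋₊ : Set ℕ).ncard = ⌊L / δ⌋₊ + 1 := by
    rw [← Nat.card_coe_set_eq, Nat.card_eq_fintype_card, Fintype.card_Iic, Nat.card_Iic]
  rw [h2] at h1
  have h3 : (S.ncard : ℝ) ≤ ⌊L / δ⌋₊ + 1 := by exact_mod_cast h1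
  refine h3.trans ?_
  have h4 : (⌊L / δ⌋₊ : ℝ) ≤ L / δ := Nat.floor_le (div_nonneg hL hδ0.le)
  have h5 : L / δ = L * R ^ 2 / D.c₀ := by
    rw [hδ]
    have := D.c₀_pos
    field_simp
  linarith

end Cusps

end H37abf
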