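import Pool.Agent.H.MP_abf1f1_an.G1

/-! MP_abf1f1_an, module G: the sets `FF j x` in the section: finitely many pieces, measurability,
frontiers, volumes. -/

set_option autoImplicit false

open scoped Topology
open Set Filter MeasureTheory

namespace H37abf

variable {Γ : Subgroup SL2} {Λ : Set ℂ} {K : Subfield ℝ} {lam : ℝ} (D : Cusps Γ Λ K lam)

namespace Cusps

/-- The part of the section with `ε ≤ a`. -/
def EEe (j : Fin D.m) (ε : ℝ) : Set (ℝ × ℝ) := {q ∈ D.EE j | ε ≤ q.1}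

/-- The piece given by the vector `w`. -/
def SS (j : Fin D.m) (w : ℂ) (x : ℝ) : Set (ℝ × ℝ) :=
  {q ∈ D.EE j | 0 < q.1 * w.re + q.2 * w.im ∧ q.1 * w.re + q.2 * w.im ≤ 1 ∧
    w.im ≤ x * (q.1 * (q.1 * w.re + q.2 * w.im))}

/-- PROOF. `D.fin`, `norm_act_le` for `(C j)⁻¹`. -/
theorem W_finite (j : Fin D.m) (C : ℝ) : {w ∈ D.W j | ‖w‖ ≤ C}.Finite := by
  set g := (D.C j)⁻¹ with hg
  set c := |g.1 0 0| + |g.1 0 1| + |g.1 1 0| + |g.1 1 1| with hc
  have hc0 : 0 ≤ c := by rw [hc]; positivity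
  refine ((D.fin (c * C)).image (act (D.C j))).subset ?_
  rintro w ⟨⟨u, hu, hw⟩, hn⟩
  refine ⟨u, ⟨hu, ?_⟩, hw⟩
  have h1 : act g w = u := by rw [hg, ← hw, act_inv_act]
  rw [← h1]
  exact (norm_act_le g w).trans (mul_le_mul_of_nonneg_left hn hc0)

/-- PROOF. `w = act (C j) u`, `w.im = cr 1 w = cr (v j) u` (`cr_act`, `act_C`), `c₀_le`. -/
theorem W_im {j : Fin D.m} {w : ℂ} (hw : w ∈ D.W j) (h : 0 < w.im) : D.c₀ ≤ w.im := by
  obtain ⟨u, hu, hw⟩ := hw
  have h1 : w.im = cr (D.v j) u := by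
    rw [← cr_act (D.C j), D.act_C, hw]
    simp [cr]
  rw [h1] at h ⊢
  have := D.c₀_le _ (D.mem j) u hu h.ne'
  rwa [abs_of_pos h] at this

/-- PROOF. `w.im ≤ x a ℓ ≤ x a` and `W_im`. -/
theorem FF_ge {j : Fin D.m} {x : ℝ} (hx : 0 < x) {q : ℝ × ℝ} (h : q ∈ D.FF j x) :
    D.c₀ / x ≤ q.1 := by
  obtain ⟨hE, w, hw, hi, h1, h2, h3⟩ := h
  have hq : 0 < q.1 := hE.1
  rw [div_le_iff₀ hx]
  have h4 := D.W_im hw hi
  have h5 : x * (q.1 * (q.1 * w.re + q.2 * w.im)) ≤ x * (q.1 * 1) := by gcongr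
  linarith

/-- PROOF. For `q = (a, b) ∈ SS j w x` with `w ∈ W j`, `0 < w.im`, `x ≤ X`: `w.im ≤ X`, `a ≥ c₀ / X`,
`0 ≤ b < a_j`, so `|a w.re| ≤ 1 + a_j X`, so `|w|` is bounded by a constant; `Wf` is the finite set of such
`w` (`W_finite`). -/
theorem FF_eq (j : Fin D.m) {X : ℝ} (hX : 0 < X) : ∃ Wf : Finset ℂ,
    (∀ w ∈ Wf, w ∈ D.W j ∧ 0 < w.im) ∧
    ∀ x, 0 < x → x ≤ X → D.FF j x = ⋃ w ∈ Wf, D.SS j w x := by
  classical
  set B : ℝ := (1 + D.a j * X) * X / D.c₀ + X with hB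
  have hfin : {w ∈ D.W j | ‖w‖ ≤ B ∧ 0 < w.im}.Finite := by
    refine (D.W_finite j B).subset ?_
    rintro w ⟨h1, h2, -⟩
    exact ⟨h1, h2⟩
  have hc := D.c₀_pos
  have ha := D.a_pos j
  refine ⟨hfin.toFinset, ?_, ?_⟩
  · intro w hw
    rw [Set.Finite.mem_toFinset] at hw
    exact ⟨hw.1, hw.2.2⟩
  · intro x hx hxX
    ext q
    simp only [mem_iUnion]
    constructor
    · rintro ⟨hE, w, hw, hi, h1, h2, h3⟩
      refine ⟨w, ?_, hE, h1, h2, h3⟩
      rw [Set.Finite.mem_toFinset]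
      refine ⟨hw, ?_, hi⟩
      obtain ⟨e1, e2, e3, e4⟩ := hE
      have g1 : D.c₀ / x ≤ q.1 := D.FF_ge hx ⟨⟨e1, e2, e3, e4⟩, w, hw, hi, h1, h2, h3⟩
      have g2 : w.im ≤ X := by
        have : x * (q.1 * (q.1 * w.re + q.2 * w.im)) ≤ X * (1 * 1) := by gcongr
        linarith
      have g3 : D.c₀ ≤ q.1 * X := by
        rw [div_le_iff₀ hx] at g1
        have : q.1 * x ≤ q.1 * X := by gcongr
        linarith
      have g4 : q.2 ≤ D.a j := by
        have : q.1 * D.a j ≤ 1 * D.a j := by gcongr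
        linarith
      have g5 : q.2 * w.im ≤ D.a j * X := mul_le_mul g4 g2 hi.le ha.le
      have g6 : 0 ≤ q.2 * w.im := by positivity
      have g7 : q.1 * |w.re| ≤ 1 + D.a j * X := by
        rw [← abs_of_pos e1, ← abs_mul]
        rw [abs_le]
        constructor <;> linarith
      have g8 : |w.re| ≤ (1 + D.a j * X) * X / D.c₀ := by
        rw [le_div_iff₀ hc]
        calc |w.re| * D.c₀ ≤ |w.re| * (q.1 * X) := by gcongr
          _ = q.1 * |w.re| * X := by ring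
          _ ≤ (1 + D.a j * X) * X := by gcongr
      calc ‖w‖ ≤ |w.re| + |w.im| := Complex.norm_le_abs_re_add_abs_im w
        _ ≤ B := by
          rw [abs_of_pos hi, hB]
          linarith
    · rintro ⟨w, hw, hE, h1, h2, h3⟩
      rw [Set.Finite.mem_toFinset] at hw
      exact ⟨hE, w, hw.1, hw.2.2, h1, h2, h3⟩

/-- PROOF. All conditions are inequalities between continuous functions. -/
theorem measurableSet_SS (j : Fin D.m) (w : ℂ) (x : ℝ) : MeasurableSet (D.SS j w x) := by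
  have h1 : D.SS j w x = ({q : ℝ × ℝ | 0 < q.1} ∩ ({q : ℝ × ℝ | q.1 ≤ 1} ∩ ({q : ℝ × ℝ | 0 ≤ q.2} ∩
      {q : ℝ × ℝ | q.2 < q.1 * D.a j}))) ∩ ({q : ℝ × ℝ | 0 < q.1 * w.re + q.2 * w.im} ∩
      ({q : ℝ × ℝ | q.1 * w.re + q.2 * w.im ≤ 1} ∩
      {q : ℝ × ℝ | w.im ≤ x * (q.1 * (q.1 * w.re + q.2 * w.im))})) := rfl
  rw [h1]
  refine (MeasurableSet.inter ?_ (MeasurableSet.inter ?_ (MeasurableSet.inter ?_ ?_))).inter
    (MeasurableSet.inter ?_ (MeasurableSet.inter ?_ ?_))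
  · exact measurableSet_lt measurable_const (by fun_prop)
  · exact measurableSet_le (by fun_prop) measurable_const
  · exact measurableSet_le measurable_const (by fun_prop)
  · exact measurableSet_lt (by fun_prop) (by fun_prop)
  · exact measurableSet_lt measurable_const (by fun_prop)
  · exact measurableSet_le (by fun_prop) measurable_const
  · exact measurableSet_le measurable_const (by fun_prop)

theorem measurableSet_FF (j : Fin D.m) {x : ℝ} (hx : 0 < x) : MeasurableSet (D.FF j x) := by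
  obtain ⟨Wf, -, h⟩ := D.FF_eq j hx
  rw [h x hx le_rfl]
  exact Finset.measurableSet_biUnion _ fun w _ => D.measurableSet_SS j w x

theorem measurableSet_EE (j : Fin D.m) : MeasurableSet (D.EE j) := by
  have h1 : D.EE j = {q : ℝ × ℝ | 0 < q.1} ∩ ({q : ℝ × ℝ | q.1 ≤ 1} ∩ ({q : ℝ × ℝ | 0 ≤ q.2} ∩
      {q : ℝ × ℝ | q.2 < q.1 * D.a j})) := rfl
  rw [h1]
  refine MeasurableSet.inter ?_ (MeasurableSet.inter ?_ (MeasurableSet.inter ?_ ?_))
  · exact measurableSet_lt measurable_const (by fun_prop)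
  · exact measurableSet_le (by fun_prop) measurable_const
  · exact measurableSet_le measurable_const (by fun_prop)
  · exact measurableSet_lt (by fun_prop) (by fun_prop)

theorem measurableSet_EEe (j : Fin D.m) (ε : ℝ) : MeasurableSet (D.EEe j ε) := by
  have h1 : D.EEe j ε = D.EE j ∩ {q : ℝ × ℝ | ε ≤ q.1} := rfl
  rw [h1]
  exact (D.measurableSet_EE j).inter (measurableSet_le measurable_const (by fun_prop))

/-- PROOF. `0 < a ≤ 1`, `0 ≤ b < a_j`. -/
theorem bounded_EE (j : Fin D.m) : Bornology.IsBounded (D.EE j) := by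
  refine (Metric.isBounded_Icc ((0 : ℝ), (0 : ℝ)) ((1 : ℝ), D.a j)).subset ?_
  rintro ⟨a, b⟩ ⟨h1, h2, h3, h4⟩
  simp only at h1 h2 h3 h4
  have ha := D.a_pos j
  refine ⟨Prod.mk_le_mk.2 ⟨h1.le, h3⟩, Prod.mk_le_mk.2 ⟨h2, ?_⟩⟩
  have : a * D.a j ≤ 1 * D.a j := by gcongr
  linarith

end Cusps

end H37abf
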