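import Pool.Agent.H.MP_abf1f1_an.G2

/-! MP_abf1f1_an, module G: null frontiers and volumes. -/

set_option autoImplicit false

open scoped Topology
open Set Filter MeasureTheory

namespace H37abf

/-- The frontier of an intersection of two sets with null frontiers is null. -/
theorem G2b_inter {s t : Set (ℝ × ℝ)} (hs : volume (frontier s) = 0)
    (ht : volume (frontier t) = 0) : volume (frontier (s ∩ t)) = 0 := by
  refine measure_mono_null (frontier_inter_subset s t) (measure_union_null ?_ ?_)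
  · exact measure_mono_null inter_subset_left hs
  · exact measure_mono_null inter_subset_right ht

/-- The volume of the region under a line over a measurable subset of the unit interval. -/
theorem G2b_vol {A : ℝ} (hA : 0 ≤ A) {s : Set ℝ} (hs : MeasurableSet s)
    (hsb : s ⊆ Icc (0 : ℝ) 1) :
    volume.real {q : ℝ × ℝ | q.1 ∈ s ∧ 0 ≤ q.2 ∧ q.2 < q.1 * A} = ∫ a in s, a * A := by
  have hm : MeasurableSet {q : ℝ × ℝ | q.1 ∈ s ∧ 0 ≤ q.2 ∧ q.2 < q.1 * A} := by
    have e : {q : ℝ × ℝ | q.1 ∈ s ∧ 0 ≤ q.2 ∧ q.2 < q.1 * A} = (Prod.fst ⁻¹' s) ∩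
        ({q : ℝ × ℝ | 0 ≤ q.2} ∩ {q : ℝ × ℝ | q.2 < q.1 * A}) := rfl
    rw [e]
    refine (measurable_fst hs).inter (MeasurableSet.inter ?_ ?_)
    · exact measurableSet_le measurable_const (by fun_prop)
    · exact measurableSet_lt (by fun_prop) (by fun_prop)
  have hsl : (fun a : ℝ => volume (Prod.mk a ⁻¹' {q : ℝ × ℝ | q.1 ∈ s ∧ 0 ≤ q.2 ∧ q.2 < q.1 * A})) =
      s.indicator (fun a => ENNReal.ofReal (a * A)) := by
    funext a
    by_cases ha : a ∈ s
    · have e : Prod.mk a ⁻¹' {q : ℝ × ℝ | q.1 ∈ s ∧ 0 ≤ q.2 ∧ q.2 < q.1 * A} =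
          Ico 0 (a * A) := by
        ext b
        simp [ha]
      rw [e, Real.volume_Ico, indicator_of_mem ha, sub_zero]
    · have e : Prod.mk a ⁻¹' {q : ℝ × ℝ | q.1 ∈ s ∧ 0 ≤ q.2 ∧ q.2 < q.1 * A} = ∅ := by
        ext b
        simp [ha]
      rw [e, measure_empty, indicator_of_notMem ha]
  have hint : IntegrableOn (fun a : ℝ => a * A) s := by
    have h1 : IntegrableOn (fun a : ℝ => a * A) (Icc 0 1) :=
      (Continuous.continuousOn (by fun_prop)).integrableOn_compact isCompact_Icc
    exact h1.mono_set hsb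
  have hnn : ∀ᵐ a ∂(volume.restrict s), 0 ≤ a * A := by
    rw [ae_restrict_iff' hs]
    exact Eventually.of_forall fun a ha => mul_nonneg (hsb ha).1 hA
  rw [Measure.real, Measure.volume_eq_prod, Measure.prod_apply hm, hsl, lintegral_indicator hs,
    ← ofReal_integral_eq_lintegral_ofReal hint hnn, ENNReal.toReal_ofReal]
  exact integral_nonneg_of_ae hnn

/-- A graph over the first coordinate is a null set. -/
theorem volume_graph (φ : ℝ → ℝ) (hφ : Measurable φ) :
    volume {q : ℝ × ℝ | q.2 = φ q.1} = 0 := by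
  have hm : MeasurableSet {q : ℝ × ℝ | q.2 = φ q.1} :=
    measurableSet_eq_fun measurable_snd (hφ.comp measurable_fst)
  rw [Measure.volume_eq_prod, Measure.measure_prod_null hm]
  refine Eventually.of_forall fun a => ?_
  have e : Prod.mk a ⁻¹' {q : ℝ × ℝ | q.2 = φ q.1} = {φ a} := by
    ext b
    simp
  show volume (Prod.mk a ⁻¹' {q : ℝ × ℝ | q.2 = φ q.1}) = 0
  rw [e]
  exact measure_singleton _

/-- A vertical line is a null set. -/
theorem volume_vertical (c : ℝ) : volume {q : ℝ × ℝ | q.1 = c} = 0 := by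
  have e : {q : ℝ × ℝ | q.1 = c} = ({c} : Set ℝ) ×ˢ (univ : Set ℝ) := by
    ext q
    simp
  rw [e, Measure.volume_eq_prod, Measure.prod_prod, measure_singleton, zero_mul]

variable {Γ : Subgroup SL2} {Λ : Set ℂ} {K : Subfield ℝ} {lam : ℝ} (D : Cusps Γ Λ K lam)

namespace Cusps

/-- The frontier of the section is null. -/
theorem G2b_frontier_EE (j : Fin D.m) : volume (frontier (D.EE j)) = 0 := by
  have h1 : D.EE j = {q : ℝ × ℝ | 0 < q.1} ∩ ({q : ℝ × ℝ | q.1 ≤ 1} ∩ ({q : ℝ × ℝ | 0 ≤ q.2} ∩
      {q : ℝ × ℝ | q.2 < q.1 * D.a j})) := rfl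
  rw [h1]
  refine G2b_inter ?_ (G2b_inter ?_ (G2b_inter ?_ ?_))
  · refine measure_mono_null (frontier_lt_subset_eq continuous_const continuous_fst) ?_
    refine measure_mono_null ?_ (volume_vertical 0)
    intro q hq
    exact (show (0 : ℝ) = q.1 from hq).symm
  · refine measure_mono_null (frontier_le_subset_eq continuous_fst continuous_const) ?_
    exact volume_vertical 1
  · refine measure_mono_null (frontier_le_subset_eq continuous_const continuous_snd) ?_
    refine measure_mono_null ?_ (volume_graph (fun _ => 0) measurable_const)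
    intro q hq
    exact (show (0 : ℝ) = q.2 from hq).symm
  · refine measure_mono_null (frontier_lt_subset_eq continuous_snd (by fun_prop)) ?_
    exact volume_graph (fun a => a * D.a j) (by fun_prop)

/-- The frontier of a piece is null: a point of the frontier satisfies one of the equations of its
boundary. -/
theorem frontier_SS (j : Fin D.m) {w : ℂ} (hw : 0 < w.im) {x : ℝ} (hx : 0 < x) :
    volume (frontier (D.SS j w x)) = 0 := by
  have h1 : D.SS j w x = D.EE j ∩ ({q : ℝ × ℝ | 0 < q.1 * w.re + q.2 * w.im} ∩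
      ({q : ℝ × ℝ | q.1 * w.re + q.2 * w.im ≤ 1} ∩
      {q : ℝ × ℝ | w.im ≤ x * (q.1 * (q.1 * w.re + q.2 * w.im))})) := rfl
  rw [h1]
  refine G2b_inter (D.G2b_frontier_EE j) (G2b_inter ?_ (G2b_inter ?_ ?_))
  · refine measure_mono_null (frontier_lt_subset_eq continuous_const (by fun_prop)) ?_
    refine measure_mono_null ?_ (volume_graph (fun a => -(a * w.re) / w.im) (by fun_prop))
    intro q hq
    have hq' : 0 = q.1 * w.re + q.2 * w.im := hq
    show q.2 = -(q.1 * w.re) / w.im
    rw [eq_div_iff hw.ne']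
    linarith
  · refine measure_mono_null (frontier_le_subset_eq (by fun_prop) continuous_const) ?_
    refine measure_mono_null ?_ (volume_graph (fun a => (1 - a * w.re) / w.im) (by fun_prop))
    intro q hq
    have hq' : q.1 * w.re + q.2 * w.im = 1 := hq
    show q.2 = (1 - q.1 * w.re) / w.im
    rw [eq_div_iff hw.ne']
    linarith
  · refine measure_mono_null (frontier_le_subset_eq continuous_const (by fun_prop)) ?_
    refine measure_mono_null ?_ (volume_graph
      (fun a => (w.im / (x * a) - a * w.re) / w.im) (by fun_prop))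
    intro q hq
    have hq' : w.im = x * (q.1 * (q.1 * w.re + q.2 * w.im)) := hq
    show q.2 = (w.im / (x * q.1) - q.1 * w.re) / w.im
    have hq1 : q.1 ≠ 0 := by
      intro h0
      rw [h0, zero_mul, mul_zero] at hq'
      exact hw.ne' hq'
    have hxq : x * q.1 ≠ 0 := mul_ne_zero hx.ne' hq1
    have h2 : w.im / (x * q.1) = q.1 * w.re + q.2 * w.im := by
      rw [div_eq_iff hxq]
      linarith
    rw [h2, eq_div_iff hw.ne']
    ring

/-- The frontier of `FF j x` is null: it is a finite union of pieces. -/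
theorem frontier_FF (j : Fin D.m) {x : ℝ} (hx : 0 < x) : volume (frontier (D.FF j x)) = 0 := by
  obtain ⟨Wf, hW, h⟩ := D.FF_eq j hx
  rw [h x hx le_rfl]
  have key : ∀ F : Finset ℂ, (∀ w ∈ F, w ∈ D.W j ∧ 0 < w.im) →
      volume (frontier (⋃ w ∈ F, D.SS j w x)) = 0 := by
    classical
    intro F
    induction F using Finset.induction_on with
    | empty => intro _; simp
    | insert a s ha ih =>
      intro hF
      rw [Finset.set_biUnion_insert]
      refine measure_mono_null (frontier_union_subset _ _) (measure_union_null ?_ ?_)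
      · exact measure_mono_null inter_subset_left
          (D.frontier_SS j (hF a (Finset.mem_insert_self _ _)).2 hx)
      · exact measure_mono_null inter_subset_right
          (ih fun w hw => hF w (Finset.mem_insert_of_mem hw))
  exact key Wf hW

/-- The frontier of `EEe j ε` is null. -/
theorem frontier_EEe (j : Fin D.m) (ε : ℝ) : volume (frontier (D.EEe j ε)) = 0 := by
  have h1 : D.EEe j ε = D.EE j ∩ {q : ℝ × ℝ | ε ≤ q.1} := rfl
  rw [h1]
  refine G2b_inter (D.G2b_frontier_EE j) ?_
  refine measure_mono_null (frontier_le_subset_eq continuous_const continuous_fst) ?_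
  refine measure_mono_null ?_ (volume_vertical ε)
  intro q hq
  exact (show ε = q.1 from hq).symm

/-- The area of the section. -/
theorem volume_EE (j : Fin D.m) : volume.real (D.EE j) = D.a j / 2 := by
  have h1 : D.EE j = {q : ℝ × ℝ | q.1 ∈ Ioc (0 : ℝ) 1 ∧ 0 ≤ q.2 ∧ q.2 < q.1 * D.a j} := by
    ext q
    constructor
    · rintro ⟨e1, e2, e3, e4⟩
      exact ⟨⟨e1, e2⟩, e3, e4⟩
    · rintro ⟨⟨e1, e2⟩, e3, e4⟩
      exact ⟨e1, e2, e3, e4⟩
  rw [h1, G2b_vol (D.a_pos j).le measurableSet_Ioc Ioc_subset_Icc_self,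
    ← intervalIntegral.integral_of_le zero_le_one, intervalIntegral.integral_mul_const, integral_id]
  ring

/-- The area of the part of the section with `ε ≤ a`. -/
theorem volume_EEe (j : Fin D.m) {ε : ℝ} (h0 : 0 < ε) (h1 : ε ≤ 1) :
    volume.real (D.EEe j ε) = D.a j * (1 - ε ^ 2) / 2 := by
  have h2 : D.EEe j ε = {q : ℝ × ℝ | q.1 ∈ Icc ε 1 ∧ 0 ≤ q.2 ∧ q.2 < q.1 * D.a j} := by
    ext q
    constructor
    · rintro ⟨⟨e1, e2, e3, e4⟩, e5⟩
      exact ⟨⟨e5, e2⟩, e3, e4⟩
    · rintro ⟨⟨e5, e2⟩, e3, e4⟩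
      exact ⟨⟨lt_of_lt_of_le h0 e5, e2, e3, e4⟩, e5⟩
  rw [h2, G2b_vol (D.a_pos j).le measurableSet_Icc (Icc_subset_Icc_left h0.le),
    integral_Icc_eq_integral_Ioc, ← intervalIntegral.integral_of_le h1,
    intervalIntegral.integral_mul_const, integral_id]
  ring

end Cusps

end H37abf
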