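import Pool.Agent.H.MP_abf1f1_an.G1c
import Pool.Agent.H.MP_abf1f1_an.F2d

/-! MP_abf1f1_an, module G: the integral of the counting function along a horocycle arc. -/

set_option autoImplicit false

open scoped Topology
open Set Filter MeasureTheory

namespace H37abf

variable {Γ : Subgroup SL2} {Λ : Set ℂ} {K : Subfield ℝ} {lam : ℝ} (D : Cusps Γ Λ K lam)

namespace Cusps

/-- The elements of `Γ` with coordinates in `B` whose vector is in `T Λ R`. -/
def cnt (j : Fin D.m) (R : ℝ) (B : Set (ℝ × ℝ)) : Set SL2 :=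
  {γ | γ ∈ Γ ∧ D.ab j R γ ∈ B ∧ act γ (D.v j) ∈ T Λ R}

/-- PROOF. `γ ↦ act γ (v j)` is injective on it (`ab_inj`) with values in the finite set `T Λ R`
(`ncard_slopes`). -/
theorem cnt_finite (j : Fin D.m) {R : ℝ} (hR : 0 < R) {B : Set (ℝ × ℝ)} (hB : B ⊆ D.EE j) :
    (D.cnt j R B).Finite := by
  refine Set.Finite.of_finite_image (f := fun γ => act γ (D.v j))
    ((D.ncard_slopes R).2.subset ?_) ?_
  · rintro _ ⟨γ, hγ, rfl⟩
    exact hγ.2.2
  · intro γ hγ γ' hγ' h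
    exact D.ab_inj hR hγ.1 hγ'.1 h (hB hγ.2.1) (hB hγ'.2.1)

theorem G3_entries (g : SL2) {R : ℝ} (hR : 0 < R) (s : ℝ) :
    (dd R⁻¹ * hh (-s) * g : SL2).1 = !![g.1 0 0 / R, g.1 0 1 / R;
      R * (g.1 1 0 - s * g.1 0 0), R * (g.1 1 1 - s * g.1 0 1)] := by
  have hR' : R⁻¹ ≠ 0 := inv_ne_zero hR.ne'
  have h1 : (dd R⁻¹ : SL2).1 = !![R⁻¹, 0; 0, R] := by
    have := coe_pp hR' 0
    rw [inv_inv] at this
    exact this
  have h2 : (hh (-s) : SL2).1 = !![1, 0; -s, 1] := rfl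
  rw [Matrix.SpecialLinearGroup.coe_mul, Matrix.SpecialLinearGroup.coe_mul, h1, h2]
  ext i k
  fin_cases i <;> fin_cases k <;>
    simp [Matrix.mul_apply, Fin.sum_univ_two] <;> ring

/-- PROOF. With `M = M j γ = [[x, z], [y, t]]`: `dd R⁻¹ * hh (-s) * M = [[x/R, z/R], [R (y - s x), R (t - s z)]]`,
to be equal to `hh u * pp a b = [[a, b], [u a, u b + a⁻¹]]` with `(a, b) ∈ B`: `(a, b) = ab j R γ`, `x ≠ 0`, and
`u = R² (y/x - s)`. Conversely if `(x/R, z/R) ∈ B` and `u = R² (y/x - s)` the matrices agree (determinant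
`1`). `mem_box`; slope `= y / x = (act γ (v j)).im / (act γ (v j)).re` (`act_v`). -/
theorem mem_box_iff (j : Fin D.m) {R : ℝ} (hR : 0 < R) {B : Set (ℝ × ℝ)} (hB : B ⊆ D.EE j)
    (δ : ℝ) (γ : SL2) (s : ℝ) : dd R⁻¹ * hh (-s) * γ ∈ box δ B (D.C j) ↔
      D.ab j R γ ∈ B ∧ 0 ≤ R ^ 2 * ((act γ (D.v j)).im / (act γ (D.v j)).re - s) ∧
        R ^ 2 * ((act γ (D.v j)).im / (act γ (D.v j)).re - s) < δ := by
  have hM : γ = D.M j γ * D.C j := by
    rw [M, inv_mul_cancel_right]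
  have hv := D.act_v j γ
  have hre : (act γ (D.v j)).re = (D.M j γ).1 0 0 := by rw [hv]
  have him : (act γ (D.v j)).im = (D.M j γ).1 1 0 := by rw [hv]
  have hab : D.ab j R γ = ((D.M j γ).1 0 0 / R, (D.M j γ).1 0 1 / R) := rfl
  have hent := G3_entries (D.M j γ) hR s
  have hdet : (D.M j γ).1 0 0 * (D.M j γ).1 1 1 - (D.M j γ).1 0 1 * (D.M j γ).1 1 0 = 1 := by
    have := (D.M j γ).2
    rwa [Matrix.det_fin_two] at this
  rw [hre, him, hab]
  generalize hx : (D.M j γ).1 0 0 = x at *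
  generalize hz : (D.M j γ).1 0 1 = z at *
  generalize hy : (D.M j γ).1 1 0 = y at *
  generalize ht : (D.M j γ).1 1 1 = t at *
  have hkey : ∀ u a b, (dd R⁻¹ * hh (-s) * γ = hh u * pp a b * D.C j ↔
      dd R⁻¹ * hh (-s) * D.M j γ = hh u * pp a b) := by
    intro u a b
    constructor
    · intro h
      have h1 : dd R⁻¹ * hh (-s) * D.M j γ * D.C j = hh u * pp a b * D.C j := by
        rw [mul_assoc, ← hM]
        exact h
      exact mul_right_cancel h1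
    · intro h
      rw [← h, mul_assoc (dd R⁻¹ * hh (-s)), ← hM]
  rw [mem_box]
  constructor
  · rintro ⟨u, a, b, hu0, hu1, hB', h⟩
    rw [hkey] at h
    have hpos : 0 < a := (hB hB').1
    have h1 : (hh u * pp a b : SL2).1 = !![a, b; u * a, u * b + a⁻¹] :=
      coe_Phi (q := (u, a, b)) hpos.ne'
    have h2 := congrArg Subtype.val h
    rw [hent, h1] at h2
    have e00 : x / R = a := by simpa using congrFun (congrFun h2 0) 0
    have e01 : z / R = b := by simpa using congrFun (congrFun h2 0) 1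
    have e10 : R * (y - s * x) = u * a := by simpa using congrFun (congrFun h2 1) 0
    have hx0 : x ≠ 0 := by
      intro h0
      rw [h0, zero_div] at e00
      exact hpos.ne e00
    have hu : R ^ 2 * (y / x - s) = u := by
      rw [← e00] at e10
      have h3 : R ^ 2 * (y / x - s) = R * (R * (y - s * x)) / x := by
        field_simp
      rw [h3, e10]
      field_simp
    rw [hu, e00, e01]
    exact ⟨hB', hu0, hu1⟩
  · rintro ⟨hB', hu0, hu1⟩
    refine ⟨R ^ 2 * (y / x - s), x / R, z / R, hu0, hu1, hB', ?_⟩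
    rw [hkey]
    have hpos : 0 < x / R := (hB hB').1
    have hx0 : x ≠ 0 := by
      intro h0
      rw [h0, zero_div] at hpos
      exact lt_irrefl _ hpos
    have h1 : (hh (R ^ 2 * (y / x - s)) * pp (x / R) (z / R) : SL2).1 =
        !![x / R, z / R; (R ^ 2 * (y / x - s)) * (x / R),
          (R ^ 2 * (y / x - s)) * (z / R) + (x / R)⁻¹] :=
      coe_Phi (q := (R ^ 2 * (y / x - s), x / R, z / R)) hpos.ne'
    apply Subtype.ext
    rw [hent, h1]
    have e10 : R * (y - s * x) = (R ^ 2 * (y / x - s)) * (x / R) := by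
      field_simp
    have e11 : R * (t - s * z) = (R ^ 2 * (y / x - s)) * (z / R) + (x / R)⁻¹ := by
      have ht' : t = (1 + z * y) / x := by
        field_simp
        linarith
      rw [ht']
      field_simp
      ring
    rw [e10, e11]

/-- PROOF. `mem_box_iff`: the set is `Icc 0 1 ∩ Ioc (σ - δ / R ^ 2) σ` with the slope `σ` of
`act γ (v j)` if `ab j R γ ∈ B`, and empty otherwise. -/
theorem volume_arc (j : Fin D.m) {R : ℝ} (hR : 0 < R) {B : Set (ℝ × ℝ)} (hB : B ⊆ D.EE j)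
    {δ : ℝ} (hδ : 0 < δ) (γ : SL2) {V : ENNReal}
    (hV : V = volume {s : ℝ | s ∈ Icc (0 : ℝ) 1 ∧ dd R⁻¹ * hh (-s) * γ ∈ box δ B (D.C j)}) :
    V ≤ ENNReal.ofReal (δ / R ^ 2) ∧
    (V ≠ 0 → D.ab j R γ ∈ B ∧ 0 ≤ (act γ (D.v j)).im / (act γ (D.v j)).re ∧
      (act γ (D.v j)).im / (act γ (D.v j)).re < 1 + δ / R ^ 2) ∧
    (D.ab j R γ ∈ B → δ / R ^ 2 ≤ (act γ (D.v j)).im / (act γ (D.v j)).re →
      (act γ (D.v j)).im / (act γ (D.v j)).re ≤ 1 → V = ENNReal.ofReal (δ / R ^ 2)) := by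
  have hbox := fun s => D.mem_box_iff j hR hB δ γ s
  generalize (act γ (D.v j)).im / (act γ (D.v j)).re = σ at *
  have hR2 : 0 < R ^ 2 := by positivity
  have hδR : 0 < δ / R ^ 2 := div_pos hδ hR2
  have hs1 : ∀ s : ℝ, 0 ≤ R ^ 2 * (σ - s) ↔ s ≤ σ := by
    intro s
    rw [mul_nonneg_iff_of_pos_left hR2, sub_nonneg]
  have hs2 : ∀ s : ℝ, R ^ 2 * (σ - s) < δ ↔ σ - δ / R ^ 2 < s := by
    intro s
    rw [sub_lt_comm, lt_div_iff₀' hR2]
  have hset : {s : ℝ | s ∈ Icc (0 : ℝ) 1 ∧ dd R⁻¹ * hh (-s) * γ ∈ box δ B (D.C j)} =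
      {s : ℝ | s ∈ Icc (0 : ℝ) 1 ∧ D.ab j R γ ∈ B ∧ s ≤ σ ∧ σ - δ / R ^ 2 < s} := by
    ext s
    simp only [Set.mem_setOf_eq, hbox s, hs1, hs2]
  rw [hset] at hV
  refine ⟨?_, ?_, ?_⟩
  · rw [hV]
    calc volume {s : ℝ | s ∈ Icc (0 : ℝ) 1 ∧ D.ab j R γ ∈ B ∧ s ≤ σ ∧ σ - δ / R ^ 2 < s}
        ≤ volume (Ioc (σ - δ / R ^ 2) σ) := measure_mono (fun s hs => ⟨hs.2.2.2, hs.2.2.1⟩)
      _ = ENNReal.ofReal (δ / R ^ 2) := by
          rw [Real.volume_Ioc, sub_sub_cancel]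
  · intro hV0
    rw [hV] at hV0
    obtain ⟨s, ⟨h0, h1⟩, h2, h3, h4⟩ := nonempty_of_measure_ne_zero hV0
    exact ⟨h2, by linarith, by linarith⟩
  · intro hB' h0 h1
    rw [hV]
    have : {s : ℝ | s ∈ Icc (0 : ℝ) 1 ∧ D.ab j R γ ∈ B ∧ s ≤ σ ∧ σ - δ / R ^ 2 < s} =
        Ioc (σ - δ / R ^ 2) σ := by
      ext s
      simp only [Set.mem_setOf_eq, Set.mem_Icc, Set.mem_Ioc]
      constructor
      · rintro ⟨_, _, h3, h4⟩
        exact ⟨h4, h3⟩
      · rintro ⟨h3, h4⟩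
        exact ⟨⟨by linarith, by linarith⟩, hB', h4, h3⟩
    rw [this, Real.volume_Ioc, sub_sub_cancel]

end Cusps

end H37abf
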