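import Pool.Agent.H.MP_abf1f1_an.G3
import Pool.Agent.H.MP_abf1f1_an.F7x

/-! MP_abf1f1_an, module G: the integral of the counting function and the number of vectors. -/

set_option autoImplicit false

open scoped Topology
open Set Filter MeasureTheory

namespace H37abf

variable {Γ : Subgroup SL2} {Λ : Set ℂ} {K : Subfield ℝ} {lam : ℝ} (D : Cusps Γ Λ K lam)

namespace Cusps

/-- the real part of the vector of `γ` -/
theorem G3b_re (j : Fin D.m) {R : ℝ} (hR : 0 < R) {γ : SL2} (h : D.ab j R γ ∈ D.EE j) :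
    0 < (act γ (D.v j)).re ∧ (act γ (D.v j)).re ≤ R := by
  have h1 : (D.ab j R γ).1 = (act γ (D.v j)).re / R := by
    rw [D.act_v j γ]
    rfl
  obtain ⟨h2, h3, _, _⟩ := h
  rw [h1] at h2 h3
  refine ⟨?_, (div_le_one hR).1 h3⟩
  have := mul_pos h2 hR
  rwa [div_mul_cancel₀ _ hR.ne'] at this

/-- elements with close slopes are equal -/
theorem G3b_eq (j : Fin D.m) {R : ℝ} (hR : 0 < R) {γ γ' : SL2} (hγ : γ ∈ Γ) (hγ' : γ' ∈ Γ)
    (h : D.ab j R γ ∈ D.EE j) (h' : D.ab j R γ' ∈ D.EE j)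
    (hs : |(act γ (D.v j)).im / (act γ (D.v j)).re - (act γ' (D.v j)).im / (act γ' (D.v j)).re| <
      D.c₀ / R ^ 2) : γ = γ' := by
  obtain ⟨h1, h2⟩ := D.G3b_re j hR h
  obtain ⟨h1', h2'⟩ := D.G3b_re j hR h'
  have e := D.G1c_inj (D.inv γ hγ _ (D.mem j)) (D.inv γ' hγ' _ (D.mem j)) h1 h2 h1' h2' hs
  exact D.ab_inj hR hγ hγ' e h h'

/-- membership in `cnt` by the slope -/
theorem G3b_mem (j : Fin D.m) {R : ℝ} (hR : 0 < R) {B : Set (ℝ × ℝ)} (hB : B ⊆ D.EE j) {γ : SL2}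
    (hγ : γ ∈ Γ) (h : D.ab j R γ ∈ B) : γ ∈ D.cnt j R B ↔
      0 ≤ (act γ (D.v j)).im / (act γ (D.v j)).re ∧ (act γ (D.v j)).im / (act γ (D.v j)).re ≤ 1 := by
  obtain ⟨h1, h2⟩ := D.G3b_re j hR (hB h)
  constructor
  · rintro ⟨_, _, _, _, _, h3, h4⟩
    exact ⟨div_nonneg h3 h1.le, (div_le_one h1).2 h4⟩
  · rintro ⟨h3, h4⟩
    refine ⟨hγ, h, D.inv γ hγ _ (D.mem j), h1, h2, ?_, (div_le_one h1).1 h4⟩
    have := mul_nonneg h3 h1.le
    rwa [div_mul_cancel₀ _ h1.ne'] at this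

/-- a set of elements of `Γ` whose slopes are in a short interval -/
theorem G3b_card (j : Fin D.m) {R : ℝ} (hR : 0 < R) {B : Set (ℝ × ℝ)} (hB : B ⊆ D.EE j)
    {X : Set Γ} {s ε : ℝ} (hε : ε ≤ D.c₀ / R ^ 2)
    (hX : ∀ γ ∈ X, D.ab j R (γ : SL2) ∈ B ∧ s ≤ (act (γ : SL2) (D.v j)).im / (act (γ : SL2) (D.v j)).re ∧
      (act (γ : SL2) (D.v j)).im / (act (γ : SL2) (D.v j)).re < s + ε) : X.Finite ∧ X.ncard ≤ 1 := by
  have hsub : X.Subsingleton := by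
    intro γ hγ γ' hγ'
    obtain ⟨h1, h2, h3⟩ := hX γ hγ
    obtain ⟨h1', h2', h3'⟩ := hX γ' hγ'
    refine Subtype.ext (D.G3b_eq j hR γ.2 γ'.2 (hB h1) (hB h1') ?_)
    refine lt_of_lt_of_le ?_ hε
    rw [abs_lt]
    constructor <;> linarith
  refine ⟨hsub.finite, ?_⟩
  exact (ncard_le_one hsub.finite).2 fun a ha b hb => hsub ha hb

/-- a finite sum of equal real numbers in `ENNReal` -/
theorem G3b_toReal (n : ℕ) {ε : ℝ} (hε : 0 ≤ ε) : (n • ENNReal.ofReal ε).toReal = n * ε := by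
  rw [nsmul_eq_mul, ENNReal.toReal_mul, ENNReal.toReal_natCast, ENNReal.toReal_ofReal hε]

/-- PROOF. By `lintegral_Psi_eq` (with `g = dd R⁻¹`) the integral is the sum over `γ ∈ Γ` of the numbers
`V` of `volume_arc`. Only `γ` with `ab j R γ ∈ B` and slope in `[0, 1 + δ/R²)` contribute. `cnt j R B` are
those with slope in `[0, 1]` (`T`: `0 ≤ im ≤ re`, `0 < re ≤ R` follows from `ab ∈ EE j`, `act_v`). Those with
slope in `[δ/R², 1]` contribute `δ/R²` each. The number of `γ` (equivalently of vectors, `ab_inj`) with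
slope in `[0, δ/R²)`, and with slope in `(1, 1 + δ/R²)`, is at most `1` each, since the slopes of
different vectors differ by at least `c₀/R² ≥ δ/R²` (`slope_sep`). -/
theorem integral_cnt (j : Fin D.m) {R : ℝ} (hR : 0 < R) {B : Set (ℝ × ℝ)} (hB : B ⊆ D.EE j)
    (hBm : MeasurableSet B) {δ : ℝ} (hδ : 0 < δ) (hδc : δ ≤ D.c₀) :
    |(∫⁻ s in Icc (0 : ℝ) 1, Psi Γ (box δ B (D.C j)) (dd R⁻¹ * hh (-s))).toReal -
      δ / R ^ 2 * (D.cnt j R B).ncard| ≤ 2 * (δ / R ^ 2) := by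
  have : DiscreteTopology Γ := D.disc
  have h0 : ∀ q ∈ B, q.1 ≠ 0 := fun q hq => (hB hq).1.ne'
  rw [lintegral_Psi_eq (measurableSet_box hBm h0 (D.C j)) (dd R⁻¹)]
  set ε : ℝ := δ / R ^ 2 with hε
  have hε0 : 0 < ε := div_pos hδ (by positivity)
  have hεc : ε ≤ D.c₀ / R ^ 2 := div_le_div_of_nonneg_right hδc (by positivity)
  set sl : Γ → ℝ := fun γ => (act (γ : SL2) (D.v j)).im / (act (γ : SL2) (D.v j)).re with hsl
  set V : Γ → ENNReal := fun γ =>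
    volume {s : ℝ | s ∈ Icc (0 : ℝ) 1 ∧ dd R⁻¹ * hh (-s) * (γ : SL2) ∈ box δ B (D.C j)} with hV
  have hVa : ∀ γ : Γ, V γ ≤ ENNReal.ofReal ε ∧
      (V γ ≠ 0 → D.ab j R (γ : SL2) ∈ B ∧ 0 ≤ sl γ ∧ sl γ < 1 + ε) ∧
      (D.ab j R (γ : SL2) ∈ B → ε ≤ sl γ → sl γ ≤ 1 → V γ = ENNReal.ofReal ε) :=
    fun γ => D.volume_arc j hR hB hδ (γ : SL2) rfl
  set P : Set Γ := {γ | (γ : SL2) ∈ D.cnt j R B} with hP
  have hPfin : P.Finite := (D.cnt_finite j hR hB).preimage (Subtype.val_injective.injOn)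
  have hPcard : P.ncard = (D.cnt j R B).ncard := by
    refine ncard_preimage_of_injective_subset_range Subtype.val_injective ?_
    intro γ hγ
    exact ⟨⟨γ, hγ.1⟩, rfl⟩
  set E : Set Γ := {γ | D.ab j R (γ : SL2) ∈ B ∧ 1 < sl γ ∧ sl γ < 1 + ε} with hE
  obtain ⟨hEfin, hEcard⟩ := D.G3b_card (X := E) j hR hB hεc (s := 1)
    fun γ hγ => ⟨hγ.1, hγ.2.1.le, hγ.2.2⟩
  set G : Set Γ := {γ | γ ∈ P ∧ ε ≤ sl γ} with hG
  set L : Set Γ := {γ | γ ∈ P ∧ sl γ < ε} with hL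
  have hPsl : ∀ γ ∈ P, D.ab j R (γ : SL2) ∈ B ∧ 0 ≤ sl γ ∧ sl γ ≤ 1 := by
    intro γ hγ
    have hab : D.ab j R (γ : SL2) ∈ B := hγ.2.1
    exact ⟨hab, (D.G3b_mem j hR hB γ.2 hab).1 hγ⟩
  obtain ⟨hLfin, hLcard⟩ := D.G3b_card (X := L) j hR hB hεc (s := 0)
    fun γ hγ => ⟨(hPsl γ hγ.1).1, (hPsl γ hγ.1).2.1, by rw [zero_add]; exact hγ.2⟩
  have hGfin : G.Finite := hPfin.subset fun γ hγ => hγ.1
  -- upper bound
  have hup : ∑' γ : Γ, V γ ≤ (P.ncard + 1) • ENNReal.ofReal ε := by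
    have hFfin : (P ∪ E).Finite := hPfin.union hEfin
    rw [tsum_eq_sum (s := hFfin.toFinset)]
    · refine (Finset.sum_le_card_nsmul _ _ _ fun γ _ => (hVa γ).1).trans ?_
      have h1 : hFfin.toFinset.card ≤ P.ncard + 1 := by
        rw [← ncard_eq_toFinset_card _ hFfin]
        exact (ncard_union_le P E).trans (Nat.add_le_add_left hEcard _)
      exact nsmul_le_nsmul_left bot_le h1
    · intro γ hγ
      rw [Finite.mem_toFinset] at hγ
      by_contra hne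
      apply hγ
      obtain ⟨h1, h2, h3⟩ := (hVa γ).2.1 hne
      by_cases h4 : sl γ ≤ 1
      · left
        exact (D.G3b_mem j hR hB γ.2 h1).2 ⟨h2, h4⟩
      · right
        exact ⟨h1, not_le.1 h4, h3⟩
  -- lower bound
  have hlow : G.ncard • ENNReal.ofReal ε ≤ ∑' γ : Γ, V γ := by
    refine le_trans (le_of_eq ?_) (ENNReal.sum_le_tsum hGfin.toFinset)
    rw [Finset.sum_congr rfl (g := fun _ => ENNReal.ofReal ε)]
    · rw [Finset.sum_const, ← ncard_eq_toFinset_card _ hGfin]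
    · intro γ hγ
      rw [Finite.mem_toFinset] at hγ
      obtain ⟨h1, h2, h3⟩ := hPsl γ hγ.1
      exact (hVa γ).2.2 h1 hγ.2 h3
  have hPG : P.ncard ≤ G.ncard + 1 := by
    have h1 : P ⊆ G ∪ L := by
      intro γ hγ
      by_cases h2 : ε ≤ sl γ
      · left
        exact ⟨hγ, h2⟩
      · right
        exact ⟨hγ, not_le.1 h2⟩
    refine (ncard_le_ncard h1 (hGfin.union hLfin)).trans ?_
    exact (ncard_union_le G L).trans (Nat.add_le_add_left hLcard _)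
  have hne : (P.ncard + 1) • ENNReal.ofReal ε ≠ ⊤ := by
    rw [nsmul_eq_mul]
    exact ENNReal.mul_ne_top (ENNReal.natCast_ne_top _) ENNReal.ofReal_ne_top
  have hup' : (∑' γ : Γ, V γ).toReal ≤ (P.ncard + 1) * ε := by
    have h1 := ENNReal.toReal_mono hne hup
    rw [G3b_toReal _ hε0.le] at h1
    push_cast at h1
    exact h1
  have hlow' : G.ncard * ε ≤ (∑' γ : Γ, V γ).toReal := by
    have h1 := ENNReal.toReal_mono (ne_top_of_le_ne_top hne hup) hlow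
    rw [G3b_toReal _ hε0.le] at h1
    exact h1
  have hPG' : (P.ncard : ℝ) ≤ G.ncard + 1 := by exact_mod_cast hPG
  have h1 : (P.ncard : ℝ) * ε ≤ (G.ncard + 1) * ε := mul_le_mul_of_nonneg_right hPG' hε0.le
  rw [← hPcard, abs_le]
  constructor
  · linarith
  · linarith

end Cusps

end H37abf
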