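import Pool.Agent.H.MP_abf1f1_an.G2b
import Pool.Agent.H.MP_abf1f1_an.G3b
import Pool.Agent.H.MP_abf1f1_an.F7e

/-! MP_abf1f1_an, module G: asymptotics in Cesaro mean of the numbers of vectors. -/

set_option autoImplicit false

open scoped Topology
open Set Filter MeasureTheory

namespace H37abf

/-- The Cesaro mean of `y`. -/
noncomputable def ces (y : ℕ → ℝ) (N : ℕ) : ℝ := (N : ℝ)⁻¹ * ∑ n ∈ Finset.range N, y n

/-- Cesaro means of a null sequence. -/
theorem ces_zero {y : ℕ → ℝ} (h : Tendsto y atTop (𝓝 0)) : Tendsto (ces y) atTop (𝓝 0) :=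
  h.cesaro

/-- Cesaro means are additive. -/
theorem G4_ces_add (y z : ℕ → ℝ) (N : ℕ) : ces (fun n => y n + z n) N = ces y N + ces z N := by
  unfold ces
  rw [Finset.sum_add_distrib, mul_add]

/-- Cesaro means and constant factors. -/
theorem G4_ces_const (C : ℝ) (y : ℕ → ℝ) (N : ℕ) : ces (fun n => C * y n) N = C * ces y N := by
  unfold ces
  rw [← Finset.mul_sum]
  ring

/-- A factor tending to `0` makes the Cesaro means tend to `0`. -/
theorem G4_ces_small {y c : ℕ → ℝ} {Y : ℝ} (h0 : ∀ n, 0 ≤ y n) (hy : Tendsto (ces y) atTop (𝓝 Y))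
    (hc : Tendsto c atTop (𝓝 0)) : Tendsto (ces fun n => c n * y n) atTop (𝓝 0) := by
  have h1 : (fun n => c n * y n) =o[atTop] (fun n => 1 * (y n + 1)) := by
    refine Asymptotics.IsLittleO.mul_isBigO ((Asymptotics.isLittleO_one_iff ℝ).2 hc) ?_
    refine Asymptotics.IsBigO.of_bound 1 (Eventually.of_forall fun n => ?_)
    rw [Real.norm_of_nonneg (h0 n), Real.norm_of_nonneg (by linarith [h0 n]), one_mul]
    linarith
  simp only [one_mul] at h1
  have hdiv : Tendsto (fun n => ∑ i ∈ Finset.range n, (y i + 1)) atTop atTop := by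
    refine tendsto_atTop_mono (fun n => ?_) tendsto_natCast_atTop_atTop
    calc (n : ℝ) = ∑ i ∈ Finset.range n, (1 : ℝ) := by simp
      _ ≤ ∑ i ∈ Finset.range n, (y i + 1) :=
          Finset.sum_le_sum fun i _ => by linarith [h0 i]
  have h2 := h1.sum_range (fun n => by show (0 : ℝ) ≤ _; linarith [h0 n]) hdiv
  have h3 : (ces fun n => c n * y n) =o[atTop] (ces fun n => y n + 1) :=
    (Asymptotics.isBigO_refl (fun N : ℕ => (N : ℝ)⁻¹) atTop).mul_isLittleO h2
  have h4 : Tendsto (ces fun n => y n + 1) atTop (𝓝 (Y + 1)) := by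
    have h5 : Tendsto (ces fun _ => (1 : ℝ)) atTop (𝓝 1) := tendsto_const_nhds.cesaro
    exact (hy.add h5).congr fun N => (G4_ces_add _ _ N).symm
  exact (Asymptotics.isLittleO_one_iff ℝ).1 (h3.trans_isBigO (h4.isBigO_one ℝ))

/-- Cesaro means and convergent factors. -/
theorem ces_mul {y c : ℕ → ℝ} {Y C : ℝ} (h0 : ∀ n, 0 ≤ y n) (hy : Tendsto (ces y) atTop (𝓝 Y))
    (hc : Tendsto c atTop (𝓝 C)) : Tendsto (ces fun n => c n * y n) atTop (𝓝 (C * Y)) := by
  have hc' : Tendsto (fun n => c n - C) atTop (𝓝 0) := by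
    have := hc.sub_const C
    rwa [sub_self] at this
  have h1 := (hy.const_mul C).add (G4_ces_small h0 hy hc')
  rw [add_zero] at h1
  refine h1.congr fun N => ?_
  rw [← G4_ces_const, ← G4_ces_add]
  congr 1
  ext n
  ring

/-- Powers of diagonal matrices. -/
theorem G4_dd_pow {r : ℝ} (hr : r ≠ 0) (n : ℕ) : dd r ^ n = dd (r ^ n) := by
  have hmul : ∀ s : ℝ, s ≠ 0 → dd s * dd r = dd (s * r) := by
    intro s hs
    unfold dd
    ext i j
    rw [Matrix.SpecialLinearGroup.coe_mul, coe_pp hs, coe_pp hr, coe_pp (mul_ne_zero hs hr)]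
    fin_cases i <;> fin_cases j <;> simp [mul_comm]
  induction n with
  | zero =>
    rw [pow_zero, pow_zero]
    unfold dd
    ext i j
    rw [coe_pp one_ne_zero]
    fin_cases i <;> fin_cases j <;> simp
  | succ n ih => rw [pow_succ, ih, hmul _ (pow_ne_zero n hr), pow_succ]

variable {Γ : Subgroup SL2} {Λ : Set ℂ} {K : Subfield ℝ} {lam : ℝ} (D : Cusps Γ Λ K lam)

namespace Cusps

/-- The equidistribution statement for boxes. -/
theorem exists_V : ∃ V : ℝ, 0 < V ∧ ∀ (j : Fin D.m) (B : Set (ℝ × ℝ)) (ε : ℝ), 0 < ε →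
    B ⊆ D.EEe j ε → MeasurableSet B → volume (frontier B) = 0 →
    Tendsto (ces fun n => D.c₀ / (2 ^ n) ^ 2 * (D.cnt j (2 ^ n) B).ncard) atTop
      (𝓝 (D.c₀ * volume.real B / V)) := by
  have := D.disc
  obtain ⟨V, hV, -, hequi⟩ := equidistribution D.cov
  refine ⟨V, hV, fun j B ε hε hB hBm hBf => ?_⟩
  have h0 : ∀ q ∈ B, ε ≤ q.1 := fun q hq => (hB hq).2
  have hne : ∀ q ∈ B, q.1 ≠ 0 := fun q hq => (hε.trans_le (h0 q hq)).ne'
  have hEE : B ⊆ D.EE j := fun q hq => (hB hq).1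
  have hb : Bornology.IsBounded B := (D.bounded_EE j).subset hEE
  have h1 := hequi 2 one_lt_two (box D.c₀ B (D.C j)) (measurableSet_box hBm hne _)
    (isCompact_closure_box hb hε h0 _) (muG_frontier_box hb hε h0 hBf _)
  rw [muG_box D.c₀_pos.le hBm hne, ENNReal.toReal_mul, ENNReal.toReal_ofReal D.c₀_pos.le] at h1
  set z : ℕ → ℝ := fun n => (∫⁻ s in Icc (0 : ℝ) 1,
    Psi Γ (box D.c₀ B (D.C j)) ((dd 2⁻¹) ^ n * hh (-s))).toReal with hz
  set y : ℕ → ℝ := fun n => D.c₀ / (2 ^ n) ^ 2 * (D.cnt j (2 ^ n) B).ncard with hy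
  have h2 : ∀ n, |z n - y n| ≤ 2 * (D.c₀ / (2 ^ n) ^ 2) := by
    intro n
    have h3 := D.integral_cnt j (R := 2 ^ n) (by positivity) hEE hBm D.c₀_pos le_rfl
    rw [hz, hy]
    simp only
    rw [G4_dd_pow (inv_ne_zero two_ne_zero), inv_pow]
    exact h3
  have h4 : Tendsto (fun n => y n - z n) atTop (𝓝 0) := by
    refine squeeze_zero_norm (a := fun n => 2 * (D.c₀ / (2 ^ n) ^ 2)) (fun n => ?_) ?_
    · rw [Real.norm_eq_abs, abs_sub_comm]
      exact h2 n
    · have h5 : Tendsto (fun n : ℕ => 2 * (D.c₀ * ((1 / 4 : ℝ) ^ n))) atTop (𝓝 0) := by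
        have := ((tendsto_pow_atTop_nhds_zero_of_lt_one (r := (1 / 4 : ℝ)) (by norm_num)
          (by norm_num)).const_mul D.c₀).const_mul 2
        simpa using this
      refine h5.congr fun n => ?_
      rw [← pow_mul, mul_comm n 2, pow_mul, div_eq_mul_inv D.c₀, ← inv_pow]
      norm_num
  have h6 : Tendsto (ces z) atTop (𝓝 (D.c₀ * (volume B).toReal / V)) := h1
  have h7 := h6.add (ces_zero h4)
  rw [add_zero] at h7
  refine h7.congr fun N => ?_
  rw [← G4_ces_add]
  congr 1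
  ext n
  ring

end Cusps

end H37abf
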