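import Pool.Agent.H.MP_abf1f1_an.G2
import Pool.Agent.H.MP_abf1f1_an.G1b
import Pool.Agent.H.MP_abf1f1_an.G3

/-! MP_abf1f1_an, module G: the numbers of slopes and of small gaps. -/

set_option autoImplicit false

open scoped Topology
open Set Filter MeasureTheory

namespace H37abf

variable {Γ : Subgroup SL2} {Λ : Set ℂ} {K : Subfield ℝ} {lam : ℝ} (D : Cusps Γ Λ K lam)

/-- The vectors of `T Λ R` whose slope gap is at most `x`. -/
def Tx (Λ : Set ℂ) (R x : ℝ) : Set ℂ :=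
  {w ∈ Cusps.T Λ R | ∃ u ∈ Λ, 0 < u.re ∧ u.re ≤ R ∧ w.im / w.re < u.im / u.re ∧
    R ^ 2 * (u.im / u.re - w.im / w.re) ≤ x}

namespace Cusps

/-- The counting bijection for a subset `U` of `T Λ R` that is described by the coordinates. -/
theorem G5_sum {R : ℝ} (hR : 0 < R) (B : Fin D.m → Set (ℝ × ℝ)) (hB : ∀ j, B j ⊆ D.EE j)
    (U : Set ℂ) (hU : U ⊆ T Λ R)
    (h : ∀ j, ∀ γ ∈ Γ, D.ab j R γ ∈ D.EE j → act γ (D.v j) ∈ T Λ R →
      (D.ab j R γ ∈ B j ↔ act γ (D.v j) ∈ U)) :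
    ∑ j, (D.cnt j R (B j)).ncard = U.ncard := by
  have hfin : ∀ j, Finite (D.cnt j R (B j)) := fun j => (D.cnt_finite j hR (hB j)).to_subtype
  let f : (Σ j, ↥(D.cnt j R (B j))) → U := fun p =>
    ⟨act p.2.1 (D.v p.1), (h p.1 p.2.1 p.2.2.1 (hB _ p.2.2.2.1) p.2.2.2.2).1 p.2.2.2.1⟩
  have hf : Function.Bijective f := by
    constructor
    · rintro ⟨i, γ, hγ⟩ ⟨j, γ', hγ'⟩ hh
      have e : act γ (D.v i) = act γ' (D.v j) := congrArg Subtype.val hh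
      have e' : act (γ'⁻¹ * γ) (D.v i) = D.v j := by
        rw [act_comp, e, act_inv_act]
      have hij := D.disj i j (γ'⁻¹ * γ) (mul_mem (inv_mem hγ'.1) hγ.1) e'
      subst hij
      have hgg := D.ab_inj hR hγ.1 hγ'.1 e (hB _ hγ.2.1) (hB _ hγ'.2.1)
      subst hgg
      rfl
    · rintro ⟨w, hw⟩
      obtain ⟨h1, h2, h3, h4, h5⟩ := hU hw
      obtain ⟨j, γ, hγ, hw', hab⟩ := D.ab_surj hR h1 h2 h3
      have hT : act γ (D.v j) ∈ T Λ R := by rw [hw']; exact hU hw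
      have hb : D.ab j R γ ∈ B j := (h j γ hγ hab hT).2 (by rw [hw']; exact hw)
      exact ⟨⟨j, γ, hγ, hb, hT⟩, Subtype.ext hw'⟩
  have hcard := Nat.card_eq_of_bijective f hf
  rw [Nat.card_sigma, Nat.card_coe_set_eq] at hcard
  rw [← hcard]
  exact Finset.sum_congr rfl fun j _ => (Nat.card_coe_set_eq _).symm

/-- The number of the vectors is the number of the group elements with coordinates in the sections. -/
theorem sum_cnt_EE {R : ℝ} (hR : 0 < R) :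
    ∑ j, (D.cnt j R (D.EE j)).ncard = (T Λ R).ncard :=
  D.G5_sum hR (fun j => D.EE j) (fun _ => subset_rfl) _ subset_rfl
    fun _ _ _ h1 h2 => ⟨fun _ => h2, fun _ => h1⟩

/-- The number of the vectors with small gap. -/
theorem sum_cnt_FF {R : ℝ} (hR : 0 < R) (x : ℝ) :
    ∑ j, (D.cnt j R (D.FF j x)).ncard = (Tx Λ R x).ncard := by
  refine D.G5_sum hR (fun j => D.FF j x) (fun _ q hq => hq.1) _ (fun w hw => hw.1) ?_
  intro j γ hγ h1 h2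
  rw [D.mem_FF hR hγ h1 x]
  exact ⟨fun h => ⟨h2, h⟩, fun h => h.2⟩

/-- The number of the vectors with real part at least `ε R`. -/
theorem G5_sum_EEe {R : ℝ} (hR : 0 < R) (ε : ℝ) :
    ∑ j, (D.cnt j R (D.EEe j ε)).ncard = {w ∈ T Λ R | ε * R ≤ w.re}.ncard := by
  refine D.G5_sum hR (fun j => D.EEe j ε) (fun _ q hq => hq.1) _ (fun w hw => hw.1) ?_
  intro j γ hγ h1 h2
  have h3 : (D.ab j R γ).1 = (act γ (D.v j)).re / R := by
    rw [D.act_v j γ]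
    rfl
  have h4 : ε ≤ (D.ab j R γ).1 ↔ ε * R ≤ (act γ (D.v j)).re := by
    rw [h3, le_div_iff₀ hR]
  exact ⟨fun h => ⟨h2, h4.1 h.2⟩, fun h => ⟨h1, h4.2 h.2⟩⟩

/-- The number of the vectors is at most the number of those with real part at least `ε R` plus the bound
for a window. -/
theorem ncard_T_le {R : ℝ} (hR : 0 < R) {ε : ℝ} (hε : 0 < ε) :
    ((T Λ R).ncard : ℝ) ≤ ∑ j, ((D.cnt j R (D.EEe j ε)).ncard : ℝ) + (ε ^ 2 * R ^ 2 / D.c₀ + 1) := by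
  have h1 := D.G5_sum_EEe hR ε
  have h2 := D.ncard_window (R := ε * R) (by positivity) 0 1 zero_le_one
  have h3 : T Λ R ⊆ {w ∈ T Λ R | ε * R ≤ w.re} ∪
      {w ∈ Λ | 0 < w.re ∧ w.re ≤ ε * R ∧ 0 ≤ w.im / w.re ∧ w.im / w.re ≤ 0 + 1} := by
    intro w hw
    obtain ⟨a1, a2, a3, a4, a5⟩ := hw
    rcases le_total (ε * R) w.re with h | h
    · exact Or.inl ⟨⟨a1, a2, a3, a4, a5⟩, h⟩
    · refine Or.inr ⟨a1, a2, h, div_nonneg a4 a2.le, ?_⟩
      rw [zero_add, div_le_one a2]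
      exact a5
  have hTfin : (T Λ R).Finite := (D.ncard_slopes R).2
  have h4 : (T Λ R).ncard ≤ {w ∈ T Λ R | ε * R ≤ w.re}.ncard +
      {w ∈ Λ | 0 < w.re ∧ w.re ≤ ε * R ∧ 0 ≤ w.im / w.re ∧ w.im / w.re ≤ 0 + 1}.ncard :=
    (ncard_le_ncard h3 ((hTfin.subset fun w hw => hw.1).union h2.1)).trans (ncard_union_le _ _)
  have h5 : ((T Λ R).ncard : ℝ) ≤ ({w ∈ T Λ R | ε * R ≤ w.re}.ncard : ℝ) +
      ({w ∈ Λ | 0 < w.re ∧ w.re ≤ ε * R ∧ 0 ≤ w.im / w.re ∧ w.im / w.re ≤ 0 + 1}.ncard : ℝ) := by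
    exact_mod_cast h4
  have h6 : (∑ j, ((D.cnt j R (D.EEe j ε)).ncard : ℝ)) = ({w ∈ T Λ R | ε * R ≤ w.re}.ncard : ℝ) := by
    exact_mod_cast h1
  have h7 : (1 : ℝ) * (ε * R) ^ 2 / D.c₀ + 1 = ε ^ 2 * R ^ 2 / D.c₀ + 1 := by ring
  rw [h6]
  linarith [h2.2]

/-- The number of the vectors with real part at least `ε R` is at most the number of all. -/
theorem le_ncard_T {R : ℝ} (hR : 0 < R) (ε : ℝ) :
    ∑ j, ((D.cnt j R (D.EEe j ε)).ncard : ℝ) ≤ ((T Λ R).ncard : ℝ) := by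
  have h1 := D.G5_sum_EEe hR ε
  have hTfin : (T Λ R).Finite := (D.ncard_slopes R).2
  have h2 : {w ∈ T Λ R | ε * R ≤ w.re}.ncard ≤ (T Λ R).ncard :=
    ncard_le_ncard (fun w hw => hw.1) hTfin
  have h6 : (∑ j, ((D.cnt j R (D.EEe j ε)).ncard : ℝ)) = ({w ∈ T Λ R | ε * R ≤ w.re}.ncard : ℝ) := by
    exact_mod_cast h1
  rw [h6]
  exact_mod_cast h2

end Cusps

end H37abf
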