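import Pool.Agent.H.MP_abf1f1_an.G5

/-! MP_abf1f1_an, module G: the numbers of slopes and of small gaps. -/

set_option autoImplicit false

open scoped Topology
open Set Filter MeasureTheory

namespace H37abf

variable {Γ : Subgroup SL2} {Λ : Set ℂ} {K : Subfield ℝ} {lam : ℝ} (D : Cusps Γ Λ K lam)

namespace Cusps

include D in
/-- The set of slopes is finite. -/
theorem G5b_fin (R : ℝ) : (slopes Λ R).Finite := by
  refine ((D.ncard_slopes R).2.image fun w : ℂ => w.im / w.re).subset ?_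
  rintro s ⟨v, hv, h1, h2, h3, h4, h5⟩
  exact ⟨v, ⟨hv, h1, h4, h2, h3⟩, h5.symm⟩

include D in
/-- PROOF. A slope `s` counted on the left is the slope of a unique `w ∈ T Λ R`, and the next slope `s'`
is the slope of some `u ∈ T Λ R` with `R² (s' - s) < x`. -/
theorem gapCount_le {R : ℝ} (hR : 0 < R) (x : ℝ) : gapCount Λ R 0 x ≤ (Tx Λ R x).ncard := by
  have hfin : (Tx Λ R x).Finite := (D.ncard_slopes R).2.subset fun w hw => hw.1
  refine le_trans (ncard_le_ncard ?_ (hfin.image fun w : ℂ => w.im / w.re)) (ncard_image_le hfin)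
  rintro s ⟨⟨v, hv, h1, h2, h3, h4, h5⟩, s', ⟨v', hv', h1', h2', h3', h4', h5'⟩, hlt, -, -, hx⟩
  refine ⟨v, ⟨⟨hv, h1, h4, h2, h3⟩, v', hv', h1', h4', ?_, ?_⟩, h5.symm⟩
  · rwa [← h5, ← h5']
  · rw [← h5, ← h5']
    exact hx.le

/-- PROOF. Let `w ∈ Tx Λ R x` with `u` as in the definition. If the slope `s` of `w` is `≤ 1 - x / R²` then
the slope of `u` is `≤ 1`, so it is in `slopes Λ R`; so there is a next slope `s'` (finite set,
`ncard_slopes`) and `0 < R² (s' - s) ≤ x < x'`: `s` is counted by `gapCount Λ R 0 x'`. The number of `w`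
with slope in `[1 - x/R², 1]` is at most `x / c₀ + 1` (`ncard_window`). -/
theorem le_gapCount {R : ℝ} (hR : 0 < R) {x x' : ℝ} (hx : 0 < x) (h : x < x') :
    ((Tx Λ R x).ncard : ℝ) ≤ gapCount Λ R 0 x' + (x / D.c₀ + 1) := by
  have hR2 : 0 < R ^ 2 := by positivity
  obtain ⟨hWf, hW⟩ := D.ncard_window hR (1 - x / R ^ 2) (x / R ^ 2) (by positivity)
  set W : Set ℂ := {w ∈ Λ | 0 < w.re ∧ w.re ≤ R ∧ 1 - x / R ^ 2 ≤ w.im / w.re ∧
    w.im / w.re ≤ 1 - x / R ^ 2 + x / R ^ 2} with hWdef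
  set A : Set ℝ := {s ∈ slopes Λ R | ∃ s' ∈ slopes Λ R, s < s' ∧
    (∀ u ∈ slopes Λ R, u ≤ s ∨ s' ≤ u) ∧ 0 < R ^ 2 * (s' - s) ∧ R ^ 2 * (s' - s) < x'} with hA
  have hAf : A.Finite := (D.G5b_fin R).subset fun s hs => hs.1
  set P : Set ℂ := {w ∈ Tx Λ R x | w.im / w.re ≤ 1 - x / R ^ 2} with hP
  have hPA : P.ncard ≤ A.ncard := by
    refine ncard_le_ncard_of_injOn (fun w : ℂ => w.im / w.re) ?_ ?_ hAf
    · rintro w ⟨⟨⟨hw, h1, h2, h3, h4⟩, u, hu, hu1, hu2, hlt, hle⟩, hs⟩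
      have e1 : w.im / w.re ∈ slopes Λ R := ⟨w, hw, h1, h3, h4, h2, rfl⟩
      have e2 : u.im / u.re - w.im / w.re ≤ x / R ^ 2 := by
        rw [le_div_iff₀ hR2, mul_comm]
        exact hle
      have e3 : u.im / u.re ≤ 1 := by linarith
      have e4 : 0 ≤ w.im / w.re := div_nonneg h3 h1.le
      have e5 : 0 ≤ u.im := by
        by_contra h5
        have h6 := div_neg_of_neg_of_pos (not_le.1 h5) hu1
        linarith
      have e6 : u.im ≤ u.re := (div_le_one hu1).1 e3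
      have e7 : u.im / u.re ∈ slopes Λ R := ⟨u, hu, hu1, e5, e6, hu2, rfl⟩
      have hBf : {σ ∈ slopes Λ R | w.im / w.re < σ}.Finite :=
        (D.G5b_fin R).subset fun s hs => hs.1
      obtain ⟨s', hs', hmin⟩ := hBf.exists_minimal ⟨_, e7, hlt⟩
      have hmin' : ∀ σ ∈ slopes Λ R, w.im / w.re < σ → s' ≤ σ := by
        intro σ h7 h8
        by_contra h9
        exact h9 (hmin ⟨h7, h8⟩ (not_le.1 h9).le)
      have e8 : s' ≤ u.im / u.re := hmin' _ e7 hlt
      refine ⟨e1, s', hs'.1, hs'.2, fun v hv => ?_, ?_, ?_⟩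
      · rcases le_or_gt v (w.im / w.re) with h7 | h7
        · exact Or.inl h7
        · exact Or.inr (hmin' v hv h7)
      · exact mul_pos hR2 (sub_pos.2 hs'.2)
      · have h8 : R ^ 2 * (s' - w.im / w.re) ≤ R ^ 2 * (u.im / u.re - w.im / w.re) :=
          mul_le_mul_of_nonneg_left (by linarith) hR2.le
        linarith
    · rintro w ⟨⟨⟨hw, h1, h2, h3, h4⟩, -⟩, -⟩ w' ⟨⟨⟨hw', h1', h2', h3', h4'⟩, -⟩, -⟩ he
      refine D.G1c_inj hw hw' h1 h2 h1' h2' ?_
      have h5 : w.im / w.re = w'.im / w'.re := he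
      rw [h5, sub_self, abs_zero]
      exact div_pos D.c₀_pos hR2
  have hsub : Tx Λ R x ⊆ P ∪ W := by
    intro w hw
    rcases le_or_gt (w.im / w.re) (1 - x / R ^ 2) with h1 | h1
    · exact Or.inl ⟨hw, h1⟩
    · refine Or.inr ⟨hw.1.1, hw.1.2.1, hw.1.2.2.1, h1.le, ?_⟩
      have h2 := (div_le_one hw.1.2.1).2 hw.1.2.2.2.2
      linarith
  have hPf : P.Finite := (D.ncard_slopes R).2.subset fun w hw => hw.1.1
  have h1 : (Tx Λ R x).ncard ≤ P.ncard + W.ncard :=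
    (ncard_le_ncard hsub (hPf.union hWf)).trans (ncard_union_le P W)
  have h2 : ((Tx Λ R x).ncard : ℝ) ≤ P.ncard + W.ncard := by exact_mod_cast h1
  have h3 : (P.ncard : ℝ) ≤ gapCount Λ R 0 x' := by exact_mod_cast hPA
  have h4 : x / R ^ 2 * R ^ 2 / D.c₀ = x / D.c₀ := by
    rw [div_mul_cancel₀ _ hR2.ne']
  rw [h4] at hW
  linarith

end Cusps

end H37abf
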