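import Pool.Agent.H.MP_abf1f1_an.G4
import Pool.Agent.H.MP_abf1f1_an.G5

/-! MP_abf1f1_an, module G: the number of slopes and the number of small gaps, in Cesaro mean. -/

set_option autoImplicit false

open scoped Topology
open Set Filter MeasureTheory

namespace H37abf

theorem G6_ces_mono {y z : ℕ → ℝ} (h : ∀ n, y n ≤ z n) (N : ℕ) : ces y N ≤ ces z N := by
  unfold ces
  apply mul_le_mul_of_nonneg_left _ (by positivity)
  exact Finset.sum_le_sum fun n _ => h n

theorem G6_ces_const (c : ℝ) : Tendsto (ces fun _ => c) atTop (𝓝 c) := by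
  apply (tendsto_const_nhds (x := c)).congr'
  filter_upwards [eventually_gt_atTop 0] with N hN
  unfold ces
  rw [Finset.sum_const, Finset.card_range, nsmul_eq_mul]
  have : (N : ℝ) ≠ 0 := by positivity
  field_simp

theorem G6_ces_add {y z : ℕ → ℝ} {Y Z : ℝ} (hy : Tendsto (ces y) atTop (𝓝 Y))
    (hz : Tendsto (ces z) atTop (𝓝 Z)) : Tendsto (ces fun n => y n + z n) atTop (𝓝 (Y + Z)) := by
  apply (hy.add hz).congr
  intro N
  unfold ces
  rw [Finset.sum_add_distrib, mul_add]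

/-- PROOF. `ces` is monotone in the sequence: for every `δ > 0`, `Y - 2 δ < ces y N < Y + 2 δ` for large `N`. -/
theorem ces_of_eps {y : ℕ → ℝ} {Y : ℝ} (h : ∀ δ : ℝ, 0 < δ → ∃ (l u : ℕ → ℝ) (L U : ℝ),
    (∀ n, l n ≤ y n) ∧ (∀ n, y n ≤ u n) ∧ Tendsto (ces l) atTop (𝓝 L) ∧
    Tendsto (ces u) atTop (𝓝 U) ∧ Y - δ ≤ L ∧ U ≤ Y + δ) : Tendsto (ces y) atTop (𝓝 Y) := by
  rw [Metric.tendsto_atTop]
  intro e he
  obtain ⟨l, u, L, U, hl, hu, hL, hU, h1, h2⟩ := h (e / 2) (by positivity)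
  rw [Metric.tendsto_atTop] at hL hU
  obtain ⟨N1, hN1⟩ := hL (e / 2) (by positivity)
  obtain ⟨N2, hN2⟩ := hU (e / 2) (by positivity)
  refine ⟨max N1 N2, fun N hN => ?_⟩
  have a1 := hN1 N (le_trans (le_max_left _ _) hN)
  have a2 := hN2 N (le_trans (le_max_right _ _) hN)
  rw [Real.dist_eq, abs_lt] at a1 a2 ⊢
  have b1 := G6_ces_mono hl N
  have b2 := G6_ces_mono hu N
  constructor <;> linarith [a1.1, a1.2, a2.1, a2.2]

/-- PROOF. `ces` is additive. -/
theorem ces_sum {ι : Type*} (S : Finset ι) {y : ι → ℕ → ℝ} {Y : ι → ℝ}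
    (h : ∀ i ∈ S, Tendsto (ces (y i)) atTop (𝓝 (Y i))) :
    Tendsto (ces fun n => ∑ i ∈ S, y i n) atTop (𝓝 (∑ i ∈ S, Y i)) := by
  apply (tendsto_finsetSum S h).congr
  intro N
  unfold ces
  rw [Finset.sum_comm, Finset.mul_sum]

variable {Γ : Subgroup SL2} {Λ : Set ℂ} {K : Subfield ℝ} {lam : ℝ} (D : Cusps Γ Λ K lam)

namespace Cusps

/-- PROOF. `V` from `exists_V`. First: `ces_of_eps`; for `δ > 0` choose `ε ∈ (0, 1)` small, `l` and `u` from
`le_ncard_T` and `ncard_T_le` (with `R = 2 ^ n`) multiplied by `c₀ / (2 ^ n) ^ 2`; `ces_sum` and `exists_V` with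
`B = EEe j ε` (`measurableSet_EEe`, `frontier_EEe`, `volume_EEe`), the error
`c₀ / 4 ^ n * (ε ^ 2 * 4 ^ n / c₀ + 1) = ε ^ 2 + c₀ / 4 ^ n`, `ces_zero` (and the Cesaro mean of a constant). Second:
`sum_cnt_FF`, `ces_sum` and `exists_V` with `B = FF j x ⊆ EEe j (c₀ / x)` (`FF_ge`, `measurableSet_FF`,
`frontier_FF`). -/
theorem exists_V' : ∃ V : ℝ, 0 < V ∧
    Tendsto (ces fun n => D.c₀ / (2 ^ n) ^ 2 * (T Λ (2 ^ n)).ncard) atTop
      (𝓝 (D.c₀ * (∑ j, D.a j / 2) / V)) ∧
    ∀ x : ℝ, 0 < x → Tendsto (ces fun n => D.c₀ / (2 ^ n) ^ 2 * (Tx Λ (2 ^ n) x).ncard) atTop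
      (𝓝 (D.c₀ * (∑ j, volume.real (D.FF j x)) / V)) := by
  obtain ⟨V, hV, hE⟩ := D.exists_V
  have hc := D.c₀_pos
  refine ⟨V, hV, ?_, ?_⟩
  · apply ces_of_eps
    intro δ hδ
    set A : ℝ := ∑ j, D.a j / 2 with hA
    -- choose `ε`
    obtain ⟨ε, h0, h1, h2, h3⟩ : ∃ ε : ℝ, 0 < ε ∧ ε ≤ 1 ∧ ε ^ 2 * (D.c₀ * |A| / V) ≤ δ ∧
        ε ^ 2 + ε ^ 2 * (D.c₀ * |A| / V) ≤ δ := by
      have hM : 0 ≤ D.c₀ * |A| / V := by positivity
      set M := D.c₀ * |A| / V with hMdef
      refine ⟨min 1 (δ / (1 + M)), ?_, min_le_left _ _, ?_, ?_⟩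
      · apply lt_min one_pos
        positivity
      · have e0 : 0 < min 1 (δ / (1 + M)) := by
          apply lt_min one_pos
          positivity
        have e1 : min 1 (δ / (1 + M)) ≤ 1 := min_le_left _ _
        have e2 : min 1 (δ / (1 + M)) ≤ δ / (1 + M) := min_le_right _ _
        have e3 : min 1 (δ / (1 + M)) ^ 2 ≤ δ / (1 + M) := by nlinarith
        have e4 : δ / (1 + M) * (1 + M) = δ := by field_simp
        have e5 : min 1 (δ / (1 + M)) ^ 2 * (1 + M) ≤ δ := by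
          calc _ ≤ δ / (1 + M) * (1 + M) := by
                apply mul_le_mul_of_nonneg_right e3 (by positivity)
            _ = δ := e4
        nlinarith [sq_nonneg (min 1 (δ / (1 + M)))]
      · have e0 : 0 < min 1 (δ / (1 + M)) := by
          apply lt_min one_pos
          positivity
        have e1 : min 1 (δ / (1 + M)) ≤ 1 := min_le_left _ _
        have e2 : min 1 (δ / (1 + M)) ≤ δ / (1 + M) := min_le_right _ _
        have e3 : min 1 (δ / (1 + M)) ^ 2 ≤ δ / (1 + M) := by nlinarith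
        have e4 : δ / (1 + M) * (1 + M) = δ := by field_simp
        have e5 : min 1 (δ / (1 + M)) ^ 2 * (1 + M) ≤ δ := by
          calc _ ≤ δ / (1 + M) * (1 + M) := by
                apply mul_le_mul_of_nonneg_right e3 (by positivity)
            _ = δ := e4
        nlinarith [sq_nonneg (min 1 (δ / (1 + M)))]
    have hlim : Tendsto (ces fun n => ∑ j ∈ Finset.univ, D.c₀ / (2 ^ n) ^ 2 *
        ((D.cnt j (2 ^ n) (D.EEe j ε)).ncard : ℝ)) atTop
        (𝓝 (∑ j ∈ Finset.univ, D.c₀ * volume.real (D.EEe j ε) / V)) := by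
      apply ces_sum
      intro j _
      exact hE j (D.EEe j ε) ε h0 (le_refl _) (D.measurableSet_EEe j ε) (D.frontier_EEe j ε)
    have hval : (∑ j ∈ Finset.univ, D.c₀ * volume.real (D.EEe j ε) / V) =
        D.c₀ * A / V - ε ^ 2 * (D.c₀ * A / V) := by
      rw [hA, Finset.mul_sum, Finset.sum_div, Finset.mul_sum, ← Finset.sum_sub_distrib]
      apply Finset.sum_congr rfl
      intro j _
      rw [D.volume_EEe j h0 h1]
      ring
    have herr : Tendsto (ces fun n => ε ^ 2 + D.c₀ * ((1 / 4 : ℝ) ^ n)) atTop (𝓝 (ε ^ 2 + 0)) := by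
      apply G6_ces_add (G6_ces_const _)
      apply ces_zero
      have := (tendsto_pow_atTop_nhds_zero_of_lt_one (r := (1 / 4 : ℝ)) (by norm_num)
        (by norm_num)).const_mul D.c₀
      simpa using this
    have hAabs : ε ^ 2 * (D.c₀ * A / V) ≤ ε ^ 2 * (D.c₀ * |A| / V) := by
      apply mul_le_mul_of_nonneg_left _ (by positivity)
      apply div_le_div_of_nonneg_right _ hV.le
      exact mul_le_mul_of_nonneg_left (le_abs_self A) hc.le
    have hAabs' : - (ε ^ 2 * (D.c₀ * A / V)) ≤ ε ^ 2 * (D.c₀ * |A| / V) := by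
      rw [← mul_neg]
      apply mul_le_mul_of_nonneg_left _ (by positivity)
      rw [← neg_div]
      apply div_le_div_of_nonneg_right _ hV.le
      rw [← mul_neg]
      exact mul_le_mul_of_nonneg_left (neg_le_abs A) hc.le
    refine ⟨_, _, _, _, ?_, ?_, hlim, G6_ces_add hlim herr, ?_, ?_⟩
    · intro n
      have hR : (0 : ℝ) < 2 ^ n := by positivity
      have := D.le_ncard_T hR ε
      rw [← Finset.mul_sum]
      exact mul_le_mul_of_nonneg_left this (by positivity)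
    · intro n
      have hR : (0 : ℝ) < 2 ^ n := by positivity
      have := D.ncard_T_le hR h0
      rw [← Finset.mul_sum]
      have h4 : D.c₀ / (2 ^ n) ^ 2 * (ε ^ 2 * (2 ^ n) ^ 2 / D.c₀ + 1) =
          ε ^ 2 + D.c₀ * (1 / 4 : ℝ) ^ n := by
        have e1 : ((2 : ℝ) ^ n) ^ 2 = 4 ^ n := by
          rw [← pow_mul, mul_comm, pow_mul]; norm_num
        rw [e1]
        have : (4 : ℝ) ^ n ≠ 0 := by positivity
        rw [one_div, inv_pow]
        field_simp
      rw [← h4, ← mul_add]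
      exact mul_le_mul_of_nonneg_left this (by positivity)
    · rw [hval]
      linarith
    · rw [hval]
      linarith
  · intro x hx
    have key : ∀ n : ℕ, D.c₀ / (2 ^ n) ^ 2 * ((Tx Λ (2 ^ n) x).ncard : ℝ) =
        ∑ j ∈ Finset.univ, D.c₀ / (2 ^ n) ^ 2 * ((D.cnt j (2 ^ n) (D.FF j x)).ncard : ℝ) := by
      intro n
      have hR : (0 : ℝ) < 2 ^ n := by positivity
      rw [← Finset.mul_sum, ← D.sum_cnt_FF hR x]
      push_cast
      rfl
    have hval : D.c₀ * (∑ j, volume.real (D.FF j x)) / V =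
        ∑ j ∈ Finset.univ, D.c₀ * volume.real (D.FF j x) / V := by
      rw [Finset.mul_sum, Finset.sum_div]
    simp only [key]
    rw [hval]
    apply ces_sum
    intro j _
    apply hE j (D.FF j x) (D.c₀ / x) (by positivity) _ (D.measurableSet_FF j hx)
      (D.frontier_FF j hx)
    intro q hq
    exact ⟨hq.1, D.FF_ge hx hq⟩

end Cusps

end H37abf
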