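import Pool.Agent.H.MP_abf1f1_an.G5b
import Pool.Agent.H.MP_abf1f1_an.G6

/-! MP_abf1f1_an, module G: the identity for the slope gap distribution. -/

set_option autoImplicit false

open scoped Topology
open Set Filter MeasureTheory

namespace H37abf

/-- Cesaro means are monotone. -/
theorem G6b_ces_mono {y z : ℕ → ℝ} (h : ∀ n, y n ≤ z n) (N : ℕ) : ces y N ≤ ces z N := by
  unfold ces
  exact mul_le_mul_of_nonneg_left (Finset.sum_le_sum fun n _ => h n) (by positivity)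

variable {Γ : Subgroup SL2} {Λ : Set ℂ} {K : Subfield ℝ} {lam : ℝ} (D : Cusps Γ Λ K lam)

namespace Cusps

/-- PROOF. Let `y n = c₀ / 4 ^ n * (T Λ (2 ^ n)).ncard`. `gapCount / ncard → ∫ f` along `R = 2 ^ n` (`hf`,
`ncard_slopes`), and `c₀ / 4 ^ n * gapCount = (gapCount / ncard) * y n` (if the number `ncard` is `0` then
`gapCount = 0`: it is at most `ncard (slopes)`, a finite set). `ces_mul` and `exists_V'`. -/
theorem ces_gap {f : ℝ → ℝ} (hf : IsGapDist Λ f) {V : ℝ}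
    (hV : Tendsto (ces fun n => D.c₀ / (2 ^ n) ^ 2 * (T Λ (2 ^ n)).ncard) atTop
      (𝓝 (D.c₀ * (∑ j, D.a j / 2) / V))) {x : ℝ} (hx : 0 < x) :
    Tendsto (ces fun n => D.c₀ / (2 ^ n) ^ 2 * (gapCount Λ (2 ^ n) 0 x : ℝ)) atTop
      (𝓝 ((∫ t in (0 : ℝ)..x, f t) * (D.c₀ * (∑ j, D.a j / 2) / V))) := by
  have hc₀ := D.c₀_pos
  have hc : Tendsto (fun n : ℕ => (gapCount Λ (2 ^ n) 0 x : ℝ) / ((slopes Λ (2 ^ n)).ncard : ℝ))
      atTop (𝓝 (∫ t in (0 : ℝ)..x, f t)) :=
    ((hf.2 0 x le_rfl hx).2).comp (tendsto_pow_atTop_atTop_of_one_lt one_lt_two)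
  have h := ces_mul (y := fun n => D.c₀ / (2 ^ n) ^ 2 * ((T Λ (2 ^ n)).ncard : ℝ))
    (fun n => by positivity) hV hc
  refine h.congr fun N => ?_
  congr 1
  ext n
  have h1 := D.ncard_slopes (2 ^ n)
  rw [h1.1]
  rcases Nat.eq_zero_or_pos (T Λ (2 ^ n)).ncard with h0 | h0
  · have h2 : gapCount Λ (2 ^ n) 0 x ≤ 0 := by
      refine (D.gapCount_le (R := 2 ^ n) (by positivity) x).trans ?_
      exact (ncard_le_ncard (fun w hw => hw.1) h1.2).trans h0.le
    rw [Nat.le_zero.1 h2, h0]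
    simp
  · have h3 : ((T Λ (2 ^ n)).ncard : ℝ) ≠ 0 := by exact_mod_cast h0.ne'
    field_simp

/-- The identity. PROOF. `V` from `exists_V'`, `E = ∑ a_j / 2`, `F x = ∑ volume (FF j x)`. By `gapCount_le`,
`ces_gap` and `le_of_tendsto_of_tendsto'` (`ces` is monotone): `(∫_0^x f) E ≤ F x`. By `le_gapCount`, for all
`x' > x`: `F x ≤ (∫_0^x' f) E` (the error `c₀ / 4 ^ n * (x / c₀ + 1)` has Cesaro mean tending to `0`); let
`x' → x` from the right: the primitive of `f` is continuous on `[0, x + 1]`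
(`intervalIntegral.continuousOn_primitive_interval`). -/
theorem gap_identity {f : ℝ → ℝ} (hf : IsGapDist Λ f) {x : ℝ} (hx : 0 < x) :
    (∫ t in (0 : ℝ)..x, f t) * (∑ j, D.a j / 2) = ∑ j, volume.real (D.FF j x) := by
  have hc₀ := D.c₀_pos
  obtain ⟨V, hV, hT, hTx⟩ := D.exists_V'
  have hcV : 0 < D.c₀ / V := div_pos hc₀ hV
  have key1 : (∫ t in (0 : ℝ)..x, f t) * (D.c₀ * (∑ j, D.a j / 2) / V) ≤
      D.c₀ * (∑ j, volume.real (D.FF j x)) / V := by
    refine le_of_tendsto_of_tendsto' (D.ces_gap hf hT hx) (hTx x hx) fun N => ?_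
    refine G6b_ces_mono (fun n => ?_) N
    refine mul_le_mul_of_nonneg_left ?_ (by positivity)
    exact_mod_cast D.gapCount_le (R := 2 ^ n) (by positivity) x
  have key2 : ∀ x' : ℝ, x < x' → D.c₀ * (∑ j, volume.real (D.FF j x)) / V ≤
      (∫ t in (0 : ℝ)..x', f t) * (D.c₀ * (∑ j, D.a j / 2) / V) := by
    intro x' hx'
    have h1 := D.ces_gap hf hT (hx.trans hx')
    have h2 : Tendsto (fun n : ℕ => D.c₀ / (2 ^ n) ^ 2 * (x / D.c₀ + 1)) atTop (𝓝 0) := by
      have h5 : Tendsto (fun n : ℕ => D.c₀ * ((1 / 4 : ℝ) ^ n) * (x / D.c₀ + 1)) atTop (𝓝 0) := by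
        have := ((tendsto_pow_atTop_nhds_zero_of_lt_one (r := (1 / 4 : ℝ)) (by norm_num)
          (by norm_num)).const_mul D.c₀).mul_const (x / D.c₀ + 1)
        simpa using this
      refine h5.congr fun n => ?_
      rw [← pow_mul, mul_comm n 2, pow_mul, div_eq_mul_inv D.c₀, ← inv_pow]
      norm_num
    have h3 := h1.add (ces_zero h2)
    rw [add_zero] at h3
    refine le_of_tendsto_of_tendsto' (hTx x hx) h3 fun N => ?_
    rw [← G4_ces_add]
    refine G6b_ces_mono (fun n => ?_) N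
    rw [← mul_add]
    refine mul_le_mul_of_nonneg_left ?_ (by positivity)
    exact D.le_gapCount (R := 2 ^ n) (by positivity) hx hx'
  have key3 : D.c₀ * (∑ j, volume.real (D.FF j x)) / V ≤
      (∫ t in (0 : ℝ)..x, f t) * (D.c₀ * (∑ j, D.a j / 2) / V) := by
    have hint : IntegrableOn f (uIcc 0 (x + 1)) volume := by
      have := (hf.2 0 (x + 1) le_rfl (by linarith)).1
      exact (intervalIntegrable_iff' (by finiteness)).1 this
    have hcont := intervalIntegral.continuousOn_primitive_interval hint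
    have hx1 : uIcc 0 (x + 1) ∈ 𝓝 x := by
      rw [uIcc_of_le (by linarith)]
      exact Icc_mem_nhds hx (by linarith)
    have h4 : Tendsto (fun x' => (∫ t in (0 : ℝ)..x', f t) * (D.c₀ * (∑ j, D.a j / 2) / V)) (𝓝[>] x)
        (𝓝 ((∫ t in (0 : ℝ)..x, f t) * (D.c₀ * (∑ j, D.a j / 2) / V))) :=
      ((hcont.continuousAt hx1).tendsto.mono_left nhdsWithin_le_nhds).mul_const _
    refine ge_of_tendsto h4 ?_
    filter_upwards [self_mem_nhdsWithin] with x' hx'
    exact key2 x' hx'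
  have h5 := le_antisymm key1 key3
  have h6 : (D.c₀ / V) * ((∫ t in (0 : ℝ)..x, f t) * (∑ j, D.a j / 2)) =
      (D.c₀ / V) * ∑ j, volume.real (D.FF j x) := by
    calc _ = (∫ t in (0 : ℝ)..x, f t) * (D.c₀ * (∑ j, D.a j / 2) / V) := by ring
      _ = D.c₀ * (∑ j, volume.real (D.FF j x)) / V := h5
      _ = _ := by ring
  exact mul_left_cancel₀ hcV.ne' h6

end Cusps

end H37abf
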