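import Mathlib

/-! MP_abf1f1_an, module G: analyticity of simple integrals depending on a parameter. -/

set_option autoImplicit false

open scoped Topology ContDiff
open Set Filter MeasureTheory

namespace H37abf

/-- The square root is analytic at a positive number. -/
theorem G7a_sqrt_analytic {x : ℝ} (hx : 0 < x) : AnalyticAt ℝ Real.sqrt x :=
  (Real.contDiffAt_sqrt (n := ω) hx.ne').analyticAt

/-- A root of `r a ^ 2 + s a = y` depends analytically on `y`. PROOF. If `r = 0` then `s ≠ 0` and `α y = y / s`.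
If `r ≠ 0` then `s ^ 2 + 4 r y0 = (2 r a0 + s) ^ 2 > 0` and `α y = (-s + e √(s ^ 2 + 4 r y)) / (2 r)` with `e = ±1` the
sign of `2 r a0 + s`. Analyticity of the square root near a positive number: `Real.contDiffAt_sqrt` with
`n = ω` and `ContDiffAt.analyticAt` (or `contDiffAt_omega_iff_analyticAt`). -/
theorem root_analytic {r s y0 a0 : ℝ} (h : r * a0 ^ 2 + s * a0 = y0) (hd : 2 * r * a0 + s ≠ 0) :
    ∃ α : ℝ → ℝ, AnalyticAt ℝ α y0 ∧ α y0 = a0 ∧ ∀ᶠ y in 𝓝 y0, r * α y ^ 2 + s * α y = y := by
  by_cases hr : r = 0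
  · subst hr
    have hs : s ≠ 0 := by simpa using hd
    refine ⟨fun y => y / s, analyticAt_id.div analyticAt_const hs, ?_, ?_⟩
    · simp only []
      rw [← h]
      field_simp
      ring
    · refine Eventually.of_forall fun y => ?_
      field_simp
      ring
  · have hD : s ^ 2 + 4 * r * y0 = (2 * r * a0 + s) ^ 2 := by rw [← h]; ring
    have hpos : 0 < s ^ 2 + 4 * r * y0 := by rw [hD]; positivity
    obtain ⟨e, he, he2⟩ : ∃ e : ℝ, e ^ 2 = 1 ∧ e * |2 * r * a0 + s| = 2 * r * a0 + s := by
      rcases le_or_gt 0 (2 * r * a0 + s) with h0 | h0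
      · exact ⟨1, by norm_num, by rw [abs_of_nonneg h0]; ring⟩
      · exact ⟨-1, by norm_num, by rw [abs_of_neg h0]; ring⟩
    refine ⟨fun y => (-s + e * Real.sqrt (s ^ 2 + 4 * r * y)) / (2 * r), ?_, ?_, ?_⟩
    · refine AnalyticAt.div ?_ analyticAt_const (by simpa using hr)
      refine analyticAt_const.add (analyticAt_const.mul ?_)
      refine AnalyticAt.fun_comp (g := Real.sqrt) (f := fun y => s ^ 2 + 4 * r * y)
        (G7a_sqrt_analytic hpos) ?_
      exact analyticAt_const.add (analyticAt_const.mul analyticAt_id)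
    · simp only []
      rw [hD, Real.sqrt_sq_eq_abs, he2]
      field_simp
      ring
    · have hev : ∀ᶠ y in 𝓝 y0, 0 < s ^ 2 + 4 * r * y := by
        have hc : ContinuousAt (fun y : ℝ => s ^ 2 + 4 * r * y) y0 := by fun_prop
        exact hc.eventually (lt_mem_nhds hpos)
      filter_upwards [hev] with y hy
      have hs2 : Real.sqrt (s ^ 2 + 4 * r * y) ^ 2 = s ^ 2 + 4 * r * y := Real.sq_sqrt hy.le
      set q := Real.sqrt (s ^ 2 + 4 * r * y) with hq
      have : (e * q) ^ 2 = s ^ 2 + 4 * r * y := by rw [mul_pow, he, hs2, one_mul]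
      field_simp
      nlinarith [this]

/-- PROOF. `integral_add`, `integral_pow`, `integral_inv` (the function `r a + s - y / a` is continuous on
`[u, v]`). -/
theorem integral_formula {r s y u v : ℝ} (hu : 0 < u) (hv : 0 < v) :
    ∫ a in u..v, (r * a + s - y / a) =
      r * (v ^ 2 - u ^ 2) / 2 + s * (v - u) - y * (Real.log v - Real.log u) := by
  have h0 : (0 : ℝ) ∉ uIcc u v := by
    intro h
    rcases le_total u v with huv | huv
    · rw [uIcc_of_le huv] at h; exact absurd h.1 (not_le.mpr hu)
    · rw [uIcc_of_ge huv] at h; exact absurd h.1 (not_le.mpr hv)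
  have hinv : IntervalIntegrable (fun a : ℝ => y / a) volume u v := by
    refine ContinuousOn.intervalIntegrable ?_
    refine continuousOn_const.div continuousOn_id ?_
    intro x hx hx0
    exact h0 (by simpa [id] using hx0 ▸ hx)
  have h1 : IntervalIntegrable (fun a : ℝ => r * a) volume u v :=
    (continuous_const.mul continuous_id).intervalIntegrable _ _
  have h2 : IntervalIntegrable (fun _ : ℝ => s) volume u v := intervalIntegrable_const
  rw [intervalIntegral.integral_sub (h1.add h2) hinv, intervalIntegral.integral_add h1 h2,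
    intervalIntegral.integral_const_mul, intervalIntegral.integral_const, integral_id]
  have h3 : ∫ a in u..v, y / a = y * (Real.log v - Real.log u) := by
    have : (fun a : ℝ => y / a) = fun a => y * a⁻¹ := by ext a; rw [div_eq_mul_inv]
    rw [this, intervalIntegral.integral_const_mul, integral_inv h0,
      Real.log_div hv.ne' hu.ne']
  rw [h3]
  simp only [smul_eq_mul]
  ring

/-- The integral of the positive part of `φ a - y / a`. -/
noncomputable def JJ (φ : ℝ → ℝ) (u v y : ℝ) : ℝ := ∫ a in u..v, max (φ a - y / a) 0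

/-- PROOF. `JJ` is `0` near `y0`: the function is `(k a - y) / a`, `k a = r a ^ 2 + s a`; `max_{[u,v]} k < y0`
(compactness), so the positive part vanishes for `y` near `y0`. -/
theorem JJ_analytic_below {r s u v y0 : ℝ} (hu : 0 < u) (huv : u ≤ v)
    (h : ∀ a ∈ Icc u v, r * a ^ 2 + s * a < y0) :
    AnalyticAt ℝ (JJ (fun a => r * a + s) u v) y0 := by
  obtain ⟨m, hm, hmax⟩ := isCompact_Icc.exists_isMaxOn (nonempty_Icc.mpr huv)
    (show ContinuousOn (fun a : ℝ => r * a ^ 2 + s * a) (Icc u v) by fun_prop)
  have hm' := h m hm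
  have hev : ∀ᶠ y in 𝓝 y0, JJ (fun a => r * a + s) u v y = 0 := by
    filter_upwards [lt_mem_nhds hm'] with y hy
    unfold JJ
    rw [intervalIntegral.integral_congr (g := fun _ => (0 : ℝ))]
    · simp
    · intro a ha
      rw [uIcc_of_le huv] at ha
      have hapos : 0 < a := lt_of_lt_of_le hu ha.1
      have h1 : r * a ^ 2 + s * a ≤ r * m ^ 2 + s * m := hmax ha
      have h2 : r * a + s - y / a ≤ 0 := by
        have : r * a + s - y / a = (r * a ^ 2 + s * a - y) / a := by field_simp
        rw [this]
        exact div_nonpos_of_nonpos_of_nonneg (by linarith) hapos.le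
      exact max_eq_right h2
  exact (analyticAt_const (v := (0 : ℝ))).congr (hev.mono fun y hy => hy.symm)

/-- PROOF. Near `y0` the positive part can be removed; `integral_formula`. -/
theorem JJ_analytic_above {r s u v y0 : ℝ} (hu : 0 < u) (huv : u ≤ v)
    (h : ∀ a ∈ Icc u v, y0 < r * a ^ 2 + s * a) :
    AnalyticAt ℝ (JJ (fun a => r * a + s) u v) y0 := by
  obtain ⟨m, hm, hmin⟩ := isCompact_Icc.exists_isMinOn (nonempty_Icc.mpr huv)
    (show ContinuousOn (fun a : ℝ => r * a ^ 2 + s * a) (Icc u v) by fun_prop)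
  have hm' := h m hm
  have hev : ∀ᶠ y in 𝓝 y0, JJ (fun a => r * a + s) u v y =
      r * (v ^ 2 - u ^ 2) / 2 + s * (v - u) - y * (Real.log v - Real.log u) := by
    filter_upwards [gt_mem_nhds hm'] with y hy
    rw [← integral_formula hu (lt_of_lt_of_le hu huv)]
    unfold JJ
    refine intervalIntegral.integral_congr ?_
    intro a ha
    rw [uIcc_of_le huv] at ha
    have hapos : 0 < a := lt_of_lt_of_le hu ha.1
    have h1 : r * m ^ 2 + s * m ≤ r * a ^ 2 + s * a := hmin ha
    have h2 : 0 ≤ r * a + s - y / a := by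
      have : r * a + s - y / a = (r * a ^ 2 + s * a - y) / a := by field_simp
      rw [this]
      exact div_nonneg (by linarith) hapos.le
    exact max_eq_left h2
  have han : AnalyticAt ℝ (fun y : ℝ => r * (v ^ 2 - u ^ 2) / 2 + s * (v - u) -
      y * (Real.log v - Real.log u)) y0 :=
    analyticAt_const.sub (analyticAt_id.mul analyticAt_const)
  exact han.congr (hev.mono fun y hy => hy.symm)

end H37abf
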