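import Pool.Agent.H.MP_abf1f1_an.G7a

/-! MP_abf1f1_an, module G: analyticity of simple integrals depending on a parameter. -/

set_option autoImplicit false

open scoped Topology ContDiff
open Set Filter MeasureTheory

namespace H37abf

/-- The logarithm of an analytic positive function is analytic. -/
theorem G7b_log_analytic {α : ℝ → ℝ} {y0 : ℝ} (h : AnalyticAt ℝ α y0) (hp : α y0 ≠ 0) :
    AnalyticAt ℝ (fun y => Real.log (α y)) y0 := by
  have h1 : AnalyticAt ℝ Real.log (α y0) := ((Real.contDiffAt_log (n := ω)).2 hp).analyticAt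
  exact h1.fun_comp h

/-- The integrand is integrable on intervals of positive numbers. -/
theorem G7b_int {r s y u v : ℝ} (hu : 0 < u) (hv : 0 < v) :
    IntervalIntegrable (fun a => max (r * a + s - y / a) 0) volume u v := by
  refine ContinuousOn.intervalIntegrable ?_
  refine ContinuousOn.sup ?_ continuousOn_const
  refine ContinuousOn.sub (by fun_prop) ?_
  refine continuousOn_const.div continuousOn_id ?_
  intro x hx hx0
  rcases le_total u v with huv | huv
  · rw [uIcc_of_le huv] at hx
    have := hx.1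
    have hx1 : x = 0 := hx0
    linarith
  · rw [uIcc_of_ge huv] at hx
    have := hx.1
    have hx1 : x = 0 := hx0
    linarith

/-- PROOF. `k a = r a ^ 2 + s a` is strictly increasing on `[u, v]`, `k u < y0 < k v`: there is `a0 ∈ (u, v)` with
`k a0 = y0` (intermediate value), `root_analytic` gives `α` (`k' a0 > 0`). For `y` near `y0`: `α y ∈ (u, v)`
(continuity of `α`), `k (α y) = y`, so by monotonicity the integrand vanishes on `[u, α y]` and is
`r a + s - y / a` on `[α y, v]`; `JJ y = ∫ a in (α y)..v, (r a + s - y / a)` and `integral_formula`; the right side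
is analytic in `y` (`Real.log` is analytic at `a0 > 0`: `Real.contDiffAt_log` with `n = ω`, or
`AnalyticAt.log`). -/
theorem JJ_analytic_inc {r s u v y0 : ℝ} (hu : 0 < u) (huv : u ≤ v)
    (h : ∀ a ∈ Ioo u v, 0 < 2 * r * a + s) (h1 : r * u ^ 2 + s * u < y0)
    (h2 : y0 < r * v ^ 2 + s * v) : AnalyticAt ℝ (JJ (fun a => r * a + s) u v) y0 := by
  have hk : ∀ a ∈ Icc u v, ∀ b ∈ Icc u v, a < b → r * a ^ 2 + s * a < r * b ^ 2 + s * b := by
    intro a ha b hb hab
    have h3 := h ((a + b) / 2) ⟨by linarith [ha.1], by linarith [hb.2]⟩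
    have h4 : r * b ^ 2 + s * b - (r * a ^ 2 + s * a) = (b - a) * (2 * r * ((a + b) / 2) + s) := by
      ring
    have h5 := mul_pos (sub_pos.2 hab) h3
    linarith
  have hne : u ≠ v := by
    rintro rfl
    linarith
  have hlt : u < v := lt_of_le_of_ne huv hne
  have hv : 0 < v := hu.trans hlt
  obtain ⟨a0, ha0, hka⟩ := intermediate_value_Icc huv
    (show ContinuousOn (fun a : ℝ => r * a ^ 2 + s * a) (Icc u v) by fun_prop) ⟨h1.le, h2.le⟩
  simp only [] at hka
  have hua : u < a0 := by
    refine lt_of_le_of_ne ha0.1 ?_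
    rintro rfl
    linarith
  have hav : a0 < v := by
    refine lt_of_le_of_ne ha0.2 ?_
    rintro rfl
    linarith
  obtain ⟨α, hα, hα0, hαe⟩ := root_analytic hka (h a0 ⟨hua, hav⟩).ne'
  have hαc : ∀ᶠ y in 𝓝 y0, α y ∈ Ioo u v := by
    refine hα.continuousAt.eventually (Ioo_mem_nhds ?_ ?_) <;> rw [hα0] <;> assumption
  have hev : ∀ᶠ y in 𝓝 y0, JJ (fun a => r * a + s) u v y =
      r * (v ^ 2 - α y ^ 2) / 2 + s * (v - α y) - y * (Real.log v - Real.log (α y)) := by
    filter_upwards [hαc, hαe] with y hy hye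
    have hαp : 0 < α y := hu.trans hy.1
    rw [← integral_formula hαp hv]
    unfold JJ
    rw [← intervalIntegral.integral_add_adjacent_intervals (G7b_int hu hαp) (G7b_int hαp hv)]
    have e1 : ∫ a in u..(α y), max (r * a + s - y / a) 0 = 0 := by
      rw [intervalIntegral.integral_congr (g := fun _ => (0 : ℝ))]
      · simp
      · intro a ha
        rw [uIcc_of_le hy.1.le] at ha
        have hap : 0 < a := lt_of_lt_of_le hu ha.1
        have h5 : r * a ^ 2 + s * a ≤ y := by
          rcases eq_or_lt_of_le ha.2 with h6 | h6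
          · rw [h6, hye]
          · have := hk a ⟨ha.1, (h6.trans hy.2).le⟩ (α y) ⟨hy.1.le, hy.2.le⟩ h6
            linarith
        refine max_eq_right ?_
        have h7 : r * a + s - y / a = (r * a ^ 2 + s * a - y) / a := by field_simp
        rw [h7]
        exact div_nonpos_of_nonpos_of_nonneg (by linarith) hap.le
    rw [e1, zero_add]
    refine intervalIntegral.integral_congr ?_
    intro a ha
    rw [uIcc_of_le hy.2.le] at ha
    have hap : 0 < a := lt_of_lt_of_le hαp ha.1
    have h5 : y ≤ r * a ^ 2 + s * a := by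
      rcases eq_or_lt_of_le ha.1 with h6 | h6
      · rw [← h6, hye]
      · have := hk (α y) ⟨hy.1.le, hy.2.le⟩ a ⟨(hy.1.trans h6).le, ha.2⟩ h6
        linarith
    refine max_eq_left ?_
    have h7 : r * a + s - y / a = (r * a ^ 2 + s * a - y) / a := by field_simp
    rw [h7]
    exact div_nonneg (by linarith) hap.le
  have han : AnalyticAt ℝ (fun y : ℝ => r * (v ^ 2 - α y ^ 2) / 2 + s * (v - α y) -
      y * (Real.log v - Real.log (α y))) y0 := by
    have h3 := G7b_log_analytic hα (by rw [hα0]; linarith)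
    exact (((analyticAt_const.mul (analyticAt_const.sub (hα.pow 2))).div_const).add
      (analyticAt_const.mul (analyticAt_const.sub hα))).sub
      (analyticAt_id.mul (analyticAt_const.sub h3))
  exact han.congr (hev.mono fun y hy => hy.symm)

/-- PROOF. As before, with `JJ y = ∫ a in u..(α y), (r a + s - y / a)`. -/
theorem JJ_analytic_dec {r s u v y0 : ℝ} (hu : 0 < u) (huv : u ≤ v)
    (h : ∀ a ∈ Ioo u v, 2 * r * a + s < 0) (h1 : y0 < r * u ^ 2 + s * u)
    (h2 : r * v ^ 2 + s * v < y0) : AnalyticAt ℝ (JJ (fun a => r * a + s) u v) y0 := by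
  have hk : ∀ a ∈ Icc u v, ∀ b ∈ Icc u v, a < b → r * b ^ 2 + s * b < r * a ^ 2 + s * a := by
    intro a ha b hb hab
    have h3 := h ((a + b) / 2) ⟨by linarith [ha.1], by linarith [hb.2]⟩
    have h4 : r * b ^ 2 + s * b - (r * a ^ 2 + s * a) = (b - a) * (2 * r * ((a + b) / 2) + s) := by
      ring
    have h5 := mul_neg_of_pos_of_neg (sub_pos.2 hab) h3
    linarith
  have hne : u ≠ v := by
    rintro rfl
    linarith
  have hlt : u < v := lt_of_le_of_ne huv hne
  have hv : 0 < v := hu.trans hlt
  obtain ⟨a0, ha0, hka⟩ := intermediate_value_Icc' huv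
    (show ContinuousOn (fun a : ℝ => r * a ^ 2 + s * a) (Icc u v) by fun_prop) ⟨h2.le, h1.le⟩
  simp only [] at hka
  have hua : u < a0 := by
    refine lt_of_le_of_ne ha0.1 ?_
    rintro rfl
    linarith
  have hav : a0 < v := by
    refine lt_of_le_of_ne ha0.2 ?_
    rintro rfl
    linarith
  obtain ⟨α, hα, hα0, hαe⟩ := root_analytic hka (h a0 ⟨hua, hav⟩).ne
  have hαc : ∀ᶠ y in 𝓝 y0, α y ∈ Ioo u v := by
    refine hα.continuousAt.eventually (Ioo_mem_nhds ?_ ?_) <;> rw [hα0] <;> assumption
  have hev : ∀ᶠ y in 𝓝 y0, JJ (fun a => r * a + s) u v y =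
      r * (α y ^ 2 - u ^ 2) / 2 + s * (α y - u) - y * (Real.log (α y) - Real.log u) := by
    filter_upwards [hαc, hαe] with y hy hye
    have hαp : 0 < α y := hu.trans hy.1
    rw [← integral_formula hu hαp]
    unfold JJ
    rw [← intervalIntegral.integral_add_adjacent_intervals (G7b_int hu hαp) (G7b_int hαp hv)]
    have e1 : ∫ a in (α y)..v, max (r * a + s - y / a) 0 = 0 := by
      rw [intervalIntegral.integral_congr (g := fun _ => (0 : ℝ))]
      · simp
      · intro a ha
        rw [uIcc_of_le hy.2.le] at ha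
        have hap : 0 < a := lt_of_lt_of_le hαp ha.1
        have h5 : r * a ^ 2 + s * a ≤ y := by
          rcases eq_or_lt_of_le ha.1 with h6 | h6
          · rw [← h6, hye]
          · have := hk (α y) ⟨hy.1.le, hy.2.le⟩ a ⟨(hy.1.trans h6).le, ha.2⟩ h6
            linarith
        refine max_eq_right ?_
        have h7 : r * a + s - y / a = (r * a ^ 2 + s * a - y) / a := by field_simp
        rw [h7]
        exact div_nonpos_of_nonpos_of_nonneg (by linarith) hap.le
    rw [e1, add_zero]
    refine intervalIntegral.integral_congr ?_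
    intro a ha
    rw [uIcc_of_le hy.1.le] at ha
    have hap : 0 < a := lt_of_lt_of_le hu ha.1
    have h5 : y ≤ r * a ^ 2 + s * a := by
      rcases eq_or_lt_of_le ha.2 with h6 | h6
      · rw [h6, hye]
      · have := hk a ⟨ha.1, (h6.trans hy.2).le⟩ (α y) ⟨hy.1.le, hy.2.le⟩ h6
        linarith
    refine max_eq_left ?_
    have h7 : r * a + s - y / a = (r * a ^ 2 + s * a - y) / a := by field_simp
    rw [h7]
    exact div_nonneg (by linarith) hap.le
  have han : AnalyticAt ℝ (fun y : ℝ => r * (α y ^ 2 - u ^ 2) / 2 + s * (α y - u) -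
      y * (Real.log (α y) - Real.log u)) y0 := by
    have h3 := G7b_log_analytic hα (by rw [hα0]; linarith)
    exact (((analyticAt_const.mul ((hα.pow 2).sub analyticAt_const)).div_const).add
      (analyticAt_const.mul (hα.sub analyticAt_const))).sub
      (analyticAt_id.mul (h3.sub analyticAt_const))
  exact han.congr (hev.mono fun y hy => hy.symm)

end H37abf
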