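import Pool.Agent.H.MP_abf1f1_an.G7b

/-! MP_abf1f1_an, module G: analyticity of simple integrals depending on a parameter. -/

set_option autoImplicit false

open scoped Topology ContDiff
open Set Filter MeasureTheory

namespace H37abf

variable {K : Subfield ℝ}

theorem G7c_cont {φ : ℝ → ℝ} {u v : ℝ} (hu : 0 < u) (huv : u ≤ v)
    (hφ : ContinuousOn φ (Icc u v)) (y : ℝ) :
    IntervalIntegrable (fun a => max (φ a - y / a) 0) volume u v := by
  apply ContinuousOn.intervalIntegrable
  rw [uIcc_of_le huv]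
  refine ContinuousOn.sup (hφ.sub ?_) continuousOn_const
  refine continuousOn_const.div continuousOn_id fun a ha => ?_
  have : 0 < a := lt_of_lt_of_le hu ha.1
  exact this.ne'

/-- PROOF. `JJ φ u v = JJ φ u c + JJ φ c v` for `u ≤ c ≤ v` (`φ` continuous on `[u, v]`). -/
theorem JJ_add {φ : ℝ → ℝ} {u c v : ℝ} (hu : 0 < u) (h1 : u ≤ c) (h2 : c ≤ v)
    (hφ : ContinuousOn φ (Icc u v)) (y : ℝ) : JJ φ u v y = JJ φ u c y + JJ φ c v y := by
  unfold JJ
  refine (intervalIntegral.integral_add_adjacent_intervals ?_ ?_).symm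
  · exact G7c_cont hu h1 (hφ.mono (Icc_subset_Icc_right h2)) y
  · exact G7c_cont (lt_of_lt_of_le hu h1) h2 (hφ.mono (Icc_subset_Icc_left h1)) y

theorem G7c_mem {r s u : ℝ} (hr : r ∈ K) (hs : s ∈ K) (hu : u ∈ K) : r * u ^ 2 + s * u ∈ K :=
  K.add_mem (K.mul_mem hr (K.pow_mem hu 2)) (K.mul_mem hs hu)

theorem G7c_inc {r s u v y0 : ℝ} (hr : r ∈ K) (hs : s ∈ K) (hu : u ∈ K) (hv : v ∈ K)
    (h0 : 0 < u) (huv : u ≤ v) (hyK : y0 ∉ K) (h : ∀ a ∈ Ioo u v, 0 < 2 * r * a + s) :
    AnalyticAt ℝ (JJ (fun a => r * a + s) u v) y0 := by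
  have hku : y0 ≠ r * u ^ 2 + s * u := fun e => hyK (e ▸ G7c_mem hr hs hu)
  have hkv : y0 ≠ r * v ^ 2 + s * v := fun e => hyK (e ▸ G7c_mem hr hs hv)
  rcases lt_or_gt_of_ne hku with h1 | h1
  · refine JJ_analytic_above h0 huv fun a ha => lt_of_lt_of_le h1 ?_
    rcases eq_or_lt_of_le ha.1 with e | e
    · rw [e]
    · have h3 := h ((a + u) / 2) ⟨by linarith, by linarith [ha.2]⟩
      nlinarith
  · rcases lt_or_gt_of_ne hkv with h2 | h2
    · exact JJ_analytic_inc h0 huv h h1 h2
    · refine JJ_analytic_below h0 huv fun a ha => lt_of_le_of_lt ?_ h2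
      rcases eq_or_lt_of_le ha.2 with e | e
      · rw [e]
      · have h3 := h ((a + v) / 2) ⟨by linarith [ha.1], by linarith⟩
        nlinarith

theorem G7c_dec {r s u v y0 : ℝ} (hr : r ∈ K) (hs : s ∈ K) (hu : u ∈ K) (hv : v ∈ K)
    (h0 : 0 < u) (huv : u ≤ v) (hyK : y0 ∉ K) (h : ∀ a ∈ Ioo u v, 2 * r * a + s < 0) :
    AnalyticAt ℝ (JJ (fun a => r * a + s) u v) y0 := by
  have hku : y0 ≠ r * u ^ 2 + s * u := fun e => hyK (e ▸ G7c_mem hr hs hu)
  have hkv : y0 ≠ r * v ^ 2 + s * v := fun e => hyK (e ▸ G7c_mem hr hs hv)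
  rcases lt_or_gt_of_ne hkv with h1 | h1
  · refine JJ_analytic_above h0 huv fun a ha => lt_of_lt_of_le h1 ?_
    rcases eq_or_lt_of_le ha.2 with e | e
    · rw [e]
    · have h3 := h ((a + v) / 2) ⟨by linarith [ha.1], by linarith⟩
      nlinarith
  · rcases lt_or_gt_of_ne hku with h2 | h2
    · exact JJ_analytic_dec h0 huv h h2 h1
    · refine JJ_analytic_below h0 huv fun a ha => lt_of_le_of_lt ?_ h2
      rcases eq_or_lt_of_le ha.1 with e | e
      · rw [e]
      · have h3 := h ((a + u) / 2) ⟨by linarith, by linarith [ha.2]⟩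
        nlinarith

/-- PROOF. `k a = r a ^ 2 + s a`. Monotone case: `2 r a + s` does not vanish on `(u, v)` (then it has a constant
sign there by the intermediate value theorem, and `k` is strictly monotone): `k u, k v ∈ K` are different
from `y0 ∉ K`; according to the position of `y0` use `JJ_analytic_below`, `JJ_analytic_above`,
`JJ_analytic_inc` or `JJ_analytic_dec` (on `[u, v]`, `k` is between `k u` and `k v`). Case `r = s = 0`: `k = 0 < y0`,
`JJ_analytic_below`. In the remaining case `r ≠ 0` and `c = -s / (2 r) ∈ (u, v)`, `c ∈ K`: split at `c`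
(`JJ_add`); both parts are monotone. (`u = v`: `JJ = 0`.) -/
theorem JJ_analytic {r s u v y0 : ℝ} (hr : r ∈ K) (hs : s ∈ K) (hu : u ∈ K) (hv : v ∈ K)
    (h0 : 0 < u) (huv : u ≤ v) (hy : 0 < y0) (hyK : y0 ∉ K) :
    AnalyticAt ℝ (JJ (fun a => r * a + s) u v) y0 := by
  by_cases hr0 : r = 0
  · subst hr0
    rcases lt_trichotomy s 0 with h | h | h
    · exact G7c_dec hr hs hu hv h0 huv hyK fun a _ => by simpa using h
    · subst h
      exact JJ_analytic_below h0 huv fun a _ => by simpa using hy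
    · exact G7c_inc hr hs hu hv h0 huv hyK fun a _ => by simpa using h
  · set c := -s / (2 * r) with hc
    have hL : ∀ a, 2 * r * a + s = 2 * r * (a - c) := fun a => by
      rw [hc]
      field_simp
      ring
    have hcK : c ∈ K := by
      have h2 : (2 : ℝ) ∈ K := by
        rw [← one_add_one_eq_two]
        exact K.add_mem K.one_mem K.one_mem
      exact K.div_mem (K.neg_mem hs) (K.mul_mem h2 hr)
    rcases lt_or_gt_of_ne hr0 with hneg | hpos
    · have hinc : ∀ u' v', u' ∈ K → v' ∈ K → 0 < u' → u' ≤ v' → v' ≤ c →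
          AnalyticAt ℝ (JJ (fun a => r * a + s) u' v') y0 := fun u' v' hu' hv' h0' huv' hvc =>
        G7c_inc hr hs hu' hv' h0' huv' hyK fun a ha => by
          rw [hL]
          nlinarith [ha.2]
      have hdec : ∀ u' v', u' ∈ K → v' ∈ K → 0 < u' → u' ≤ v' → c ≤ u' →
          AnalyticAt ℝ (JJ (fun a => r * a + s) u' v') y0 := fun u' v' hu' hv' h0' huv' hvc =>
        G7c_dec hr hs hu' hv' h0' huv' hyK fun a ha => by
          rw [hL]
          nlinarith [ha.1]
      rcases le_or_gt c u with h1 | h1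
      · exact hdec u v hu hv h0 huv h1
      · rcases le_or_gt v c with h2 | h2
        · exact hinc u v hu hv h0 huv h2
        · have e : JJ (fun a => r * a + s) u v =
              fun y => JJ (fun a => r * a + s) u c y + JJ (fun a => r * a + s) c v y :=
            funext fun y => JJ_add h0 h1.le h2.le (by fun_prop) y
          rw [e]
          exact (hinc u c hu hcK h0 h1.le le_rfl).add (hdec c v hcK hv (h0.trans h1) h2.le le_rfl)
    · have hdec : ∀ u' v', u' ∈ K → v' ∈ K → 0 < u' → u' ≤ v' → v' ≤ c →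
          AnalyticAt ℝ (JJ (fun a => r * a + s) u' v') y0 := fun u' v' hu' hv' h0' huv' hvc =>
        G7c_dec hr hs hu' hv' h0' huv' hyK fun a ha => by
          rw [hL]
          nlinarith [ha.2]
      have hinc : ∀ u' v', u' ∈ K → v' ∈ K → 0 < u' → u' ≤ v' → c ≤ u' →
          AnalyticAt ℝ (JJ (fun a => r * a + s) u' v') y0 := fun u' v' hu' hv' h0' huv' hvc =>
        G7c_inc hr hs hu' hv' h0' huv' hyK fun a ha => by
          rw [hL]
          nlinarith [ha.1]
      rcases le_or_gt c u with h1 | h1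
      · exact hinc u v hu hv h0 huv h1
      · rcases le_or_gt v c with h2 | h2
        · exact hdec u v hu hv h0 huv h2
        · have e : JJ (fun a => r * a + s) u v =
              fun y => JJ (fun a => r * a + s) u c y + JJ (fun a => r * a + s) c v y :=
            funext fun y => JJ_add h0 h1.le h2.le (by fun_prop) y
          rw [e]
          exact (hdec u c hu hcK h0 h1.le le_rfl).add (hinc c v hcK hv (h0.trans h1) h2.le le_rfl)

end H37abf
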