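import Pool.Agent.H.MP_abf1f1_an.G7e

/-! MP_abf1f1_an, module G: analyticity of simple integrals depending on a parameter. -/

set_option autoImplicit false

open scoped Topology ContDiff
open Set Filter MeasureTheory

namespace H37abf

variable {K : Subfield ℝ}

/-- PROOF. If `P ≤ m` both sides are `(Q - m)⁺`; if `m < P` and `Q ≤ P` both are `0`; if `m < P < Q` both are
`Q - P`. -/
theorem max_identity (P Q m : ℝ) :
    max (Q - max P m) 0 = max (Q - m) 0 - max (min P Q - m) 0 := by
  rcases le_total P m with h1 | h1
  · rw [max_eq_right h1]
    have : min P Q - m ≤ 0 := by linarith [min_le_left P Q]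
    rw [max_eq_right this, sub_zero]
  · rw [max_eq_left h1]
    rcases le_total P Q with h2 | h2
    · rw [min_eq_left h2, max_eq_left (by linarith), max_eq_left (by linarith),
        max_eq_left (by linarith)]
      ring
    · rw [min_eq_right h2, max_eq_right (by linarith), sub_self]

theorem G7d_cont {ι : Type*} (S : Finset ι) (hS : S.Nonempty) (r s : ι → ℝ) :
    Continuous (fun a : ℝ => S.inf' hS (fun i => r i * a + s i)) := by
  have h := Continuous.finset_inf'_apply (s := S) hS (f := fun (i : ι) (a : ℝ) => r i * a + s i)
    (fun i _ => by fun_prop)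
  exact h

theorem G7d_int {φ : ℝ → ℝ} (hφ : Continuous φ) {u v : ℝ} (h0 : 0 < u) (huv : u ≤ v) (y : ℝ) :
    IntervalIntegrable (fun a => max (φ a - y / a) 0) volume u v := by
  apply ContinuousOn.intervalIntegrable
  rw [uIcc_of_le huv]
  apply ContinuousOn.sup _ continuousOn_const
  apply hφ.continuousOn.sub
  apply continuousOn_const.div continuousOn_id
  intro a ha
  exact (lt_of_lt_of_le h0 ha.1).ne'

/-- PROOF. `max_identity`; the second term is `JJ` for the family indexed by `Option ι` with `none ↦ p a + 0`
(`Finset.insertNone S`, whose `inf'` is the minimum of `p a` and of the `inf'` over `S`); `JJ_analytic_inf`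
twice. Integrability: continuity on `[u, v]` (`Finset.inf'` of continuous functions). -/
theorem analytic_max {ι : Type*} (S : Finset ι) (hS : S.Nonempty) (r s : ι → ℝ)
    (hr : ∀ i ∈ S, r i ∈ K) (hs : ∀ i ∈ S, s i ∈ K) {p u v y0 : ℝ} (hp : p ∈ K) (hu : u ∈ K)
    (hv : v ∈ K) (h0 : 0 < u) (huv : u ≤ v) (hy : 0 < y0) (hyK : y0 ∉ K) :
    AnalyticAt ℝ (fun y => ∫ a in u..v, max (S.inf' hS (fun i => r i * a + s i) - max (p * a) (y / a)) 0)
      y0 := by
  have hS' : (Finset.insertNone S).Nonempty := ⟨none, Finset.none_mem_insertNone⟩
  have h1 := JJ_analytic_inf (K := K) S hS r s hr hs hu hv h0 huv hy hyK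
  have h2 := JJ_analytic_inf (K := K) (Finset.insertNone S) hS' (fun o => o.elim p r)
    (fun o => o.elim 0 s) (by
      intro o ho
      cases o with
      | none => exact hp
      | some i => exact hr i (Finset.some_mem_insertNone.1 ho)) (by
      intro o ho
      cases o with
      | none => exact K.zero_mem
      | some i => exact hs i (Finset.some_mem_insertNone.1 ho)) hu hv h0 huv hy hyK
  have key : ∀ a : ℝ, (Finset.insertNone S).inf' hS' (fun o : Option ι => o.elim p r * a + o.elim 0 s) =
      min (p * a) (S.inf' hS (fun i => r i * a + s i)) := by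
    intro a
    apply le_antisymm
    · apply le_min
      · have := Finset.inf'_le (s := Finset.insertNone S)
          (fun o : Option ι => o.elim p r * a + o.elim 0 s) (Finset.none_mem_insertNone)
        simpa using this
      · apply Finset.le_inf'
        intro i hi
        have := Finset.inf'_le (s := Finset.insertNone S)
          (fun o : Option ι => o.elim p r * a + o.elim 0 s) (Finset.some_mem_insertNone.2 hi)
        simpa using this
    · apply Finset.le_inf'
      intro o ho
      cases o with
      | none => simp
      | some i =>
        have hi := Finset.some_mem_insertNone.1 ho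
        refine (min_le_right _ _).trans ?_
        have := Finset.inf'_le (s := S) (fun i => r i * a + s i) hi
        simpa using this
  refine (h1.sub h2).congr (Filter.Eventually.of_forall fun y => ?_)
  simp only [Pi.sub_apply, JJ]
  rw [← intervalIntegral.integral_sub (G7d_int (G7d_cont S hS r s) h0 huv y)
    (G7d_int (G7d_cont (Finset.insertNone S) hS' (fun o => o.elim p r) (fun o => o.elim 0 s))
      h0 huv y)]
  apply intervalIntegral.integral_congr
  intro a _
  simp only [key]
  rw [max_identity]

end H37abf
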