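import Pool.Agent.H.MP_abf1f1_an.G7c

/-! MP_abf1f1_an, module G: analyticity of simple integrals depending on a parameter. -/

set_option autoImplicit false

open scoped Topology ContDiff
open Set Filter MeasureTheory

namespace H37abf

variable {K : Subfield ℝ}

/-- The crossing points of the lines in the interval `(u, v)`. -/
def Xs {ι : Type*} (S : Finset ι) (r s : ι → ℝ) (u v : ℝ) : Set ℝ :=
  {c | u < c ∧ c < v ∧ ∃ i ∈ S, ∃ j ∈ S, r i ≠ r j ∧ r i * c + s i = r j * c + s j}

theorem G7e_eq {r s r' s' c : ℝ} (h : r ≠ r') (e : r * c + s = r' * c + s') :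
    c = (s' - s) / (r - r') := by
  rw [eq_div_iff (sub_ne_zero.mpr h)]
  linarith

/-- There are finitely many crossing points. -/
theorem Xs_finite {ι : Type*} (S : Finset ι) (r s : ι → ℝ) (u v : ℝ) : (Xs S r s u v).Finite := by
  classical
  refine ((S ×ˢ S).finite_toSet.image (fun p : ι × ι => (s p.2 - s p.1) / (r p.1 - r p.2))).subset ?_
  rintro c ⟨-, -, i, hi, j, hj, hne, e⟩
  refine ⟨(i, j), ?_, (G7e_eq hne e).symm⟩
  rw [Finset.mem_coe, Finset.mem_product]
  exact ⟨hi, hj⟩

/-- Between crossing points the minimum is one of the lines. -/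
theorem min_line {ι : Type*} (S : Finset ι) (hS : S.Nonempty) (r s : ι → ℝ) {u v : ℝ} (huv : u ≤ v)
    (h : Xs S r s u v = ∅) : ∃ i ∈ S, ∀ a ∈ Icc u v, S.inf' hS (fun i => r i * a + s i) = r i * a + s i := by
  obtain ⟨i, hi, hmin⟩ := Finset.exists_mem_eq_inf' hS (fun i => r i * ((u + v) / 2) + s i)
  refine ⟨i, hi, fun a ha => le_antisymm (Finset.inf'_le _ hi) ?_⟩
  refine Finset.le_inf' _ _ fun j hj => ?_
  by_contra hlt
  have hlt' : r j * a + s j < r i * a + s i := not_le.mp hlt
  have hm : r i * ((u + v) / 2) + s i ≤ r j * ((u + v) / 2) + s j := by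
    rw [← hmin]
    exact Finset.inf'_le _ hj
  obtain ⟨ha1, ha2⟩ := ha
  have hmem : ∀ c, u < c → c < v → r i ≠ r j → r i * c + s i = r j * c + s j → False := by
    intro c h1 h2 h3 h4
    have : c ∈ Xs S r s u v := ⟨h1, h2, i, hi, j, hj, h3, h4⟩
    rw [h] at this
    exact this
  rcases lt_trichotomy (r i - r j) 0 with hd | hd | hd
  · have hne : r i ≠ r j := by
      intro e; rw [e, sub_self] at hd; exact lt_irrefl _ hd
    have hd' : r i - r j ≠ 0 := hd.ne
    have hc : (r i - r j) * ((s j - s i) / (r i - r j)) = s j - s i := mul_div_cancel₀ _ hd'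
    have h1 : a < (s j - s i) / (r i - r j) := by
      by_contra hx
      have := mul_le_mul_of_nonpos_left (not_lt.mp hx) hd.le
      rw [hc] at this
      nlinarith
    have h2 : (s j - s i) / (r i - r j) ≤ (u + v) / 2 := by
      by_contra hx
      have := mul_lt_mul_of_neg_left (not_le.mp hx) hd
      rw [hc] at this
      nlinarith
    refine hmem _ (by linarith) (by linarith) hne (by linarith)
  · rw [sub_eq_zero] at hd
    rw [hd] at hm hlt'
    linarith
  · have hne : r i ≠ r j := by
      intro e; rw [e, sub_self] at hd; exact lt_irrefl _ hd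
    have hd' : r i - r j ≠ 0 := hd.ne'
    have hc : (r i - r j) * ((s j - s i) / (r i - r j)) = s j - s i := mul_div_cancel₀ _ hd'
    have h1 : (s j - s i) / (r i - r j) < a := by
      by_contra hx
      have := mul_le_mul_of_nonneg_left (not_lt.mp hx) hd.le
      rw [hc] at this
      nlinarith
    have h2 : (u + v) / 2 ≤ (s j - s i) / (r i - r j) := by
      by_contra hx
      have := mul_lt_mul_of_pos_left (not_le.mp hx) hd
      rw [hc] at this
      nlinarith
    refine hmem _ (by linarith) (by linarith) hne (by linarith)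

theorem G7e_cont {ι : Type*} (S : Finset ι) (hS : S.Nonempty) (r s : ι → ℝ) :
    Continuous (fun a : ℝ => S.inf' hS (fun i => r i * a + s i)) :=
  Continuous.finset_inf'_apply hS fun i _ => by fun_prop

theorem G7e_ind {ι : Type*} (S : Finset ι) (hS : S.Nonempty) (r s : ι → ℝ)
    (hr : ∀ i ∈ S, r i ∈ K) (hs : ∀ i ∈ S, s i ∈ K) {y0 : ℝ} (hy : 0 < y0) (hyK : y0 ∉ K) (n : ℕ) :
    ∀ u v : ℝ, u ∈ K → v ∈ K → 0 < u → u ≤ v → (Xs S r s u v).ncard ≤ n →
    AnalyticAt ℝ (JJ (fun a => S.inf' hS (fun i => r i * a + s i)) u v) y0 := by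
  induction n with
  | zero =>
    intro u v hu hv h0 huv hn
    have he : Xs S r s u v = ∅ := (Set.ncard_eq_zero (Xs_finite S r s u v)).mp (by omega)
    obtain ⟨i, hi, hI⟩ := min_line S hS r s huv he
    have h1 := JJ_analytic (hr i hi) (hs i hi) hu hv h0 huv hy hyK
    have h2 : JJ (fun a => S.inf' hS (fun i => r i * a + s i)) u v = JJ (fun a => r i * a + s i) u v := by
      funext y
      unfold JJ
      refine intervalIntegral.integral_congr fun a ha => ?_
      rw [uIcc_of_le huv] at ha
      show max (S.inf' hS (fun i => r i * a + s i) - y / a) 0 = _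
      rw [hI a ha]
    rw [h2]
    exact h1
  | succ n ih =>
    intro u v hu hv h0 huv hn
    by_cases hc : (Xs S r s u v).ncard ≤ n
    · exact ih u v hu hv h0 huv hc
    · have hne : (Xs S r s u v).Nonempty := by
        rw [Set.nonempty_iff_ne_empty]
        intro he
        rw [he, Set.ncard_empty] at hc
        exact hc (Nat.zero_le _)
      obtain ⟨c, hcX⟩ := hne
      obtain ⟨huc, hcv, i, hi, j, hj, hij, e⟩ := hcX
      have hcK : c ∈ K := by
        rw [G7e_eq hij e]
        exact K.div_mem (K.sub_mem (hs j hj) (hs i hi)) (K.sub_mem (hr i hi) (hr j hj))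
      have hcX : c ∈ Xs S r s u v := ⟨huc, hcv, i, hi, j, hj, hij, e⟩
      have hl : (Xs S r s u c).ncard < (Xs S r s u v).ncard := by
        refine Set.ncard_lt_ncard ?_ (Xs_finite S r s u v)
        refine ⟨fun x hx => ⟨hx.1, hx.2.1.trans hcv, hx.2.2⟩, fun hsub => ?_⟩
        exact lt_irrefl c (hsub hcX).2.1
      have hr' : (Xs S r s c v).ncard < (Xs S r s u v).ncard := by
        refine Set.ncard_lt_ncard ?_ (Xs_finite S r s u v)
        refine ⟨fun x hx => ⟨huc.trans hx.1, hx.2.1, hx.2.2⟩, fun hsub => ?_⟩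
        exact lt_irrefl c (hsub hcX).1
      have h1 := ih u c hu hcK h0 huc.le (by omega)
      have h2 := ih c v hcK hv (h0.trans huc) hcv.le (by omega)
      refine (h1.add h2).congr (Filter.Eventually.of_forall fun y => ?_)
      exact (JJ_add h0 huc.le hcv.le (G7e_cont S hS r s).continuousOn y).symm

/-- The integral of the positive part of a minimum of lines is analytic. -/
theorem JJ_analytic_inf {ι : Type*} (S : Finset ι) (hS : S.Nonempty) (r s : ι → ℝ)
    (hr : ∀ i ∈ S, r i ∈ K) (hs : ∀ i ∈ S, s i ∈ K) {u v y0 : ℝ} (hu : u ∈ K) (hv : v ∈ K)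
    (h0 : 0 < u) (huv : u ≤ v) (hy : 0 < y0) (hyK : y0 ∉ K) :
    AnalyticAt ℝ (JJ (fun a => S.inf' hS (fun i => r i * a + s i)) u v) y0 :=
  G7e_ind S hS r s hr hs hy hyK _ u v hu hv h0 huv le_rfl

end H37abf
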