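import Pool.Agent.H.MP_abf1f1_an.G7a

/-! MP_abf1f1_an, module G: continuous differentiability of simple integrals depending on a parameter. -/

set_option autoImplicit false

open scoped Topology Interval
open Set Filter MeasureTheory

namespace H37abf

theorem G7f_ae (r s : ℝ) {y : ℝ} (hy : y ≠ 0) : ∀ᵐ a : ℝ, a ≠ 0 → r * a + s ≠ y / a := by
  set P : Polynomial ℝ := Polynomial.C r * Polynomial.X ^ 2 + Polynomial.C s * Polynomial.X -
    Polynomial.C y with hP
  have hP0 : P ≠ 0 := by
    intro h
    have h1 : P.coeff 0 = 0 := by rw [h, Polynomial.coeff_zero]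
    rw [hP] at h1
    simp at h1
    exact hy h1
  have hfin : {a : ℝ | P.IsRoot a}.Finite := Polynomial.finite_setOfPred_isRoot hP0
  have h0 : volume {a : ℝ | P.IsRoot a} = 0 := hfin.measure_zero _
  have h1 : ∀ᵐ a : ℝ, a ∉ {a : ℝ | P.IsRoot a} := measure_eq_zero_iff_ae_notMem.1 h0
  filter_upwards [h1] with a ha ha0 h
  apply ha
  show P.IsRoot a
  rw [Polynomial.IsRoot, hP]
  simp only [Polynomial.eval_sub, Polynomial.eval_add, Polynomial.eval_mul, Polynomial.eval_C,
    Polynomial.eval_pow, Polynomial.eval_X]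
  rw [eq_div_iff ha0] at h
  linarith

/-- the integrand -/
noncomputable def G7f_phi (m : ℝ → ℝ) (p y a : ℝ) : ℝ := max (m a - max (p * a) (y / a)) 0

open Classical in
/-- the derivative of the integrand -/
noncomputable def G7f_der (m : ℝ → ℝ) (p y a : ℝ) : ℝ :=
  if p * a < y / a ∧ y / a < m a then -(1 / a) else 0

theorem G7f_ev (m : ℝ → ℝ) {p y a : ℝ} (h1 : p * a ≠ y / a) (h2 : m a ≠ y / a) :
    ∃ d : ℝ, ∀ᶠ z in 𝓝 y, G7f_phi m p z a = d + G7f_der m p y a * z ∧
      G7f_der m p z a = G7f_der m p y a := by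
  have hc : ContinuousAt (fun z : ℝ => z / a) y := (continuous_id.div_const a).continuousAt
  rcases lt_or_gt_of_ne h2 with h3 | h3
  · -- `m a < y / a`
    refine ⟨0, ?_⟩
    have h4 : ∀ᶠ z in 𝓝 y, m a < z / a := hc.eventually (lt_mem_nhds h3)
    have h5 : ∀ z, m a < z / a → G7f_der m p z a = 0 := by
      intro z hz
      rw [G7f_der, if_neg]
      rintro ⟨-, h⟩
      exact lt_asymm h hz
    filter_upwards [h4] with z hz
    rw [h5 z hz, h5 y h3]
    refine ⟨?_, rfl⟩
    rw [G7f_phi, zero_mul, add_zero, max_eq_right]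
    have := le_max_right (p * a) (z / a)
    linarith
  · rcases lt_or_gt_of_ne h1 with h4 | h4
    · -- `p * a < y / a < m a`
      refine ⟨m a, ?_⟩
      have h5 : ∀ᶠ z in 𝓝 y, z / a < m a := hc.eventually (gt_mem_nhds h3)
      have h6 : ∀ᶠ z in 𝓝 y, p * a < z / a := hc.eventually (lt_mem_nhds h4)
      filter_upwards [h5, h6] with z hz1 hz2
      rw [G7f_der, if_pos ⟨h4, h3⟩, G7f_der, if_pos ⟨hz2, hz1⟩]
      refine ⟨?_, rfl⟩
      rw [G7f_phi, max_eq_right hz2.le, max_eq_left (by linarith)]
      ring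
    · -- `y / a < p * a`
      refine ⟨max (m a - p * a) 0, ?_⟩
      have h5 : ∀ᶠ z in 𝓝 y, z / a < p * a := hc.eventually (gt_mem_nhds h4)
      have h6 : ∀ z, z / a < p * a → G7f_der m p z a = 0 := by
        intro z hz
        rw [G7f_der, if_neg]
        rintro ⟨h, -⟩
        exact lt_asymm h hz
      filter_upwards [h5] with z hz
      rw [h6 z hz, h6 y h4]
      refine ⟨?_, rfl⟩
      rw [G7f_phi, max_eq_left hz.le, zero_mul, add_zero]

theorem G7f_lip (m : ℝ → ℝ) {p a : ℝ} (ha : 0 < a) (y z : ℝ) :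
    |G7f_phi m p y a - G7f_phi m p z a| ≤ 1 / a * |y - z| := by
  rw [G7f_phi, G7f_phi]
  refine (abs_max_sub_max_le_abs _ _ _).trans ?_
  have h1 : m a - max (p * a) (y / a) - (m a - max (p * a) (z / a)) =
      max (z / a) (p * a) - max (y / a) (p * a) := by
    rw [max_comm (p * a), max_comm (p * a)]
    ring
  rw [h1]
  refine (abs_max_sub_max_le_abs _ _ _).trans ?_
  rw [← sub_div, abs_div, abs_of_pos ha, abs_sub_comm]
  apply le_of_eq
  ring

theorem G7f_c1 (m : ℝ → ℝ) (hm : Continuous m) {p u v : ℝ} (h0 : 0 < u) (huv : u ≤ v)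
    (hae : ∀ y : ℝ, 0 < y → ∀ᵐ a : ℝ, a ≠ 0 → p * a ≠ y / a ∧ m a ≠ y / a) {y0 : ℝ}
    (hy : 0 < y0) : ContDiffAt ℝ 1 (fun y => ∫ a in u..v, G7f_phi m p y a) y0 := by
  have hdiv : ∀ y : ℝ, Measurable (fun a : ℝ => y / a) := fun y =>
    measurable_const.div measurable_id
  have hmeas : ∀ y, Measurable (fun a => G7f_phi m p y a) := by
    intro y
    exact (hm.measurable.sub ((measurable_const.mul measurable_id).max (hdiv y))).max
      measurable_const
  have hmeas' : ∀ y, Measurable (fun a => G7f_der m p y a) := by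
    intro y
    refine Measurable.ite ?_ ((measurable_const.div measurable_id).neg) measurable_const
    exact (measurableSet_lt (measurable_const.mul measurable_id) (hdiv y)).inter
      (measurableSet_lt (hdiv y) hm.measurable)
  have hpos : ∀ a ∈ Ι u v, 0 < a ∧ u ≤ a := by
    intro a ha
    rw [uIoc_of_le huv] at ha
    exact ⟨h0.trans ha.1, ha.1.le⟩
  have hbd : ∀ a ∈ Ι u v, 1 / a ≤ 1 / u := fun a ha =>
    one_div_le_one_div_of_le h0 (hpos a ha).2
  have hint : ∀ y, IntervalIntegrable (fun a => G7f_phi m p y a) volume u v := by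
    intro y
    apply ContinuousOn.intervalIntegrable
    have h1 : ContinuousOn (fun a : ℝ => y / a) (uIcc u v) := by
      refine continuousOn_const.div continuousOn_id ?_
      intro a ha
      rw [uIcc_of_le huv] at ha
      exact (h0.trans_le ha.1).ne'
    exact (hm.continuousOn.sub ((continuousOn_const.mul continuousOn_id).sup h1)).sup
      continuousOn_const
  have hder : ∀ y : ℝ, 0 < y → HasDerivAt (fun y => ∫ a in u..v, G7f_phi m p y a)
      (∫ a in u..v, G7f_der m p y a) y := by
    intro y hy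
    refine (intervalIntegral.hasDerivAt_integral_of_dominated_loc_of_lip
      (bound := fun _ => 1 / u) (Filter.univ_mem : (univ : Set ℝ) ∈ 𝓝 y)
      (Eventually.of_forall fun z => (hmeas z).aestronglyMeasurable) (hint y)
      (hmeas' y).aestronglyMeasurable ?_ intervalIntegrable_const ?_).2
    · refine Eventually.of_forall fun a ha => ?_
      refine LipschitzOnWith.of_dist_le_mul fun y1 _ y2 _ => ?_
      rw [Real.dist_eq, Real.dist_eq]
      refine (G7f_lip m (hpos a ha).1 y1 y2).trans ?_
      rw [Real.coe_nnabs, abs_of_pos (by positivity : (0 : ℝ) < 1 / u)]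
      exact mul_le_mul_of_nonneg_right (hbd a ha) (abs_nonneg _)
    · filter_upwards [hae y hy] with a ha hau
      obtain ⟨h1, h2⟩ := ha (hpos a hau).1.ne'
      obtain ⟨d, hd⟩ := G7f_ev m h1 h2
      have h3 : HasDerivAt (fun z => d + G7f_der m p y a * z) (G7f_der m p y a) y := by
        have h4 := ((hasDerivAt_id y).const_mul (G7f_der m p y a)).const_add d
        simpa using h4
      exact h3.congr_of_eventuallyEq (hd.mono fun z hz => hz.1)
  have hcont : ∀ y : ℝ, 0 < y → ContinuousAt (fun y => ∫ a in u..v, G7f_der m p y a) y := by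
    intro y hy
    refine intervalIntegral.continuousAt_of_dominated_interval (bound := fun _ => 1 / u)
      (Eventually.of_forall fun z => (hmeas' z).aestronglyMeasurable) ?_ intervalIntegrable_const ?_
    · refine Eventually.of_forall fun z => Eventually.of_forall fun a ha => ?_
      rw [G7f_der]
      have hua : (0 : ℝ) < 1 / u := by positivity
      split_ifs
      · rw [norm_neg, Real.norm_of_nonneg (one_div_nonneg.2 (hpos a ha).1.le)]
        exact hbd a ha
      · rw [norm_zero]; exact hua.le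
    · filter_upwards [hae y hy] with a ha hau
      obtain ⟨h1, h2⟩ := ha (hpos a hau).1.ne'
      obtain ⟨d, hd⟩ := G7f_ev m h1 h2
      exact (continuousAt_const (y := G7f_der m p y a)).congr
        ((hd.mono fun z hz => hz.2.symm) : ∀ᶠ z in 𝓝 y, _ = _)
  rw [contDiffAt_one_iff]
  refine ⟨fun y => ContinuousLinearMap.toSpanSingleton ℝ (∫ a in u..v, G7f_der m p y a), Ioi 0,
    Ioi_mem_nhds hy, ?_, fun y hy => (hder y hy).hasFDerivAt⟩
  intro y hy
  exact ((ContinuousLinearMap.toSpanSingletonCLE (𝕜 := ℝ)).continuous.continuousAt.comp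
    (hcont y hy)).continuousWithinAt

/-- The integral is continuously differentiable in the parameter. -/
theorem c1_max {ι : Type*} (S : Finset ι) (hS : S.Nonempty) (r s : ι → ℝ) {p u v y0 : ℝ}
    (h0 : 0 < u) (huv : u ≤ v) (hy : 0 < y0) :
    ContDiffAt ℝ 1
      (fun y => ∫ a in u..v, max (S.inf' hS (fun i => r i * a + s i) - max (p * a) (y / a)) 0) y0 := by
  refine G7f_c1 (fun a => S.inf' hS (fun i => r i * a + s i)) ?_ h0 huv ?_ hy
  · exact Continuous.finset_inf'_apply hS
      (fun i _ => (continuous_const.mul continuous_id).add continuous_const)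
  · intro y hy
    have h1 := G7f_ae p 0 hy.ne'
    have h2 : ∀ᵐ a : ℝ, ∀ i ∈ S, a ≠ 0 → r i * a + s i ≠ y / a := by
      rw [Filter.eventually_all_finset]
      exact fun i _ => G7f_ae (r i) (s i) hy.ne'
    filter_upwards [h1, h2] with a ha1 ha2 ha0
    refine ⟨by simpa using ha1 ha0, ?_⟩
    obtain ⟨i, hi, hi'⟩ := S.exists_mem_eq_inf' hS (fun i => r i * a + s i)
    rw [hi']
    exact ha2 i hi ha0

end H37abf
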