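import Pool.Agent.H.MP_abf1f1_an.G2b

/-! MP_abf1f1_an, module G: volumes of the intersections of the pieces. -/

set_option autoImplicit false

open scoped Topology
open Set Filter MeasureTheory

namespace H37abf

/-- Fubini for a region between graphs. PROOF. The set is contained in the closed region and contains the
open region between the graphs of `max (Q a) (P a)` and `P a` over `(0, 1]`, the difference is a null set
(`volume_graph`); `volume_regionBetween_eq_integral`, or `Measure.prod_apply` and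
`integral_indicator`; the fibers have volume `max (Q a - P a) 0`, which is `0` for `a < A0`. -/
theorem volume_between {S : Set (ℝ × ℝ)} (hS : MeasurableSet S) {P Q : ℝ → ℝ} {A0 : ℝ} (h0 : 0 < A0)
    (h1 : A0 ≤ 1) (hP : ContinuousOn P (Icc A0 1)) (hQ : ContinuousOn Q (Icc A0 1))
    (hs : ∀ q ∈ S, A0 ≤ q.1 ∧ q.1 ≤ 1 ∧ P q.1 ≤ q.2 ∧ q.2 ≤ Q q.1)
    (hs' : ∀ q : ℝ × ℝ, A0 ≤ q.1 → q.1 ≤ 1 → P q.1 < q.2 → q.2 < Q q.1 → q ∈ S) :
    volume.real S = ∫ a in A0..1, max (Q a - P a) 0 := by
  have hfib : ∀ a : ℝ, volume (Prod.mk a ⁻¹' S) =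
      (Icc A0 1).indicator (fun a => ENNReal.ofReal (max (Q a - P a) 0)) a := by
    intro a
    by_cases ha : a ∈ Icc A0 1
    · rw [Set.indicator_of_mem ha]
      have e0 : ENNReal.ofReal (max (Q a - P a) 0) = ENNReal.ofReal (Q a - P a) := by
        rcases le_total (Q a - P a) 0 with h | h
        · rw [max_eq_right h, ENNReal.ofReal_zero, ENNReal.ofReal_of_nonpos h]
        · rw [max_eq_left h]
      rw [e0]
      apply le_antisymm
      · rw [← Real.volume_Icc]
        refine measure_mono fun b hb => ?_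
        obtain ⟨-, -, h3, h4⟩ := hs (a, b) hb
        exact ⟨h3, h4⟩
      · rw [← Real.volume_Ioo]
        refine measure_mono fun b hb => ?_
        exact hs' (a, b) ha.1 ha.2 hb.1 hb.2
    · rw [Set.indicator_of_notMem ha]
      have e1 : Prod.mk a ⁻¹' S = ∅ := by
        rw [Set.eq_empty_iff_forall_notMem]
        intro b hb
        obtain ⟨h3, h4, -⟩ := hs (a, b) hb
        exact ha ⟨h3, h4⟩
      rw [e1, measure_empty]
  have hcont : ContinuousOn (fun a => max (Q a - P a) 0) (Icc A0 1) :=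
    (hQ.sub hP).sup continuousOn_const
  have hint : IntegrableOn (fun a => max (Q a - P a) 0) (Icc A0 1) volume :=
    hcont.integrableOn_compact isCompact_Icc
  have hnn : 0 ≤ᵐ[volume.restrict (Icc A0 1)] fun a => max (Q a - P a) 0 :=
    Filter.Eventually.of_forall fun a => le_max_right _ _
  have hvol : volume S = ENNReal.ofReal (∫ a in Icc A0 1, max (Q a - P a) 0) := by
    rw [Measure.volume_eq_prod, Measure.prod_apply hS, lintegral_congr hfib,
      lintegral_indicator measurableSet_Icc, ofReal_integral_eq_lintegral_ofReal hint hnn]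
  have hnn' : 0 ≤ ∫ a in Icc A0 1, max (Q a - P a) 0 :=
    integral_nonneg_of_ae hnn
  rw [Measure.real, hvol, ENNReal.toReal_ofReal hnn', integral_Icc_eq_integral_Ioc,
    intervalIntegral.integral_of_le h1]

variable {Γ : Subgroup SL2} {Λ : Set ℂ} {K : Subfield ℝ} {lam : ℝ} (D : Cusps Γ Λ K lam)

namespace Cusps

/-- The set of conditions for a fixed `a`. PROOF. With `σ w = w.re / w.im`: `a w.re + b w.im = w.im (a σ w + b)`,
`w.im > 0`; the last condition gives `1 / (x a) ≤ a σ w + b`, and so the first one. -/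
theorem mem_SS {j : Fin D.m} {w : ℂ} (hw : 0 < w.im) {x : ℝ} (hx : 0 < x) (q : ℝ × ℝ) :
    q ∈ D.SS j w x ↔ (0 < q.1 ∧ q.1 ≤ 1 ∧ 0 ≤ q.2 ∧ q.2 < q.1 * D.a j) ∧
      1 / (x * q.1) ≤ q.1 * (w.re / w.im) + q.2 ∧ q.1 * (w.re / w.im) + q.2 ≤ 1 / w.im := by
  have hw' : w.im ≠ 0 := hw.ne'
  have e : q.1 * w.re + q.2 * w.im = w.im * (q.1 * (w.re / w.im) + q.2) := by
    field_simp
  constructor
  · rintro ⟨hE, h1, h2, h3⟩
    refine ⟨hE, ?_, ?_⟩
    · have hq : 0 < q.1 := hE.1
      rw [div_le_iff₀ (mul_pos hx hq)]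
      rw [e] at h3
      have h4 : w.im * 1 ≤ w.im * ((q.1 * (w.re / w.im) + q.2) * (x * q.1)) := by
        linarith
      exact le_of_mul_le_mul_left h4 hw
    · rw [le_div_iff₀ hw]
      rw [e] at h2
      linarith
  · rintro ⟨hE, h1, h2⟩
    have hq : 0 < q.1 := hE.1
    rw [div_le_iff₀ (mul_pos hx hq)] at h1
    rw [le_div_iff₀ hw] at h2
    have ht : 0 < q.1 * (w.re / w.im) + q.2 := by
      have h5 : 0 < (q.1 * (w.re / w.im) + q.2) * (x * q.1) := lt_of_lt_of_le one_pos h1
      exact (mul_pos_iff_of_pos_right (mul_pos hx hq)).1 h5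
    refine ⟨hE, ?_, ?_, ?_⟩
    · rw [e]; exact mul_pos hw ht
    · rw [e]; linarith
    · rw [e]
      have h4 : w.im * 1 ≤ w.im * ((q.1 * (w.re / w.im) + q.2) * (x * q.1)) :=
        mul_le_mul_of_nonneg_left h1 hw.le
      linarith

end Cusps

end H37abf
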