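import Pool.Agent.H.MP_abf1f1_an.DelLoc
import Pool.Agent.H.MP_abf1f1_an.DelNear2
import Pool.Agent.H.MP_abf1f1_an.DelShare

/-! MP_abf1f1_an, module A: all holonomies are sums of chords of Delaunay discs. -/

set_option autoImplicit false

open scoped Topology
open Set Filter Metric

namespace H37abf

variable {X : Type} [TopologicalSpace X] [T2Space X] [CompactSpace X] {Φ : Flat X}

/-- PROOF. Two Delaunay discs of the same point share a point `s₀` (`Del.share`), and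
`s' - s = (s' - s₀) + (s₀ - s)`. -/
theorem Flat.del_congr {M : AddSubgroup ℂ} (hM : ∀ x, x ∉ Φ.Z → ∀ y r, Φ.Del x y r →
    ∀ s ∈ Φ.S x y r, ∀ s' ∈ Φ.S x y r, s' - s ∈ M) {x : X} (hx : x ∉ Φ.Z) {y y' : ℂ} {r r' : ℝ}
    (h : Φ.Del x y r) (h' : Φ.Del x y' r') {s s' : ℂ} (hs : s ∈ Φ.S x y r)
    (hs' : s' ∈ Φ.S x y' r') : s' - s ∈ M := by
  obtain ⟨s₀, ⟨h1, h2⟩, -⟩ := Flat.Del.share hx h h'
  have h3 := hM x hx y r h s hs s₀ h1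
  have h4 := hM x hx y' r' h' s₀ h2 s' hs'
  have h5 := M.add_mem h4 h3
  have h6 : s' - s₀ + (s₀ - s) = s' - s := by ring
  rwa [h6] at h5

/-- Delaunay discs exist and have a point. -/
theorem Gen_exists {x : X} (hx : x ∉ Φ.Z) : ∃ y r, Φ.Del x y r ∧ ∃ s, s ∈ Φ.S x y r := by
  obtain ⟨y, r, h⟩ := Flat.exists_del hx
  obtain ⟨s₀, ⟨h1, -⟩, -⟩ := Flat.Del.share hx h h
  exact ⟨y, r, h, s₀, h1⟩

/-- The filter of times near an end point, and the behaviour of the Delaunay discs there. -/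
theorem Gen_end {γ : ℝ → X} {v : ℂ} (hγ : Φ.Str γ v 0 1) (hI : ∀ t ∈ Ioo (0 : ℝ) 1, γ t ∉ Φ.Z)
    {a : ℝ} (ha : a ∈ Icc (0 : ℝ) 1) (hp : γ a ∈ Φ.Z) [(𝓝[Ioo (0 : ℝ) 1] a).NeBot] :
    ∃ t ∈ Ioo (0 : ℝ) 1, ∀ y r, Φ.Del (γ t) y r → ((a - t : ℝ) : ℂ) * v ∈ Φ.S (γ t) y r := by
  obtain ⟨F, hF⟩ := Φ.ex (γ a)
  have hle : 𝓝[Ioo (0 : ℝ) 1] a ≤ 𝓝[Icc (0 : ℝ) 1] a := nhdsWithin_mono a Ioo_subset_Icc_self
  have h1 : Tendsto γ (𝓝[Ioo (0 : ℝ) 1] a) (𝓝[≠] (γ a)) := by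
    refine tendsto_nhdsWithin_iff.2 ⟨(hγ.cont a ha).mono_left hle, ?_⟩
    filter_upwards [self_mem_nhdsWithin] with t ht h
    exact hI t ht (by rw [show γ t = γ a from h]; exact hp)
  have h2 := h1.eventually (Flat.del_near hp hF)
  have h3 := (hγ.str a ha F hF).filter_mono hle
  obtain ⟨t, h4, h5, h6⟩ := (h2.and (h3.and self_mem_nhdsWithin)).exists
  refine ⟨t, h6, fun y r h => ?_⟩
  have h7 := h4 y r h
  have h8 : F (γ a) - F (γ t) = ((a - t : ℝ) : ℂ) * v := by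
    have : F (γ a) - F (γ t) = -(F (γ t) - F (γ a)) := by ring
    rw [this, h5]
    push_cast
    ring
  rwa [h8] at h7

/-- Step near an interior time. -/
theorem Gen_near {M : AddSubgroup ℂ} (hM : ∀ x, x ∉ Φ.Z → ∀ y r, Φ.Del x y r →
    ∀ s ∈ Φ.S x y r, ∀ s' ∈ Φ.S x y r, s' - s ∈ M)
    {γ : ℝ → X} {v : ℂ} (hγ : Φ.Str γ v 0 1) (hI : ∀ t ∈ Ioo (0 : ℝ) 1, γ t ∉ Φ.Z)
    {t₀ : ℝ} (ht₀ : t₀ ∈ Ioo (0 : ℝ) 1) :
    ∀ᶠ t in 𝓝[Ioo (0 : ℝ) 1] t₀, ∀ y r, Φ.Del (γ t₀) y r → ∀ s ∈ Φ.S (γ t₀) y r,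
      ∀ y' r', Φ.Del (γ t) y' r' → ∀ s' ∈ Φ.S (γ t) y' r',
        ((t : ℂ) * v + s') - ((t₀ : ℂ) * v + s) ∈ M := by
  obtain ⟨F, hF⟩ := Φ.ex (γ t₀)
  have ht₁ : t₀ ∈ Icc (0 : ℝ) 1 := Ioo_subset_Icc_self ht₀
  have hle : 𝓝[Ioo (0 : ℝ) 1] t₀ ≤ 𝓝[Icc (0 : ℝ) 1] t₀ := nhdsWithin_mono t₀ Ioo_subset_Icc_self
  have h1 : Tendsto γ (𝓝[Ioo (0 : ℝ) 1] t₀) (𝓝 (γ t₀)) := (hγ.cont t₀ ht₁).mono_left hle
  have h2 := h1.eventually (Flat.del_loc (hI t₀ ht₀) hF)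
  have h3 := (hγ.str t₀ ht₁ F hF).filter_mono hle
  filter_upwards [h2, h3] with t h4 h5 y r h s hs y' r' h' s' hs'
  obtain ⟨y'', r'', h6, h7⟩ := h4 y' r' h'
  have h8 := h7 s' hs'
  rw [h5] at h8
  have h9 := Flat.del_congr hM (hI t₀ ht₀) h h6 hs h8
  have h10 : s' + ((t - t₀ : ℝ) : ℂ) * v - s = ((t : ℂ) * v + s') - ((t₀ : ℂ) * v + s) := by
    push_cast
    ring
  rwa [h10] at h9

/-- PROOF. Let `γ` be the path of `v`. For `t ∈ Ioo 0 1`, `γ t ∉ Z`; let `R t u` say: `u ∈ ℂ` and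
`u - (t v + s) ∈ M` for some (equivalently all, `del_congr`) point `s` of a Delaunay disc of `γ t`. For
every `t₀ ∈ Ioo 0 1`, for `t` near `t₀`: `F (γ t) - F (γ t₀) = (t - t₀) v`, and by `del_loc` a point `s` of
a Delaunay disc of `γ t` gives the point `s + (t - t₀) v` of a Delaunay disc of `γ t₀`, so
`R t u ↔ R t₀ u`. As `Ioo 0 1` is preconnected, `R t u` does not depend on `t`. For `t → 0`: `γ t → p = γ 0`,
`γ t ≠ p`, `F p - F (γ t) = - t v` is a point of the Delaunay discs (`del_near`), so `R t 0`. For `t → 1`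
similarly `(1 - t) v` is a point, so `R t v`. So `v - 0 ∈ M`. -/
theorem Flat.lam_gen {M : AddSubgroup ℂ} (hM : ∀ x, x ∉ Φ.Z → ∀ y r, Φ.Del x y r →
    ∀ s ∈ Φ.S x y r, ∀ s' ∈ Φ.S x y r, s' - s ∈ M) : ∀ v ∈ Φ.Lam, v ∈ M := by
  rintro v ⟨γ, hγ, h0, h1, hI⟩
  have : (𝓝[Ioo (0 : ℝ) 1] (0 : ℝ)).NeBot := by
    rw [nhdsWithin_Ioo_eq_nhdsGT one_pos]
    infer_instance
  have : (𝓝[Ioo (0 : ℝ) 1] (1 : ℝ)).NeBot := by
    rw [nhdsWithin_Ioo_eq_nhdsLT one_pos]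
    infer_instance
  obtain ⟨a, ha, ha'⟩ := Gen_end hγ hI (left_mem_Icc.2 zero_le_one) h0
  obtain ⟨b, hb, hb'⟩ := Gen_end hγ hI (right_mem_Icc.2 zero_le_one) h1
  have key := (isPreconnected_Ioo (a := (0 : ℝ)) (b := 1)).induction₂
    (fun t₀ t => ∀ y r, Φ.Del (γ t₀) y r → ∀ s ∈ Φ.S (γ t₀) y r,
      ∀ y' r', Φ.Del (γ t) y' r' → ∀ s' ∈ Φ.S (γ t) y' r',
        ((t : ℂ) * v + s') - ((t₀ : ℂ) * v + s) ∈ M)
    (fun t₀ ht₀ => Gen_near hM hγ hI ht₀)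
    (fun t₁ t₂ t₃ _ h2 _ h12 h23 y r h s hs y' r' h' s' hs' => by
      obtain ⟨y'', r'', h4, s'', h5⟩ := Gen_exists (hI t₂ h2)
      have h6 := h12 y r h s hs y'' r'' h4 s'' h5
      have h7 := h23 y'' r'' h4 s'' h5 y' r' h' s' hs'
      have h8 := M.add_mem h7 h6
      have h9 : ((t₃ : ℂ) * v + s') - ((t₂ : ℂ) * v + s'') + (((t₂ : ℂ) * v + s'') -
        ((t₁ : ℂ) * v + s)) = ((t₃ : ℂ) * v + s') - ((t₁ : ℂ) * v + s) := by ring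
      rwa [h9] at h8)
    (fun t₁ t₂ _ _ h12 y r h s hs y' r' h' s' hs' => by
      have h3 := M.neg_mem (h12 y' r' h' s' hs' y r h s hs)
      have h4 : -(((t₂ : ℂ) * v + s) - ((t₁ : ℂ) * v + s')) =
        ((t₁ : ℂ) * v + s') - ((t₂ : ℂ) * v + s) := by ring
      rwa [h4] at h3) ha hb
  obtain ⟨y, r, h3, -⟩ := Gen_exists (hI a ha)
  obtain ⟨y', r', h4, -⟩ := Gen_exists (hI b hb)
  have h5 := key y r h3 _ (ha' y r h3) y' r' h4 _ (hb' y' r' h4)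
  have h6 : ((b : ℂ) * v + ((1 - b : ℝ) : ℂ) * v) - ((a : ℂ) * v + ((0 - a : ℝ) : ℂ) * v) = v := by
    push_cast
    ring
  rwa [h6] at h5

end H37abf
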