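import Pool.Agent.H.MP_abf1f1_an.Gen

/-! MP_abf1f1_an, module A: rationality of the holonomies, and two independent holonomies. -/

set_option autoImplicit false

open scoped Topology
open Set Filter Metric

namespace H37abf

variable {X : Type} [TopologicalSpace X] [T2Space X] [CompactSpace X] {Φ : Flat X}

/-- The vectors `v` with `t L v ∈ K ^ 2`. -/
def ratGrp (K : Subfield ℝ) (L : ℂ ≃ₗ[ℝ] (ℝ × ℝ)) (t : ℝ) : AddSubgroup ℂ where
  carrier := {v | t * (L v).1 ∈ K ∧ t * (L v).2 ∈ K}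
  zero_mem' := by simp [K.zero_mem]
  add_mem' := by
    rintro a b ⟨h1, h2⟩ ⟨h3, h4⟩
    simp only [map_add, Prod.fst_add, Prod.snd_add, mem_setOf_eq, mul_add]
    exact ⟨K.add_mem h1 h3, K.add_mem h2 h4⟩
  neg_mem' := by
    rintro a ⟨h1, h2⟩
    simp only [map_neg, Prod.fst_neg, Prod.snd_neg, mem_setOf_eq, mul_neg]
    exact ⟨K.neg_mem h1, K.neg_mem h2⟩

/-- Changing the scalar by an element of `K`. -/
theorem Rat_le {K : Subfield ℝ} {L : ℂ ≃ₗ[ℝ] (ℝ × ℝ)} {t t' : ℝ} (ht : t ≠ 0)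
    (h : t' / t ∈ K) : ratGrp K L t ≤ ratGrp K L t' := by
  rintro w ⟨h1, h2⟩
  have h3 := K.mul_mem h h1
  have h4 := K.mul_mem h h2
  rw [← mul_assoc, div_mul_cancel₀ _ ht] at h3 h4
  exact ⟨h3, h4⟩

/-- PROOF. If `v ≠ 0` then one of the coordinates `c` of `L v` is nonzero, and `t c, t' c ∈ K` give
`t' / t ∈ K`. -/
theorem ratGrp_eq {K : Subfield ℝ} {L : ℂ ≃ₗ[ℝ] (ℝ × ℝ)} {t t' : ℝ} (ht : t ≠ 0) (ht' : t' ≠ 0)
    {v : ℂ} (hv : v ≠ 0) (h : v ∈ ratGrp K L t) (h' : v ∈ ratGrp K L t') :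
    ratGrp K L t = ratGrp K L t' := by
  have hq : t' / t ∈ K := by
    have hL0 : L v ≠ 0 := fun h0 => hv (L.map_eq_zero_iff.1 h0)
    obtain ⟨h1, h2⟩ := h
    obtain ⟨h3, h4⟩ := h'
    by_cases hc : (L v).1 = 0
    · have hd : (L v).2 ≠ 0 := fun hd => hL0 (Prod.ext hc hd)
      have h5 := K.div_mem h4 h2
      rwa [mul_div_mul_right _ _ hd] at h5
    · have h5 := K.div_mem h3 h1
      rwa [mul_div_mul_right _ _ hc] at h5
  exact le_antisymm (Rat_le ht hq) (Rat_le ht' (by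
    have h5 := K.inv_mem hq
    rwa [inv_div] at h5))

/-- The determinant step. -/
theorem Rat_det {K : Subfield ℝ} {a₁ a₂ b₁ b₂ t t' u : ℝ} (ht : t ≠ 0) (ht' : t' ≠ 0)
    (hu : u ≠ 0) (hD : a₁ * b₂ - a₂ * b₁ ≠ 0) (h1 : t * a₁ ∈ K) (h2 : t * a₂ ∈ K)
    (h3 : t' * b₁ ∈ K) (h4 : t' * b₂ ∈ K) (h5 : u * (a₁ + b₁) ∈ K) (h6 : u * (a₂ + b₂) ∈ K) :
    t / u ∈ K := by
  have h7 : (t * a₁) * (t' * b₂) - (t * a₂) * (t' * b₁) ∈ K :=
    K.sub_mem (K.mul_mem h1 h4) (K.mul_mem h2 h3)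
  have h8 : (u * (a₁ + b₁)) * (t' * b₂) - (u * (a₂ + b₂)) * (t' * b₁) ∈ K :=
    K.sub_mem (K.mul_mem h5 h4) (K.mul_mem h6 h3)
  have h9 := K.div_mem h7 h8
  have h10 : ((t * a₁) * (t' * b₂) - (t * a₂) * (t' * b₁)) /
      ((u * (a₁ + b₁)) * (t' * b₂) - (u * (a₂ + b₂)) * (t' * b₁)) = t / u := by
    have h11 : (t * a₁) * (t' * b₂) - (t * a₂) * (t' * b₁) =
        t * (t' * (a₁ * b₂ - a₂ * b₁)) := by ring
    have h12 : (u * (a₁ + b₁)) * (t' * b₂) - (u * (a₂ + b₂)) * (t' * b₁) =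
        u * (t' * (a₁ * b₂ - a₂ * b₁)) := by ring
    rw [h11, h12, mul_div_mul_right _ _ (mul_ne_zero ht' hD)]
  rwa [h10] at h9

/-- A point of a circle on the line through two points of the circle is one of them. -/
theorem Rat_circle {y s a : ℂ} {r m : ℝ} (h0 : s ∈ sphere y r) (h1 : s + a ∈ sphere y r)
    (h2 : s + m * a ∈ sphere y r) (ha : a ≠ 0) : m = 0 ∨ m = 1 := by
  rw [mem_sphere_iff_norm] at h0 h1 h2
  have e0 : Complex.normSq (s - y) = r ^ 2 := by rw [Complex.normSq_eq_norm_sq, h0]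
  have e1 : Complex.normSq (s + a - y) = r ^ 2 := by rw [Complex.normSq_eq_norm_sq, h1]
  have e2 : Complex.normSq (s + m * a - y) = r ^ 2 := by rw [Complex.normSq_eq_norm_sq, h2]
  rw [Complex.normSq_apply] at e0 e1 e2
  simp only [Complex.add_re, Complex.sub_re, Complex.add_im, Complex.sub_im, Complex.mul_re,
    Complex.mul_im, Complex.ofReal_re, Complex.ofReal_im, zero_mul, sub_zero, add_zero] at e0 e1 e2
  have hn : 0 < Complex.normSq a := Complex.normSq_pos.2 ha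
  rw [Complex.normSq_apply] at hn
  have h3 : m * (m - 1) * (a.re * a.re + a.im * a.im) = 0 := by
    linear_combination e2 - m * e1 + (m - 1) * e0
  have h4 : m * (m - 1) = 0 := by
    rcases mul_eq_zero.1 h3 with h | h
    · exact h
    · exact absurd h hn.ne'
  rcases mul_eq_zero.1 h4 with h | h
  · exact Or.inl h
  · exact Or.inr (by linarith)

/-- Three distinct points of a circle give independent vectors. -/
theorem Rat_indep (L : ℂ ≃ₗ[ℝ] (ℝ × ℝ)) {y s s' s'' : ℂ} {r : ℝ} (h0 : s ∈ sphere y r)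
    (h1 : s' ∈ sphere y r) (h2 : s'' ∈ sphere y r) (n1 : s' ≠ s) (n2 : s'' ≠ s) (n3 : s'' ≠ s') :
    (L (s' - s)).1 * (L (s'' - s')).2 - (L (s' - s)).2 * (L (s'' - s')).1 ≠ 0 := by
  intro hD
  have ha : s' - s ≠ 0 := sub_ne_zero.2 n1
  have hLa : L (s' - s) ≠ 0 := fun h => ha (L.map_eq_zero_iff.1 h)
  obtain ⟨m, hm⟩ : ∃ m : ℝ, L (s'' - s') = m • L (s' - s) := by
    by_cases hc : (L (s' - s)).1 = 0
    · have hd : (L (s' - s)).2 ≠ 0 := fun hd => hLa (Prod.ext hc hd)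
      refine ⟨(L (s'' - s')).2 / (L (s' - s)).2, Prod.ext ?_ ?_⟩
      · have h3 : (L (s' - s)).2 * (L (s'' - s')).1 = 0 := by
          rw [hc] at hD
          linarith
        have h4 : (L (s'' - s')).1 = 0 := (mul_eq_zero.1 h3).resolve_left hd
        rw [Prod.smul_fst, smul_eq_mul, hc, mul_zero, h4]
      · rw [Prod.smul_snd, smul_eq_mul, div_mul_cancel₀ _ hd]
    · refine ⟨(L (s'' - s')).1 / (L (s' - s)).1, Prod.ext ?_ ?_⟩
      · rw [Prod.smul_fst, smul_eq_mul, div_mul_cancel₀ _ hc]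
      · rw [Prod.smul_snd, smul_eq_mul, div_mul_eq_mul_div, eq_div_iff hc]
        linarith
  have h3 : s'' - s' = (m : ℂ) * (s' - s) := by
    have h4 : L (s'' - s') = L (m • (s' - s)) := by rw [hm, map_smul]
    have h5 := L.injective h4
    rwa [Complex.real_smul] at h5
  have h4 : s + ((m + 1 : ℝ) : ℂ) * (s' - s) = s'' := by
    push_cast
    linear_combination -h3
  have h5 : s + (s' - s) ∈ sphere y r := by rwa [add_sub_cancel]
  rcases Rat_circle h0 h5 (by rwa [h4]) ha with h6 | h6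
  · rw [h6] at h4
    simp only [Complex.ofReal_zero, zero_mul, add_zero] at h4
    exact n2 h4.symm
  · rw [h6] at h4
    simp only [Complex.ofReal_one, one_mul, add_sub_cancel] at h4
    exact n3 h4.symm

/-- PROOF. For the chord `s₂ - s₁` take `t` (hypothesis `hL`, `chord`). For a third point `s₃` of the circle
let `a = s₂ - s₁`, `b = s₃ - s₂`, `a + b = s₃ - s₁`, with scalars `t, t', t''`. The points are not collinear,
so `a, b` are independent over `ℝ`; write `L a = k / t`, `L b = k' / t'`, `L (a + b) = k'' / t''` with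
`k, k', k'' ∈ K ^ 2`. The determinant of `L a + L b = L (a + b)` with `k''`: `det(k, k'') / t + det(k', k'') / t' = 0`
with nonzero determinants in `K`, so `t / t' ∈ K`; so `b ∈ ratGrp K L t`, `a + b ∈ ratGrp K L t`. For
general `s, s' ∈ S`: `s' - s` is a difference of such. -/
theorem Flat.Del.rat {K : Subfield ℝ} {L : ℂ ≃ₗ[ℝ] (ℝ × ℝ)}
    (hL : ∀ v ∈ Φ.Lam, ∃ c : ℝ, c ≠ 0 ∧ c * (L v).1 ∈ K ∧ c * (L v).2 ∈ K) {x : X} (hx : x ∉ Φ.Z)
    {y : ℂ} {r : ℝ} (h : Φ.Del x y r) :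
    ∃ t : ℝ, t ≠ 0 ∧ ∀ s ∈ Φ.S x y r, ∀ s' ∈ Φ.S x y r, s' - s ∈ ratGrp K L t := by
  obtain ⟨s₁, ⟨h1, -⟩, s₂, ⟨h2, -⟩, hne⟩ := Flat.Del.share hx h h
  obtain ⟨t, ht, ha1, ha2⟩ := hL _ (Flat.chord hx h.1 h1 h2 hne)
  have key : ∀ s ∈ Φ.S x y r, s - s₁ ∈ ratGrp K L t := by
    intro s hs
    by_cases e1 : s = s₁
    · rw [e1, sub_self]
      exact (ratGrp K L t).zero_mem
    by_cases e2 : s = s₂
    · rw [e2]
      exact ⟨ha1, ha2⟩
    obtain ⟨t', ht', hb1, hb2⟩ := hL _ (Flat.chord hx h.1 h2 hs (Ne.symm e2))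
    obtain ⟨u, hu, hc1, hc2⟩ := hL _ (Flat.chord hx h.1 h1 hs (Ne.symm e1))
    have hD := Rat_indep L h1.2 h2.2 hs.2 (Ne.symm hne) e1 e2
    have hsum : s - s₁ = (s₂ - s₁) + (s - s₂) := by ring
    have hc : L (s - s₁) = L (s₂ - s₁) + L (s - s₂) := by rw [hsum, map_add]
    have hq : t / u ∈ K := by
      refine Rat_det ht ht' hu hD ha1 ha2 hb1 hb2 ?_ ?_
      · have h3 := hc1
        rwa [hc, Prod.fst_add] at h3
      · have h3 := hc2
        rwa [hc, Prod.snd_add] at h3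
    exact Rat_le hu hq ⟨hc1, hc2⟩
  refine ⟨t, ht, fun s hs s' hs' => ?_⟩
  have h3 := (ratGrp K L t).sub_mem (key s' hs') (key s hs)
  rwa [sub_sub_sub_cancel_right] at h3

end H37abf
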