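import Pool.Agent.H.MP_abf1f1_an.Rat

/-! MP_abf1f1_an, module A: rationality of the holonomies, and two independent holonomies. -/

set_option autoImplicit false

open scoped Topology
open Set Filter Metric

namespace H37abf

variable {X : Type} [TopologicalSpace X] [T2Space X] [CompactSpace X] {Φ : Flat X}

/-- One pair of distinct points of one Delaunay disc decides about all Delaunay discs of the point. -/
theorem Rat2_one {K : Subfield ℝ} {L : ℂ ≃ₗ[ℝ] (ℝ × ℝ)}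
    (hL : ∀ v ∈ Φ.Lam, ∃ c : ℝ, c ≠ 0 ∧ c * (L v).1 ∈ K ∧ c * (L v).2 ∈ K) {t : ℝ} (ht : t ≠ 0)
    {x : X} (hx : x ∉ Φ.Z) {y : ℂ} {r : ℝ} (h : Φ.Del x y r) {s s' : ℂ} (hs : s ∈ Φ.S x y r)
    (hs' : s' ∈ Φ.S x y r) (hne : s ≠ s') (hm : s' - s ∈ ratGrp K L t) :
    ∀ y' r', Φ.Del x y' r' → ∀ u ∈ Φ.S x y' r', ∀ u' ∈ Φ.S x y' r', u' - u ∈ ratGrp K L t := by
  intro y' r' h' u hu u' hu'
  obtain ⟨t₁, ht₁, h1⟩ := Flat.Del.rat hL hx h
  obtain ⟨t₂, ht₂, h2⟩ := Flat.Del.rat hL hx h'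
  obtain ⟨a, ⟨ha1, ha2⟩, b, ⟨hb1, hb2⟩, hab⟩ := Flat.Del.share hx h h'
  have e1 : ratGrp K L t = ratGrp K L t₁ :=
    ratGrp_eq ht ht₁ (sub_ne_zero.2 hne.symm) hm (h1 s hs s' hs')
  have e2 : ratGrp K L t₁ = ratGrp K L t₂ :=
    ratGrp_eq ht₁ ht₂ (sub_ne_zero.2 hab.symm) (h1 a ha1 b hb1) (h2 a ha2 b hb2)
  rw [e1, e2]
  exact h2 u hu u' hu'

/-- PROOF. There is a regular point `x₁` (`Φ.zne`, `Φ.nb`, `Φ.iso`) and a Delaunay disc of it with a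
`t` as in `Del.rat`. Let `U` be the set of the `x ∈ Zᶜ` such that all differences of points of all
Delaunay discs of `x` are in `ratGrp K L t`. By `Del.share`, `Del.rat` and `ratGrp_eq` it is the same to
ask this for one Delaunay disc of `x`, or for one nonzero difference of points of one such disc. By `del_loc` (points of
a Delaunay disc of `x'` near `x` are, up to translation, points of a Delaunay disc of `x`) `x ∈ U` iff
`x' ∈ U` for `x'` near `x`. As `Zᶜ` is preconnected and `x₁ ∈ U`, `U = Zᶜ`. Now `lam_gen` with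
`M = ratGrp K L t`. -/
theorem Flat.rat (K : Subfield ℝ) (L : ℂ ≃ₗ[ℝ] (ℝ × ℝ))
    (hL : ∀ v ∈ Φ.Lam, ∃ c : ℝ, c ≠ 0 ∧ c * (L v).1 ∈ K ∧ c * (L v).2 ∈ K) :
    ∃ t : ℝ, t ≠ 0 ∧ ∀ v ∈ Φ.Lam, t * (L v).1 ∈ K ∧ t * (L v).2 ∈ K := by
  classical
  -- a regular point
  obtain ⟨z, hz⟩ := Φ.zne
  obtain ⟨F₀, hF₀⟩ := Φ.ex z
  have := Φ.nb z
  obtain ⟨x₁, -, hx₁⟩ := (Φ.iso z F₀ hF₀).exists
  obtain ⟨y₁, r₁, h₁, -⟩ := Gen_exists hx₁
  obtain ⟨t, ht, hrat⟩ := Flat.Del.rat hL hx₁ h₁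
  refine ⟨t, ht, ?_⟩
  -- the property of a point
  let Q : X → Prop := fun x => ∀ y r, Φ.Del x y r → ∀ s ∈ Φ.S x y r, ∀ s' ∈ Φ.S x y r,
    s' - s ∈ ratGrp K L t
  have hQ₁ : Q x₁ := by
    obtain ⟨a, ⟨ha, -⟩, b, ⟨hb, -⟩, hab⟩ := Flat.Del.share hx₁ h₁ h₁
    exact Rat2_one hL ht hx₁ h₁ ha hb hab (hrat a ha b hb)
  have hloc : ∀ x ∈ Φ.Zᶜ, ∀ᶠ x' in 𝓝[Φ.Zᶜ] x, (Q x ↔ Q x') := by
    intro x hx
    obtain ⟨F, hF⟩ := Φ.ex x
    filter_upwards [(Flat.del_loc hx hF).filter_mono nhdsWithin_le_nhds, self_mem_nhdsWithin]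
      with x' h2 hx'
    constructor
    · intro hq y' r' h' s hs s' hs'
      obtain ⟨y, r, h3, h4⟩ := h2 y' r' h'
      have h5 := hq y r h3 _ (h4 s hs) _ (h4 s' hs')
      rwa [add_sub_add_right_eq_sub] at h5
    · intro hq
      obtain ⟨y', r', h', -⟩ := Gen_exists hx'
      obtain ⟨a, ⟨ha, -⟩, b, ⟨hb, -⟩, hab⟩ := Flat.Del.share hx' h' h'
      obtain ⟨y, r, h3, h4⟩ := h2 y' r' h'
      have h5 := hq y' r' h' a ha b hb
      refine Rat2_one hL ht hx h3 (h4 a ha) (h4 b hb) (fun e => hab (add_right_cancel e)) ?_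
      rwa [add_sub_add_right_eq_sub]
  have hall : ∀ x, x ∉ Φ.Z → Q x := by
    intro x hx
    have key := Φ.conn.induction₂ (fun a b => (Q a ↔ Q b)) hloc
      (fun a b c _ _ _ h1 h2 => h1.trans h2) (fun a b _ _ h => h.symm)
      (show x₁ ∈ Φ.Zᶜ from hx₁) (show x ∈ Φ.Zᶜ from hx)
    exact key.1 hQ₁
  intro v hv
  exact Flat.lam_gen (M := ratGrp K L t) (fun x hx y r h s hs s' hs' => hall x hx y r h s hs s' hs')
    v hv

end H37abf
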