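import Pool.Agent.H.MP_abf1f1_an.Rat2

/-! MP_abf1f1_an, module A: rationality of the holonomies, and two independent holonomies. -/

set_option autoImplicit false

open scoped Topology
open Set Filter Metric

namespace H37abf

variable {X : Type} [TopologicalSpace X] [T2Space X] [CompactSpace X] {Φ : Flat X}

/-- If all holonomies are parallel to `d` then the points of the Delaunay discs are on the line
through `0` parallel to `d`: the differences of two of them are holonomies and `0` is in the convex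
hull. -/
theorem Span_det {d : ℂ} (hd : ∀ v ∈ Φ.Lam, d.re * v.im - d.im * v.re = 0) {x : X}
    (hx : x ∉ Φ.Z) {y : ℂ} {r : ℝ} (h : Φ.Del x y r) :
    ∀ s ∈ Φ.S x y r, d.re * s.im - d.im * s.re = 0 := by
  intro s hs
  have hconv : Convex ℝ {z : ℂ | d.re * z.im - d.im * z.re = d.re * s.im - d.im * s.re} := by
    intro a ha b hb p q _ _ hpq
    simp only [mem_setOf_eq] at ha hb ⊢
    simp only [Complex.add_re, Complex.add_im, Complex.real_smul, Complex.mul_re, Complex.mul_im,
      Complex.ofReal_re, Complex.ofReal_im, zero_mul, sub_zero, add_zero]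
    linear_combination p * ha + q * hb + (d.re * s.im - d.im * s.re) * hpq
  have hsub : Φ.S x y r ⊆ {z : ℂ | d.re * z.im - d.im * z.re = d.re * s.im - d.im * s.re} := by
    intro s₁ hs₁
    rw [mem_setOf_eq]
    by_cases hne : s = s₁
    · rw [hne]
    · have h1 := hd _ (Flat.chord hx h.1 hs hs₁ hne)
      rw [Complex.sub_re, Complex.sub_im] at h1
      linear_combination h1
  have h0 := convexHull_min hsub hconv (Flat.Del.conv hx h)
  rw [mem_setOf_eq] at h0
  simpa using h0.symm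

/-- There are two holonomies which are not parallel: otherwise, for a regular point `x` and a nearby
point `x'` which is obtained from `x` by a short straight path transversal to the common direction,
the points of a Delaunay disc of `x'` and their translates would be on the same line. -/
theorem Flat.span (Φ : Flat X) :
    ∃ v ∈ Φ.Lam, ∃ w ∈ Φ.Lam, v.re * w.im - v.im * w.re ≠ 0 := by
  by_contra hcon
  push Not at hcon
  obtain ⟨p, _⟩ := Φ.zne
  obtain ⟨F₀, hF₀⟩ := Φ.ex p
  haveI := Φ.nb p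
  obtain ⟨x, _, hx⟩ := (Φ.iso p F₀ hF₀).exists
  obtain ⟨y₀, r₀, hdel₀⟩ := Flat.exists_del (Φ := Φ) hx
  obtain ⟨s, hs, s', hs', hne⟩ := Flat.Del.share hx hdel₀ hdel₀
  have hdL : s' - s ∈ Φ.Lam := Flat.chord hx hdel₀.1 hs.1 hs'.1 hne
  have hd0 : s' - s ≠ 0 := sub_ne_zero.2 (Ne.symm hne)
  generalize s' - s = d at hdL hd0
  have hd : ∀ v ∈ Φ.Lam, d.re * v.im - d.im * v.re = 0 := fun v hv => hcon d hdL v hv
  obtain ⟨F, hF⟩ := Φ.ex x
  obtain ⟨ρ, hρ, E, hE0, hE1, hE2, _⟩ := Flat.exists_ball hx hF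
  have hloc := Flat.del_loc hx hF
  have hEc : Tendsto E (𝓝 0) (𝓝 x) := by
    have h1 := (hE1 0 (mem_ball_self hρ)).1
    rw [ContinuousAt, hE0] at h1
    exact h1
  have hcurve : Tendsto (fun t : ℝ => (t : ℂ) * (Complex.I * d)) (𝓝 0) (𝓝 0) := by
    have h1 : Continuous (fun t : ℝ => (t : ℂ) * (Complex.I * d)) := by fun_prop
    have h2 := h1.tendsto 0
    simpa using h2
  have hev1 : ∀ᶠ t : ℝ in 𝓝 0, (t : ℂ) * (Complex.I * d) ∈ ball (0 : ℂ) ρ :=
    hcurve.eventually (ball_mem_nhds 0 hρ)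
  have hev2 := (hEc.comp hcurve).eventually hloc
  have hev : ∀ᶠ t : ℝ in 𝓝[>] 0, (t : ℂ) * (Complex.I * d) ∈ ball (0 : ℂ) ρ ∧
      (∀ y' r', Φ.Del (E ((t : ℂ) * (Complex.I * d))) y' r' →
        ∃ y r, Φ.Del x y r ∧ ∀ s ∈ Φ.S (E ((t : ℂ) * (Complex.I * d))) y' r',
          s + (F (E ((t : ℂ) * (Complex.I * d))) - F x) ∈ Φ.S x y r) ∧ 0 < t := by
    refine ((hev1.and hev2).filter_mono nhdsWithin_le_nhds).and self_mem_nhdsWithin |>.mono ?_
    rintro t ⟨⟨h1, h2⟩, h3⟩
    exact ⟨h1, h2, h3⟩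
  obtain ⟨t, ht1, ht2, ht3⟩ := hev.exists
  have hu := (hE1 _ ht1).2.2
  have hreg : E ((t : ℂ) * (Complex.I * d)) ∉ Φ.Z := by
    obtain ⟨γ, _, _, hγ1, hγ⟩ := hE2 0 (mem_ball_self hρ) _ ht1
    rw [← hγ1]
    exact hγ 1 ⟨zero_le_one, le_refl 1⟩
  rw [hu, add_sub_cancel_left] at ht2
  obtain ⟨y', r', hdel'⟩ := Flat.exists_del (Φ := Φ) hreg
  obtain ⟨y, r, hdel, hsh⟩ := ht2 y' r' hdel'
  obtain ⟨s₁, hs₁, _, _, _⟩ := Flat.Del.share hreg hdel' hdel'
  have e1 := Span_det hd hreg hdel' s₁ hs₁.1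
  have e2 := Span_det hd hx hdel _ (hsh s₁ hs₁.1)
  simp only [Complex.add_re, Complex.add_im, Complex.mul_re, Complex.mul_im, Complex.ofReal_re,
    Complex.ofReal_im, Complex.I_re, Complex.I_im] at e2
  have e3 : t * (d.re * d.re + d.im * d.im) = 0 := by linear_combination e2 - e1
  rcases mul_eq_zero.1 e3 with h | h
  · exact ht3.ne' h
  · apply hd0
    have h1 : d.re = 0 := by nlinarith [mul_self_nonneg d.re, mul_self_nonneg d.im]
    have h2 : d.im = 0 := by nlinarith [mul_self_nonneg d.re, mul_self_nonneg d.im]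
    exact Complex.ext h1 h2

end H37abf
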