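import Pool.Agent.H.MP_abf1f1_an.FlatDef

/-! MP_abf1f1_an, module A: elementary facts on straight paths. -/

set_option autoImplicit false

open scoped Topology
open Set Filter

namespace H37abf

variable {X : Type} [TopologicalSpace X] {Φ : Flat X} {γ γ' : ℝ → X} {v : ℂ} {a b c : ℝ}

theorem Flat.P.cont {x : X} {F : X → ℂ} (h : Φ.P x F) : ContinuousAt F x :=
  (Φ.ev x F h).self_of_nhds.2

theorem Flat.Str.mono (h : Φ.Str γ v a b) {a' b' : ℝ} (ha : a ≤ a') (hb : b' ≤ b) :
    Φ.Str γ v a' b' where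
  cont := h.cont.mono (Icc_subset_Icc ha hb)
  str := fun t ht F hF =>
    (h.str t (Icc_subset_Icc ha hb ht) F hF).filter_mono (nhdsWithin_mono t (Icc_subset_Icc ha hb))

theorem Flat.Str.congr (h : Φ.Str γ v a b) (e : EqOn γ' γ (Icc a b)) : Φ.Str γ' v a b where
  cont := h.cont.congr e
  str := by
    intro t ht F hF
    rw [e ht] at hF ⊢
    filter_upwards [h.str t ht F hF, self_mem_nhdsWithin] with s hs hs'
    rw [e hs']
    exact hs

/-- A function with `g s - g t = (s - t) v` for `s` near `t` satisfies this for all `s`, `t`, as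
`s ↦ g s - s v` is locally constant on the preconnected set `Icc a b`. -/
theorem affine_of_near {g : ℝ → ℂ}
    (h : ∀ t ∈ Icc a b, ∀ᶠ s in 𝓝[Icc a b] t, g s - g t = (s - t : ℝ) * v) :
    ∀ s ∈ Icc a b, ∀ t ∈ Icc a b, g s - g t = (s - t : ℝ) * v := by
  intro s hs t ht
  have hl : IsLocallyConstant (fun u : Icc a b => g u - ((u : ℝ) : ℂ) * v) := by
    rw [IsLocallyConstant.iff_eventually_eq]
    intro u
    rw [eventually_nhds_subtype_iff (Icc a b) u
      (fun w : ℝ => g w - (w : ℂ) * v = g u - ((u : ℝ) : ℂ) * v)]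
    filter_upwards [h u u.2] with w hw
    push_cast at hw
    linear_combination hw
  have : PreconnectedSpace (Icc a b) := Subtype.preconnectedSpace isPreconnected_Icc
  have := hl.apply_eq_of_preconnectedSpace ⟨s, hs⟩ ⟨t, ht⟩
  simp only at this
  push_cast
  linear_combination this

theorem Flat.Str.affine (h : Φ.Str γ v a b) {F : X → ℂ} (hF : ∀ t ∈ Icc a b, Φ.P (γ t) F) :
    ∀ s ∈ Icc a b, ∀ t ∈ Icc a b, F (γ s) - F (γ t) = (s - t : ℝ) * v :=
  affine_of_near fun t ht => h.str t ht F (hF t ht)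

/-- A path along which one primitive is affine is straight. -/
theorem Flat.Str.of_prim {F : X → ℂ} (hc : ContinuousOn γ (Icc a b))
    (hF : ∀ t ∈ Icc a b, Φ.P (γ t) F)
    (h : ∀ t ∈ Icc a b, F (γ t) - F (γ a) = (t - a : ℝ) * v) : Φ.Str γ v a b where
  cont := hc
  str := by
    intro t ht G hG
    have h1 := Φ.sub (γ t) G F hG (hF t ht)
    filter_upwards [(hc t ht).eventually h1, self_mem_nhdsWithin] with s hs hs'
    have h2 := h s hs'
    have h3 := h t ht
    push_cast at h2 h3 ⊢
    linear_combination hs + h2 - h3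

theorem Flat.Str.reparam (h : Φ.Str γ v a b) {k d a' b' : ℝ} (hk : 0 < k) (ha : k * a' + d = a)
    (hb : k * b' + d = b) : Φ.Str (fun t => γ (k * t + d)) (k * v) a' b' := by
  have hm : MapsTo (fun t : ℝ => k * t + d) (Icc a' b') (Icc a b) := by
    intro t ht
    have h1 := mul_le_mul_of_nonneg_left ht.1 hk.le
    have h2 := mul_le_mul_of_nonneg_left ht.2 hk.le
    exact ⟨by simp only; linarith, by simp only; linarith⟩
  have hcont : Continuous (fun t : ℝ => k * t + d) := by fun_prop
  refine ⟨h.cont.comp hcont.continuousOn hm, ?_⟩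
  intro t ht F hF
  have h1 := h.str (k * t + d) (hm ht) F hF
  have h2 : Tendsto (fun t : ℝ => k * t + d) (𝓝[Icc a' b'] t) (𝓝[Icc a b] (k * t + d)) :=
    hcont.continuousWithinAt.tendsto_nhdsWithin hm
  filter_upwards [h2.eventually h1] with s hs
  push_cast at hs ⊢
  linear_combination hs

theorem Flat.Str.rev (h : Φ.Str γ v a b) : Φ.Str (fun t => γ (a + b - t)) (-v) a b := by
  have hm : MapsTo (fun t : ℝ => a + b - t) (Icc a b) (Icc a b) := by
    intro t ht
    exact ⟨by simp only; linarith [ht.2], by simp only; linarith [ht.1]⟩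
  have hcont : Continuous (fun t : ℝ => a + b - t) := by fun_prop
  refine ⟨h.cont.comp hcont.continuousOn hm, ?_⟩
  intro t ht F hF
  have h1 := h.str (a + b - t) (hm ht) F hF
  have h2 : Tendsto (fun t : ℝ => a + b - t) (𝓝[Icc a b] t) (𝓝[Icc a b] (a + b - t)) :=
    hcont.continuousWithinAt.tendsto_nhdsWithin hm
  filter_upwards [h2.eventually h1] with s hs
  push_cast at hs ⊢
  linear_combination hs

/-- Straightness near the points of a closed interval, for a neighbouring interval as well. -/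
theorem StrA_near {δ : ℝ → X} (h : Φ.Str δ v a b) {t : ℝ} {F : X → ℂ} (hF : Φ.P (δ t) F) :
    ∀ᶠ s in 𝓝[Icc a b] t, F (δ s) - F (δ t) = (s - t : ℝ) * v := by
  by_cases ht : t ∈ Icc a b
  · exact h.str t ht F hF
  · have : 𝓝[Icc a b] t = ⊥ := by
      rw [← notMem_closure_iff_nhdsWithin_eq_bot, isClosed_Icc.closure_eq]
      exact ht
    rw [this]
    exact eventually_bot

theorem StrA_union {δ : ℝ → X} (h : Φ.Str δ v a b) (h' : Φ.Str δ v b c) (hab : a ≤ b)
    (hbc : b ≤ c) : Φ.Str δ v a c := by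
  have hu : Icc a b ∪ Icc b c = Icc a c := Icc_union_Icc_eq_Icc hab hbc
  refine ⟨?_, ?_⟩
  · rw [← hu]
    exact h.cont.union_of_isClosed h'.cont isClosed_Icc isClosed_Icc
  · intro t _ F hF
    rw [← hu, nhdsWithin_union, eventually_sup]
    exact ⟨StrA_near h hF, StrA_near h' hF⟩

theorem Flat.Str.glue (h : Φ.Str γ v a b) (h' : Φ.Str γ' v b c) (e : γ b = γ' b) (hab : a ≤ b)
    (hbc : b ≤ c) : Φ.Str (fun t => if t ≤ b then γ t else γ' t) v a c := by
  refine StrA_union (h.congr fun t ht => if_pos ht.2) (h'.congr fun t ht => ?_) hab hbc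
  rcases ht.1.eq_or_lt with hb | hb
  · subst hb
    simp only [le_refl, if_true]
    exact e
  · simp only [not_le.2 hb, if_false]

end H37abf
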