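import Pool.Agent.H.MP_abf1f1_an.StrA

/-! MP_abf1f1_an, module A: constant straight paths and uniqueness of straight paths. -/

set_option autoImplicit false

open scoped Topology
open Set Filter

namespace H37abf

variable {X : Type} [TopologicalSpace X] {Φ : Flat X} {γ γ' : ℝ → X} {v : ℂ} {a b c : ℝ}

/-- A straight path with velocity zero is constant. -/
theorem Flat.Str.const (h : Φ.Str γ 0 a b) : ∀ t ∈ Icc a b, γ t = γ a := by
  intro t ht
  have hloc : ∀ x ∈ Icc a b, ∀ᶠ y in 𝓝[Icc a b] x, γ x = γ y := by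
    intro x hx
    obtain ⟨F, hF⟩ := Φ.ex (γ x)
    have h1 := h.str x hx F hF
    have h2 := Φ.iso (γ x) F hF
    rw [eventually_nhdsWithin_iff] at h2
    have h3 := (h.cont x hx).eventually h2
    filter_upwards [h1, h3] with s hs1 hs2
    by_contra hne
    have h4 := hs2 (fun h5 => hne h5.symm)
    rw [mul_zero] at hs1
    exact h4.1 (sub_eq_zero.mp hs1)
  exact (isPreconnected_Icc.induction₂ (fun x y => γ x = γ y) hloc
    (fun x y z _ _ _ hxy hyz => hxy.trans hyz) (fun x y _ _ hxy => hxy.symm)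
    (left_mem_Icc.mpr (ht.1.trans ht.2)) ht).symm

/-- Two straight paths with the same start and velocity agree as long as they avoid cone points. -/
theorem Flat.Str.unique [T2Space X] (h : Φ.Str γ v a b) (h' : Φ.Str γ' v a b)
    (hz : ∀ t ∈ Ico a b, γ t ∉ Φ.Z) (e : γ a = γ' a) : ∀ t ∈ Icc a b, γ t = γ' t := by
  have hcl : IsClosed ({t | γ t = γ' t} ∩ Icc a b) := by
    have h1 := (h.cont.prodMk h'.cont).preimage_isClosed_of_isClosed isClosed_Icc
      (isClosed_diagonal (X := X))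
    rw [inter_comm] at h1
    exact h1
  refine hcl.Icc_subset_of_forall_mem_nhdsWithin e ?_
  rintro x ⟨hx, hxI⟩
  have hxI' : x ∈ Icc a b := Ico_subset_Icc_self hxI
  have hq : γ x = γ' x := hx
  obtain ⟨F, hF⟩ := Φ.ex (γ x)
  obtain ⟨ρ, -, E, -, -, hE⟩ := Φ.inv (γ x) (hz x hxI) F hF
  have hF' : Φ.P (γ' x) F := by rw [← hq]; exact hF
  have hE' : ∀ᶠ y in 𝓝 (γ' x), E (F y) = y := by rw [← hq]; exact hE
  have h1 := h.str x hxI' F hF
  have h2 := h'.str x hxI' F hF'
  have h3 := (h.cont x hxI').eventually hE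
  have h4 := (h'.cont x hxI').eventually hE'
  have h5 : ∀ᶠ s in 𝓝[Icc a b] x, γ s = γ' s := by
    filter_upwards [h1, h2, h3, h4] with s hs1 hs2 hs3 hs4
    rw [← hs3, ← hs4]
    congr 1
    have h6 : F (γ s) - F (γ x) = F (γ' s) - F (γ x) := by
      rw [hs1, hq, hs2]
    exact sub_left_inj.mp h6
  exact nhdsWithin_le_of_mem (Icc_mem_nhdsGT_of_mem hxI) h5

end H37abf
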