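import Pool.Agent.H.MP_abf1f1_an.StrA2

/-! MP_abf1f1_an, module A: the relations `Dom` and `See`. All proofs: restrict, glue or
reparametrise the paths (`StrA.lean`), and uniqueness `Flat.Str.unique`. -/

set_option autoImplicit false

open scoped Topology
open Set Filter

namespace H37abf

variable {X : Type} [TopologicalSpace X] {Φ : Flat X} {x y z p : X} {v : ℂ} {s : ℝ}

theorem StrB_first {γ : ℝ → X} (h : Φ.Str γ v 0 1) (h0 : 0 < s) (h1 : s ≤ 1) :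
    Φ.Str (fun t => γ (s * t + 0)) (s * v) 0 1 :=
  (h.mono le_rfl h1).reparam h0 (by ring) (by ring)

theorem StrB_second {γ : ℝ → X} (h : Φ.Str γ v 0 1) (h0 : 0 ≤ s) (h1 : s < 1) :
    Φ.Str (fun t => γ ((1 - s) * t + s)) ((1 - s : ℝ) * v) 0 1 :=
  (h.mono h0 le_rfl).reparam (sub_pos.mpr h1) (by ring) (by ring)

theorem StrB_mem_first (h0 : 0 ≤ s) (h1 : s ≤ 1) {t : ℝ} (ht : t ∈ Icc (0 : ℝ) 1) :
    s * t + 0 ∈ Icc (0 : ℝ) s := by
  refine ⟨?_, ?_⟩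
  · have := mul_nonneg h0 ht.1
    linarith
  · have := mul_le_mul_of_nonneg_left ht.2 h0
    linarith

theorem StrB_mem_second (h0 : 0 ≤ s) (h1 : s ≤ 1) {t : ℝ} (ht : t ∈ Icc (0 : ℝ) 1) :
    (1 - s) * t + s ∈ Icc (0 : ℝ) 1 := by
  have h2 : 0 ≤ 1 - s := by linarith
  refine ⟨?_, ?_⟩
  · have := mul_nonneg h2 ht.1
    linarith
  · have := mul_le_mul_of_nonneg_left ht.2 h2
    linarith

theorem StrB_mem_second' (h0 : 0 ≤ s) (h1 : s < 1) {t : ℝ} (ht : t ∈ Ico (0 : ℝ) 1) :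
    (1 - s) * t + s ∈ Ico (0 : ℝ) 1 := by
  have h2 : 0 < 1 - s := by linarith
  refine ⟨?_, ?_⟩
  · have := mul_nonneg h2.le ht.1
    linarith
  · have := mul_lt_mul_of_pos_left ht.2 h2
    linarith

theorem Flat.Dom.left (h : Φ.Dom x v y) : x ∉ Φ.Z := by
  obtain ⟨γ, _, h0, _, hz⟩ := h
  have := hz 0 ⟨le_rfl, zero_le_one⟩
  rwa [h0] at this

theorem Flat.Dom.right (h : Φ.Dom x v y) : y ∉ Φ.Z := by
  obtain ⟨γ, _, _, h1, hz⟩ := h
  have := hz 1 ⟨zero_le_one, le_rfl⟩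
  rwa [h1] at this

theorem Flat.Dom.join (h : Φ.Dom x v y) : Φ.Join x y v := by
  obtain ⟨γ, h, h0, h1, _⟩ := h
  exact ⟨γ, h, h0, h1⟩

theorem Flat.See.join (h : Φ.See x v p) : Φ.Join x p v := by
  obtain ⟨γ, h, h0, h1, _⟩ := h
  exact ⟨γ, h, h0, h1⟩

theorem Flat.See.left (h : Φ.See x v p) : x ∉ Φ.Z := by
  obtain ⟨γ, _, h0, _, _, hz⟩ := h
  have := hz 0 ⟨le_rfl, zero_lt_one⟩
  rwa [h0] at this

theorem Flat.See.right (h : Φ.See x v p) : p ∈ Φ.Z := by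
  obtain ⟨γ, _, _, _, hp, _⟩ := h
  exact hp

theorem Flat.Dom.refl (hx : x ∉ Φ.Z) : Φ.Dom x 0 x := by
  refine ⟨fun _ => x, ⟨continuousOn_const, ?_⟩, rfl, rfl, fun t _ => hx⟩
  intro t _ F _
  refine Filter.Eventually.of_forall fun s => ?_
  simp

theorem Flat.Dom.symm (h : Φ.Dom x v y) : Φ.Dom y (-v) x := by
  obtain ⟨γ, h, h0, h1, hz⟩ := h
  refine ⟨_, h.rev, ?_, ?_, ?_⟩
  · simp only [zero_add, sub_zero]
    exact h1
  · simp only [zero_add, sub_self]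
    exact h0
  · intro t ht
    simp only [zero_add]
    exact hz (1 - t) ⟨by linarith [ht.2], by linarith [ht.1]⟩

theorem Flat.Dom.unique [T2Space X] (h : Φ.Dom x v y) (h' : Φ.Dom x v z) : y = z := by
  obtain ⟨γ, h, h0, h1, hz⟩ := h
  obtain ⟨γ', h', h0', h1', _⟩ := h'
  have := h.unique h' (fun t ht => hz t ⟨ht.1, ht.2.le⟩) (h0.trans h0'.symm) 1
    ⟨zero_le_one, le_rfl⟩
  rw [← h1, ← h1', this]

theorem Flat.See.unique [T2Space X] {q : X} (h : Φ.See x v p) (h' : Φ.See x v q) : p = q := by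
  obtain ⟨γ, h, h0, h1, _, hz⟩ := h
  obtain ⟨γ', h', h0', h1', _⟩ := h'
  have := h.unique h' hz (h0.trans h0'.symm) 1 ⟨zero_le_one, le_rfl⟩
  rw [← h1, ← h1', this]

theorem Flat.Dom.not_see [T2Space X] (h : Φ.Dom x v y) : ¬ Φ.See x v p := by
  intro h'
  obtain ⟨γ, h, h0, _, hz⟩ := h
  obtain ⟨γ', h', h0', h1', hp, _⟩ := h'
  have := h.unique h' (fun t ht => hz t ⟨ht.1, ht.2.le⟩) (h0.trans h0'.symm) 1
    ⟨zero_le_one, le_rfl⟩
  refine hz 1 ⟨zero_le_one, le_rfl⟩ ?_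
  rw [this, h1']
  exact hp

theorem Flat.See.ne_zero (h : Φ.See x v p) : v ≠ 0 := by
  rintro rfl
  obtain ⟨γ, h, h0, h1, hp, hz⟩ := h
  have := h.const 1 ⟨zero_le_one, le_rfl⟩
  refine hz 0 ⟨le_rfl, zero_lt_one⟩ ?_
  rw [← this, h1]
  exact hp

/-- Points on the path. -/
theorem Flat.Dom.part (h : Φ.Dom x v y) (h0 : 0 ≤ s) (h1 : s ≤ 1) :
    ∃ z, Φ.Dom x (s * v) z ∧ Φ.Dom z ((1 - s : ℝ) * v) y := by
  rcases h0.eq_or_lt with hs | hs
  · subst hs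
    refine ⟨x, ?_, ?_⟩
    · have := Flat.Dom.refl h.left
      simpa using this
    · simpa using h
  rcases h1.eq_or_lt with hs1 | hs1
  · subst hs1
    refine ⟨y, ?_, ?_⟩
    · simpa using h
    · have := Flat.Dom.refl h.right
      simpa using this
  obtain ⟨γ, h, e0, e1, hz⟩ := h
  refine ⟨γ s, ⟨_, StrB_first h hs h1, ?_, ?_, ?_⟩, ⟨_, StrB_second h h0 hs1, ?_, ?_, ?_⟩⟩
  · simp only [mul_zero, add_zero]
    exact e0
  · simp only [mul_one, add_zero]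
  · intro t ht
    have := StrB_mem_first h0 h1 ht
    exact hz _ ⟨this.1, this.2.trans h1⟩
  · simp only [mul_zero, zero_add]
  · simp only [mul_one, sub_add_cancel]
    exact e1
  · intro t ht
    exact hz _ (StrB_mem_second h0 h1 ht)

theorem Flat.See.part (h : Φ.See x v p) (h0 : 0 ≤ s) (h1 : s < 1) :
    ∃ z, Φ.Dom x (s * v) z ∧ Φ.See z ((1 - s : ℝ) * v) p := by
  rcases h0.eq_or_lt with hs | hs
  · subst hs
    refine ⟨x, ?_, ?_⟩
    · have := Flat.Dom.refl h.left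
      simpa using this
    · simpa using h
  obtain ⟨γ, h, e0, e1, hp, hz⟩ := h
  refine ⟨γ s, ⟨_, StrB_first h hs h1.le, ?_, ?_, ?_⟩, ⟨_, StrB_second h h0 h1, ?_, ?_, hp, ?_⟩⟩
  · simp only [mul_zero, add_zero]
    exact e0
  · simp only [mul_one, add_zero]
  · intro t ht
    have := StrB_mem_first h0 h1.le ht
    exact hz _ ⟨this.1, this.2.trans_lt h1⟩
  · simp only [mul_zero, zero_add]
  · simp only [mul_one, sub_add_cancel]
    exact e1
  · intro t ht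
    exact hz _ (StrB_mem_second' h0 h1 ht)

end H37abf
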