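import Pool.Agent.H.MP_abf1f1_an.StrB

/-! MP_abf1f1_an, module A: the relations `Dom` and `See`. All proofs: restrict, glue or
reparametrise the paths (`StrA.lean`), and uniqueness `Flat.Str.unique`. -/

set_option autoImplicit false

open scoped Topology
open Set Filter

namespace H37abf

variable {X : Type} [TopologicalSpace X] {Φ : Flat X} {x y z p : X} {v : ℂ} {s : ℝ}

/-- Two straight paths in the same direction, one after the other. -/
theorem StrB2_glue {γ₁ γ₂ : ℝ → X} (h₁ : Φ.Str γ₁ (s * v) 0 1)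
    (h₂ : Φ.Str γ₂ ((1 - s : ℝ) * v) 0 1) (e : γ₁ 1 = γ₂ 0) (h0 : 0 < s) (h1 : s < 1) :
    ∃ γ : ℝ → X, Φ.Str γ v 0 1 ∧ γ 0 = γ₁ 0 ∧ γ 1 = γ₂ 1 ∧
      ∀ t ∈ Icc (0 : ℝ) 1, (∃ u ∈ Icc (0 : ℝ) 1, γ t = γ₁ u) ∨
        ∃ u ∈ Icc (0 : ℝ) 1, γ t = γ₂ u ∧ (t < 1 → u < 1) := by
  have hs : s ≠ 0 := h0.ne'
  have hs1 : (0 : ℝ) < 1 - s := by linarith
  have hs1' : (1 : ℝ) - s ≠ 0 := hs1.ne'
  have A := h₁.reparam (k := s⁻¹) (d := 0) (a' := 0) (b' := s) (inv_pos.2 h0) (by ring)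
    (by rw [inv_mul_cancel₀ hs, add_zero])
  have B := h₂.reparam (k := (1 - s)⁻¹) (d := -(s * (1 - s)⁻¹)) (a' := s) (b' := 1)
    (inv_pos.2 hs1) (by ring) (by field_simp; ring)
  have eA : ((s⁻¹ : ℝ) : ℂ) * (s * v) = v := by
    rw [← mul_assoc, ← Complex.ofReal_mul, inv_mul_cancel₀ hs, Complex.ofReal_one, one_mul]
  have eB : (((1 - s)⁻¹ : ℝ) : ℂ) * ((1 - s : ℝ) * v) = v := by
    rw [← mul_assoc, ← Complex.ofReal_mul, inv_mul_cancel₀ hs1', Complex.ofReal_one, one_mul]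
  rw [eA] at A
  rw [eB] at B
  have e1 : s⁻¹ * s + 0 = 1 := by rw [inv_mul_cancel₀ hs, add_zero]
  have e2 : (1 - s)⁻¹ * s + -(s * (1 - s)⁻¹) = 0 := by ring
  have e3 : (1 - s)⁻¹ * 1 + -(s * (1 - s)⁻¹) = 1 := by field_simp; ring
  refine ⟨_, A.glue B (by rw [e1, e2]; exact e) h0.le h1.le, ?_, ?_, ?_⟩
  · rw [if_pos h0.le, mul_zero, add_zero]
  · rw [if_neg (not_le.2 h1), e3]
  · intro t ht
    by_cases hts : t ≤ s
    · left
      refine ⟨s⁻¹ * t + 0, ⟨?_, ?_⟩, by rw [if_pos hts]⟩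
      · have := inv_pos.2 h0
        have := mul_nonneg this.le ht.1
        linarith
      · rw [add_zero, inv_mul_le_iff₀ h0]
        linarith
    · right
      push Not at hts
      have e4 : (1 - s)⁻¹ * t + -(s * (1 - s)⁻¹) = (1 - s)⁻¹ * (t - s) := by ring
      refine ⟨(1 - s)⁻¹ * t + -(s * (1 - s)⁻¹), ⟨?_, ?_⟩, by rw [if_neg (not_le.2 hts)], ?_⟩
      · rw [e4]
        exact mul_nonneg (inv_pos.2 hs1).le (by linarith)
      · rw [e4, inv_mul_le_iff₀ hs1]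
        linarith [ht.2]
      · intro ht1
        rw [e4, inv_mul_lt_iff₀ hs1]
        linarith

/-- Concatenation of paths in the same direction. -/
theorem Flat.Dom.trans (h : Φ.Dom x (s * v) y) (h' : Φ.Dom y ((1 - s : ℝ) * v) z) (h0 : 0 ≤ s)
    (h1 : s ≤ 1) : Φ.Dom x v z := by
  rcases h0.eq_or_lt with rfl | h0
  · obtain ⟨γ, hγ, e0, e1, -⟩ := h
    rw [Complex.ofReal_zero, zero_mul] at hγ
    have := hγ.const 1 (right_mem_Icc.2 zero_le_one)
    rw [e0, e1] at this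
    rw [this] at h'
    simpa using h'
  rcases h1.eq_or_lt with rfl | h1
  · obtain ⟨γ, hγ, e0, e1, -⟩ := h'
    rw [sub_self, Complex.ofReal_zero, zero_mul] at hγ
    have := hγ.const 1 (right_mem_Icc.2 zero_le_one)
    rw [e0, e1] at this
    rw [← this] at h
    simpa using h
  obtain ⟨γ₁, g1, e0, e1, n1⟩ := h
  obtain ⟨γ₂, g2, f0, f1, n2⟩ := h'
  obtain ⟨γ, g, a0, a1, hu⟩ := StrB2_glue g1 g2 (e1.trans f0.symm) h0 h1
  refine ⟨γ, g, a0.trans e0, a1.trans f1, fun t ht => ?_⟩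
  rcases hu t ht with ⟨u, hu, e⟩ | ⟨u, hu, e, -⟩
  · rw [e]
    exact n1 u hu
  · rw [e]
    exact n2 u hu

/-- A path followed by a path to a visible cone point. -/
theorem Flat.Dom.trans_see (h : Φ.Dom x (s * v) y) (h' : Φ.See y ((1 - s : ℝ) * v) p)
    (h0 : 0 ≤ s) (h1 : s < 1) : Φ.See x v p := by
  rcases h0.eq_or_lt with rfl | h0
  · obtain ⟨γ, hγ, e0, e1, -⟩ := h
    rw [Complex.ofReal_zero, zero_mul] at hγ
    have := hγ.const 1 (right_mem_Icc.2 zero_le_one)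
    rw [e0, e1] at this
    rw [this] at h'
    simpa using h'
  obtain ⟨γ₁, g1, e0, e1, n1⟩ := h
  obtain ⟨γ₂, g2, f0, f1, hp, n2⟩ := h'
  obtain ⟨γ, g, a0, a1, hu⟩ := StrB2_glue g1 g2 (e1.trans f0.symm) h0 h1
  refine ⟨γ, g, a0.trans e0, a1.trans f1, hp, fun t ht => ?_⟩
  rcases hu t ⟨ht.1, ht.2.le⟩ with ⟨u, hu, e⟩ | ⟨u, hu, e, hlt⟩
  · rw [e]
    exact n1 u hu
  · rw [e]
    exact n2 u ⟨hu.1, hlt ht.2⟩

/-- Visible cone points hide what is behind them and are not hidden. -/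
theorem Flat.See.not_dom [T2Space X] (h : Φ.See x (s * v) p) (h0 : 0 < s) (h1 : s ≤ 1) :
    ¬ Φ.Dom x v y := by
  intro hd
  obtain ⟨z, hz, -⟩ := hd.part h0.le h1
  exact hz.not_see h

/-- A visible cone point is not hidden by another one. -/
theorem Flat.See.not_see [T2Space X] {q : X} (h : Φ.See x v p) (h0 : 0 < s) (h1 : s < 1) :
    ¬ Φ.See x (s * v) q := by
  intro hs
  obtain ⟨z, hz, -⟩ := h.part h0.le h1
  exact hz.not_see hs

/-- A straight path from a regular point to a cone point, the cone points inside being excluded, in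
the other direction: the holonomy of a saddle connection decomposes at an interior point. -/
theorem Flat.saddle_part {γ : ℝ → X} (h : Φ.Str γ v 0 1) (h1 : γ 1 ∈ Φ.Z)
    (hi : ∀ t ∈ Ioo (0 : ℝ) 1, γ t ∉ Φ.Z) {t : ℝ} (ht : t ∈ Ioo (0 : ℝ) 1) :
    Φ.See (γ t) ((1 - t : ℝ) * v) (γ 1) := by
  have hk : (0 : ℝ) < 1 - t := by linarith [ht.2]
  have A := (h.mono ht.1.le le_rfl).reparam (k := 1 - t) (d := t) (a' := 0) (b' := 1) hk
    (by ring) (by ring)
  refine ⟨_, A, by rw [mul_zero, zero_add], by rw [mul_one, sub_add_cancel], h1, fun u hu => ?_⟩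
  refine hi _ ⟨?_, ?_⟩
  · have := mul_nonneg hk.le hu.1
    linarith [ht.1]
  · have := mul_lt_mul_of_pos_left hu.2 hk
    linarith

end H37abf
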