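import Pool.Agent.H.MP_abf1f1_an.StrB2

/-! MP_abf1f1_an, module A: short straight paths stay in small neighbourhoods. -/

set_option autoImplicit false

open scoped Topology
open Set Filter

namespace H37abf

variable {X : Type} [TopologicalSpace X]

/-- A compact neighbourhood `K` of `x` with a primitive `F`, and a neighbourhood `V` such that straight
paths of length less than `δ` starting in `V` stay in `K`. -/
structure Flat.Trap (Φ : Flat X) (x : X) where
  K : Set X
  V : Set X
  F : X → ℂ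
  δ : ℝ
  δpos : 0 < δ
  hK : IsCompact K
  hV : V ∈ 𝓝 x
  hVK : V ⊆ K
  prim : ∀ y ∈ K, Φ.P y F
  iso : ∀ y ∈ K, y ≠ x → F y ≠ F x ∧ y ∉ Φ.Z
  trap : ∀ (γ : ℝ → X) (v : ℂ) (a b : ℝ), a ≤ b → Φ.Str γ v a b → γ a ∈ V → ‖v‖ * (b - a) < δ →
    ∀ t ∈ Icc a b, γ t ∈ K ∧ F (γ t) - F (γ a) = (t - a : ℝ) * v

/-- PROOF. Let `F` be a primitive at `x` and `N` the neighbourhood of the `y` with `P y F`, continuity of
`F` at `y`, and `y ≠ x → F y ≠ F x ∧ y ∉ Z` (`Φ.ev`, `Φ.iso`). Choose a compact neighbourhood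
`K ⊆ N ∩ W` of `x`. On the compact set `frontier K` (it does not contain `x`, which is interior)
`|F y - F x|` is continuous and positive: `≥ 2 δ`. Let `V = {y ∈ interior K | |F y - F x| < δ}`.
Let `γ` start in `V`, and let `t₁` be the first `t` with `γ t ∉ interior K` (the set of such `t ∈ Icc a b`
is closed), if there is one. Then `γ t ∈ K` for `t ≤ t₁`, `γ t₁ ∈ frontier K`, and by `Str.affine` on
`Icc a t₁`: `|F (γ t₁) - F x| ≤ |t₁ - a| |v| + |F (γ a) - F x| < 2 δ`, a contradiction. -/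
theorem Flat.exists_trap [T2Space X] [LocallyCompactSpace X] (Φ : Flat X) (x : X) {W : Set X}
    (hW : W ∈ 𝓝 x) : ∃ T : Φ.Trap x, T.K ⊆ W := by
  obtain ⟨F, hF⟩ := Φ.ex x
  have hev := Φ.ev x F hF
  have hiso := eventually_nhdsWithin_iff.mp (Φ.iso x F hF)
  have hN : {y | (Φ.P y F ∧ ContinuousAt F y) ∧ (y ≠ x → F y ≠ F x ∧ y ∉ Φ.Z) ∧ y ∈ W} ∈ 𝓝 x := by
    filter_upwards [hev, hiso, hW] with y h1 h2 h3
    exact ⟨h1, fun h => h2 h, h3⟩
  obtain ⟨K, hKx, hKN, hKc⟩ := local_compact_nhds hN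
  have hKcl : IsClosed K := hKc.isClosed
  have hfr : IsCompact (frontier K) := hKc.of_isClosed_subset isClosed_frontier hKcl.frontier_subset
  have hxint : x ∈ interior K := mem_interior_iff_mem_nhds.mpr hKx
  have hcont : ContinuousOn (fun y => ‖F y - F x‖) (frontier K) := by
    intro y hy
    have h1 : ContinuousAt F y := (hKN (hKcl.frontier_subset hy)).1.2
    exact ((h1.sub continuousAt_const).norm).continuousWithinAt
  have hpos : ∀ y ∈ frontier K, (0 : ℝ) < ‖F y - F x‖ := by
    intro y hy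
    have hne : y ≠ x := by
      rintro rfl
      exact hy.2 hxint
    have h1 := ((hKN (hKcl.frontier_subset hy)).2.1 hne).1
    exact norm_pos_iff.mpr (sub_ne_zero.mpr h1)
  obtain ⟨m, hm0, hm⟩ := hfr.exists_forall_le' hcont hpos
  have hcx : ContinuousAt F x := hev.self_of_nhds.2
  have hVx : {y | y ∈ interior K ∧ ‖F y - F x‖ < m / 2} ∈ 𝓝 x := by
    have h1 : ∀ᶠ y in 𝓝 x, ‖F y - F x‖ < m / 2 := by
      have h2 : ContinuousAt (fun y => ‖F y - F x‖) x := (hcx.sub continuousAt_const).norm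
      apply h2.eventually_lt_const
      simpa using half_pos hm0
    filter_upwards [interior_mem_nhds.mpr hKx, h1] with y h3 h4
    exact ⟨h3, h4⟩
  refine ⟨{ K := K
            V := {y | y ∈ interior K ∧ ‖F y - F x‖ < m / 2}
            F := F
            δ := m / 2
            δpos := half_pos hm0
            hK := hKc
            hV := hVx
            hVK := fun y hy => interior_subset hy.1
            prim := fun y hy => (hKN hy).1.1
            iso := fun y hy hne => (hKN hy).2.1 hne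
            trap := ?_ }, fun y hy => (hKN hy).2.2⟩
  intro γ v a b hab hstr ha hlen
  have hint : ∀ t ∈ Icc a b, γ t ∈ interior K := by
    by_contra hcon
    push Not at hcon
    have hScl : IsClosed (Icc a b ∩ γ ⁻¹' (interior K)ᶜ) :=
      hstr.cont.preimage_isClosed_of_isClosed isClosed_Icc isOpen_interior.isClosed_compl
    have hSc : IsCompact (Icc a b ∩ γ ⁻¹' (interior K)ᶜ) :=
      isCompact_Icc.of_isClosed_subset hScl inter_subset_left
    have hSne : (Icc a b ∩ γ ⁻¹' (interior K)ᶜ).Nonempty := by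
      obtain ⟨t, ht, h1⟩ := hcon
      exact ⟨t, ht, h1⟩
    obtain ⟨t₁, ht₁, hmin⟩ := hSc.exists_isLeast hSne
    have hlt : ∀ t ∈ Icc a b, t < t₁ → γ t ∈ interior K := by
      intro t ht htt
      by_contra h1
      exact absurd (hmin ⟨ht, h1⟩) (not_le.mpr htt)
    have hat : a < t₁ := by
      rcases eq_or_lt_of_le ht₁.1.1 with h1 | h1
      · exfalso
        apply ht₁.2
        rw [← h1]
        exact ha.1
      · exact h1
    have hKcl2 : IsClosed (Icc a b ∩ γ ⁻¹' K) :=
      hstr.cont.preimage_isClosed_of_isClosed isClosed_Icc hKcl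
    have hsub : closure (Ico a t₁) ⊆ Icc a b ∩ γ ⁻¹' K := by
      apply hKcl2.closure_subset_iff.mpr
      intro t ht
      have h1 : t ∈ Icc a b := ⟨ht.1, ht.2.le.trans ht₁.1.2⟩
      exact ⟨h1, show γ t ∈ K from interior_subset (hlt t h1 ht.2)⟩
    rw [closure_Ico hat.ne] at hsub
    have hK1 : γ t₁ ∈ K := (hsub ⟨hat.le, le_rfl⟩).2
    have hfr1 : γ t₁ ∈ frontier K := by
      rw [hKcl.frontier_eq]
      exact ⟨hK1, ht₁.2⟩
    have haff := (hstr.mono le_rfl ht₁.1.2).affine (F := F)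
      (fun t ht => (hKN (hsub ht).2).1.1) t₁ ⟨hat.le, le_rfl⟩ a ⟨le_rfl, hat.le⟩
    have h2 : ‖F (γ t₁) - F x‖ < m := by
      have h3 : F (γ t₁) - F x = (F (γ t₁) - F (γ a)) + (F (γ a) - F x) := by ring
      have h4 : ‖F (γ t₁) - F (γ a)‖ ≤ ‖v‖ * (b - a) := by
        rw [haff, norm_mul, Complex.norm_real, Real.norm_of_nonneg (by linarith), mul_comm]
        exact mul_le_mul_of_nonneg_left (by linarith [ht₁.1.2]) (norm_nonneg v)
      calc ‖F (γ t₁) - F x‖ ≤ ‖F (γ t₁) - F (γ a)‖ + ‖F (γ a) - F x‖ := by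
            rw [h3]; exact norm_add_le _ _
        _ < m / 2 + m / 2 := by linarith [ha.2]
        _ = m := by ring
    exact absurd (hm _ hfr1) (not_le.mpr h2)
  intro t ht
  refine ⟨interior_subset (hint t ht), ?_⟩
  exact hstr.affine (F := F) (fun s hs => (hKN (interior_subset (hint s hs))).1.1) t ht a
    ⟨le_rfl, hab⟩

end H37abf
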